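import Mathlib

/-!
# ALD block B3, KSplit: functions of two variables of finite rank (Mathlib only)
-/

set_option autoImplicit false

namespace Pool.Agent.ALD

open Finset

noncomputable section

/-- a functional which is a combination of evaluations and is dual to a linearly independent family -/
theorem exists_point_functional {X : Type} {r : ℕ} {A : Fin r → X → ℂ} (hA : LinearIndependent ℂ A)
    (j0 : Fin r) : ∃ (n : ℕ) (x : Fin n → X) (p : Fin n → ℂ),
      ∀ j, ∑ k, p k * A j (x k) = if j = j0 then 1 else 0 := by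
  classical
  set S : Submodule ℂ (Fin r → ℂ) := Submodule.span ℂ (Set.range fun (x : X) (j : Fin r) => A j x)
    with hS
  have htop : S = ⊤ := by
    by_contra hne
    obtain ⟨f, hf0, hf⟩ := Submodule.exists_le_ker_of_lt_top S (lt_top_iff_ne_top.2 hne)
    apply hf0
    have hc : ∀ j, f (Pi.single j 1) = 0 := by
      have hsum : ∑ j, f (Pi.single j 1) • A j = 0 := by
        funext x
        rw [Finset.sum_apply]
        have h1 : f (fun j => A j x) = 0 := by
          have : (fun j => A j x) ∈ S := Submodule.subset_span ⟨x, rfl⟩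
          exact LinearMap.mem_ker.1 (hf this)
        have h2 : (fun j => A j x) = ∑ j, A j x • (Pi.single j 1 : Fin r → ℂ) := by
          funext i
          simp [Finset.sum_apply, Pi.single_apply]
        rw [h2, map_sum] at h1
        simp only [map_smul, smul_eq_mul, Pi.smul_apply, Pi.zero_apply] at h1 ⊢
        rw [← h1]
        exact Finset.sum_congr rfl fun j _ => mul_comm _ _
      intro j
      exact Fintype.linearIndependent_iff.1 hA _ hsum j
    apply LinearMap.pi_ext
    intro i c
    have h3 : (Pi.single i c : Fin r → ℂ) = c • Pi.single i 1 := by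
      rw [← Pi.single_smul, smul_eq_mul, mul_one]
    rw [h3, map_smul, hc, smul_zero, LinearMap.zero_apply]
  have hmem : (Pi.single j0 1 : Fin r → ℂ) ∈ S := by
    rw [htop]
    trivial
  rw [hS] at hmem
  obtain ⟨c, hc⟩ := (Finsupp.mem_span_range_iff_exists_finsupp).1 hmem
  refine ⟨c.support.card, fun k => (c.support.equivFin.symm k : X),
    fun k => c (c.support.equivFin.symm k : X), fun j => ?_⟩
  have h4 := congrFun hc j
  rw [Finsupp.sum, Finset.sum_apply] at h4
  simp only [Pi.smul_apply, smul_eq_mul] at h4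
  rw [Pi.single_apply] at h4
  rw [← h4, ← Finset.sum_coe_sort c.support (fun x => c x * A j x)]
  exact Equiv.sum_comp c.support.equivFin.symm (fun x : c.support => c (x : X) * A j (x : X))

theorem exists_split {X Y : Type} (F : X → Y → ℂ) (W : Submodule ℂ (X → ℂ)) [FiniteDimensional ℂ W]
    (h : ∀ y, (fun x => F x y) ∈ W) :
    ∃ (r : ℕ) (A : Fin r → X → ℂ) (B : Fin r → Y → ℂ), LinearIndependent ℂ A ∧
      LinearIndependent ℂ B ∧ (∀ x y, F x y = ∑ j, A j x * B j y) ∧
      (∀ j, A j ∈ Submodule.span ℂ (Set.range fun y x => F x y)) ∧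
      ∀ j, B j ∈ Submodule.span ℂ (Set.range fun x y => F x y) := by
  classical
  set U : Submodule ℂ (X → ℂ) := Submodule.span ℂ (Set.range fun y x => F x y) with hU
  have hUW : U ≤ W := by
    rw [hU, Submodule.span_le]
    rintro _ ⟨y, rfl⟩
    exact h y
  have : FiniteDimensional ℂ U := Submodule.finiteDimensional_of_le hUW
  set b := Module.finBasis ℂ U with hb
  have hg : ∀ y, (fun x => F x y) ∈ U := fun y => Submodule.subset_span ⟨y, rfl⟩
  have hA : LinearIndependent ℂ (fun j => (b j : X → ℂ)) :=
    b.linearIndependent.map' U.subtype (Submodule.ker_subtype U)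
  have hF : ∀ x y, F x y = ∑ j, (b j : X → ℂ) x * b.repr ⟨fun x => F x y, hg y⟩ j := by
    intro x y
    have h1 := b.sum_repr ⟨fun x => F x y, hg y⟩
    have h2 := congrFun (congrArg (Subtype.val) h1) x
    rw [← show (⟨fun x => F x y, hg y⟩ : U).val x = F x y from rfl, ← h2]
    rw [AddSubmonoidClass.coe_finsetSum, Finset.sum_apply]
    refine Finset.sum_congr rfl fun j _ => ?_
    rw [Submodule.coe_smul, Pi.smul_apply, smul_eq_mul, mul_comm]
  refine ⟨Module.finrank ℂ U, fun j => (b j : X → ℂ), fun j y => b.repr ⟨fun x => F x y, hg y⟩ j,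
    hA, ?_, hF, fun j => (b j).2, fun j0 => ?_⟩
  · rw [Fintype.linearIndependent_iff]
    intro c hc
    set g : U →ₗ[ℂ] ℂ := ∑ j, c j • b.coord j with hgd
    have hg0 : ∀ u : X → ℂ, ∀ hu : u ∈ U, g ⟨u, hu⟩ = 0 := by
      intro u hu
      induction hu using Submodule.span_induction with
      | mem u hu' =>
        obtain ⟨y, rfl⟩ := hu'
        have h3 := congrFun hc y
        rw [Finset.sum_apply] at h3
        simp only [Pi.smul_apply, smul_eq_mul, Pi.zero_apply] at h3
        rw [hgd, LinearMap.sum_apply]
        simp only [LinearMap.smul_apply, Module.Basis.coord_apply, smul_eq_mul]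
        exact h3
      | zero => exact map_zero g
      | add u v hu hv h1 h2 =>
        have : (⟨u + v, Submodule.add_mem _ hu hv⟩ : U) = ⟨u, hu⟩ + ⟨v, hv⟩ := rfl
        rw [this, map_add, h1, h2, add_zero]
      | smul a u hu h1 =>
        have : (⟨a • u, Submodule.smul_mem _ a hu⟩ : U) = a • ⟨u, hu⟩ := rfl
        rw [this, map_smul, h1, smul_zero]
    intro i
    have h4 := hg0 (b i : X → ℂ) (b i).2
    have h5 : (⟨(b i : X → ℂ), (b i).2⟩ : U) = b i := rfl
    rw [h5, hgd, LinearMap.sum_apply] at h4
    simp only [LinearMap.smul_apply, Module.Basis.coord_apply, Module.Basis.repr_self, smul_eq_mul,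
      Finsupp.single_apply] at h4
    simpa using h4
  · obtain ⟨n, x, p, hp⟩ := exists_point_functional hA j0
    have h6 : (fun y => b.repr ⟨fun x => F x y, hg y⟩ j0) = ∑ k, p k • (fun y => F (x k) y) := by
      funext y
      rw [Finset.sum_apply]
      simp only [Pi.smul_apply, smul_eq_mul]
      have h7 : ∀ k, p k * F (x k) y =
          ∑ j, p k * (b j : X → ℂ) (x k) * b.repr ⟨fun x => F x y, hg y⟩ j := by
        intro k
        rw [hF (x k) y, Finset.mul_sum]
        exact Finset.sum_congr rfl fun j _ => (mul_assoc _ _ _).symm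
      simp_rw [h7]
      rw [Finset.sum_comm]
      simp_rw [← Finset.sum_mul, hp]
      simp
    change (fun y => b.repr ⟨fun x => F x y, hg y⟩ j0) ∈ _
    rw [h6]
    exact Submodule.sum_mem _ fun k _ => Submodule.smul_mem _ _ (Submodule.subset_span ⟨x k, rfl⟩)

end

end Pool.Agent.ALD
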