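import Pool.Agent.ALD.FDim
import Pool.Agent.ALD.KSplit

/-!
# ALD block B1, B1Dec: `f(x+y) g(x-y) = ∑ U_j(x) V_j(y)` with theta functions `U_j`, `V_j`
-/

set_option autoImplicit false
set_option linter.unusedSectionVars false

namespace Pool.Agent.ALD

open Finset Complex ComplexConjugate

noncomputable section

variable {ι : Type} [Fintype ι] [DecidableEq ι] {J : Type} [Fintype J]

private theorem gxy_me (a : ι → ℝ) (x y l : ι → ℂ) :
    me a (x + y) l + me a (x - y) (-l) = me (fun i => 2 * a i) y l := by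
  unfold me
  rw [← Finset.sum_add_distrib]
  refine Finset.sum_congr rfl fun i _ => ?_
  rw [Pi.add_apply, Pi.sub_apply, Pi.neg_apply, map_neg, norm_neg]
  push_cast
  ring

theorem gxy {Λ : AddSubgroup (ι → ℂ)} {A : ι → ℝ} {χ χ' : (ι → ℂ) → ℂ} {f g : (ι → ℂ) → ℂ}
    (hf : Vf Λ A χ f) (hg : Vf Λ A χ' g) (x : ι → ℂ) :
    Vf Λ (fun i => 2 * A i) (fun l => χ l * χ' (-l)) (fun y => f (x + y) * g (x - y)) := by
  refine ⟨(hf.1.comp (differentiable_id.const_add x)).mul
    (hg.1.comp (differentiable_id.const_sub x)), fun l hl y => ?_⟩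
  have e1 : x + (y + l) = (x + y) + l := by abel
  have e2 : x - (y + l) = (x - y) + (-l) := by abel
  have h3 : cexp (me (fun i => 2 * A i) y l) = cexp (me A (x + y) l) * cexp (me A (x - y) (-l)) := by
    rw [← Complex.exp_add, gxy_me]
  simp only [e1, e2]
  rw [hf.2 l hl, hg.2 (-l) (Λ.neg_mem hl), h3]
  ring

theorem exists_dec (b : Module.Basis J ℝ (ι → ℂ)) {A : ι → ℝ} {χ χ' : (ι → ℂ) → ℂ}
    {f g : (ι → ℂ) → ℂ} (hf : Vf (AddSubgroup.closure (Set.range b)) A χ f)
    (hg : Vf (AddSubgroup.closure (Set.range b)) A χ' g) :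
    ∃ (r : ℕ) (U V : Fin r → (ι → ℂ) → ℂ), LinearIndependent ℂ U ∧ LinearIndependent ℂ V ∧
      (∀ j, Vf (AddSubgroup.closure (Set.range b)) (fun i => 2 * A i) (fun l => χ l * χ' l) (U j)) ∧
      (∀ j, Vf (AddSubgroup.closure (Set.range b)) (fun i => 2 * A i) (fun l => χ l * χ' (-l)) (V j)) ∧
      ∀ x y, f (x + y) * g (x - y) = ∑ j, U j x * V j y := by
  set Λ := AddSubgroup.closure (Set.range b) with hΛ
  have hfin : FiniteDimensional ℂ (VfSub Λ (fun i => 2 * A i) (fun l => χ l * χ' l)) :=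
    vf_finDim b _ _
  obtain ⟨r, U, V, hU, hV, he, hUs, hVs⟩ := exists_split (fun x y => f (x + y) * g (x - y))
    (VfSub Λ (fun i => 2 * A i) (fun l => χ l * χ' l)) fun y => vf_mul_shift hf hg y
  refine ⟨r, U, V, hU, hV, fun j => ?_, fun j => ?_, he⟩
  · have h1 : Submodule.span ℂ (Set.range fun y x => f (x + y) * g (x - y)) ≤
        VfSub Λ (fun i => 2 * A i) (fun l => χ l * χ' l) := by
      rw [Submodule.span_le]
      rintro _ ⟨y, rfl⟩
      exact vf_mul_shift hf hg y
    exact h1 (hUs j)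
  · have h1 : Submodule.span ℂ (Set.range fun x y => f (x + y) * g (x - y)) ≤
        VfSub Λ (fun i => 2 * A i) (fun l => χ l * χ' (-l)) := by
      rw [Submodule.span_le]
      rintro _ ⟨x, rfl⟩
      exact gxy hf hg x
    exact h1 (hVs j)

end

end Pool.Agent.ALD
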