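import Pool.Agent.ALD.VDefs

/-!
# Project ALD, block B2b: calculus of `dif` and of the Euler operator

`(τ_k - 1)(τ_l - 1)(E_c f) = ∑ c_s a_s (l_s conj k_s + conj l_s k_s) f` for `f ∈ Vf Λ a χ`.
-/

set_option autoImplicit false
set_option linter.unusedSectionVars false

namespace Pool.Agent.ALD.B2

open Finset Complex ComplexConjugate

noncomputable section

variable {ι : Type} [Fintype ι] [DecidableEq ι]

theorem me_add_left (a : ι → ℝ) (z w l : ι → ℂ) : me a (z + w) l = me a z l + aa a w l := by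
  unfold me aa
  rw [← Finset.sum_add_distrib]
  refine Finset.sum_congr rfl fun i _ => ?_
  rw [Pi.add_apply]; ring

theorem aa_add_left (a : ι → ℝ) (x y u : ι → ℂ) : aa a (x + y) u = aa a x u + aa a y u := by
  unfold aa
  rw [← Finset.sum_add_distrib]
  refine Finset.sum_congr rfl fun i _ => ?_
  rw [Pi.add_apply]; ring

theorem aa_add_right (a : ι → ℝ) (x y u : ι → ℂ) : aa a u (x + y) = aa a u x + aa a u y := by
  unfold aa
  rw [← Finset.sum_add_distrib]
  refine Finset.sum_congr rfl fun i _ => ?_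
  rw [Pi.add_apply, map_add]; ring

theorem me_eq (a : ι → ℝ) (z l : ι → ℂ) : me a z l = aa a z l + aa a l l / 2 := by
  unfold me aa
  rw [Finset.sum_div, ← Finset.sum_add_distrib]
  refine Finset.sum_congr rfl fun i _ => ?_
  have : (((‖l i‖ ^ 2 / 2 : ℝ)) : ℂ) = l i * conj (l i) / 2 := by
    rw [Complex.mul_conj, Complex.normSq_eq_norm_sq]; push_cast; ring
  rw [this]; ring

theorem aa_smul (a : ι → ℝ) (m : ℝ) (z l : ι → ℂ) : aa (fun i => m * a i) z l = m * aa a z l := by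
  unfold aa
  rw [Finset.mul_sum]
  refine Finset.sum_congr rfl fun i _ => ?_
  push_cast; ring

theorem me_smul (a : ι → ℝ) (m : ℝ) (z l : ι → ℂ) : me (fun i => m * a i) z l = m * me a z l := by
  rw [me_eq, me_eq, aa_smul, aa_smul]; ring

theorem dif_add (a : ι → ℝ) (χ : (ι → ℂ) → ℂ) (l : ι → ℂ) (f g : (ι → ℂ) → ℂ) :
    dif a χ l (fun z => f z + g z) = fun z => dif a χ l f z + dif a χ l g z := by
  funext z; unfold dif tr; ring

theorem dif_sub (a : ι → ℝ) (χ : (ι → ℂ) → ℂ) (l : ι → ℂ) (f g : (ι → ℂ) → ℂ) :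
    dif a χ l (fun z => f z - g z) = fun z => dif a χ l f z - dif a χ l g z := by
  funext z; unfold dif tr; ring

theorem dif_const_mul (a : ι → ℝ) (χ : (ι → ℂ) → ℂ) (l : ι → ℂ) (r : ℂ) (f : (ι → ℂ) → ℂ) :
    dif a χ l (fun z => r * f z) = fun z => r * dif a χ l f z := by
  funext z; unfold dif tr; ring

theorem dif_sum {A : Type} (s : Finset A) (a : ι → ℝ) (χ : (ι → ℂ) → ℂ) (l : ι → ℂ)
    (f : A → (ι → ℂ) → ℂ) :
    dif a χ l (fun z => ∑ j ∈ s, f j z) = fun z => ∑ j ∈ s, dif a χ l (f j) z := by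
  funext z
  unfold dif tr
  rw [Finset.mul_sum, Finset.mul_sum, ← Finset.sum_sub_distrib]

theorem dif_Vf {Λ : AddSubgroup (ι → ℂ)} {a : ι → ℝ} {χ : (ι → ℂ) → ℂ} {f : (ι → ℂ) → ℂ}
    (hf : Vf Λ a χ f) {l : ι → ℂ} (hl : l ∈ Λ) (hχ : χ l ≠ 0) (z : ι → ℂ) : dif a χ l f z = 0 := by
  unfold dif tr
  rw [hf.2 l hl z, Complex.exp_neg]
  have h := Complex.exp_ne_zero (me a z l)
  field_simp
  ring

theorem pd_shift (f : (ι → ℂ) → ℂ) (l : ι → ℂ) (i : ι) (z : ι → ℂ) :
    pd i (fun z => f (z + l)) z = pd i f (z + l) := by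
  unfold pd
  rw [fderiv_comp_add_right]

theorem hasFDerivAt_me (a : ι → ℝ) (l : ι → ℂ) (z : ι → ℂ) :
    HasFDerivAt (fun z => me a z l)
      (∑ s, ((a s : ℂ) * conj (l s)) • (ContinuousLinearMap.proj s : (ι → ℂ) →L[ℂ] ℂ)) z := by
  have h : (fun z => me a z l) =
      fun z => (∑ s, ((a s : ℂ) * conj (l s)) • (ContinuousLinearMap.proj s : (ι → ℂ) →L[ℂ] ℂ)) z +
        me a 0 l := by
    funext w
    unfold me
    simp only [_root_.sum_apply, _root_.smul_apply, ContinuousLinearMap.proj_apply, smul_eq_mul]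
    rw [← Finset.sum_add_distrib]
    refine Finset.sum_congr rfl fun i _ => ?_
    rw [Pi.zero_apply]; ring
  rw [h]
  exact (ContinuousLinearMap.hasFDerivAt _).add_const _

theorem pd_Vf {Λ : AddSubgroup (ι → ℂ)} {a : ι → ℝ} {χ : (ι → ℂ) → ℂ} {f : (ι → ℂ) → ℂ}
    (hf : Vf Λ a χ f) {l : ι → ℂ} (hl : l ∈ Λ) (i : ι) (z : ι → ℂ) :
    pd i f (z + l) = χ l * cexp (me a z l) * (pd i f z + a i * conj (l i) * f z) := by
  rw [← pd_shift]
  have h1 : (fun z => f (z + l)) = fun z => χ l * cexp (me a z l) * f z := funext (hf.2 l hl)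
  rw [h1]
  have h2 : HasFDerivAt (fun z => χ l * cexp (me a z l) * f z)
      ((χ l * cexp (me a z l)) • fderiv ℂ f z +
        f z • (χ l • (cexp (me a z l) •
          (∑ s, ((a s : ℂ) * conj (l s)) • (ContinuousLinearMap.proj s : (ι → ℂ) →L[ℂ] ℂ))))) z :=
    (((hasFDerivAt_me a l z).cexp.const_mul (χ l))).mul (hf.1 z).hasFDerivAt
  unfold pd
  rw [h2.fderiv]
  simp only [_root_.add_apply, _root_.smul_apply, smul_eq_mul,
    _root_.sum_apply, ContinuousLinearMap.proj_apply]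
  rw [Finset.sum_eq_single i]
  · simp only [Pi.single_eq_same]; ring
  · intro s _ hs; simp [Pi.single_eq_of_ne hs]
  · intro h; exact absurd (mem_univ i) h

/-- **B2b**: second difference of the Euler operator -/
theorem dif_dif_Ec {Λ : AddSubgroup (ι → ℂ)} {a : ι → ℝ} {χ : (ι → ℂ) → ℂ}
    {f : (ι → ℂ) → ℂ} (hf : Vf Λ a χ f) (c : ι → ℂ) {l k : ι → ℂ}
    (hl : l ∈ Λ) (hk : k ∈ Λ) (hχl : χ l ≠ 0) (hχk : χ k ≠ 0) (z : ι → ℂ) :
    dif a χ k (dif a χ l (Ec c f)) z =
      (∑ s, c s * a s * (l s * conj (k s) + conj (l s) * k s)) * f z := by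
  have h1 : dif a χ l (Ec c f) =
      fun z => (∑ i, c i * l i * pd i f z) +
        (∑ i, c i * (z i + l i) * (a i * conj (l i))) * f z := by
    funext z
    have hE : (χ l)⁻¹ * tr a l (Ec c f) z =
        ∑ i, c i * (z i + l i) * (pd i f z + a i * conj (l i) * f z) := by
      unfold tr Ec
      rw [← mul_assoc, Finset.mul_sum]
      refine Finset.sum_congr rfl fun i _ => ?_
      rw [pd_Vf hf hl, Pi.add_apply, Complex.exp_neg]
      have h2 := Complex.exp_ne_zero (me a z l)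
      field_simp
    unfold dif
    rw [hE]
    unfold Ec
    rw [Finset.sum_mul, ← Finset.sum_sub_distrib, ← Finset.sum_add_distrib]
    refine Finset.sum_congr rfl fun i _ => ?_
    ring
  rw [h1]
  have h4 := Complex.exp_ne_zero (me a z k)
  have h2 : (χ k)⁻¹ * tr a k (fun z => (∑ i, c i * l i * pd i f z) +
        (∑ i, c i * (z i + l i) * (a i * conj (l i))) * f z) z =
      (∑ i, c i * l i * (pd i f z + a i * conj (k i) * f z)) +
        (∑ i, c i * (z i + k i + l i) * (a i * conj (l i))) * f z := by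
    unfold tr
    beta_reduce
    rw [Complex.exp_neg, hf.2 k hk z]
    have h5 : ∑ i, c i * l i * pd i f (z + k) = (χ k * cexp (me a z k)) *
        ∑ i, c i * l i * (pd i f z + a i * conj (k i) * f z) := by
      rw [Finset.mul_sum]
      refine Finset.sum_congr rfl fun i _ => ?_
      rw [pd_Vf hf hk]; ring
    rw [h5]
    simp only [Pi.add_apply]
    generalize ∑ i, c i * l i * (pd i f z + a i * conj (k i) * f z) = S1
    generalize ∑ i, c i * (z i + k i + l i) * (a i * conj (l i)) = S2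
    field_simp
  unfold dif
  rw [h2]
  beta_reduce
  rw [Finset.sum_mul, Finset.sum_mul, Finset.sum_mul, ← Finset.sum_add_distrib,
    ← Finset.sum_add_distrib, ← Finset.sum_sub_distrib]
  refine Finset.sum_congr rfl fun i _ => ?_
  ring

end

end Pool.Agent.ALD.B2
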