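import Pool.Agent.ALD.PEx
import Pool.Agent.ALD.B2b

/-!
# ALD, B1Ser: an even theta function with trivial multipliers, `P(0) = 1`

`Im A(b_j, b_k) ∈ 2πℤ`. The series is `PP` of `PEx`.
-/

set_option autoImplicit false
set_option linter.unusedSectionVars false

namespace Pool.Agent.ALD

open Finset Complex ComplexConjugate

variable {ι : Type} [Fintype ι] [DecidableEq ι] {J : Type} [Fintype J]

theorem aa_conj (A : ι → ℝ) (x y : ι → ℂ) : conj (aa A x y) = aa A y x := by
  unfold aa
  rw [map_sum]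
  refine Finset.sum_congr rfl fun i _ => ?_
  rw [map_mul, map_mul, Complex.conj_conj, Complex.conj_ofReal]
  ring

theorem aa_sub_aa (A : ι → ℝ) (x y : ι → ℂ) : aa A x y - aa A y x = 2 * ((aa A x y).im : ℂ) * I := by
  rw [← aa_conj A x y, Complex.sub_conj]
  push_cast
  ring

/-- an additive condition on pairs extends from the basis to the lattice -/
theorem im_aa_closure {s : Set (ι → ℂ)} (A : ι → ℝ) (r : ℝ)
    (h : ∀ x ∈ s, ∀ y ∈ s, ∃ n : ℤ, (aa A x y).im = r * n) :
    ∀ x ∈ AddSubgroup.closure s, ∀ y ∈ AddSubgroup.closure s, ∃ n : ℤ, (aa A x y).im = r * n := by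
  intro x hx
  induction hx using AddSubgroup.closure_induction with
  | mem x hx =>
    intro y hy
    induction hy using AddSubgroup.closure_induction with
    | mem y hy => exact h x hx y hy
    | zero => exact ⟨0, by simp [aa]⟩
    | add y z _ _ hy hz =>
      obtain ⟨n, hn⟩ := hy
      obtain ⟨n', hn'⟩ := hz
      refine ⟨n + n', ?_⟩
      rw [B2.aa_add_right, Complex.add_im, hn, hn']
      push_cast
      ring
    | neg y _ hy =>
      obtain ⟨n, hn⟩ := hy
      refine ⟨-n, ?_⟩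
      have : aa A x (-y) = -aa A x y := by
        unfold aa
        rw [← Finset.sum_neg_distrib]
        exact Finset.sum_congr rfl fun i _ => by simp
      rw [this, Complex.neg_im, hn]
      push_cast
      ring
  | zero => intro y _; exact ⟨0, by simp [aa]⟩
  | add x z _ _ hx hz =>
    intro y hy
    obtain ⟨n, hn⟩ := hx y hy
    obtain ⟨n', hn'⟩ := hz y hy
    refine ⟨n + n', ?_⟩
    rw [B2.aa_add_left, Complex.add_im, hn, hn']
    push_cast
    ring
  | neg x _ hx =>
    intro y hy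
    obtain ⟨n, hn⟩ := hx y hy
    refine ⟨-n, ?_⟩
    have : aa A (-x) y = -aa A x y := by
      unfold aa
      rw [← Finset.sum_neg_distrib]
      exact Finset.sum_congr rfl fun i _ => by simp
    rw [this, Complex.neg_im, hn]
    push_cast
    ring

/-- an even function of `V(Λ, A, 1)` with value `1` at `0` -/
theorem exists_even (b : Module.Basis J ℝ (ι → ℂ)) (A : ι → ℝ) (hA : ∀ i, 0 < A i)
    (hint : ∀ j k, ∃ n : ℤ, (aa A (b j) (b k)).im = 2 * Real.pi * n) :
    ∃ P : (ι → ℂ) → ℂ, Vf (AddSubgroup.closure (Set.range b)) A (fun _ => 1) P ∧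
      (∀ z, P (-z) = P z) ∧ P 0 = 1 := by
  obtain ⟨x, hx, hx0⟩ := PP_zero b hA
  have h1 := im_aa_closure (s := Set.range b) A (2 * Real.pi) (by
    rintro _ ⟨j, rfl⟩ _ ⟨k, rfl⟩
    exact hint j k)
  have hv := PP_vf b hA (by
    intro l hl k hk
    obtain ⟨n, hn⟩ := h1 l hl k hk
    refine ⟨n, ?_⟩
    rw [aa_sub_aa, hn]
    push_cast
    ring)
  have hx' : (x : ℂ) ≠ 0 := by exact_mod_cast hx.ne'
  refine ⟨fun z => (x : ℂ)⁻¹ * PP b A z, ⟨hv.1.const_mul _, fun l hl z => ?_⟩, fun z => ?_, ?_⟩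
  · show (x : ℂ)⁻¹ * PP b A (z + l) = _
    rw [hv.2 l hl z]
    ring
  · show (x : ℂ)⁻¹ * PP b A (-z) = _
    rw [PP_even]
  · show (x : ℂ)⁻¹ * PP b A 0 = 1
    rw [hx0]
    exact inv_mul_cancel₀ hx'

end Pool.Agent.ALD
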