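import Pool.Agent.ALD.VDefs

/-!
# Project ALD, block B2: definitions

`SDc δ Λ a c`: the output of section (1c) (second differences): ONE symmetric biadditive form `c` with
`(τ_k - 1)(τ_l - 1) f^δ = m c(l,k) f` for all `f` of all levels `m` and all characters.
-/

set_option autoImplicit false
set_option linter.unusedSectionVars false

namespace Pool.Agent.ALD

open Finset Complex ComplexConjugate

noncomputable section

variable {ι : Type} [Fintype ι] [DecidableEq ι]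

/-- output of (1c) -/
def SDc (δ : Derivation ℚ ℂ ℂ) (Λ : AddSubgroup (ι → ℂ)) (a : ι → ℝ)
    (c : (ι → ℂ) → (ι → ℂ) → ℂ) : Prop :=
  (∀ l ∈ Λ, ∀ l' ∈ Λ, ∀ k ∈ Λ, c (l + l') k = c l k + c l' k) ∧
  (∀ l ∈ Λ, ∀ k ∈ Λ, c l k = c k l) ∧
  ∀ (m : ℕ) (χ : (ι → ℂ) → ℂ) (f u : (ι → ℂ) → ℂ), 0 < m → (∀ l ∈ Λ, χ l ≠ 0) →
    Vf Λ (fun i => m * a i) χ f → (∃ z, f z ≠ 0) → CMT.IsDer δ f u → ∀ k ∈ Λ, ∀ l ∈ Λ, ∀ z,
      dif (fun i => m * a i) χ k (dif (fun i => m * a i) χ l u) z = m * c l k * f z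

end

end Pool.Agent.ALD
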