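import Pool.Agent.ALD.VDefs
import Pool.Agent.CMT.LTay
import Pool.Agent.DRV.Ext

/-!
# Project ALD: calculus of `CMT.IsDer`

`IsDer δ f u`: `u` is entire and its Taylor coefficients at `0` are `δ` of those of `f`.
Rules for sums, products, partial derivatives and composition with linear maps with algebraic
(more generally: `δ`-constant) entries. All names start with `der_`.
-/

set_option autoImplicit false
set_option linter.unusedSectionVars false

namespace Pool.Agent.ALD

open Finset MvPowerSeries Pool.Agent.CMT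

noncomputable section

variable {ι : Type} [Fintype ι] [DecidableEq ι] {δ : Derivation ℚ ℂ ℂ}

/-- coefficientwise derivative -/
def dM (δ : Derivation ℚ ℂ ℂ) (φ : MvPowerSeries ι ℂ) : MvPowerSeries ι ℂ := fun n => δ (coeff n φ)

theorem der_coeff_dM (δ : Derivation ℚ ℂ ℂ) (φ : MvPowerSeries ι ℂ) (n : ι →₀ ℕ) :
    coeff n (dM δ φ) = δ (coeff n φ) := rfl

theorem der_nat (δ : Derivation ℚ ℂ ℂ) (n : ℕ) (x : ℂ) : δ (n * x) = n * δ x := by
  rw [← nsmul_eq_mul, map_nsmul, nsmul_eq_mul]

theorem der_iff {φ ψ : MvPowerSeries ι ℂ} (hφ : Ent φ) (hψ : Ent ψ) :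
    IsDer δ (ev φ) (ev ψ) ↔ ψ = dM δ φ := by
  constructor
  · intro h
    ext n
    have h1 := h.2 (fun i => n i)
    rw [jet1_ev hψ, jet1_ev hφ, der_nat] at h1
    have h2 : (fac n : ℂ) ≠ 0 := by
      unfold fac
      exact_mod_cast Finset.prod_ne_zero_iff.2 fun i _ => Nat.factorial_ne_zero _
    exact mul_left_cancel₀ h2 h1
  · intro h
    refine ⟨?_, ?_⟩
    · intro x
      exact (hasFDerivAt_ev hψ x).differentiableAt
    · intro A
      have h1 := jet1_ev hψ (Finsupp.equivFunOnFinite.symm A)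
      have h2 := jet1_ev hφ (Finsupp.equivFunOnFinite.symm A)
      have h3 : (fun i => (Finsupp.equivFunOnFinite.symm A) i) = A := rfl
      rw [h3] at h1 h2
      rw [h1, h2, der_nat, h, der_coeff_dM]

theorem der_ev {f : (ι → ℂ) → ℂ} (hf : Differentiable ℂ f) :
    ∃ φ : MvPowerSeries ι ℂ, Ent φ ∧ f = ev φ := by
  obtain ⟨φ, h1, h2⟩ := exists_ev hf
  exact ⟨φ, h1, funext fun z => (h2 z).symm⟩

/-- uniqueness -/
theorem der_unique {f u v : (ι → ℂ) → ℂ} (hf : Differentiable ℂ f) (hu : IsDer δ f u)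
    (hv : IsDer δ f v) : u = v := by
  obtain ⟨φ, hφ, rfl⟩ := der_ev hf
  obtain ⟨ψ, hψ, rfl⟩ := der_ev hu.1
  obtain ⟨χ, hχ, rfl⟩ := der_ev hv.1
  rw [(der_iff hφ hψ).1 hu, (der_iff hφ hχ).1 hv]

theorem der_dM_mul (φ ψ : MvPowerSeries ι ℂ) : dM δ (φ * ψ) = dM δ φ * ψ + φ * dM δ ψ := by
  ext n
  rw [der_coeff_dM, coeff_mul, map_add, coeff_mul, coeff_mul, map_sum, ← Finset.sum_add_distrib]
  refine Finset.sum_congr rfl fun p _ => ?_
  rw [der_coeff_dM, der_coeff_dM, Derivation.leibniz, smul_eq_mul, smul_eq_mul]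
  ring

theorem der_dM_add (φ ψ : MvPowerSeries ι ℂ) : dM δ (φ + ψ) = dM δ φ + dM δ ψ := by
  ext n
  simp only [der_coeff_dM, map_add]

/-- product rule -/
theorem der_mul {f g u v : (ι → ℂ) → ℂ} (hf : Differentiable ℂ f) (hg : Differentiable ℂ g)
    (hu : IsDer δ f u) (hv : IsDer δ g v) :
    IsDer δ (fun z => f z * g z) (fun z => u z * g z + f z * v z) := by
  obtain ⟨φ, hφ, rfl⟩ := der_ev hf
  obtain ⟨ψ, hψ, rfl⟩ := der_ev hg
  obtain ⟨φ', hφ', rfl⟩ := der_ev hu.1
  obtain ⟨ψ', hψ', rfl⟩ := der_ev hv.1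
  have h1 := (der_iff hφ hφ').1 hu
  have h2 := (der_iff hψ hψ').1 hv
  have e1 : (fun z => ev φ z * ev ψ z) = ev (φ * ψ) := funext fun z => (ev_mul hφ hψ z).symm
  have e2 : (fun z => ev φ' z * ev ψ z + ev φ z * ev ψ' z) = ev (φ' * ψ + φ * ψ') := by
    funext z
    rw [ev_add (hφ'.mul hψ) (hφ.mul hψ'), ev_mul hφ' hψ, ev_mul hφ hψ']
  rw [e1, e2, der_iff (hφ.mul hψ) ((hφ'.mul hψ).add (hφ.mul hψ')), der_dM_mul, h1, h2]

/-- sums -/
theorem der_add {f g u v : (ι → ℂ) → ℂ} (hf : Differentiable ℂ f) (hg : Differentiable ℂ g)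
    (hu : IsDer δ f u) (hv : IsDer δ g v) :
    IsDer δ (fun z => f z + g z) (fun z => u z + v z) := by
  obtain ⟨φ, hφ, rfl⟩ := der_ev hf
  obtain ⟨ψ, hψ, rfl⟩ := der_ev hg
  obtain ⟨φ', hφ', rfl⟩ := der_ev hu.1
  obtain ⟨ψ', hψ', rfl⟩ := der_ev hv.1
  have h1 := (der_iff hφ hφ').1 hu
  have h2 := (der_iff hψ hψ').1 hv
  have e1 : (fun z => ev φ z + ev ψ z) = ev (φ + ψ) := funext fun z => (ev_add hφ hψ z).symm
  have e2 : (fun z => ev φ' z + ev ψ' z) = ev (φ' + ψ') := funext fun z => (ev_add hφ' hψ' z).symm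
  rw [e1, e2, der_iff (hφ.add hψ) (hφ'.add hψ'), der_dM_add, h1, h2]

/-- constants -/
theorem der_const (c : ℂ) : IsDer δ (fun _ : ι → ℂ => c) (fun _ => δ c) := by
  have e : ∀ c : ℂ, (fun _ : ι → ℂ => c) = ev (MvPowerSeries.C c : MvPowerSeries ι ℂ) :=
    fun c => funext fun z => (ev_C c z).symm
  rw [e c, e (δ c), der_iff (Ent.C _) (Ent.C _)]
  ext n
  rw [der_coeff_dM, coeff_C, coeff_C]
  split_ifs <;> simp

/-- multiplication by a constant -/
theorem der_cmul {f u : (ι → ℂ) → ℂ} (hf : Differentiable ℂ f) (c : ℂ) (hu : IsDer δ f u) :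
    IsDer δ (fun z => c * f z) (fun z => δ c * f z + c * u z) :=
  der_mul (differentiable_const c) hf (der_const c) hu

theorem der_neg {f u : (ι → ℂ) → ℂ} (hf : Differentiable ℂ f) (hu : IsDer δ f u) :
    IsDer δ (fun z => - f z) (fun z => - u z) := by
  have h := der_cmul hf (-1) hu
  have h1 : δ (-1 : ℂ) = 0 := by rw [map_neg, Derivation.map_one_eq_zero, neg_zero]
  simpa [h1] using h

theorem der_sub {f g u v : (ι → ℂ) → ℂ} (hf : Differentiable ℂ f) (hg : Differentiable ℂ g)
    (hu : IsDer δ f u) (hv : IsDer δ g v) :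
    IsDer δ (fun z => f z - g z) (fun z => u z - v z) := by
  have h := der_add hf hg.neg hu (der_neg hg hv)
  simpa [sub_eq_add_neg] using h

theorem der_sum {A : Type} (s : Finset A) {f u : A → (ι → ℂ) → ℂ}
    (hf : ∀ j ∈ s, Differentiable ℂ (f j)) (hu : ∀ j ∈ s, IsDer δ (f j) (u j)) :
    Differentiable ℂ (fun z => ∑ j ∈ s, f j z) ∧
    IsDer δ (fun z => ∑ j ∈ s, f j z) (fun z => ∑ j ∈ s, u j z) := by
  classical
  induction s using Finset.induction_on with
  | empty =>
    refine ⟨by simp, ?_⟩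
    have h := der_const (ι := ι) (δ := δ) 0
    simpa using h
  | insert j s hj ih =>
    have ih' := ih (fun i hi => hf i (mem_insert_of_mem hi)) (fun i hi => hu i (mem_insert_of_mem hi))
    simp only [Finset.sum_insert hj]
    exact ⟨(hf j (mem_insert_self _ _)).add ih'.1,
      der_add (hf j (mem_insert_self _ _)) ih'.1 (hu j (mem_insert_self _ _)) ih'.2⟩

/-- finite products -/
theorem der_prod {A : Type} [DecidableEq A] (s : Finset A) {f u : A → (ι → ℂ) → ℂ}
    (hf : ∀ j ∈ s, Differentiable ℂ (f j)) (hu : ∀ j ∈ s, IsDer δ (f j) (u j)) :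
    Differentiable ℂ (fun z => ∏ j ∈ s, f j z) ∧
    IsDer δ (fun z => ∏ j ∈ s, f j z) (fun z => ∑ j ∈ s, u j z * ∏ i ∈ s.erase j, f i z) := by
  induction s using Finset.induction_on with
  | empty =>
    refine ⟨by simp, ?_⟩
    have h := der_const (ι := ι) (δ := δ) 1
    rw [Derivation.map_one_eq_zero] at h
    simpa using h
  | insert j s hj ih =>
    have ih' := ih (fun i hi => hf i (mem_insert_of_mem hi)) (fun i hi => hu i (mem_insert_of_mem hi))
    simp only [Finset.prod_insert hj, Finset.sum_insert hj, Finset.erase_insert hj]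
    refine ⟨(hf j (mem_insert_self _ _)).mul ih'.1, ?_⟩
    have h := der_mul (hf j (mem_insert_self _ _)) ih'.1 (hu j (mem_insert_self _ _)) ih'.2
    have e : (fun z => u j z * ∏ i ∈ s, f i z + ∑ i ∈ s, u i z * ∏ k ∈ (insert j s).erase i, f k z) =
        fun z => u j z * ∏ i ∈ s, f i z + f j z * ∑ i ∈ s, u i z * ∏ k ∈ s.erase i, f k z := by
      funext z
      congr 1
      rw [Finset.mul_sum]
      refine Finset.sum_congr rfl fun i hi => ?_
      have hij : i ≠ j := fun h => hj (h ▸ hi)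
      have h1 : (insert j s).erase i = insert j (s.erase i) := by
        rw [Finset.erase_insert_of_ne hij.symm]
      rw [h1, Finset.prod_insert (fun h => hj (Finset.mem_of_mem_erase h))]
      ring
    rw [e]
    exact h

/-- the partial derivatives of `ev φ` -/
theorem pd_ev {φ : MvPowerSeries ι ℂ} (h : Ent φ) (k : ι) :
    pd k (ev φ) = ev (dd (Finsupp.single k 1) φ) := by
  funext z
  unfold pd
  rw [(hasFDerivAt_ev h z).fderiv]
  simp only [_root_.sum_apply, _root_.smul_apply, ContinuousLinearMap.proj_apply, smul_eq_mul]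
  rw [Finset.sum_eq_single k]
  · simp
  · intro s _ hs; simp [Pi.single_eq_of_ne hs]
  · intro h; exact absurd (mem_univ k) h

theorem pd_diff {f : (ι → ℂ) → ℂ} (hf : Differentiable ℂ f) (k : ι) : Differentiable ℂ (pd k f) := by
  obtain ⟨φ, hφ, rfl⟩ := der_ev hf
  rw [pd_ev hφ]
  exact fun x => (hasFDerivAt_ev (hφ.dd _) x).differentiableAt

/-- partial derivatives -/
theorem der_pd {f u : (ι → ℂ) → ℂ} (hf : Differentiable ℂ f) (k : ι) (hu : IsDer δ f u) :
    IsDer δ (pd k f) (pd k u) := by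
  obtain ⟨φ, hφ, rfl⟩ := der_ev hf
  obtain ⟨ψ, hψ, rfl⟩ := der_ev hu.1
  have h1 := (der_iff hφ hψ).1 hu
  rw [pd_ev hφ, pd_ev hψ, der_iff (hφ.dd _) (hψ.dd _), h1]
  ext n
  rw [der_coeff_dM, coeff_dd, coeff_dd, der_coeff_dM, der_nat]

/-- jets of order `A + e_k` -/
theorem jet1_succ {f : (ι → ℂ) → ℂ} (hf : Differentiable ℂ f) (A : ι → ℕ) (k : ι) :
    RHK.jet1 f (A + Pi.single k 1) = RHK.jet1 (pd k f) A := by
  obtain ⟨φ, hφ, rfl⟩ := der_ev hf
  have h1 := jet1_ev hφ (Finsupp.equivFunOnFinite.symm A + Finsupp.single k 1)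
  have h2 := jet1_ev (hφ.dd (Finsupp.single k 1)) (Finsupp.equivFunOnFinite.symm A)
  have h3 : (fun i => (Finsupp.equivFunOnFinite.symm A) i) = A := rfl
  have h4 : (fun i => (Finsupp.equivFunOnFinite.symm A + Finsupp.single k 1 : ι →₀ ℕ) i) =
      A + Pi.single k 1 := by
    funext i
    rw [Finsupp.add_apply, Pi.add_apply]
    congr 1
    by_cases h : i = k
    · subst h; simp
    · rw [Pi.single_eq_of_ne h, Finsupp.single_eq_of_ne h]
  rw [h3] at h2
  rw [h4] at h1
  rw [h1, pd_ev hφ, h2, coeff_dd]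
  have h5 : (fac (Finsupp.equivFunOnFinite.symm A + Finsupp.single k 1) : ℂ) =
      fac (Finsupp.equivFunOnFinite.symm A) *
        (mb (Finsupp.equivFunOnFinite.symm A) (Finsupp.single k 1) : ℂ) := by
    norm_cast
    unfold fac mb
    rw [← Finset.prod_mul_distrib]
    refine Finset.prod_congr rfl fun i _ => ?_
    rw [Finsupp.add_apply]
    by_cases h : i = k
    · subst h
      simp only [Finsupp.single_eq_same, Nat.choose_one_right]
      rw [Nat.factorial_succ]; ring
    · rw [Finsupp.single_eq_of_ne h]; simp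
  rw [h5]; ring

theorem jet1_zero' (f : (ι → ℂ) → ℂ) (hf : Differentiable ℂ f) : RHK.jet1 f 0 = f 0 := by
  obtain ⟨φ, hφ, rfl⟩ := der_ev hf
  have h1 := jet1_ev hφ 0
  have h2 : (fun i => (0 : ι →₀ ℕ) i) = 0 := rfl
  rw [h2] at h1
  rw [h1]
  unfold ev
  rw [tsum_eq_single 0]
  · simp [fac, mo]
  · intro n hn
    have : mo (0 : ι → ℂ) n = 0 := by
      unfold mo
      obtain ⟨i, hi⟩ : ∃ i, n i ≠ 0 := by
        by_contra hcon
        push Not at hcon
        exact hn (Finsupp.ext hcon)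
      exact Finset.prod_eq_zero (mem_univ i) (by simp [hi])
    rw [this, mul_zero]

/-- the linear map with matrix `L` -/
def linm {κ : Type} [Fintype κ] (L : ι → κ → ℂ) (x : κ → ℂ) (i : ι) : ℂ := ∑ k, L i k * x k

theorem linm_diff {κ : Type} [Fintype κ] (L : ι → κ → ℂ) : Differentiable ℂ (linm L) := by
  unfold linm
  fun_prop

theorem pd_comp_linm {κ : Type} [Fintype κ] [DecidableEq κ] {f : (ι → ℂ) → ℂ}
    (hf : Differentiable ℂ f) (L : ι → κ → ℂ) (k : κ) (x : κ → ℂ) :
    pd k (fun x => f (linm L x)) x = ∑ i, L i k * pd i f (linm L x) := by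
  have h1 : HasFDerivAt (linm L)
      (ContinuousLinearMap.pi fun i => ∑ k, L i k • (ContinuousLinearMap.proj k : (κ → ℂ) →L[ℂ] ℂ)) x := by
    have e : linm L = fun x => (ContinuousLinearMap.pi fun i => ∑ k, L i k •
        (ContinuousLinearMap.proj k : (κ → ℂ) →L[ℂ] ℂ)) x := by
      funext x i
      simp [linm]
    rw [e]
    exact ContinuousLinearMap.hasFDerivAt _
  have h2 := (hf (linm L x)).hasFDerivAt.comp x h1
  unfold pd
  have h3 : (fun x => f (linm L x)) = f ∘ linm L := rfl
  rw [h3, h2.fderiv, ContinuousLinearMap.comp_apply]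
  have h4 : (ContinuousLinearMap.pi fun i => ∑ k, L i k •
        (ContinuousLinearMap.proj k : (κ → ℂ) →L[ℂ] ℂ)) (Pi.single k 1) =
      ∑ i, L i k • (Pi.single i 1 : ι → ℂ) := by
    funext i
    rw [Finset.sum_apply, ContinuousLinearMap.pi_apply]
    simp only [_root_.sum_apply, _root_.smul_apply, ContinuousLinearMap.proj_apply, smul_eq_mul,
      Pi.smul_apply]
    rw [Finset.sum_eq_single k, Finset.sum_eq_single i]
    · simp
    · intro s _ hs; simp [Pi.single_eq_of_ne hs.symm]
    · intro h; exact absurd (mem_univ i) h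
    · intro s _ hs; simp [Pi.single_eq_of_ne hs]
    · intro h; exact absurd (mem_univ k) h
  rw [h4, map_sum]
  refine Finset.sum_congr rfl fun i _ => ?_
  rw [map_smul, smul_eq_mul]

/-- composition with a linear map with `δ`-constant entries -/
theorem der_comp_linm {κ : Type} [Fintype κ] [DecidableEq κ] {f u : (ι → ℂ) → ℂ}
    (hf : Differentiable ℂ f) (hu : IsDer δ f u) (L : ι → κ → ℂ) (hL : ∀ i k, δ (L i k) = 0) :
    IsDer δ (fun x : κ → ℂ => f (linm L x)) (fun x => u (linm L x)) := by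
  refine ⟨hu.1.comp (linm_diff L), ?_⟩
  intro A
  have key : ∀ (N : ℕ) (A : κ → ℕ), ∑ k, A k = N → ∀ f u : (ι → ℂ) → ℂ, Differentiable ℂ f →
      IsDer δ f u → RHK.jet1 (fun x => u (linm L x)) A = δ (RHK.jet1 (fun x => f (linm L x)) A) := by
    intro N
    induction N with
    | zero =>
      intro A hA f u hf hu
      have hA0 : A = 0 := by
        funext k
        exact (Finset.sum_eq_zero_iff.1 hA) k (mem_univ k)
      have h0 : linm L (0 : κ → ℂ) = 0 := by funext i; simp [linm]
      have hcu : Differentiable ℂ (fun x => u (linm L x)) := hu.1.comp (linm_diff L)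
      have hcf : Differentiable ℂ (fun x => f (linm L x)) := hf.comp (linm_diff L)
      rw [hA0, jet1_zero' _ hcu, jet1_zero' _ hcf, h0,
        ← jet1_zero' u hu.1, ← jet1_zero' f hf]
      exact hu.2 0
    | succ N ih =>
      intro A hA f u hf hu
      obtain ⟨k, hk⟩ : ∃ k, A k ≠ 0 := by
        by_contra hcon
        push Not at hcon
        rw [Finset.sum_eq_zero fun k _ => hcon k] at hA
        omega
      have hAk : A = (A - Pi.single k 1) + Pi.single k 1 := by
        funext i
        simp only [Pi.add_apply, Pi.sub_apply]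
        by_cases h : i = k
        · subst h; simp only [Pi.single_eq_same]; omega
        · simp [Pi.single_eq_of_ne h]
      have hsum : ∑ i, (A - Pi.single k 1 : κ → ℕ) i = N := by
        have h1 : ∑ i, A i = ∑ i, ((A - Pi.single k 1 : κ → ℕ) i + (Pi.single k 1 : κ → ℕ) i) :=
          Finset.sum_congr rfl fun i _ => congrFun hAk i
        rw [Finset.sum_add_distrib, Finset.sum_pi_single' k 1 univ, if_pos (mem_univ k), hA] at h1
        omega
      have hcu : Differentiable ℂ (fun x => u (linm L x)) := hu.1.comp (linm_diff L)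
      have hcf : Differentiable ℂ (fun x => f (linm L x)) := hf.comp (linm_diff L)
      rw [hAk, jet1_succ hcu, jet1_succ hcf]
      have e1 : ∀ g : (ι → ℂ) → ℂ, Differentiable ℂ g → pd k (fun x => g (linm L x)) =
          fun x => ∑ i, L i k * pd i g (linm L x) := fun g hg => funext fun x =>
        pd_comp_linm hg L k x
      rw [e1 u hu.1, e1 f hf]
      have e2 : ∀ g : (ι → ℂ) → ℂ, Differentiable ℂ g → ∀ B : κ → ℕ,
          RHK.jet1 (fun x => ∑ i, L i k * pd i g (linm L x)) B =
          ∑ i, L i k * RHK.jet1 (fun x => pd i g (linm L x)) B := by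
        intro g hg B
        have hd : ∀ i, Differentiable ℂ (fun x => pd i g (linm L x)) := fun i =>
          (pd_diff hg i).comp (linm_diff L)
        choose φ hφ hφe using fun i => der_ev (hd i)
        have h1 : (fun x => ∑ i, L i k * pd i g (linm L x)) =
            ev (∑ i, MvPowerSeries.C (L i k) * φ i) := by
          funext x
          rw [ev_sum _ (fun i _ => (Ent.C _).mul (hφ i))]
          refine Finset.sum_congr rfl fun i _ => ?_
          rw [ev_mul (Ent.C _) (hφ i), ev_C, ← hφe i]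
        have h3 : (fun i => (Finsupp.equivFunOnFinite.symm B) i) = B := rfl
        have h4 := jet1_ev (Ent.sum univ fun i _ => (Ent.C (L i k)).mul (hφ i))
          (Finsupp.equivFunOnFinite.symm B)
        rw [h3] at h4
        rw [h1, h4, map_sum, Finset.mul_sum]
        refine Finset.sum_congr rfl fun i _ => ?_
        have h5 := jet1_ev (hφ i) (Finsupp.equivFunOnFinite.symm B)
        rw [h3] at h5
        rw [hφe i, h5, coeff_C_mul]
        ring
      rw [e2 u hu.1, e2 f hf, map_sum]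
      refine Finset.sum_congr rfl fun i _ => ?_
      rw [Derivation.leibniz, hL, smul_zero, add_zero, smul_eq_mul,
        ih _ hsum (pd i f) (pd i u) (pd_diff hf i) (der_pd hf i hu)]
  exact key _ A rfl f u hf hu

/-- composition with a diagonal map with `δ`-constant entries -/
theorem der_comp_diag {f u : (ι → ℂ) → ℂ} (hf : Differentiable ℂ f) (hu : IsDer δ f u)
    (α : ι → ℂ) (hα : ∀ i, δ (α i) = 0) :
    IsDer δ (fun z : ι → ℂ => f (α * z)) (fun z => u (α * z)) := by
  have h := der_comp_linm hf hu (fun i k => if i = k then α i else 0) (by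
    intro i k
    split_ifs
    · exact hα i
    · exact map_zero _)
  have e : ∀ z, linm (fun i k => if i = k then α i else 0) z = α * z := by
    intro z
    funext i
    simp [linm]
  simpa only [e] using h

/-- `δ` is zero at algebraic numbers -/
theorem der_alg {x : ℂ} (hx : IsAlgebraic ℚ x) : δ x = 0 :=
  DRV.eq_zero_of_isAlgebraic δ hx

end

end Pool.Agent.ALD
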