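import Pool.Agent.ALD.VDefs
import Pool.Agent.RQ4.SBox

/-!
# ALD, block B1 (F): the spaces `V(Λ, a, χ)` are finite dimensional

`Λ = closure (range b)`, `b` a real basis; `a` and `χ` arbitrary. A function of `V` is bounded on the
ball of radius `4R` by a constant (depending only on `Λ, a, χ`) times its maximum on the ball of radius
`R`; the Schwarz lemma at `0` gives `g = 0` if the order at `0` is large.
-/

set_option autoImplicit false
set_option linter.unusedSectionVars false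

namespace Pool.Agent.ALD

open Finset Complex ComplexConjugate Pool.Agent.RQ4.ST

variable {ι : Type} [Fintype ι] [DecidableEq ι]

/-- `V(Λ, a, χ)` as a subspace -/
def VfSub (Λ : AddSubgroup (ι → ℂ)) (a : ι → ℝ) (χ : (ι → ℂ) → ℂ) :
    Submodule ℂ ((ι → ℂ) → ℂ) where
  carrier := {g | Vf Λ a χ g}
  add_mem' := by
    rintro f g ⟨hf, hf'⟩ ⟨hg, hg'⟩
    refine ⟨hf.add hg, fun l hl z => ?_⟩
    rw [Pi.add_apply, Pi.add_apply, hf' l hl z, hg' l hl z]
    ring
  zero_mem' := ⟨differentiable_const 0, fun l _ z => by simp⟩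
  smul_mem' := by
    rintro c f ⟨hf, hf'⟩
    refine ⟨hf.const_smul c, fun l hl z => ?_⟩
    rw [Pi.smul_apply, Pi.smul_apply, hf' l hl z, smul_eq_mul, smul_eq_mul]
    ring

theorem mem_VfSub {Λ : AddSubgroup (ι → ℂ)} {a : ι → ℝ} {χ : (ι → ℂ) → ℂ} {g : (ι → ℂ) → ℂ} :
    g ∈ VfSub Λ a χ ↔ Vf Λ a χ g := Iff.rfl

theorem norm_me_le (a : ι → ℝ) (z l : ι → ℂ) {R : ℝ} (hz : ‖z‖ ≤ R) :
    ‖me a z l‖ ≤ ∑ i, |a i| * (‖l‖ * R + ‖l‖ ^ 2 / 2) := by
  have hR : 0 ≤ R := (norm_nonneg z).trans hz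
  unfold me
  refine (norm_sum_le _ _).trans (Finset.sum_le_sum fun i _ => ?_)
  rw [norm_mul, Complex.norm_real, Real.norm_eq_abs]
  refine mul_le_mul_of_nonneg_left ?_ (abs_nonneg _)
  refine (norm_add_le _ _).trans (add_le_add ?_ ?_)
  · rw [norm_mul, Complex.norm_conj]
    exact mul_le_mul (norm_le_pi_norm l i) ((norm_le_pi_norm z i).trans hz) (norm_nonneg _)
      (norm_nonneg _)
  · rw [Complex.norm_real, Real.norm_of_nonneg (by positivity)]
    have := pow_le_pow_left₀ (norm_nonneg _) (norm_le_pi_norm l i) 2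
    linarith

/-- every point is a lattice vector plus a bounded vector -/
theorem exists_red {J : Type*} [Finite J] (b : Module.Basis J ℝ (ι → ℂ)) :
    ∃ R : ℝ, 0 < R ∧ ∀ z : ι → ℂ, ∃ z0 l : ι → ℂ, l ∈ AddSubgroup.closure (Set.range b) ∧
      ‖z0‖ ≤ R ∧ z = z0 + l := by
  cases nonempty_fintype J
  refine ⟨1 + ∑ j, ‖b j‖, by positivity, fun z => ?_⟩
  refine ⟨ZSpan.fract b z, (ZSpan.floor b z : ι → ℂ), ?_, ?_, ?_⟩
  · rw [← Submodule.span_int_eq_addSubgroupClosure]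
    exact (ZSpan.floor b z).2
  · have := ZSpan.norm_fract_le b z
    linarith
  · rw [ZSpan.fract_apply]
    abel

theorem finite_latt {J : Type*} [Finite J] (b : Module.Basis J ℝ (ι → ℂ)) (ρ : ℝ) :
    {l : ι → ℂ | l ∈ AddSubgroup.closure (Set.range b) ∧ ‖l‖ ≤ ρ}.Finite := by
  refine (ZSpan.setFinite_inter b (s := Metric.closedBall (0 : ι → ℂ) ρ)
    Metric.isBounded_closedBall).subset ?_
  rintro l ⟨hl, hl'⟩
  refine ⟨by simpa using hl', ?_⟩
  rw [← Submodule.span_int_eq_addSubgroupClosure] at hl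
  exact hl

/-- a function of `V` with a zero of large order at `0` is zero -/
theorem vf_zero {J : Type*} [Finite J] (b : Module.Basis J ℝ (ι → ℂ)) (a : ι → ℝ)
    (χ : (ι → ℂ) → ℂ) : ∃ T : ℕ, ∀ g, Vf (AddSubgroup.closure (Set.range b)) a χ g →
      (∀ k < T, ∀ y, iteratedFDeriv ℂ k g 0 (fun _ => y) = 0) → g = 0 := by
  classical
  obtain ⟨R, hR, hred⟩ := exists_red b
  have hfin := finite_latt b (5 * R)
  set F := hfin.toFinset with hF
  set C : ℝ := ∑ l ∈ F, ‖χ l‖ * Real.exp (∑ i, |a i| * (‖l‖ * R + ‖l‖ ^ 2 / 2)) with hC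
  obtain ⟨T, hT⟩ := pow_unbounded_of_one_lt C (show (1 : ℝ) < 4 by norm_num)
  refine ⟨T, fun g hg h0 => ?_⟩
  -- the maximum on the closed ball
  obtain ⟨z1, hz1, hmax⟩ := (isCompact_closedBall (0 : ι → ℂ) R).exists_isMaxOn
    ⟨0, Metric.mem_closedBall_self hR.le⟩ (hg.1.continuous.norm.continuousOn)
  have hmax' : ∀ z : ι → ℂ, ‖z‖ ≤ R → ‖g z‖ ≤ ‖g z1‖ := fun z hz => hmax (by simpa using hz)
  have hbd : ∀ z ∈ Metric.ball (0 : ι → ℂ) (4 * R), ‖g z‖ ≤ C * ‖g z1‖ := by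
    intro z hz
    obtain ⟨z0, l, hl, hz0, rfl⟩ := hred z
    have hz' : ‖z0 + l‖ < 4 * R := by simpa using hz
    have hl5 : ‖l‖ ≤ 5 * R := by
      have : l = (z0 + l) - z0 := by abel
      rw [this]
      refine (norm_sub_le _ _).trans ?_
      linarith
    have hlF : l ∈ F := by
      rw [hF, Set.Finite.mem_toFinset]
      exact ⟨hl, hl5⟩
    rw [hg.2 l hl z0, norm_mul, norm_mul]
    have h1 : ‖cexp (me a z0 l)‖ ≤ Real.exp (∑ i, |a i| * (‖l‖ * R + ‖l‖ ^ 2 / 2)) := by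
      rw [Complex.norm_exp]
      exact Real.exp_le_exp.2 ((Complex.re_le_norm _).trans (norm_me_le a z0 l hz0))
    have h2 : ‖χ l‖ * ‖cexp (me a z0 l)‖ ≤ C := by
      refine (mul_le_mul_of_nonneg_left h1 (norm_nonneg _)).trans ?_
      rw [hC]
      exact Finset.single_le_sum (f := fun l => ‖χ l‖ * Real.exp (∑ i, |a i| * (‖l‖ * R + ‖l‖ ^ 2 / 2)))
        (fun l _ => by positivity) hlF
    have hC0 : 0 ≤ C := by rw [hC]; positivity
    exact mul_le_mul h2 (hmax' z0 hz0) (norm_nonneg _) hC0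
  have hC0 : 0 ≤ C := by rw [hC]; positivity
  have hz1' : ‖z1‖ ≤ R := by simpa using hz1
  have hs := schwarz (F := g) (p := 0) (R := 4 * R) (M := C * ‖g z1‖) (by linarith)
    hg.1.differentiableOn hbd T h0 z1 (by
      rw [mem_ball_zero_iff]
      linarith)
  have hq : ‖z1 - 0‖ / (4 * R) ≤ 1 / 4 := by
    rw [sub_zero, div_le_div_iff₀ (by linarith) (by norm_num)]
    linarith
  have hq' : (‖z1 - 0‖ / (4 * R)) ^ T ≤ (1 / 4) ^ T :=
    pow_le_pow_left₀ (by positivity) hq T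
  have h3 : ‖g z1‖ ≤ C * ‖g z1‖ * (1 / 4) ^ T :=
    hs.trans (mul_le_mul_of_nonneg_left hq' (by positivity))
  have h4 : ‖g z1‖ = 0 := by
    by_contra hne
    have hpos : 0 < ‖g z1‖ := lt_of_le_of_ne (norm_nonneg _) (Ne.symm hne)
    have h5 : C * (1 / 4) ^ T < 1 := by
      rw [one_div, inv_pow, ← div_eq_mul_inv, div_lt_one (by positivity)]
      exact hT
    have h6 : C * ‖g z1‖ * (1 / 4) ^ T = (C * (1 / 4) ^ T) * ‖g z1‖ := by ring
    rw [h6] at h3
    nlinarith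
  funext z
  obtain ⟨z0, l, hl, hz0, rfl⟩ := hred z
  have h5 : g z0 = 0 := by
    have := hmax' z0 hz0
    rw [h4] at this
    exact norm_le_zero_iff.1 this
  rw [hg.2 l hl z0, h5, mul_zero]
  rfl

/-- `V(Λ, a, χ)` is finite dimensional -/
theorem vf_finDim {J : Type*} [Finite J] (b : Module.Basis J ℝ (ι → ℂ)) (a : ι → ℝ)
    (χ : (ι → ℂ) → ℂ) :
    FiniteDimensional ℂ (VfSub (AddSubgroup.closure (Set.range b)) a χ) := by
  classical
  obtain ⟨T, hT⟩ := vf_zero b a χ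
  set Λ := AddSubgroup.closure (Set.range b) with hΛ
  have hrank : Module.rank ℂ (VfSub Λ a χ) ≤ (T ^ Fintype.card ι : ℕ) := by
    refine rank_le fun s hs => ?_
    by_contra hcon
    push Not at hcon
    obtain ⟨c, hc0, hc⟩ := box (J := s) (κ := Unit) (fun j => ((j : VfSub Λ a χ) : (ι → ℂ) → ℂ))
      isOpen_univ (fun _ => 0) (fun _ => Set.mem_univ _) (fun j => (j : VfSub Λ a χ).2.1.differentiableOn)
      T (by simpa using hcon)
    have hmem : (∑ j : s, c j • (j : VfSub Λ a χ)) = 0 := by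
      apply Subtype.ext
      have h1 := hT _ (∑ j : s, c j • (j : VfSub Λ a χ)).2 (by
        intro k hk y
        have h2 := hc () k hk y
        have h3 : (((∑ j : s, c j • (j : VfSub Λ a χ)) : VfSub Λ a χ) : (ι → ℂ) → ℂ) =
            fun x => ∑ j : s, c j * ((j : VfSub Λ a χ) : (ι → ℂ) → ℂ) x := by
          funext x
          rw [Submodule.coe_sum, Finset.sum_apply]
          rfl
        rw [h3]
        exact h2)
      rw [h1]
      rfl
    have h4 := (Fintype.linearIndependent_iff.1 hs) c hmem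
    exact hc0 (funext h4)
  exact Module.rank_lt_aleph0_iff.1 (hrank.trans_lt Cardinal.natCast_lt_aleph0)

theorem me_add_sub (a : ι → ℝ) (x y l : ι → ℂ) :
    me a (x + y) l + me a (x - y) l = me (fun i => 2 * a i) x l := by
  unfold me
  rw [← Finset.sum_add_distrib]
  refine Finset.sum_congr rfl fun i _ => ?_
  rw [Pi.add_apply, Pi.sub_apply]
  push_cast
  ring

/-- the product `f(x+y) s(x-y)` belongs to `V(Λ, 2a, χχ')` -/
theorem vf_mul_shift {Λ : AddSubgroup (ι → ℂ)} {a : ι → ℝ} {χ χ' : (ι → ℂ) → ℂ}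
    {f s : (ι → ℂ) → ℂ} (hf : Vf Λ a χ f) (hs : Vf Λ a χ' s) (y : ι → ℂ) :
    Vf Λ (fun i => 2 * a i) (fun l => χ l * χ' l) (fun x => f (x + y) * s (x - y)) := by
  refine ⟨(hf.1.comp (differentiable_id.add_const y)).mul
    (hs.1.comp (differentiable_id.sub_const y)), fun l hl x => ?_⟩
  have e1 : x + l + y = (x + y) + l := by abel
  have e2 : x + l - y = (x - y) + l := by abel
  show f (x + l + y) * s (x + l - y) = _
  rw [e1, e2, hf.2 l hl, hs.2 l hl, ← me_add_sub a x y l, Complex.exp_add]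
  ring

/-- finite rank of `f(x+y) s(x-y)` -/
theorem frk_of_vf {J : Type*} [Finite J] (b : Module.Basis J ℝ (ι → ℂ)) {a : ι → ℝ}
    {χ χ' : (ι → ℂ) → ℂ} {f s : (ι → ℂ) → ℂ}
    (hf : Vf (AddSubgroup.closure (Set.range b)) a χ f)
    (hs : Vf (AddSubgroup.closure (Set.range b)) a χ' s) : CMT.Rec.FRk f s :=
  ⟨VfSub (AddSubgroup.closure (Set.range b)) (fun i => 2 * a i) (fun l => χ l * χ' l),
    vf_finDim b _ _, fun y => vf_mul_shift hf hs y⟩

end Pool.Agent.ALD
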