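import Pool.Agent.ALD.PEx
import Pool.Agent.ALD.FDim
import Pool.Agent.ALD.Der
import Pool.Agent.ALD.B2b

/-!
# ALD, block B1 (1b): every theta function has a `δ`-derivative which is entire
-/

set_option autoImplicit false
set_option linter.unusedSectionVars false

namespace Pool.Agent.ALD

open Finset Complex ComplexConjugate

variable {ι : Type} [Fintype ι] [DecidableEq ι] {J : Type} [Fintype J]

theorem Vf.mono {Λ Λ' : AddSubgroup (ι → ℂ)} (h : Λ' ≤ Λ) {a : ι → ℝ} {χ : (ι → ℂ) → ℂ}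
    {f : (ι → ℂ) → ℂ} (hf : Vf Λ a χ f) : Vf Λ' a χ f :=
  ⟨hf.1, fun l hl z => hf.2 l (h hl) z⟩

theorem dbl_le (b : Module.Basis J ℝ (ι → ℂ)) :
    AddSubgroup.closure (Set.range (dbl b)) ≤ AddSubgroup.closure (Set.range b) := by
  intro l hl
  obtain ⟨k, hk, rfl⟩ := (mem_dbl b l).1 hl
  exact AddSubgroup.add_mem _ hk hk

theorem vf_pow {Λ : AddSubgroup (ι → ℂ)} {a : ι → ℝ} {χ : (ι → ℂ) → ℂ} {f : (ι → ℂ) → ℂ}
    (hf : Vf Λ a χ f) (m : ℕ) : Vf Λ (fun i => m * a i) (fun l => χ l ^ m) (fun z => f z ^ m) := by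
  refine ⟨hf.1.pow m, fun l hl z => ?_⟩
  show f (z + l) ^ m = χ l ^ m * cexp (me (fun i => m * a i) z l) * f z ^ m
  rw [hf.2 l hl z, B2.me_smul, mul_pow, mul_pow, ← Complex.exp_nat_mul]
  push_cast
  rfl

theorem der_pow {δ : Derivation ℚ ℂ ℂ} {f u : (ι → ℂ) → ℂ} (hf : Differentiable ℂ f)
    (hu : CMT.IsDer δ f u) (m : ℕ) :
    CMT.IsDer δ (fun z => f z ^ m) (fun z => m * f z ^ (m - 1) * u z) := by
  have h := (der_prod (δ := δ) (Finset.univ : Finset (Fin m)) (f := fun _ => f) (u := fun _ => u)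
    (fun _ _ => hf) (fun _ _ => hu)).2
  have e1 : (fun z => ∏ _j : Fin m, f z) = fun z => f z ^ m := by
    funext z; simp
  have e2 : (fun z => ∑ j : Fin m, u z * ∏ _i ∈ (Finset.univ : Finset (Fin m)).erase j, f z) =
      fun z => m * f z ^ (m - 1) * u z := by
    funext z
    simp only [Finset.prod_const, Finset.card_erase_of_mem (Finset.mem_univ _), Finset.card_univ,
      Fintype.card_fin, Finset.sum_const, nsmul_eq_mul]
    ring
  rw [e1, e2] at h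
  exact h

/-- (1b): every `f ∈ V(Λ, ma, χ)` has a `δ`-derivative -/
theorem exists_der_Vf (δ : Derivation ℚ ℂ ℂ) (b : Module.Basis J ℝ (ι → ℂ)) {a : ι → ℝ}
    (ha : ∀ i, 0 < a i)
    (hint : ∀ l ∈ AddSubgroup.closure (Set.range b), ∀ k ∈ AddSubgroup.closure (Set.range b),
      ∃ n : ℤ, aa a l k - aa a k l = 2 * Real.pi * I * n) (m : ℕ) {χ : (ι → ℂ) → ℂ}
    {f : (ι → ℂ) → ℂ}
    (hf : Vf (AddSubgroup.closure (Set.range b)) (fun i => m * a i) χ f) :
    ∃ u, CMT.IsDer δ f u := by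
  obtain ⟨P, hP, hev, hP0⟩ := exists_P b ha hint
  obtain ⟨u, hu⟩ := CMT.exists_isDer δ hP.1 hP0 hev (frk_of_vf (dbl b) hP hP)
  have hPm := vf_pow hP m
  have hf' := hf.mono (dbl_le b)
  exact CMT.exists_isDer2 δ hf.1 hPm.1 (by
    show P 0 ^ m = 1
    rw [hP0, one_pow]) (fun z => by
    show P (-z) ^ m = P z ^ m
    rw [hev]) (der_pow hP.1 hu m) (frk_of_vf (dbl b) hf' hPm)

end Pool.Agent.ALD
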