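import Pool.Agent.ALD.B1Sd
import Pool.Agent.ALD.B1Ser
import Pool.Agent.ALD.PDer
import Pool.Agent.ALD.B2Defs

/-!
# ALD block B1, B1Main: the bilinear form `c` of a polarised lattice
-/

set_option autoImplicit false
set_option linter.unusedSectionVars false

namespace Pool.Agent.ALD

open Finset Complex ComplexConjugate

noncomputable section

variable {ι : Type} [Fintype ι] [DecidableEq ι] {J : Type} [Fintype J]

private theorem b1_dcm (A : ι → ℝ) (χ : (ι → ℂ) → ℂ) (l : ι → ℂ) (r : ℂ) (f : (ι → ℂ) → ℂ) (z : ι → ℂ) :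
    dif A χ l (fun z => r * f z) z = r * dif A χ l f z := by
  rw [B2.dif_const_mul]

private theorem b1_dcm2 (A : ι → ℝ) (χ : (ι → ℂ) → ℂ) (k l : ι → ℂ) (r : ℂ) (f : (ι → ℂ) → ℂ)
    (z : ι → ℂ) :
    dif A χ k (dif A χ l (fun z => r * f z)) z = r * dif A χ k (dif A χ l f) z := by
  rw [B2.dif_const_mul, B2.dif_const_mul]

theorem const_props {A : ι → ℝ} {Λ : AddSubgroup (ι → ℂ)}
    {χ f u : (ι → ℂ) → ℂ} {c : (ι → ℂ) → (ι → ℂ) → ℂ} (hχ : ∀ l ∈ Λ, χ l ≠ 0)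
    (hf : Vf Λ A χ f) (h0 : ∃ z, f z ≠ 0)
    (hc : ∀ k ∈ Λ, ∀ l ∈ Λ, ∀ z, dif A χ k (dif A χ l u) z = c k l * f z) :
    (∀ l ∈ Λ, ∀ l' ∈ Λ, ∀ k ∈ Λ, c (l + l') k = c l k + c l' k) ∧
      ∀ l ∈ Λ, ∀ k ∈ Λ, c l k = c k l := by
  obtain ⟨z0, hz0⟩ := h0
  refine ⟨fun l hl l' hl' k hk => ?_, fun l hl k hk => ?_⟩
  · have h1 := dif_add_lat hf ⟨z0, hz0⟩ hχ hl hl' (dif A χ k u) z0
    rw [hc _ (Λ.add_mem hl hl') k hk, hc l' hl' k hk, hc l hl k hk] at h1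
    have h2 : dif A χ l' (dif A χ k u) = fun z => c l' k * f z := funext fun z => hc l' hl' k hk z
    rw [h2, b1_dcm, B2.dif_Vf hf hl (hχ l hl), mul_zero, zero_add, ← add_mul] at h1
    rw [mul_right_cancel₀ hz0 h1, add_comm]
  · have h1 := dif_comm hf ⟨z0, hz0⟩ hχ hl hk u z0
    rw [hc l hl k hk, hc k hk l hl] at h1
    exact mul_right_cancel₀ hz0 h1

/-- (1c): the second differences of `f^δ` for all levels `m` -/
theorem exists_SDc' (δ : Derivation ℚ ℂ ℂ) (b : Module.Basis J ℝ (ι → ℂ)) {a : ι → ℝ}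
    {Λ : AddSubgroup (ι → ℂ)} (hΛ : Λ = AddSubgroup.closure (Set.range b))
    {P : (ι → ℂ) → ℂ} (hP : Vf Λ (fun i => ((2 : ℕ) : ℝ) * a i) (fun _ => 1) P) (hP0 : P 0 = 1)
    (hex : ∀ (m : ℕ) (χ f : (ι → ℂ) → ℂ), Vf Λ (fun i => m * a i) χ f → ∃ u, CMT.IsDer δ f u) :
    ∃ c : (ι → ℂ) → (ι → ℂ) → ℂ, SDc δ Λ a c := by
  have hex' : ∀ (m : ℕ) (A : ι → ℝ), (∀ i, A i = m * a i) → ∀ χ f : (ι → ℂ) → ℂ, Vf Λ A χ f →
      ∃ u, CMT.IsDer δ f u := by
    intro m A hA χ f hf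
    obtain rfl : A = fun i => m * a i := funext hA
    exact hex m χ f hf
  have hexc : ∀ (m : ℕ) (A : ι → ℝ), (∀ i, A i = m * a i) →
      ∃ c : (ι → ℂ) → (ι → ℂ) → ℂ, ∀ (χ f u : (ι → ℂ) → ℂ), (∀ l ∈ Λ, χ l ≠ 0) →
      Vf Λ A χ f → (∃ z, f z ≠ 0) → CMT.IsDer δ f u → ∀ k ∈ Λ, ∀ l ∈ Λ, ∀ z,
        dif A χ k (dif A χ l u) z = c k l * f z := by
    intro m A hA
    refine exists_const δ hΛ (hex' (2 * m) _ fun i => ?_) (hex' m A hA)
    rw [hA]
    push_cast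
    ring
  have hP0' : ∃ z, P z ≠ 0 := ⟨0, by rw [hP0]; exact one_ne_zero⟩
  obtain ⟨uP, huP⟩ := hex 2 _ P hP
  obtain ⟨c2, hc2⟩ := hexc 2 (fun i => ((2 : ℕ) : ℝ) * a i) (fun i => rfl)
  have hc2P := hc2 (fun _ => 1) P uP (fun _ _ => one_ne_zero) hP hP0' huP
  obtain ⟨hadd, hsym⟩ := const_props (fun _ _ => one_ne_zero) hP hP0' hc2P
  refine ⟨fun l k => c2 l k / 2, fun l hl l' hl' k hk => ?_, fun l hl k hk => ?_, ?_⟩
  · simp only
    rw [hadd l hl l' hl' k hk, add_div]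
  · simp only
    rw [hsym l hl k hk]
  intro m χ f u hm hχ hf hf0 hu k hk l hl z
  obtain ⟨cm, hcm⟩ := hexc m (fun i => m * a i) (fun i => rfl)
  have hcmf := hcm χ f u hχ hf hf0 hu
  -- the square
  obtain ⟨C, hC⟩ := hexc (2 * m) (fun i => m * a i + m * a i) (fun i => by push_cast; ring)
  obtain ⟨z0, hz0⟩ := hf0
  have hχ2 : ∀ l ∈ Λ, χ l * χ l ≠ 0 := fun l hl => mul_ne_zero (hχ l hl) (hχ l hl)
  have hff : Vf Λ (fun i => m * a i + m * a i) (fun l => χ l * χ l) (fun z => f z * f z) := by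
    refine ⟨hf.1.mul hf.1, fun l hl z => ?_⟩
    show f (z + l) * f (z + l) = _
    rw [hf.2 l hl z]
    have e1 : me (fun i => m * a i + m * a i) z l = me (fun i => m * a i) z l + me (fun i => m * a i) z l := by
      unfold me
      rw [← Finset.sum_add_distrib]
      refine Finset.sum_congr rfl fun i _ => ?_
      push_cast
      ring
    rw [e1, Complex.exp_add]
    ring
  have h1 := hC _ _ _ hχ2 hff ⟨z0, mul_ne_zero hz0 hz0⟩ (der_mul hf.1 hf.1 hu hu) k hk l hl z0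
  have e2 : (fun z => u z * f z + f z * u z) = fun z => 2 * (u z * f z) := by
    funext z
    ring
  rw [e2, b1_dcm2, dif2_mul hf hχ hk hl, hcmf k hk l hl] at h1
  -- the power of `P`
  obtain ⟨n, rfl⟩ : ∃ n, m = n + 1 := ⟨m - 1, by omega⟩
  have hPn := vf_pow hP n
  have hPw : Vf Λ (fun i => ((n + 1 : ℕ) : ℝ) * a i + ((n + 1 : ℕ) : ℝ) * a i)
      (fun l => (1 : ℂ) * 1 ^ n) (fun z => P z ^ (n + 1)) := by
    have h2 := vf_pow hP (n + 1)
    have e3 : (fun i => ((n + 1 : ℕ) : ℝ) * (((2 : ℕ) : ℝ) * a i)) =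
        fun i => ((n + 1 : ℕ) : ℝ) * a i + ((n + 1 : ℕ) : ℝ) * a i := by
      funext i
      push_cast
      ring
    rw [e3] at h2
    refine ⟨h2.1, fun l hl z => ?_⟩
    rw [h2.2 l hl z]
    simp
  have h3 := hC _ _ _ (fun _ _ => by simp) hPw ⟨0, by rw [hP0]; simp⟩
    (der_pow hP.1 huP (n + 1)) k hk l hl 0
  have e4 : (fun z => ((n + 1 : ℕ) : ℂ) * P z ^ (n + 1 - 1) * uP z) =
      fun z => ((n + 1 : ℕ) : ℂ) * (uP z * P z ^ n) := by
    funext z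
    rw [Nat.add_sub_cancel]
    ring
  have e5 : (fun i => ((n + 1 : ℕ) : ℝ) * a i + ((n + 1 : ℕ) : ℝ) * a i) =
      fun i => ((2 : ℕ) : ℝ) * a i + (n : ℝ) * (((2 : ℕ) : ℝ) * a i) := by
    funext i
    push_cast
    ring
  rw [e4, e5, b1_dcm2, dif2_mul hPn (fun _ _ => by simp) hk hl,
    hc2P k hk l hl, hP0] at h3
  rw [hcmf k hk l hl]
  have h4 : 2 * (cm k l) = C k l := by
    have h5 : (2 * (cm k l)) * (f z0 * f z0) = C k l * (f z0 * f z0) := by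
      rw [← h1]
      ring
    exact mul_right_cancel₀ (mul_ne_zero hz0 hz0) h5
  have h6 : ((n + 1 : ℕ) : ℂ) * c2 k l = C k l := by
    rw [one_pow, one_pow] at h3
    rw [mul_one, mul_one, mul_one] at h3
    exact h3
  have h7 : cm k l = ((n + 1 : ℕ) : ℂ) * (c2 k l / 2) := by
    rw [← h6] at h4
    linear_combination h4 / 2
  simp only
  rw [h7, hsym k hk l hl]

/-- (1c): the second differences of `f^δ` for all levels `m` -/
theorem exists_SDc (δ : Derivation ℚ ℂ ℂ) (b : Module.Basis J ℝ (ι → ℂ)) {a : ι → ℝ}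
    (ha : ∀ i, 0 < a i)
    (hint : ∀ l ∈ AddSubgroup.closure (Set.range b), ∀ k ∈ AddSubgroup.closure (Set.range b),
      ∃ n : ℤ, aa a l k - aa a k l = 2 * Real.pi * I * n) :
    ∃ c : (ι → ℂ) → (ι → ℂ) → ℂ, SDc δ (AddSubgroup.closure (Set.range b)) a c := by
  have hP : ∃ P : (ι → ℂ) → ℂ, Vf (AddSubgroup.closure (Set.range b))
      (fun i => ((2 : ℕ) : ℝ) * a i) (fun _ => 1) P ∧ (∀ z, P (-z) = P z) ∧ P 0 = 1 := by
    refine exists_even b _ (fun i => by have := ha i; positivity) fun j k => ?_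
    obtain ⟨n, hn⟩ := hint (b j) (AddSubgroup.subset_closure ⟨j, rfl⟩) (b k)
      (AddSubgroup.subset_closure ⟨k, rfl⟩)
    refine ⟨n, ?_⟩
    rw [aa_sub_aa] at hn
    have h1 : ((aa a (b j) (b k)).im : ℂ) = ((Real.pi * n : ℝ) : ℂ) := by
      have h2 : (2 * I) * (((aa a (b j) (b k)).im : ℂ) - ((Real.pi * n : ℝ) : ℂ)) = 0 := by
        push_cast
        linear_combination hn
      exact sub_eq_zero.1 ((mul_eq_zero.1 h2).resolve_left
        (mul_ne_zero two_ne_zero Complex.I_ne_zero))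
    have h3 : (aa a (b j) (b k)).im = Real.pi * n := by exact_mod_cast h1
    rw [B2.aa_smul]
    have h4 : ((((2 : ℕ) : ℝ) : ℂ) * aa a (b j) (b k)).im = 2 * (aa a (b j) (b k)).im := by
      simp
    rw [h4, h3]
    ring
  obtain ⟨P, hP, -, hP0⟩ := hP
  exact exists_SDc' δ b rfl hP hP0 fun m χ f hf => exists_der_Vf δ b ha hint m hf

end

end Pool.Agent.ALD
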