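import Pool.Agent.ALD.B2b
import Pool.Agent.ALD.FDim

/-!
# ALD block B1, B1TauB: commutation of the lattice operators
-/

set_option autoImplicit false
set_option linter.unusedSectionVars false

namespace Pool.Agent.ALD

open Finset Complex ComplexConjugate

noncomputable section

variable {ι : Type} [Fintype ι] [DecidableEq ι] {Λ : AddSubgroup (ι → ℂ)}

theorem me_add_right (A : ι → ℝ) (z k l : ι → ℂ) :
    me A (z + k) l + me A z k = me A z (k + l) + (aa A k l - aa A l k) / 2 := by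
  rw [B2.me_eq, B2.me_eq, B2.me_eq]
  simp only [B2.aa_add_left, B2.aa_add_right]
  ring

theorem chi_add {A : ι → ℝ} {χ f : (ι → ℂ) → ℂ} (hf : Vf Λ A χ f) (h0 : ∃ z, f z ≠ 0)
    {k l : ι → ℂ} (hk : k ∈ Λ) (hl : l ∈ Λ) :
    χ (k + l) = χ k * χ l * cexp ((aa A k l - aa A l k) / 2) := by
  obtain ⟨z, hz⟩ := h0
  have h1 := hf.2 (k + l) (Λ.add_mem hk hl) z
  have h2 := hf.2 l hl (z + k)
  rw [hf.2 k hk z, add_assoc] at h2
  rw [h1] at h2
  have h3 : χ (k + l) * cexp (me A z (k + l)) =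
      χ l * χ k * cexp (me A (z + k) l + me A z k) := by
    rw [Complex.exp_add]
    apply mul_right_cancel₀ hz
    rw [h2]
    ring
  rw [me_add_right, Complex.exp_add] at h3
  have h4 := Complex.exp_ne_zero (me A z (k + l))
  apply mul_right_cancel₀ h4
  rw [h3]
  ring

/-- the multiplier of the commutator is trivial -/
theorem exp_comm {A : ι → ℝ} {χ f : (ι → ℂ) → ℂ} (hf : Vf Λ A χ f) (h0 : ∃ z, f z ≠ 0)
    (hχ : ∀ l ∈ Λ, χ l ≠ 0) {k l : ι → ℂ} (hk : k ∈ Λ) (hl : l ∈ Λ) :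
    cexp (aa A k l - aa A l k) = 1 := by
  have h1 := chi_add hf h0 hk hl
  have h2 := chi_add hf h0 hl hk
  rw [add_comm l k, h1] at h2
  have h3 : cexp ((aa A k l - aa A l k) / 2) = cexp ((aa A l k - aa A k l) / 2) := by
    have h4 : χ k * χ l ≠ 0 := mul_ne_zero (hχ k hk) (hχ l hl)
    apply mul_left_cancel₀ h4
    rw [h2]
    ring
  have h5 : aa A k l - aa A l k = (aa A k l - aa A l k) / 2 + (aa A k l - aa A l k) / 2 := by ring
  rw [h5, Complex.exp_add]
  nth_rw 2 [h3]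
  rw [← Complex.exp_add]
  have h6 : (aa A k l - aa A l k) / 2 + (aa A l k - aa A k l) / 2 = 0 := by ring
  rw [h6, Complex.exp_zero]

theorem dif_comm {A : ι → ℝ} {χ f : (ι → ℂ) → ℂ} (hf : Vf Λ A χ f) (h0 : ∃ z, f z ≠ 0)
    (hχ : ∀ l ∈ Λ, χ l ≠ 0) {k l : ι → ℂ} (hk : k ∈ Λ) (hl : l ∈ Λ) (u : (ι → ℂ) → ℂ) (z : ι → ℂ) :
    dif A χ k (dif A χ l u) z = dif A χ l (dif A χ k u) z := by
  have h1 := exp_comm hf h0 hχ hk hl
  have e1 : z + k + l = z + l + k := by abel
  have e2 : cexp (-me A z k) * cexp (-me A (z + k) l) = cexp (-me A z l) * cexp (-me A (z + l) k) := by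
    rw [← Complex.exp_add, ← Complex.exp_add]
    have : -me A z k + -me A (z + k) l = (-me A z l + -me A (z + l) k) + -(aa A k l - aa A l k) := by
      have a1 := me_add_right A z k l
      have a2 := me_add_right A z l k
      rw [add_comm l k] at a2
      linear_combination a2 - a1
    rw [this, Complex.exp_add _ (-(aa A k l - aa A l k)), Complex.exp_neg (aa A k l - aa A l k), h1,
      inv_one, mul_one]
  unfold dif tr
  beta_reduce
  rw [e1]
  linear_combination (χ k)⁻¹ * (χ l)⁻¹ * u (z + l + k) * e2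

/-- `τ_{l+l'} - 1 = τ_l (τ_{l'} - 1) + (τ_{l'} - 1) + (τ_l - 1)` -/
theorem dif_add_lat {A : ι → ℝ} {χ f : (ι → ℂ) → ℂ} (hf : Vf Λ A χ f) (h0 : ∃ z, f z ≠ 0)
    (hχ : ∀ l ∈ Λ, χ l ≠ 0) {l l' : ι → ℂ} (hl : l ∈ Λ) (hl' : l' ∈ Λ) (u : (ι → ℂ) → ℂ)
    (z : ι → ℂ) :
    dif A χ (l + l') u z = dif A χ l (dif A χ l' u) z + dif A χ l' u z + dif A χ l u z := by
  have h1 := chi_add hf h0 hl hl'
  have e1 : z + l + l' = z + (l + l') := by abel
  have a1 := me_add_right A z l l'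
  have h2 := hχ l hl
  have h3 := hχ l' hl'
  have h4 := Complex.exp_ne_zero ((aa A l l' - aa A l' l) / 2)
  have e2 : (χ (l + l'))⁻¹ * cexp (-me A z (l + l')) =
      (χ l)⁻¹ * cexp (-me A z l) * ((χ l')⁻¹ * cexp (-me A (z + l) l')) := by
    have : cexp (-me A z l) * cexp (-me A (z + l) l') =
        cexp (-me A z (l + l')) * (cexp ((aa A l l' - aa A l' l) / 2))⁻¹ := by
      rw [← Complex.exp_add, ← Complex.exp_neg, ← Complex.exp_add]
      congr 1
      linear_combination -a1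
    rw [h1, mul_inv, mul_inv]
    linear_combination -(χ l)⁻¹ * (χ l')⁻¹ * this
  unfold dif tr
  beta_reduce
  rw [e1]
  linear_combination u (z + (l + l')) * e2

end

end Pool.Agent.ALD
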