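import Pool.Agent.ALD.B2b
import Pool.Agent.ALD.FDim
import Pool.Agent.ALD.B1TauB

/-!
# ALD block B1, B1Tau: calculus of the second differences

PLAN. All by unfolding `dif`, `tr` (`tr a l f z = exp(-me a z l) f(z+l)`); `B2.me_eq`, `B2.me_add_left`, `B2.aa_*`, `B2.dif_Vf` of B2b.
`dif_mul`: `(χχ')(l)⁻¹ exp(-me (A+A') z l) u(z+l) g(z+l) = [χ(l)⁻¹ exp(-me A z l) u(z+l)] [χ'(l)⁻¹ exp(-me A' z l) g(z+l)]`, the second
factor is `g z`. `dif2_xy`: `τ_k` in `x` with weight `2A`, character `χχ'`, applied to `u(x+y) g(x-y)` is `(τ_k u)(x+y) (τ_k g)(x-y)`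
(`me_add_sub` of FDim), `τ_l` in `y` with character `χ χ'(-·)` is `(τ_l u)(x+y) (τ_{-l} g)(x-y)`; so for `g ∈ Vf` only `u` is changed.
`dif_comm`, `dif_add_lat`: on any function `u`, `τ_k τ_l = τ_l τ_k = τ_{k+l}` because this holds for one nonzero `f ∈ Vf A χ` (compare the
factors: `f(z+k+l)` in two ways at a point with `f z ≠ 0` gives `chi_add`; then compute `tr a k (tr a l u)`).
-/

set_option autoImplicit false
set_option linter.unusedSectionVars false

namespace Pool.Agent.ALD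

open Finset Complex ComplexConjugate

noncomputable section

variable {ι : Type} [Fintype ι] [DecidableEq ι] {Λ : AddSubgroup (ι → ℂ)}

/-- product rule, one factor a theta function -/
theorem dif_mul {A A' : ι → ℝ} {χ χ' u g : (ι → ℂ) → ℂ} (hg : Vf Λ A' χ' g)
    (hχ' : ∀ l ∈ Λ, χ' l ≠ 0) {l : ι → ℂ} (hl : l ∈ Λ) (z : ι → ℂ) :
    dif (fun i => A i + A' i) (fun l => χ l * χ' l) l (fun z => u z * g z) z =
      dif A χ l u z * g z := by
  have h1 : me (fun i => A i + A' i) z l = me A z l + me A' z l := by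
    unfold me
    rw [← Finset.sum_add_distrib]
    refine Finset.sum_congr rfl fun i _ => ?_
    push_cast
    ring
  have h2 := hχ' l hl
  have h3 := Complex.exp_ne_zero (me A' z l)
  unfold dif tr
  beta_reduce
  rw [hg.2 l hl z, h1, neg_add, Complex.exp_add, Complex.exp_neg (me A' z l), mul_inv]
  field_simp

theorem dif2_mul {A A' : ι → ℝ} {χ χ' u g : (ι → ℂ) → ℂ} (hg : Vf Λ A' χ' g)
    (hχ' : ∀ l ∈ Λ, χ' l ≠ 0) {k l : ι → ℂ} (hk : k ∈ Λ) (hl : l ∈ Λ) (z : ι → ℂ) :
    dif (fun i => A i + A' i) (fun l => χ l * χ' l) k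
      (dif (fun i => A i + A' i) (fun l => χ l * χ' l) l (fun z => u z * g z)) z =
      dif A χ k (dif A χ l u) z * g z := by
  have h1 : (dif (fun i => A i + A' i) (fun l => χ l * χ' l) l fun z => u z * g z) =
      fun z => dif A χ l u z * g z := funext fun z => dif_mul hg hχ' hl z
  rw [h1, dif_mul hg hχ' hk z]

private theorem tau_me_y (A : ι → ℝ) (x y l : ι → ℂ) :
    me A (x + y) l + me A (x - y) (-l) = me (fun i => 2 * A i) y l := by
  unfold me
  rw [← Finset.sum_add_distrib]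
  refine Finset.sum_congr rfl fun i _ => ?_
  rw [Pi.add_apply, Pi.sub_apply, Pi.neg_apply, map_neg, norm_neg]
  push_cast
  ring

/-- `(τ_k^x - 1)(τ_l^y - 1)` on `u(x+y) g(x-y)` -/
theorem dif2_xy {A : ι → ℝ} {χ χ' u g : (ι → ℂ) → ℂ} (hg : Vf Λ A χ' g)
    (hχ' : ∀ l ∈ Λ, χ' l ≠ 0) {k l : ι → ℂ} (hk : k ∈ Λ) (hl : l ∈ Λ) (x y : ι → ℂ) :
    dif (fun i => 2 * A i) (fun l => χ l * χ' l) k
      (fun x => dif (fun i => 2 * A i) (fun l => χ l * χ' (-l)) l
        (fun y => u (x + y) * g (x - y)) y) x =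
      dif A χ k (dif A χ l u) (x + y) * g (x - y) := by
  have h1 : (fun x => dif (fun i => 2 * A i) (fun l => χ l * χ' (-l)) l
      (fun y => u (x + y) * g (x - y)) y) = fun x => dif A χ l u (x + y) * g (x - y) := by
    funext x
    have e1 : x + (y + l) = (x + y) + l := by abel
    have e2 : x - (y + l) = (x - y) + -l := by abel
    have e3 := tau_me_y A x y l
    have h2 := hχ' (-l) (Λ.neg_mem hl)
    have h3 := Complex.exp_ne_zero (me A (x - y) (-l))
    unfold dif tr
    beta_reduce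
    rw [e1, e2, hg.2 (-l) (Λ.neg_mem hl), ← e3, neg_add, Complex.exp_add,
      Complex.exp_neg (me A (x - y) (-l)), mul_inv]
    field_simp
  rw [h1]
  have e1 : x + k + y = (x + y) + k := by abel
  have e2 : x + k - y = (x - y) + k := by abel
  have e3 := me_add_sub A x y k
  have h2 := hχ' k hk
  have h3 := Complex.exp_ne_zero (me A (x - y) k)
  rw [show dif A χ k (dif A χ l u) (x + y) =
    (χ k)⁻¹ * (cexp (-me A (x + y) k) * dif A χ l u (x + y + k)) - dif A χ l u (x + y) from rfl]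
  show (χ k * χ' k)⁻¹ * (cexp (-me (fun i => 2 * A i) x k) * (dif A χ l u (x + k + y) * g (x + k - y))) -
    dif A χ l u (x + y) * g (x - y) = _
  rw [e1, e2, hg.2 k hk, ← e3, neg_add, Complex.exp_add, Complex.exp_neg (me A (x - y) k), mul_inv]
  field_simp

/-- the same with the roles of the factors exchanged -/
theorem dif2_yx {A : ι → ℝ} {χ χ' f v : (ι → ℂ) → ℂ} (hf : Vf Λ A χ f)
    (hχ : ∀ l ∈ Λ, χ l ≠ 0) {k l : ι → ℂ} (hk : k ∈ Λ) (hl : l ∈ Λ) (x y : ι → ℂ) :
    dif (fun i => 2 * A i) (fun l => χ l * χ' l) k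
      (fun x => dif (fun i => 2 * A i) (fun l => χ l * χ' (-l)) l
        (fun y => f (x + y) * v (x - y)) y) x =
      f (x + y) * dif A χ' k (dif A χ' (-l) v) (x - y) := by
  have h1 : (fun x => dif (fun i => 2 * A i) (fun l => χ l * χ' (-l)) l
      (fun y => f (x + y) * v (x - y)) y) = fun x => f (x + y) * dif A χ' (-l) v (x - y) := by
    funext x
    have e1 : x + (y + l) = (x + y) + l := by abel
    have e2 : x - (y + l) = (x - y) + -l := by abel
    have e3 := tau_me_y A x y l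
    have h2 := hχ l hl
    have h3 := Complex.exp_ne_zero (me A (x + y) l)
    unfold dif tr
    beta_reduce
    rw [e1, e2, hf.2 l hl, ← e3, neg_add, Complex.exp_add,
      Complex.exp_neg (me A (x + y) l), mul_inv]
    field_simp
  rw [h1]
  have e1 : x + k + y = (x + y) + k := by abel
  have e2 : x + k - y = (x - y) + k := by abel
  have e3 := me_add_sub A x y k
  have h2 := hχ k hk
  have h3 := Complex.exp_ne_zero (me A (x + y) k)
  rw [show dif A χ' k (dif A χ' (-l) v) (x - y) =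
    (χ' k)⁻¹ * (cexp (-me A (x - y) k) * dif A χ' (-l) v (x - y + k)) - dif A χ' (-l) v (x - y) from rfl]
  show (χ k * χ' k)⁻¹ * (cexp (-me (fun i => 2 * A i) x k) * (f (x + k + y) * dif A χ' (-l) v (x + k - y))) -
    f (x + y) * dif A χ' (-l) v (x - y) = _
  rw [e1, e2, hf.2 k hk, ← e3, neg_add, Complex.exp_add, Complex.exp_neg (me A (x + y) k), mul_inv]
  field_simp

/-- `(τ_k^x - 1)(τ_l^y - 1)` on `U(x) V(y)` -/
theorem dif2_uv {B : ι → ℝ} {χ χ' : (ι → ℂ) → ℂ} (U V : (ι → ℂ) → ℂ) (k l x y : ι → ℂ) :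
    dif B χ k (fun x => dif B χ' l (fun y => U x * V y) y) x = dif B χ k U x * dif B χ' l V y := by
  unfold dif tr
  beta_reduce
  ring

end

end Pool.Agent.ALD
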