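import Pool.Agent.ALD.VDefs
import Pool.Agent.RHK.JetMul
import Pool.Agent.RHK.JetLine

/-!
# ALD block B3, KTwo: `δ` applied to `f(x+y) g(x-y) = ∑ A_j(x) B_j(y)` (power series, uniqueness of coefficients)
-/

set_option autoImplicit false
set_option linter.unusedSectionVars false

namespace Pool.Agent.ALD

open Finset Complex ComplexConjugate

noncomputable section

variable {ι : Type} [Fintype ι] [DecidableEq ι]

private theorem ktwo_nat (δ : Derivation ℚ ℂ ℂ) (k : ℕ) (z : ℂ) : δ ((k : ℂ) * z) = k * δ z := by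
  rw [Derivation.leibniz, Derivation.map_natCast, smul_zero, add_zero, smul_eq_mul]

private theorem ktwo_fac_ne (n : ι →₀ ℕ) : (CMT.fac n : ℂ) ≠ 0 := by
  refine Nat.cast_ne_zero.2 ?_
  unfold CMT.fac
  exact Finset.prod_ne_zero_iff.2 fun i _ => Nat.factorial_ne_zero _

/-- power series of `f` and of its `δ`-derivative -/
private theorem ktwo_dl {δ : Derivation ℚ ℂ ℂ} {f u : (ι → ℂ) → ℂ} (hf : Differentiable ℂ f)
    (hu : CMT.IsDer δ f u) : ∃ φ : MvPowerSeries ι ℂ, CMT.Ent φ ∧ (∀ z, CMT.ev φ z = f z) ∧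
      CMT.Ent (CMT.Rec.dl δ φ) ∧ ∀ z, CMT.ev (CMT.Rec.dl δ φ) z = u z := by
  obtain ⟨φ, hφ, he⟩ := CMT.exists_ev hf
  obtain ⟨υ, hυ, he'⟩ := CMT.exists_ev hu.1
  have h1 : υ = CMT.Rec.dl δ φ := by
    ext n
    have h2 := hu.2 (fun i => n i)
    have e1 : CMT.ev φ = f := funext he
    have e2 : CMT.ev υ = u := funext he'
    rw [← e1, ← e2, CMT.jet1_ev hυ, CMT.jet1_ev hφ, ktwo_nat] at h2
    exact mul_left_cancel₀ (ktwo_fac_ne n) h2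
  subst h1
  exact ⟨φ, hφ, he, hυ, he'⟩

/-- the `δ`-derivative is unique -/
theorem isDer_unique {δ : Derivation ℚ ℂ ℂ} {f u v : (ι → ℂ) → ℂ} (hu : CMT.IsDer δ f u)
    (hv : CMT.IsDer δ f v) : ∀ z, u z = v z := by
  obtain ⟨υ, hυ, he⟩ := CMT.exists_ev hu.1
  obtain ⟨ν, hν, he'⟩ := CMT.exists_ev hv.1
  have e1 : CMT.ev υ = u := funext he
  have e2 : CMT.ev ν = v := funext he'
  have h1 : υ = ν := by
    ext n
    have h2 := hu.2 (fun i => n i)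
    rw [← hv.2 (fun i => n i), ← e1, ← e2, CMT.jet1_ev hυ, CMT.jet1_ev hν] at h2
    exact mul_left_cancel₀ (ktwo_fac_ne n) h2
  intro z
  rw [← e1, ← e2, h1]

private theorem ktwo_coeff_sc (a : ι → ℂ) (φ : MvPowerSeries ι ℂ) (n : ι →₀ ℕ) :
    MvPowerSeries.coeff n (CMT.sc a φ) = (∏ i, a i ^ n i) * MvPowerSeries.coeff n φ := rfl

/-- the coefficient identity -/
private theorem ktwo_coeff {r : ℕ} {φ ψ : MvPowerSeries ι ℂ} {a b : Fin r → MvPowerSeries ι ℂ}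
    (hφ : CMT.Ent φ) (hψ : CMT.Ent ψ) (ha : ∀ j, CMT.Ent (a j)) (hb : ∀ j, CMT.Ent (b j))
    (h : ∀ x y, CMT.ev φ (x + y) * CMT.ev ψ (x - y) = ∑ j, CMT.ev (a j) x * CMT.ev (b j) y)
    (A : ι →₀ ℕ) : CMT.Rec.hw2 A φ ψ = ∑ j, MvPowerSeries.C (MvPowerSeries.coeff A (b j)) * a j := by
  have hterm : ∀ p : (ι →₀ ℕ) × (ι →₀ ℕ), CMT.Ent ((-1 : MvPowerSeries ι ℂ) ^ CMT.dg p.2 *
      (CMT.dd p.1 φ * CMT.dd p.2 ψ)) := fun p =>
    (CMT.Ent.one.neg.pow _).mul ((hφ.dd _).mul (hψ.dd _))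
  have hE1 : CMT.Ent (CMT.Rec.hw2 A φ ψ) := CMT.Ent.sum _ fun p _ => hterm p
  have hE2 : CMT.Ent (∑ j, MvPowerSeries.C (MvPowerSeries.coeff A (b j)) * a j) :=
    CMT.Ent.sum _ fun j _ => (CMT.Ent.C _).mul (ha j)
  refine CMT.ev_inj hE1 hE2 fun x => ?_
  obtain ⟨F, hF, eF, cF⟩ := CMT.exists_shift hφ x
  obtain ⟨G, hG, eG, cG⟩ := CMT.exists_shift hψ x
  have hG' : CMT.Ent (CMT.sc (fun _ : ι => (-1 : ℂ)) G) := hG.sc _
  have hP : F * CMT.sc (fun _ : ι => (-1 : ℂ)) G =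
      ∑ j, MvPowerSeries.C (CMT.ev (a j) x) * b j := by
    refine CMT.ev_inj (hF.mul hG') (CMT.Ent.sum _ fun j _ => (CMT.Ent.C _).mul (hb j)) fun y => ?_
    rw [CMT.ev_mul hF hG', CMT.ev_sc, eF, CMT.ev_sum _ fun j _ => (CMT.Ent.C _).mul (hb j)]
    have h2 : (fun i => (-1 : ℂ) * y i) = -y := by
      funext i
      rw [Pi.neg_apply]
      ring
    rw [h2, eG, ← sub_eq_add_neg, h]
    refine Finset.sum_congr rfl fun j _ => ?_
    rw [CMT.ev_mul (CMT.Ent.C _) (hb j), CMT.ev_C]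
  have hA := congrArg (MvPowerSeries.coeff A) hP
  rw [MvPowerSeries.coeff_mul, map_sum] at hA
  rw [CMT.ev_sum _ fun j _ => (CMT.Ent.C _).mul (ha j)]
  have hR : ∀ j, CMT.ev (MvPowerSeries.C (MvPowerSeries.coeff A (b j)) * a j) x =
      MvPowerSeries.coeff A (MvPowerSeries.C (CMT.ev (a j) x) * b j) := by
    intro j
    rw [CMT.ev_mul (CMT.Ent.C _) (ha j), CMT.ev_C, MvPowerSeries.coeff_C_mul, mul_comm]
  rw [Finset.sum_congr rfl fun j _ => hR j, ← hA]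
  have hL : CMT.ev (CMT.Rec.hw2 A φ ψ) x = ∑ p ∈ antidiagonal A,
      CMT.ev ((-1 : MvPowerSeries ι ℂ) ^ CMT.dg p.2 * (CMT.dd p.1 φ * CMT.dd p.2 ψ)) x :=
    CMT.ev_sum _ (fun p _ => hterm p) x
  rw [hL]
  refine Finset.sum_congr rfl fun p _ => ?_
  rw [CMT.ev_mul (CMT.Ent.one.neg.pow _) ((hφ.dd _).mul (hψ.dd _)), CMT.ev_pow CMT.Ent.one.neg,
    CMT.ev_neg, CMT.ev_mul (hφ.dd _) (hψ.dd _), ktwo_coeff_sc, cF, cG,
    Finset.prod_pow_eq_pow_sum]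
  have h1 : CMT.ev (1 : MvPowerSeries ι ℂ) x = 1 := by
    have := CMT.ev_C (ι := ι) 1 x
    rwa [map_one] at this
  rw [h1]
  unfold CMT.dg
  ring

theorem two_der {δ : Derivation ℚ ℂ ℂ} {r : ℕ} {f g u v : (ι → ℂ) → ℂ} {A B A' B' : Fin r → (ι → ℂ) → ℂ}
    (hf : Differentiable ℂ f) (hg : Differentiable ℂ g) (hA : ∀ j, Differentiable ℂ (A j))
    (hB : ∀ j, Differentiable ℂ (B j)) (hu : CMT.IsDer δ f u) (hv : CMT.IsDer δ g v)
    (hA' : ∀ j, CMT.IsDer δ (A j) (A' j)) (hB' : ∀ j, CMT.IsDer δ (B j) (B' j))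
    (h : ∀ x y, f (x + y) * g (x - y) = ∑ j, A j x * B j y) (x y : ι → ℂ) :
    u (x + y) * g (x - y) + f (x + y) * v (x - y) = ∑ j, (A' j x * B j y + A j x * B' j y) := by
  obtain ⟨φ, hφ, ef, hdφ, eu⟩ := ktwo_dl hf hu
  obtain ⟨ψ, hψ, eg, hdψ, ev'⟩ := ktwo_dl hg hv
  choose a ha eA hda eA' using fun j => ktwo_dl (hA j) (hA' j)
  choose b hb eB hdb eB' using fun j => ktwo_dl (hB j) (hB' j)
  have hc := ktwo_coeff hφ hψ ha hb (by
    intro x y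
    rw [ef, eg, h]
    exact Finset.sum_congr rfl fun j _ => by rw [eA, eB])
  have hd : ∀ C : ι →₀ ℕ, CMT.Rec.hw2 C (CMT.Rec.dl δ φ) ψ + CMT.Rec.hw2 C φ (CMT.Rec.dl δ ψ) =
      ∑ j, (MvPowerSeries.C (δ (MvPowerSeries.coeff C (b j))) * a j +
        MvPowerSeries.C (MvPowerSeries.coeff C (b j)) * CMT.Rec.dl δ (a j)) := by
    intro C
    have h1 := congrArg (CMT.Rec.dl δ) (hc C)
    rw [CMT.Rec.dl_hw2, CMT.Rec.dl_sum] at h1
    rw [h1]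
    refine Finset.sum_congr rfl fun j _ => ?_
    rw [CMT.Rec.dl_mul, CMT.Rec.dl_C]
  have hs1 := (CMT.Rec.hasSum_hw2 hdφ hψ x y).add (CMT.Rec.hasSum_hw2 hφ hdψ x y)
  have hs2 : HasSum (fun C : ι →₀ ℕ => ∑ j, (CMT.ev (a j) x *
      (MvPowerSeries.coeff C (CMT.Rec.dl δ (b j)) * CMT.mo y C) +
      CMT.ev (CMT.Rec.dl δ (a j)) x * (MvPowerSeries.coeff C (b j) * CMT.mo y C)))
      (∑ j, (CMT.ev (a j) x * CMT.ev (CMT.Rec.dl δ (b j)) y +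
        CMT.ev (CMT.Rec.dl δ (a j)) x * CMT.ev (b j) y)) := by
    refine hasSum_sum fun j _ => ?_
    exact (((hdb j).summable y).of_norm.hasSum.mul_left _).add
      (((hb j).summable y).of_norm.hasSum.mul_left _)
  have hcomp : ∀ C : ι →₀ ℕ, CMT.ev (CMT.Rec.hw2 C (CMT.Rec.dl δ φ) ψ) x * CMT.mo y C +
      CMT.ev (CMT.Rec.hw2 C φ (CMT.Rec.dl δ ψ)) x * CMT.mo y C = ∑ j, (CMT.ev (a j) x *
      (MvPowerSeries.coeff C (CMT.Rec.dl δ (b j)) * CMT.mo y C) +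
      CMT.ev (CMT.Rec.dl δ (a j)) x * (MvPowerSeries.coeff C (b j) * CMT.mo y C)) := by
    intro C
    have hterm : ∀ (φ ψ : MvPowerSeries ι ℂ), CMT.Ent φ → CMT.Ent ψ → CMT.Ent (CMT.Rec.hw2 C φ ψ) :=
      fun φ ψ hφ hψ => CMT.Ent.sum _ fun p _ =>
        (CMT.Ent.one.neg.pow _).mul ((hφ.dd _).mul (hψ.dd _))
    rw [← add_mul, ← CMT.ev_add (hterm _ _ hdφ hψ) (hterm _ _ hφ hdψ), hd C,
      CMT.ev_sum _ fun j _ => ((CMT.Ent.C _).mul (ha j)).add ((CMT.Ent.C _).mul (hda j)),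
      Finset.sum_mul]
    refine Finset.sum_congr rfl fun j _ => ?_
    rw [CMT.ev_add ((CMT.Ent.C _).mul (ha j)) ((CMT.Ent.C _).mul (hda j)),
      CMT.ev_mul (CMT.Ent.C _) (ha j), CMT.ev_mul (CMT.Ent.C _) (hda j), CMT.ev_C, CMT.ev_C]
    have : MvPowerSeries.coeff C (CMT.Rec.dl δ (b j)) = δ (MvPowerSeries.coeff C (b j)) := rfl
    rw [this]
    ring
  have hfin := hs1.unique (by simpa only [hcomp] using hs2)
  rw [eu, eg, ef, ev'] at hfin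
  rw [hfin]
  refine Finset.sum_congr rfl fun j _ => ?_
  rw [eA, eB, eA', eB']
  ring

end

end Pool.Agent.ALD
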