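import Pool.Agent.ALD.B1Dec
import Pool.Agent.ALD.B1Tau
import Pool.Agent.ALD.KTwo

/-!
# ALD block B1, B1Sd: second differences of `f^δ` (section (1c) of alld_h10.md)

`hex`: existence of `δ`-derivatives (block B1Der, helper98) for all theta functions of the weight `2A`.
PLAN. `exists_dec` gives `U_j, V_j`; `hex` gives `U_j^δ`, `V_j^δ`; `two_der` (KTwo):
`u(x+y) g(x-y) + f(x+y) v(x-y) = ∑ (U_j^δ(x) V_j(y) + U_j(x) V_j^δ(y))`. Apply `(τ_k^x - 1)(τ_l^y - 1)` (weight `2A`, characters `χ χ'`,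
`χ χ'(-·)`): the right side is `0` (`dif2_uv`, `B2.dif_Vf`), the left side is `dif2_xy` + `dif2_yx`. Put `p = x + y`, `q = x - y`
(`x = (p+q)/2`, `y = (p-q)/2`). `exists_const`: choose a nonzero `f0 ∈ Vf A χ0` if there is one (else `c = 0`), `u0` by `hex1`, `q0` with
`f0 q0 ≠ 0`; `second_diff` for (f0, f0) gives `dif dif u0 = c(k,l) f0` and `c(k,l) = -c(k,-l)`; for (f0, g): `dif_k dif_(-l) v = -c(k,l) g`, so
`dif_k dif_l v = -c(k,-l) g = c(k,l) g`.
-/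

set_option autoImplicit false
set_option linter.unusedSectionVars false

namespace Pool.Agent.ALD

open Finset Complex ComplexConjugate

noncomputable section

variable {ι : Type} [Fintype ι] [DecidableEq ι] {J : Type} [Fintype J]

theorem second_diff (δ : Derivation ℚ ℂ ℂ) {b : Module.Basis J ℝ (ι → ℂ)} {A : ι → ℝ}
    {Λ : AddSubgroup (ι → ℂ)} (hΛ : Λ = AddSubgroup.closure (Set.range b))
    (hex : ∀ χ f : (ι → ℂ) → ℂ, Vf Λ (fun i => 2 * A i) χ f → ∃ u, CMT.IsDer δ f u)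
    {χ χ' f g u v : (ι → ℂ) → ℂ} (hχ : ∀ l ∈ Λ, χ l ≠ 0) (hχ' : ∀ l ∈ Λ, χ' l ≠ 0)
    (hf : Vf Λ A χ f) (hg : Vf Λ A χ' g) (hu : CMT.IsDer δ f u) (hv : CMT.IsDer δ g v)
    {k l : ι → ℂ} (hk : k ∈ Λ) (hl : l ∈ Λ) (p q : ι → ℂ) :
    dif A χ k (dif A χ l u) p * g q + f p * dif A χ' k (dif A χ' (-l) v) q = 0 := by
  obtain ⟨r, U, V, -, -, hU, hV, hUV⟩ := exists_dec b (hΛ ▸ hf) (hΛ ▸ hg)
  rw [← hΛ] at hU hV
  choose U' hU' using fun j => hex _ _ (hU j)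
  choose V' hV' using fun j => hex _ _ (hV j)
  have h2 := two_der hf.1 hg.1 (fun j => (hU j).1) (fun j => (hV j).1) hu hv hU' hV' hUV
  set x : ι → ℂ := (2 : ℂ)⁻¹ • (p + q) with hx
  set y : ι → ℂ := (2 : ℂ)⁻¹ • (p - q) with hy
  have hxy : x + y = p := by
    funext i; simp only [hx, hy, Pi.add_apply, Pi.smul_apply, Pi.sub_apply, smul_eq_mul]; ring
  have hxy' : x - y = q := by
    funext i; simp only [hx, hy, Pi.add_apply, Pi.smul_apply, Pi.sub_apply, smul_eq_mul]; ring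
  have e1 := dif2_xy (A := A) (χ := χ) (u := u) hg hχ' hk hl x y
  have e2 := dif2_yx (A := A) (χ' := χ') (v := v) hf hχ hk hl x y
  rw [hxy, hxy'] at e1 e2
  rw [← e1, ← e2]
  -- the operator is additive
  have e3 : ∀ F G : (ι → ℂ) → (ι → ℂ) → ℂ,
      dif (fun i => 2 * A i) (fun l => χ l * χ' l) k
        (fun x => dif (fun i => 2 * A i) (fun l => χ l * χ' (-l)) l (fun y => F x y) y) x +
      dif (fun i => 2 * A i) (fun l => χ l * χ' l) k
        (fun x => dif (fun i => 2 * A i) (fun l => χ l * χ' (-l)) l (fun y => G x y) y) x =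
      dif (fun i => 2 * A i) (fun l => χ l * χ' l) k
        (fun x => dif (fun i => 2 * A i) (fun l => χ l * χ' (-l)) l
          (fun y => F x y + G x y) y) x := by
    intro F G
    unfold dif tr
    ring
  rw [e3]
  have e4 : ∀ x, (fun y => u (x + y) * g (x - y) + f (x + y) * v (x - y)) =
      fun y => ∑ j, (U' j x * V j y + U j x * V' j y) := fun x => funext fun y => h2 x y
  simp only [e4]
  have e5 : ∀ x, dif (fun i => 2 * A i) (fun l => χ l * χ' (-l)) l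
      (fun y => ∑ j, (U' j x * V j y + U j x * V' j y)) y =
      ∑ j, U j x * dif (fun i => 2 * A i) (fun l => χ l * χ' (-l)) l (V' j) y := by
    intro x
    have e6 := B2.dif_sum univ (fun i => 2 * A i) (fun l => χ l * χ' (-l)) l
      (fun j y => U' j x * V j y + U j x * V' j y)
    rw [e6]
    refine Finset.sum_congr rfl fun j _ => ?_
    rw [B2.dif_add, B2.dif_const_mul, B2.dif_const_mul]
    beta_reduce
    rw [B2.dif_Vf (hV j) hl (mul_ne_zero (hχ l hl) (hχ' _ (Λ.neg_mem hl))) y, mul_zero, zero_add]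
  simp only [e5]
  have e7 := B2.dif_sum univ (fun i => 2 * A i) (fun l => χ l * χ' l) k
    (fun j x => U j x * dif (fun i => 2 * A i) (fun l => χ l * χ' (-l)) l (V' j) y)
  rw [e7]
  refine Finset.sum_eq_zero fun j _ => ?_
  have e8 : (fun x => U j x * dif (fun i => 2 * A i) (fun l => χ l * χ' (-l)) l (V' j) y) =
      fun x => dif (fun i => 2 * A i) (fun l => χ l * χ' (-l)) l (V' j) y * U j x :=
    funext fun x => mul_comm _ _
  rw [e8, B2.dif_const_mul]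
  beta_reduce
  rw [B2.dif_Vf (hU j) hk (mul_ne_zero (hχ k hk) (hχ' k hk)) x, mul_zero]

/-- the second differences of `f^δ` are constant multiples of `f`, with the same constants for all
`f` of the same weight -/
theorem exists_const (δ : Derivation ℚ ℂ ℂ) {b : Module.Basis J ℝ (ι → ℂ)} {A : ι → ℝ}
    {Λ : AddSubgroup (ι → ℂ)} (hΛ : Λ = AddSubgroup.closure (Set.range b))
    (hex : ∀ χ f : (ι → ℂ) → ℂ, Vf Λ (fun i => 2 * A i) χ f → ∃ u, CMT.IsDer δ f u)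
    (hex1 : ∀ χ f : (ι → ℂ) → ℂ, Vf Λ A χ f → ∃ u, CMT.IsDer δ f u) :
    ∃ c : (ι → ℂ) → (ι → ℂ) → ℂ, ∀ (χ f u : (ι → ℂ) → ℂ), (∀ l ∈ Λ, χ l ≠ 0) →
      Vf Λ A χ f → (∃ z, f z ≠ 0) → CMT.IsDer δ f u → ∀ k ∈ Λ, ∀ l ∈ Λ, ∀ z,
        dif A χ k (dif A χ l u) z = c k l * f z := by
  by_cases H : ∃ χ0 f0 : (ι → ℂ) → ℂ, (∀ l ∈ Λ, χ0 l ≠ 0) ∧ Vf Λ A χ0 f0 ∧ ∃ z, f0 z ≠ 0
  · obtain ⟨χ0, f0, hχ0, hf0, q0, hq0⟩ := H
    obtain ⟨u0, hu0⟩ := hex1 χ0 f0 hf0
    -- `c k l` from the first factor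
    let c : (ι → ℂ) → (ι → ℂ) → ℂ := fun k l => dif A χ0 k (dif A χ0 l u0) q0 / f0 q0
    refine ⟨c, ?_⟩
    intro χ f u hχ hf hf1 hu k hk l hl z
    -- compare `f` with `f0` twice
    have h1 : ∀ l ∈ Λ, ∀ p q, dif A χ k (dif A χ l u) p * f0 q =
        - (f p * dif A χ0 k (dif A χ0 (-l) u0) q) := fun l hl p q =>
      eq_neg_of_add_eq_zero_left (second_diff δ hΛ hex hχ hχ0 hf hf0 hu hu0 hk hl p q)
    have h2 : ∀ l ∈ Λ, ∀ p q, dif A χ0 k (dif A χ0 l u0) p * f0 q =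
        - (f0 p * dif A χ0 k (dif A χ0 (-l) u0) q) := fun l hl p q =>
      eq_neg_of_add_eq_zero_left (second_diff δ hΛ hex hχ0 hχ0 hf0 hf0 hu0 hu0 hk hl p q)
    have h3 := h1 l hl z q0
    have h4 := h2 l hl q0 q0
    -- `dif dif u0 (q0) = - dif_k dif_{-l} u0 (q0)`
    have h5 : dif A χ0 k (dif A χ0 l u0) q0 = - dif A χ0 k (dif A χ0 (-l) u0) q0 := by
      apply mul_right_cancel₀ hq0
      rw [h4]; ring
    apply mul_right_cancel₀ hq0
    rw [h3]
    simp only [c]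
    rw [h5]
    field_simp
  · refine ⟨0, ?_⟩
    intro χ f u hχ hf hf1 hu k hk l hl z
    exact absurd ⟨χ, f, hχ, hf, hf1⟩ H

end

end Pool.Agent.ALD
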