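import Mathlib

/-!
# Project ALD (MP_c2409d_nt, all levels), block B2a: a symmetric biadditive form on a lattice of
`ℂ^n` with enough complex multiplications is diagonal

`fnl (s, false) x = x_s`, `fnl (s, true) x = conj x_s` are the `2n` functionals.
-/

set_option autoImplicit false

namespace Pool.Agent.ALD

open Finset ComplexConjugate

set_option linter.unusedSectionVars false

noncomputable section

variable {ι : Type} [Fintype ι] [DecidableEq ι]

/-- the `2n` functionals `x_s`, `conj x_s` -/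
def fnl (a : ι × Bool) (x : ι → ℂ) : ℂ := if a.2 then conj (x a.1) else x a.1

theorem fnl_mul (a : ι × Bool) (x y : ι → ℂ) : fnl a (x * y) = fnl a x * fnl a y := by
  unfold fnl; split_ifs <;> simp

theorem fnl_add (a : ι × Bool) (x y : ι → ℂ) : fnl a (x + y) = fnl a x + fnl a y := by
  unfold fnl; split_ifs <;> simp

theorem fnl_smul (a : ι × Bool) (r : ℝ) (x : ι → ℂ) : fnl a (r • x) = r • fnl a x := by
  unfold fnl; split_ifs <;> simp

theorem fnl_single (a : ι × Bool) (s : ι) (w : ℂ) :
    fnl a (Pi.single s w) = if a.1 = s then (if a.2 then conj w else w) else 0 := by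
  unfold fnl
  by_cases h : a.1 = s
  · subst h; simp
  · simp [h]

theorem sum_fnl_eq {γ : ι × Bool → ℂ} (h : ∀ x : ι → ℂ, ∑ a, γ a * fnl a x = 0) : γ = 0 := by
  have key : ∀ (s : ι) (w : ℂ), γ (s, false) * w + γ (s, true) * conj w = 0 := by
    intro s w
    have := h (Pi.single s w)
    rw [Fintype.sum_prod_type] at this
    simp only [fnl_single, Fintype.sum_bool] at this
    rw [Finset.sum_eq_single s] at this
    · simp only [if_true] at this
      have h2 : γ (s, true) * conj w + γ (s, false) * w = 0 := by simpa using this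
      rw [add_comm]; exact h2
    · intro t _ hts
      simp [hts]
    · intro hs; exact absurd (mem_univ s) hs
  funext ⟨s, e⟩
  have h1 := key s 1
  have hI := key s Complex.I
  rw [Complex.conj_I] at hI
  have h1' : γ (s, false) + γ (s, true) = 0 := by simpa using h1
  have hI' : γ (s, false) - γ (s, true) = 0 := by
    have : Complex.I * (γ (s, false) - γ (s, true)) = 0 := by
      rw [← hI]; ring
    rcases mul_eq_zero.1 this with h | h
    · exact absurd h Complex.I_ne_zero
    · exact h
  have hf : γ (s, false) = 0 := by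
    have : 2 * γ (s, false) = 0 := by linear_combination h1' + hI'
    simpa using this
  have ht : γ (s, true) = 0 := by rw [hf, zero_add] at h1'; exact h1'
  cases e
  · exact hf
  · exact ht

theorem sum_fnl2_eq {G : ι × Bool → ι × Bool → ℂ}
    (h : ∀ x y : ι → ℂ, ∑ a, ∑ b, G a b * (fnl a x * fnl b y) = 0) : G = 0 := by
  have h1 : ∀ y : ι → ℂ, (fun a => ∑ b, G a b * fnl b y) = 0 := by
    intro y
    apply sum_fnl_eq
    intro x
    rw [← h x y]
    refine Finset.sum_congr rfl fun a _ => ?_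
    rw [Finset.sum_mul]
    refine Finset.sum_congr rfl fun b _ => ?_
    ring
  funext a
  apply sum_fnl_eq
  intro y
  exact congrFun (h1 y) a

/-- coefficients of a real-linear functional -/
def cfn (f : (ι → ℂ) →ₗ[ℝ] ℂ) (a : ι × Bool) : ℂ :=
  if a.2 then (f (Pi.single a.1 1) + Complex.I * f (Pi.single a.1 Complex.I)) / 2
  else (f (Pi.single a.1 1) - Complex.I * f (Pi.single a.1 Complex.I)) / 2

theorem eq_sum_fnl (f : (ι → ℂ) →ₗ[ℝ] ℂ) (x : ι → ℂ) : f x = ∑ a, cfn f a * fnl a x := by
  rw [Fintype.sum_prod_type]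
  have hx : x = ∑ s, ((x s).re • (Pi.single s (1 : ℂ) : ι → ℂ) +
      (x s).im • (Pi.single s Complex.I : ι → ℂ)) := by
    funext t
    rw [Finset.sum_apply, Finset.sum_eq_single t]
    · simp [Complex.re_add_im]
    · intro s _ hst
      simp [hst.symm]
    · intro ht; exact absurd (mem_univ t) ht
  conv_lhs => rw [hx]
  rw [map_sum]
  refine Finset.sum_congr rfl fun s _ => ?_
  rw [map_add, LinearMap.map_smul, LinearMap.map_smul]
  simp only [Fintype.sum_bool, cfn, fnl, if_true, Complex.real_smul]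
  simp only [Bool.false_eq_true, if_false]
  have hz : x s = (x s).re + (x s).im * Complex.I := (Complex.re_add_im (x s)).symm
  have hzc : conj (x s) = (x s).re - (x s).im * Complex.I := by
    apply Complex.ext <;> simp
  rw [hzc]
  conv_rhs => rw [hz]
  simp only [Complex.add_re, Complex.add_im, Complex.ofReal_re, Complex.ofReal_im, Complex.mul_re,
    Complex.mul_im, Complex.I_re, Complex.I_im, mul_zero, mul_one, sub_zero, add_zero, zero_add]
  linear_combination ((x s).im * f (Pi.single s Complex.I)) * Complex.I_sq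

theorem cs_conj {A : Type} [Fintype A] (u v : A → ℂ) (M : ℝ) (hu : ∑ j, ‖u j‖ ^ 2 = M)
    (hv : ∑ j, ‖v j‖ ^ 2 = M) (huv : ∑ j, u j * v j = M) : ∀ j, v j = conj (u j) := by
  have h : ∑ j, ‖v j - conj (u j)‖ ^ 2 = 0 := by
    have h1 : ∀ j, ‖v j - conj (u j)‖ ^ 2 = ‖v j‖ ^ 2 + ‖u j‖ ^ 2 - 2 * (u j * v j).re := by
      intro j
      rw [← Complex.normSq_eq_norm_sq, ← Complex.normSq_eq_norm_sq, ← Complex.normSq_eq_norm_sq,
        Complex.normSq_sub, Complex.normSq_conj, Complex.conj_conj, mul_comm (v j) (u j)]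
    rw [Finset.sum_congr rfl fun j _ => h1 j, Finset.sum_sub_distrib, Finset.sum_add_distrib,
      ← Finset.mul_sum, hu, hv]
    have h2 : ∑ j, (u j * v j).re = M := by
      have := congrArg Complex.re huv
      rw [Complex.re_sum] at this
      simpa using this
    rw [h2]; ring
  intro j
  have h3 := (Finset.sum_eq_zero_iff_of_nonneg (fun j _ => by positivity)).1 h j (mem_univ j)
  have h4 : ‖v j - conj (u j)‖ = 0 := by
    exact pow_eq_zero_iff (two_ne_zero) |>.1 h3
  exact sub_eq_zero.1 (norm_eq_zero.1 h4)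

theorem norm_fnl (a : ι × Bool) (x : ι → ℂ) : ‖fnl a x‖ = ‖x a.1‖ := by
  unfold fnl; split_ifs <;> simp

/-- **B2a**: diagonality -/
theorem diag_of_norms {J : Type} [Fintype J] (b : Module.Basis J ℝ (ι → ℂ))
    (c : (ι → ℂ) → (ι → ℂ) → ℂ) (Λ : AddSubgroup (ι → ℂ))
    (hΛ : Λ = AddSubgroup.closure (Set.range b))
    (hadd : ∀ l ∈ Λ, ∀ l' ∈ Λ, ∀ k ∈ Λ, c (l + l') k = c l k + c l' k)
    (hsym : ∀ l ∈ Λ, ∀ k ∈ Λ, c l k = c k l)
    {A : Type} [Fintype A] (α : A → ι → ℂ) (M : ℝ)
    (hα : ∀ j, ∀ l ∈ Λ, α j * l ∈ Λ)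
    (hM : ∀ s, ∑ j, ‖α j s‖ ^ 2 = M)
    (hsep : ∀ a b : ι × Bool, (∀ j, fnl b (α j) = conj (fnl a (α j))) → b.1 = a.1 ∧ b.2 ≠ a.2)
    (hc : ∀ l ∈ Λ, ∀ k ∈ Λ, ∑ j, c (α j * l) (α j * k) = M * c l k) :
    ∃ C : ι → ℂ, ∀ l ∈ Λ, ∀ k ∈ Λ,
      c l k = ∑ s, C s * (l s * conj (k s) + conj (l s) * k s) := by
  classical
  have hbΛ : ∀ j, b j ∈ Λ := fun j => by rw [hΛ]; exact AddSubgroup.subset_closure ⟨j, rfl⟩
  have hadd' : ∀ l ∈ Λ, ∀ k ∈ Λ, ∀ k' ∈ Λ, c l (k + k') = c l k + c l k' := by
    intro l hl k hk k' hk'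
    rw [hsym l hl _ (Λ.add_mem hk hk'), hadd k hk k' hk' l hl, hsym k hk l hl, hsym k' hk' l hl]
  have hz1 : ∀ k ∈ Λ, c 0 k = 0 := by
    intro k hk
    have := hadd 0 Λ.zero_mem 0 Λ.zero_mem k hk
    rw [add_zero] at this
    simpa using this
  have hneg1 : ∀ l ∈ Λ, ∀ k ∈ Λ, c (-l) k = - c l k := by
    intro l hl k hk
    have := hadd l hl (-l) (Λ.neg_mem hl) k hk
    rw [add_neg_cancel, hz1 k hk] at this
    linear_combination -this
  let B : (ι → ℂ) →ₗ[ℝ] (ι → ℂ) →ₗ[ℝ] ℂ :=
    b.constr ℝ (fun i => b.constr ℝ (fun j => c (b i) (b j)))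
  have hBb : ∀ i j, B (b i) (b j) = c (b i) (b j) := by
    intro i j
    simp only [B]
    rw [Module.Basis.constr_basis, Module.Basis.constr_basis]
  have hB1 : ∀ i, ∀ k ∈ Λ, B (b i) k = c (b i) k := by
    intro i k hk
    have hk' := hk
    rw [hΛ] at hk'
    induction hk' using AddSubgroup.closure_induction with
    | mem x hx => obtain ⟨j, rfl⟩ := hx; exact hBb i j
    | zero => rw [map_zero, hsym _ (hbΛ i) _ Λ.zero_mem, hz1 _ (hbΛ i)]
    | add x y hx hy ihx ihy =>
      have hx' : x ∈ Λ := by rw [hΛ]; exact hx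
      have hy' : y ∈ Λ := by rw [hΛ]; exact hy
      rw [map_add, ihx hx', ihy hy', hadd' _ (hbΛ i) _ hx' _ hy']
    | neg x hx ih =>
      have hx' : x ∈ Λ := by rw [hΛ]; exact hx
      rw [map_neg, ih hx', hsym _ (hbΛ i) _ (Λ.neg_mem hx'), hneg1 _ hx' _ (hbΛ i),
        hsym _ hx' _ (hbΛ i)]
  have hB : ∀ l ∈ Λ, ∀ k ∈ Λ, B l k = c l k := by
    intro l hl k hk
    have hl' := hl
    rw [hΛ] at hl'
    induction hl' using AddSubgroup.closure_induction with
    | mem x hx => obtain ⟨j, rfl⟩ := hx; exact hB1 j k hk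
    | zero => rw [map_zero, LinearMap.zero_apply, hz1 _ hk]
    | add x y hx hy ihx ihy =>
      have hx' : x ∈ Λ := by rw [hΛ]; exact hx
      have hy' : y ∈ Λ := by rw [hΛ]; exact hy
      rw [map_add, LinearMap.add_apply, ihx hx', ihy hy', hadd _ hx' _ hy' _ hk]
    | neg x hx ih =>
      have hx' : x ∈ Λ := by rw [hΛ]; exact hx
      rw [map_neg, LinearMap.neg_apply, ih hx', hneg1 _ hx' _ hk]
  -- symmetry of `B`
  have hBs : ∀ x y, B x y = B y x := by
    have : B = B.flip := by
      apply b.ext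
      intro i
      apply b.ext
      intro j
      rw [LinearMap.flip_apply, hBb, hBb, hsym _ (hbΛ i) _ (hbΛ j)]
    intro x y
    conv_lhs => rw [this]
    rfl
  -- extension of `hc`
  have hcB : ∀ x y, ∑ j, B (α j * x) (α j * y) = M * B x y := by
    let L : (ι → ℂ) →ₗ[ℝ] (ι → ℂ) →ₗ[ℝ] ℂ :=
      ∑ j, (B.compl₁₂ (LinearMap.mulLeft ℝ (α j)) (LinearMap.mulLeft ℝ (α j)))
    have hL : L = M • B := by
      apply b.ext
      intro i
      apply b.ext
      intro k
      simp only [L]
      rw [LinearMap.sum_apply, LinearMap.sum_apply, LinearMap.smul_apply, LinearMap.smul_apply]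
      simp only [LinearMap.compl₁₂_apply, LinearMap.mulLeft_apply]
      rw [Finset.sum_congr rfl fun j _ => hB _ (hα j _ (hbΛ i)) _ (hα j _ (hbΛ k)),
        hc _ (hbΛ i) _ (hbΛ k), hBb, Complex.real_smul]
    intro x y
    have := congrArg (fun T : (ι → ℂ) →ₗ[ℝ] (ι → ℂ) →ₗ[ℝ] ℂ => T x y) hL
    simp only [L] at this
    rw [LinearMap.sum_apply, LinearMap.sum_apply, LinearMap.smul_apply, LinearMap.smul_apply] at this
    simpa only [LinearMap.compl₁₂_apply, LinearMap.mulLeft_apply, Complex.real_smul] using this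
  -- coefficients
  let cfB : ι × Bool → (ι → ℂ) →ₗ[ℝ] ℂ := fun d =>
    { toFun := fun x => cfn (B x) d
      map_add' := by
        intro x y
        unfold cfn
        rw [map_add]
        simp only [LinearMap.add_apply]
        split_ifs <;> ring
      map_smul' := by
        intro r x
        unfold cfn
        rw [LinearMap.map_smul]
        simp only [LinearMap.smul_apply, Complex.real_smul, RingHom.id_apply]
        split_ifs <;> ring }
  let G : ι × Bool → ι × Bool → ℂ := fun a d => cfn (cfB d) a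
  have hG : ∀ x y, B x y = ∑ a, ∑ d, G a d * (fnl a x * fnl d y) := by
    intro x y
    rw [eq_sum_fnl (B x) y]
    have h1 : ∀ d, cfn (B x) d = ∑ a, G a d * fnl a x := fun d => eq_sum_fnl (cfB d) x
    rw [Finset.sum_congr rfl fun d _ => by rw [h1 d, Finset.sum_mul], Finset.sum_comm]
    refine Finset.sum_congr rfl fun a _ => Finset.sum_congr rfl fun d _ => ?_
    ring
  have hGs : ∀ a d, G a d = G d a := by
    have : (fun a d => G a d - G d a) = 0 := by
      apply sum_fnl2_eq
      intro x y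
      simp only [sub_mul, Finset.sum_sub_distrib]
      rw [← hG x y, Finset.sum_comm]
      have h2 : ∑ d, ∑ a, G d a * (fnl a x * fnl d y) = B y x := by
        rw [hG y x]
        refine Finset.sum_congr rfl fun a _ => Finset.sum_congr rfl fun d _ => ?_
        ring
      rw [h2, hBs x y, sub_self]
    intro a d
    exact sub_eq_zero.1 (congrFun (congrFun this a) d)
  have hGM : ∀ a d, G a d ≠ 0 → d.1 = a.1 ∧ d.2 ≠ a.2 := by
    intro a d had
    have h0 : (fun a d => G a d * (∑ j, fnl a (α j) * fnl d (α j) - M)) = 0 := by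
      apply sum_fnl2_eq
      intro x y
      have h1 := hcB x y
      rw [hG x y, Finset.sum_congr rfl fun j _ => hG (α j * x) (α j * y), Finset.sum_comm] at h1
      have h2 : ∀ a ∈ (univ : Finset (ι × Bool)), ∑ j, ∑ d, G a d * (fnl a (α j * x) * fnl d (α j * y)) =
          ∑ d, G a d * (∑ j, fnl a (α j) * fnl d (α j)) * (fnl a x * fnl d y) := by
        intro a _
        rw [Finset.sum_comm]
        refine Finset.sum_congr rfl fun d _ => ?_
        rw [Finset.mul_sum, Finset.sum_mul]
        refine Finset.sum_congr rfl fun j _ => ?_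
        rw [fnl_mul, fnl_mul]; ring
      rw [Finset.sum_congr rfl h2, Finset.mul_sum] at h1
      have h3 : ∀ a ∈ (univ : Finset (ι × Bool)), (M : ℂ) * ∑ d, G a d * (fnl a x * fnl d y) =
          ∑ d, G a d * M * (fnl a x * fnl d y) := by
        intro a _
        rw [Finset.mul_sum]
        refine Finset.sum_congr rfl fun d _ => ?_
        ring
      rw [Finset.sum_congr rfl h3] at h1
      rw [← sub_eq_zero, ← Finset.sum_sub_distrib] at h1
      rw [← h1]
      refine Finset.sum_congr rfl fun a _ => ?_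
      rw [← Finset.sum_sub_distrib]
      refine Finset.sum_congr rfl fun d _ => ?_
      ring
    have h4 := congrFun (congrFun h0 a) d
    simp only [Pi.zero_apply] at h4
    rcases mul_eq_zero.1 h4 with h | h
    · exact absurd h had
    · apply hsep
      apply cs_conj (fun j => fnl a (α j)) (fun j => fnl d (α j)) M
      · simp only [norm_fnl]; exact hM _
      · simp only [norm_fnl]; exact hM _
      · exact sub_eq_zero.1 h
  refine ⟨fun s => G (s, false) (s, true), ?_⟩
  intro l hl k hk
  rw [← hB l hl k hk, hG l k, Fintype.sum_prod_type]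
  refine Finset.sum_congr rfl fun s _ => ?_
  rw [Fintype.sum_bool]
  have hsum : ∀ e : Bool, ∑ d, G (s, e) d * (fnl (s, e) l * fnl d k) =
      G (s, e) (s, !e) * (fnl (s, e) l * fnl (s, !e) k) := by
    intro e
    apply Finset.sum_eq_single
    · intro d _ hd
      have : G (s, e) d = 0 := by
        by_contra hne
        obtain ⟨h1, h2⟩ := hGM _ _ hne
        apply hd
        apply Prod.ext
        · exact h1
        · exact (by decide : ∀ a b : Bool, a ≠ b → a = !b) _ _ h2
      rw [this, zero_mul]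
    · intro h; exact absurd (mem_univ _) h
  rw [hsum, hsum, hGs (s, true) (s, !true)]
  simp only [Bool.not_true, Bool.not_false, fnl, if_true, Bool.false_eq_true, if_false]
  ring

end

end Pool.Agent.ALD
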