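import Pool.Agent.ALD.B2b

/-!
# Project ALD, block B2c: the product `F(z) = ∏_j f_j(α_j z)`

`f_j ∈ Vf Λ_j a_j χ_j`, `α_j Λ ⊆ Λ_j`; then `F ∈ Vf Λ a χ` with `a_s = ∑_j |α_{j,s}|² a_{j,s}`,
`χ(l) = ∏_j χ_j(α_j l)`, and the difference operators act factor by factor.
-/

set_option autoImplicit false
set_option linter.unusedSectionVars false

namespace Pool.Agent.ALD.B2

open Finset Complex ComplexConjugate

noncomputable section

variable {ι : Type} [Fintype ι] [DecidableEq ι]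

/-- the weights of the product -/
def aP {A : Type} [Fintype A] (a : A → ι → ℝ) (α : A → ι → ℂ) (s : ι) : ℝ :=
  ∑ j, ‖α j s‖ ^ 2 * a j s

/-- the character of the product -/
def chP {A : Type} [Fintype A] (χ : A → (ι → ℂ) → ℂ) (α : A → ι → ℂ) (l : ι → ℂ) : ℂ :=
  ∏ j, χ j (α j * l)

/-- the product -/
def fP {A : Type} [Fintype A] (f : A → (ι → ℂ) → ℂ) (α : A → ι → ℂ) (z : ι → ℂ) : ℂ :=
  ∏ j, f j (α j * z)

/-- the derivative of the product -/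
def uP {A : Type} [Fintype A] [DecidableEq A] (f u : A → (ι → ℂ) → ℂ) (α : A → ι → ℂ)
    (z : ι → ℂ) : ℂ :=
  ∑ j, u j (α j * z) * ∏ i ∈ univ.erase j, f i (α i * z)

theorem sum_me_mul {A : Type} [Fintype A] (a : A → ι → ℝ) (α : A → ι → ℂ) (z l : ι → ℂ) :
    ∑ j, me (a j) (α j * z) (α j * l) = me (aP a α) z l := by
  unfold me
  rw [Finset.sum_comm]
  refine Finset.sum_congr rfl fun i _ => ?_
  unfold aP
  rw [Complex.ofReal_sum, Finset.sum_mul]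
  refine Finset.sum_congr rfl fun j _ => ?_
  have h1 : ((‖α j i‖ ^ 2 * a j i : ℝ) : ℂ) = α j i * conj (α j i) * a j i := by
    rw [Complex.mul_conj, Complex.normSq_eq_norm_sq]; push_cast; ring
  have h2 : ((‖(α j * l) i‖ ^ 2 / 2 : ℝ) : ℂ) =
      α j i * conj (α j i) * ((‖l i‖ ^ 2 / 2 : ℝ) : ℂ) := by
    rw [Complex.mul_conj, Complex.normSq_eq_norm_sq, Pi.mul_apply, norm_mul]; push_cast; ring
  rw [h1, h2, Pi.mul_apply, Pi.mul_apply, map_mul]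
  ring

theorem differentiable_prod {A : Type} (s : Finset A) {f : A → (ι → ℂ) → ℂ}
    (hf : ∀ j, Differentiable ℂ (f j)) : Differentiable ℂ (fun z => ∏ j ∈ s, f j z) := by
  classical
  induction s using Finset.induction_on with
  | empty => simp
  | insert j s hj ih =>
    simp only [Finset.prod_insert hj]
    exact (hf j).mul ih

theorem fP_shift {A : Type} [Fintype A] {Λ : AddSubgroup (ι → ℂ)} {Λ' : A → AddSubgroup (ι → ℂ)}
    {a : A → ι → ℝ} {χ : A → (ι → ℂ) → ℂ} {f : A → (ι → ℂ) → ℂ}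
    (hf : ∀ j, Vf (Λ' j) (a j) (χ j) (f j)) {α : A → ι → ℂ}
    (hα : ∀ j, ∀ l ∈ Λ, α j * l ∈ Λ' j) {l : ι → ℂ} (hl : l ∈ Λ) (j : A) (z : ι → ℂ) :
    f j (α j * (z + l)) = χ j (α j * l) * cexp (me (a j) (α j * z) (α j * l)) * f j (α j * z) := by
  rw [mul_add, (hf j).2 _ (hα j l hl)]

/-- **B2c**: the product is canonical -/
theorem Vf_fP {A : Type} [Fintype A] {Λ : AddSubgroup (ι → ℂ)} {Λ' : A → AddSubgroup (ι → ℂ)}
    {a : A → ι → ℝ} {χ : A → (ι → ℂ) → ℂ} {f : A → (ι → ℂ) → ℂ}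
    (hf : ∀ j, Vf (Λ' j) (a j) (χ j) (f j)) {α : A → ι → ℂ}
    (hα : ∀ j, ∀ l ∈ Λ, α j * l ∈ Λ' j) :
    Vf Λ (aP a α) (chP χ α) (fP f α) := by
  constructor
  · apply differentiable_prod
    intro j
    exact (hf j).1.comp (by fun_prop)
  · intro l hl z
    unfold fP chP
    rw [Finset.prod_congr rfl fun j _ => fP_shift hf hα hl j z, Finset.prod_mul_distrib,
      Finset.prod_mul_distrib, ← Complex.exp_sum, sum_me_mul]

theorem fP_ne {A : Type} [Fintype A] {χ : A → (ι → ℂ) → ℂ}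
    {Λ' : A → AddSubgroup (ι → ℂ)} {Λ : AddSubgroup (ι → ℂ)} {α : A → ι → ℂ}
    (hα : ∀ j, ∀ l ∈ Λ, α j * l ∈ Λ' j) (hχ : ∀ j, ∀ l ∈ Λ' j, χ j l ≠ 0) :
    ∀ l ∈ Λ, chP χ α l ≠ 0 := by
  intro l hl
  exact Finset.prod_ne_zero_iff.2 fun j _ => hχ j _ (hα j l hl)

/-- **B2c**: the difference operator on one term of the product -/
theorem dif_term {A : Type} [Fintype A] [DecidableEq A] {Λ : AddSubgroup (ι → ℂ)}
    {Λ' : A → AddSubgroup (ι → ℂ)} {a : A → ι → ℝ} {χ : A → (ι → ℂ) → ℂ} {f : A → (ι → ℂ) → ℂ}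
    (hf : ∀ j, Vf (Λ' j) (a j) (χ j) (f j)) (hχ : ∀ j, ∀ l ∈ Λ' j, χ j l ≠ 0) {α : A → ι → ℂ}
    (hα : ∀ j, ∀ l ∈ Λ, α j * l ∈ Λ' j) (j : A) (v : (ι → ℂ) → ℂ) {l : ι → ℂ} (hl : l ∈ Λ) :
    dif (aP a α) (chP χ α) l (fun z => v (α j * z) * ∏ i ∈ univ.erase j, f i (α i * z)) =
      fun z => dif (a j) (χ j) (α j * l) v (α j * z) * ∏ i ∈ univ.erase j, f i (α i * z) := by
  funext z
  unfold dif tr chP
  beta_reduce
  rw [Finset.prod_congr rfl fun i _ => fP_shift hf hα hl i z, Finset.prod_mul_distrib,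
    Finset.prod_mul_distrib, ← Complex.exp_sum, mul_add (α j) z l]
  have h2 := sum_me_mul a α z l
  rw [← Finset.add_sum_erase _ _ (mem_univ j)] at h2
  have h4 : ∏ j, χ j (α j * l) = χ j (α j * l) * ∏ i ∈ univ.erase j, χ i (α i * l) :=
    (Finset.mul_prod_erase _ _ (mem_univ j)).symm
  rw [h4]
  have h5 : ∏ i ∈ univ.erase j, χ i (α i * l) ≠ 0 :=
    Finset.prod_ne_zero_iff.2 fun i _ => hχ i _ (hα i l hl)
  have h6 : χ j (α j * l) ≠ 0 := hχ j _ (hα j l hl)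
  have h7 : cexp (-(me (aP a α) z l)) *
      cexp (∑ i ∈ univ.erase j, me (a i) (α i * z) (α i * l)) =
      cexp (-(me (a j) (α j * z) (α j * l))) := by
    rw [← Complex.exp_add]
    congr 1
    linear_combination h2
  rw [← h7]
  field_simp

/-- **B2c**: the second difference of the derivative of the product -/
theorem dif_dif_uP {A : Type} [Fintype A] [DecidableEq A] {Λ : AddSubgroup (ι → ℂ)}
    {Λ' : A → AddSubgroup (ι → ℂ)} {a : A → ι → ℝ} {χ : A → (ι → ℂ) → ℂ}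
    {f u : A → (ι → ℂ) → ℂ}
    (hf : ∀ j, Vf (Λ' j) (a j) (χ j) (f j)) (hχ : ∀ j, ∀ l ∈ Λ' j, χ j l ≠ 0) {α : A → ι → ℂ}
    (hα : ∀ j, ∀ l ∈ Λ, α j * l ∈ Λ' j) {c : A → (ι → ℂ) → (ι → ℂ) → ℂ}
    (hc : ∀ j, ∀ k ∈ Λ' j, ∀ l ∈ Λ' j, ∀ z,
      dif (a j) (χ j) k (dif (a j) (χ j) l (u j)) z = c j l k * f j z) :
    ∀ k ∈ Λ, ∀ l ∈ Λ, ∀ z, dif (aP a α) (chP χ α) k (dif (aP a α) (chP χ α) l (uP f u α)) z =
      (∑ j, c j (α j * l) (α j * k)) * fP f α z := by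
  intro k hk l hl z
  have h1 : dif (aP a α) (chP χ α) l (uP f u α) =
      fun z => ∑ j, dif (a j) (χ j) (α j * l) (u j) (α j * z) *
        ∏ i ∈ univ.erase j, f i (α i * z) := by
    have : uP f u α = fun z => ∑ j, u j (α j * z) * ∏ i ∈ univ.erase j, f i (α i * z) := rfl
    rw [this, dif_sum]
    funext w
    refine Finset.sum_congr rfl fun j _ => ?_
    rw [dif_term hf hχ hα j (u j) hl]
  rw [h1, dif_sum, Finset.sum_mul]
  beta_reduce
  refine Finset.sum_congr rfl fun j _ => ?_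
  rw [dif_term hf hχ hα j (dif (a j) (χ j) (α j * l) (u j)) hk]
  beta_reduce
  rw [hc j _ (hα j k hk) _ (hα j l hl)]
  unfold fP
  rw [← Finset.mul_prod_erase _ _ (mem_univ j)]
  ring

end

end Pool.Agent.ALD.B2
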