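import Pool.Agent.ALD.B2a
import Pool.Agent.ALD.B2c
import Pool.Agent.ALD.B2Defs
import Pool.Agent.ALD.Der

/-!
# Project ALD, block B2d: `SDz` from `SDc` (complex multiplications make the form `c` diagonal)
-/

set_option autoImplicit false
set_option linter.unusedSectionVars false

namespace Pool.Agent.ALD.B2

open Finset Complex ComplexConjugate

noncomputable section

variable {ι : Type} [Fintype ι] [DecidableEq ι] {δ : Derivation ℚ ℂ ℂ}

/-- the derivative of the product -/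
theorem der_fP {A : Type} [Fintype A] [DecidableEq A] {f u : A → (ι → ℂ) → ℂ} {α : A → ι → ℂ}
    (hf : ∀ j, Differentiable ℂ (f j)) (hu : ∀ j, CMT.IsDer δ (f j) (u j))
    (hα : ∀ j i, δ (α j i) = 0) : CMT.IsDer δ (fP f α) (uP f u α) :=
  (der_prod (δ := δ) univ (f := fun j z => f j (α j * z)) (u := fun j z => u j (α j * z))
    (fun j _ => (hf j).comp (by fun_prop)) (fun j _ => der_comp_diag (hf j) (hu j) (α j) (hα j))).2

/-- the product is not zero -/
theorem fP_ne_zero {A : Type} [Fintype A] {f : A → (ι → ℂ) → ℂ} {α : A → ι → ℂ}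
    (hf : ∀ j, Differentiable ℂ (f j)) (h0 : ∀ j, ∃ z, f j z ≠ 0) (hα : ∀ j s, α j s ≠ 0) :
    ∃ z, fP f α z ≠ 0 := by
  have hd : ∀ j, Differentiable ℂ (fun z => f j (α j * z)) := fun j => (hf j).comp (by fun_prop)
  choose φ hφ hφe using fun j => der_ev (hd j)
  have hne : ∀ j, φ j ≠ 0 := by
    intro j hj
    obtain ⟨z, hz⟩ := h0 j
    have h1 := congrFun (hφe j) ((fun s => (α j s)⁻¹) * z)
    have h2 : α j * ((fun s => (α j s)⁻¹) * z) = z := by
      funext s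
      simp only [Pi.mul_apply]
      field_simp [hα j s]
    beta_reduce at h1
    rw [h2, hj] at h1
    apply hz
    rw [h1]
    simp [CMT.ev]
  obtain ⟨y, _, hy⟩ := CMT.exists_common_ne univ (fun j _ => hφ j) (fun j _ => hne j) 0 one_pos
  refine ⟨y, ?_⟩
  unfold fP
  refine Finset.prod_ne_zero_iff.2 fun j hj => ?_
  have := hy j hj
  rw [← hφe j] at this
  exact this

/-- **B2d**: the second difference form is diagonal, and `SDz` holds -/
theorem exists_SDz {J : Type} [Fintype J] (b : Module.Basis J ℝ (ι → ℂ)) {Λ : AddSubgroup (ι → ℂ)}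
    (hΛ : Λ = AddSubgroup.closure (Set.range b)) {a : ι → ℝ} (ha : ∀ i, 0 < a i)
    {c : (ι → ℂ) → (ι → ℂ) → ℂ} (hc : SDc δ Λ a c) {m : ℕ} (hm : 0 < m)
    {e S u : (ι → ℂ) → ℂ} (he : ∀ l ∈ Λ, e l ≠ 0) (hS : Vf Λ (fun i => m * a i) e S)
    (hS0 : ∃ z, S z ≠ 0) (hu : CMT.IsDer δ S u)
    {A : Type} [Fintype A] {α : A → ι → ℂ} {M : ℕ} (hM0 : 0 < M)
    (hα : ∀ j, ∀ l ∈ Λ, α j * l ∈ Λ) (hδ : ∀ j s, δ (α j s) = 0) (hα0 : ∀ j s, α j s ≠ 0)
    (hM : ∀ s, ∑ j, ‖α j s‖ ^ 2 = M)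
    (hsep : ∀ a b : ι × Bool, (∀ j, fnl b (α j) = conj (fnl a (α j))) → b.1 = a.1 ∧ b.2 ≠ a.2) :
    ∃ c' : ι → ℂ, SDz δ Λ a c' ∧ ∀ l ∈ Λ, ∀ k ∈ Λ,
      c l k = ∑ s, c' s * a s * (l s * conj (k s) + conj (l s) * k s) := by
  classical
  -- the product
  have haP : aP (fun _ : A => fun i => (m : ℝ) * a i) α = fun i => ((M * m : ℕ) : ℝ) * a i := by
    funext s
    unfold aP
    rw [← Finset.sum_mul, hM s]
    push_cast
    ring
  have hV := Vf_fP (fun _ : A => hS) hα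
  rw [haP] at hV
  have hD := der_fP (δ := δ) (fun _ : A => hS.1) (fun _ => hu) hδ
  have hne := fP_ne_zero (fun _ : A => hS.1) (fun _ => hS0) hα0
  have hχ := fP_ne (χ := fun _ : A => e) hα (fun _ => he)
  have hMm : 0 < M * m := Nat.mul_pos hM0 hm
  have h1 := hc.2.2 (M * m) _ _ _ hMm hχ hV hne hD
  have h2 := dif_dif_uP (c := fun _ : A => fun l k => m * c l k) (fun _ : A => hS) (fun _ => he) hα
    (fun _ => hc.2.2 m _ _ _ hm he hS hS0 hu)
  rw [haP] at h2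
  have hsum : ∀ l ∈ Λ, ∀ k ∈ Λ, ∑ j, c (α j * l) (α j * k) = M * c l k := by
    intro l hl k hk
    obtain ⟨z, hz⟩ := hne
    have h3 := h1 k hk l hl z
    rw [h2 k hk l hl z] at h3
    have h4 := mul_right_cancel₀ hz h3
    rw [← Finset.mul_sum] at h4
    have hm0 : (m : ℂ) ≠ 0 := by exact_mod_cast hm.ne'
    apply mul_left_cancel₀ hm0
    rw [h4]
    push_cast
    ring
  obtain ⟨C, hC⟩ := diag_of_norms b c Λ hΛ hc.1 hc.2.1 α M hα hM hsep (by exact_mod_cast hsum)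
  have hform : ∀ l ∈ Λ, ∀ k ∈ Λ,
      c l k = ∑ s, C s / a s * a s * (l s * conj (k s) + conj (l s) * k s) := by
    intro l hl k hk
    rw [hC l hl k hk]
    refine Finset.sum_congr rfl fun s _ => ?_
    have : (a s : ℂ) ≠ 0 := by exact_mod_cast (ha s).ne'
    field_simp
  refine ⟨fun s => C s / a s, ?_, hform⟩
  intro m' χ f v hm' hχf hf hf0 hv k hk l hl z
  rw [dif_sub, dif_sub]
  beta_reduce
  rw [hc.2.2 m' χ f v hm' hχf hf hf0 hv k hk l hl z,
    dif_dif_Ec hf _ hl hk (hχf l hl) (hχf k hk), hform l hl k hk, Finset.mul_sum, sub_eq_zero]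
  congr 1
  refine Finset.sum_congr rfl fun s _ => ?_
  push_cast
  ring

end

end Pool.Agent.ALD.B2
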