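import Pool.Agent.ALD.B2a

/-!
# ALD-Fam: the families of complex multiplications for `K` and for `K²`, `K = ℚ(ζ_D)`

`fam D N t blk (i, j) s = N ζ^(t_s i)` for `blk s = true`, `N ζ^(t_s j)` for `blk s = false`: the pair `(ζ^i, ζ^j)`
of `K × K`, times `N`. (For a lattice in `K` take `blk` constant.) The hypotheses of
`diag_of_norms` hold if `t` is a CM type on each block.
-/

set_option autoImplicit false

namespace Pool.Agent.ALD

open Complex ComplexConjugate Finset

noncomputable section

/-- `exp(2πi/D)` -/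
def zt (D : ℕ) : ℂ := cexp (2 * Real.pi * I / D)

/-- `N` times the pair `(ζ^i, ζ^j)` of roots of unity -/
def fam {ι : Type} (D N : ℕ) (t : ι → ℕ) (blk : ι → Bool) (g : Fin D × Fin D) (s : ι) : ℂ :=
  N * zt D ^ (t s * (if blk s then (g.1 : ℕ) else (g.2 : ℕ)))

/-- `t` is a CM type of `ℚ(ζ_D)` on each of the two blocks (partial types are allowed) -/
structure CMB {ι : Type} (D : ℕ) (t : ι → ℕ) (blk : ι → Bool) : Prop where
  two : 2 < D
  cop : ∀ s, Nat.Coprime (t s) D
  inj : ∀ s s', blk s = blk s' → t s ≡ t s' [MOD D] → s = s'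
  opp : ∀ s s', blk s = blk s' → ¬ D ∣ t s + t s'

theorem zt_prim {D : ℕ} (hD : 0 < D) : IsPrimitiveRoot (zt D) D :=
  Complex.isPrimitiveRoot_exp D hD.ne'

theorem zt_pow (D m : ℕ) : zt D ^ m = cexp (2 * Real.pi * I * (m : ℕ) / D) := by
  unfold zt
  rw [← Complex.exp_nat_mul]
  congr 1
  ring

theorem norm_zt (D : ℕ) : ‖zt D‖ = 1 := by
  unfold zt
  have : (2 * Real.pi * I / D : ℂ) = ((2 * Real.pi / D : ℝ) : ℂ) * I := by
    push_cast
    ring
  rw [this, Complex.norm_exp_ofReal_mul_I]

theorem zt_ne_zero (D : ℕ) : zt D ≠ 0 := Complex.exp_ne_zero _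

theorem conj_zt (D : ℕ) : conj (zt D) = (zt D)⁻¹ := by
  rw [Complex.inv_def, Complex.normSq_eq_norm_sq, norm_zt]
  simp

theorem zt_alg {D : ℕ} (hD : 0 < D) : IsAlgebraic ℚ (zt D) := by
  have h := (zt_prim hD).pow_eq_one
  exact IsAlgebraic.of_pow hD (by rw [h]; exact isAlgebraic_one)

theorem fam_alg {ι : Type} {D : ℕ} (hD : 0 < D) (N : ℕ) (t : ι → ℕ) (blk : ι → Bool)
    (g : Fin D × Fin D) (s : ι) : IsAlgebraic ℚ (fam D N t blk g s) :=
  (isAlgebraic_natCast N).mul ((zt_alg hD).pow _)

theorem norm_fam {ι : Type} (D N : ℕ) (t : ι → ℕ) (blk : ι → Bool) (g : Fin D × Fin D) (s : ι) :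
    ‖fam D N t blk g s‖ = N := by
  unfold fam
  rw [norm_mul, norm_pow, norm_zt, one_pow, mul_one, Complex.norm_natCast]

theorem fam_norm {ι : Type} (D N : ℕ) (t : ι → ℕ) (blk : ι → Bool) (s : ι) :
    ∑ g : Fin D × Fin D, ‖fam D N t blk g s‖ ^ 2 = ((N ^ 2 * D ^ 2 : ℕ) : ℝ) := by
  simp only [norm_fam]
  rw [Finset.sum_const, Finset.card_univ, Fintype.card_prod, Fintype.card_fin, nsmul_eq_mul]
  push_cast
  ring

private theorem fam_pow_ne {D m : ℕ} (hD : 2 < D) (hm : Nat.Coprime m D) : zt D ^ m ≠ 1 := by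
  intro h
  have h1 := (zt_prim (by omega : 0 < D)).dvd_of_pow_eq_one m h
  have h2 : D ∣ 1 := by
    have := Nat.dvd_gcd h1 (dvd_refl D)
    rwa [hm] at this
  have h3 := Nat.le_of_dvd one_pos h2
  omega

private theorem fam_conj_pow (D m : ℕ) : conj (zt D ^ m) * zt D ^ m = 1 := by
  rw [map_pow, conj_zt, ← mul_pow, inv_mul_cancel₀ (zt_ne_zero D), one_pow]

private theorem fam_add {D m n : ℕ} (hD : 0 < D) (h : zt D ^ m = conj (zt D ^ n)) :
    D ∣ m + n := by
  have h1 : zt D ^ (m + n) = 1 := by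
    rw [pow_add, h, fam_conj_pow]
  exact (zt_prim hD).dvd_of_pow_eq_one _ h1

private theorem fam_eq {D m n : ℕ} (hD : 0 < D) (h : zt D ^ m = zt D ^ n) :
    m ≡ n [MOD D] := by
  have h1 : ∀ k : ℕ, zt D ^ (k % D) = zt D ^ k := by
    intro k
    conv_rhs => rw [← Nat.mod_add_div k D, pow_add, pow_mul, (zt_prim hD).pow_eq_one, one_pow, mul_one]
  exact (zt_prim hD).pow_inj (Nat.mod_lt _ hD) (Nat.mod_lt _ hD) (by rw [h1, h1, h])

theorem fam_sep {ι : Type} {D N : ℕ} {t : ι → ℕ} {blk : ι → Bool} (h : CMB D t blk) (hN : 0 < N)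
    (a b : ι × Bool)
    (hab : ∀ g, fnl b (fam D N t blk g) = conj (fnl a (fam D N t blk g))) :
    b.1 = a.1 ∧ b.2 ≠ a.2 := by
  obtain ⟨s, e⟩ := a
  obtain ⟨s', e'⟩ := b
  have hD0 : 0 < D := lt_trans (by norm_num) h.two
  have hD1 : 1 < D := lt_trans (by norm_num) h.two
  have hN' : (N : ℂ) ≠ 0 := by exact_mod_cast hN.ne'
  by_cases hb : blk s = blk s'
  · have h1 := hab (⟨1, hD1⟩, ⟨1, hD1⟩)
    have e1 : fam D N t blk (⟨1, hD1⟩, ⟨1, hD1⟩) s = N * zt D ^ t s := by
      unfold fam
      simp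
    have e2 : fam D N t blk (⟨1, hD1⟩, ⟨1, hD1⟩) s' = N * zt D ^ t s' := by
      unfold fam
      simp
    cases e <;> cases e'
    · exfalso
      simp only [fnl, Bool.false_eq_true, if_false, e1, e2] at h1
      rw [map_mul, Complex.conj_natCast] at h1
      have h2 := mul_left_cancel₀ hN' h1
      exact h.opp s' s hb.symm (fam_add hD0 h2)
    · simp only [fnl, Bool.false_eq_true, if_false, if_true, e1, e2] at h1
      rw [map_mul, map_mul, Complex.conj_natCast] at h1
      have h2 := mul_left_cancel₀ hN' h1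
      have h3 : zt D ^ t s' = zt D ^ t s := by
        have := congrArg conj h2
        rwa [Complex.conj_conj, Complex.conj_conj] at this
      exact ⟨h.inj s' s hb.symm (fam_eq hD0 h3), by simp⟩
    · simp only [fnl, Bool.false_eq_true, if_false, if_true, e1, e2] at h1
      rw [Complex.conj_conj] at h1
      have h2 := mul_left_cancel₀ hN' h1
      exact ⟨h.inj s' s hb.symm (fam_eq hD0 h2), by simp⟩
    · exfalso
      simp only [fnl, if_true, e1, e2] at h1
      rw [Complex.conj_conj, map_mul, Complex.conj_natCast] at h1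
      have h2 := mul_left_cancel₀ hN' h1
      exact h.opp s s' hb (fam_add hD0 h2.symm)
  · exfalso
    have hx : ∃ g : Fin D × Fin D, fam D N t blk g s = N * zt D ^ t s ∧
        fam D N t blk g s' = N := by
      cases hs : blk s
      · have hs' : blk s' = true := by
          cases h' : blk s'
          · exact absurd (hs.trans h'.symm) hb
          · rfl
        refine ⟨(⟨0, hD0⟩, ⟨1, hD1⟩), ?_, ?_⟩
        · unfold fam
          simp [hs]
        · unfold fam
          simp [hs']
      · have hs' : blk s' = false := by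
          cases h' : blk s'
          · rfl
          · exact absurd (hs.trans h'.symm) hb
        refine ⟨(⟨1, hD1⟩, ⟨0, hD0⟩), ?_, ?_⟩
        · unfold fam
          simp [hs]
        · unfold fam
          simp [hs']
    obtain ⟨g, g1, g2⟩ := hx
    have h1 := hab g
    have hf' : fnl (s', e') (fam D N t blk g) = N := by
      unfold fnl
      cases e' <;> simp [g2]
    rw [hf'] at h1
    have h2 : zt D ^ t s = 1 := by
      cases e
      · simp only [fnl, Bool.false_eq_true, if_false, g1] at h1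
        rw [map_mul, Complex.conj_natCast] at h1
        have h3 : (N : ℂ) * 1 = N * conj (zt D ^ t s) := by rw [mul_one]; exact h1
        have h4 := mul_left_cancel₀ hN' h3
        have := congrArg conj h4
        rw [Complex.conj_conj, map_one] at this
        exact this.symm
      · simp only [fnl, if_true, g1] at h1
        rw [Complex.conj_conj] at h1
        have h3 : (N : ℂ) * 1 = N * zt D ^ t s := by rw [mul_one]; exact h1
        exact (mul_left_cancel₀ hN' h3).symm
    exact fam_pow_ne h.two (h.cop s) h2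

end

end Pool.Agent.ALD
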