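import Pool.Agent.ALD.B2d
import Pool.Agent.ALD.Fam

/-!
# Project ALD, block B2e: `SDz` for lattices stable under `N (ζ^i, ζ^j)`
-/

set_option autoImplicit false
set_option linter.unusedSectionVars false

namespace Pool.Agent.ALD.B2

open Finset Complex ComplexConjugate

noncomputable section

variable {ι : Type} [Fintype ι] [DecidableEq ι] {δ : Derivation ℚ ℂ ℂ}

/-- **B2e**: `SDz` from `SDc` for a lattice stable under the family `fam D N t blk` -/
theorem exists_SDz_fam {J : Type} [Fintype J] (b : Module.Basis J ℝ (ι → ℂ))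
    {Λ : AddSubgroup (ι → ℂ)} (hΛ : Λ = AddSubgroup.closure (Set.range b)) {a : ι → ℝ}
    (ha : ∀ i, 0 < a i) {D N : ℕ} {t : ι → ℕ} {blk : ι → Bool} (h : CMB D t blk) (hN : 0 < N)
    (hst : ∀ g, ∀ l ∈ Λ, fam D N t blk g * l ∈ Λ)
    {c : (ι → ℂ) → (ι → ℂ) → ℂ} (hc : SDc δ Λ a c) {m : ℕ} (hm : 0 < m)
    {e S u : (ι → ℂ) → ℂ} (he : ∀ l ∈ Λ, e l ≠ 0) (hS : Vf Λ (fun i => m * a i) e S)
    (hS0 : ∃ z, S z ≠ 0) (hu : CMT.IsDer δ S u) :
    ∃ c' : ι → ℂ, SDz δ Λ a c' ∧ ∀ l ∈ Λ, ∀ k ∈ Λ,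
      c l k = ∑ s, c' s * a s * (l s * conj (k s) + conj (l s) * k s) := by
  have hD : 0 < D := lt_trans (by norm_num) h.two
  have hM : 0 < N ^ 2 * D ^ 2 := by positivity
  refine exists_SDz b hΛ ha hc hm he hS hS0 hu (α := fam D N t blk) (M := N ^ 2 * D ^ 2) hM hst
    (fun g s => der_alg (fam_alg hD N t blk g s)) ?_ (fam_norm D N t blk) (fam_sep h hN)
  intro g s hs
  have h1 := norm_fam D N t blk g s
  rw [hs, norm_zero] at h1
  have h2 : (0 : ℝ) < N := by exact_mod_cast hN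
  linarith

end

end Pool.Agent.ALD.B2
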