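import Pool.Agent.ALD.B2e
import Pool.Agent.ALD.B1Main
import Pool.Agent.ALD.PDer

/-!
# Project ALD, block B2f: final form of block B2

For a polarised lattice `(Λ, a)` stable under `N (ζ^i, ζ^j)`: the exponents `c'` with `SDz δ Λ a c'`
exist (for every derivation `δ`), and the second difference form of `(Λ, a)` is diagonal.
-/

set_option autoImplicit false
set_option linter.unusedSectionVars false

namespace Pool.Agent.ALD.B2

open Finset Complex ComplexConjugate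

noncomputable section

variable {ι : Type} [Fintype ι] [DecidableEq ι] {J : Type} [Fintype J]

/-- an even theta function of level `2` with value `1` at `0` -/
theorem exists_level_two (b : Module.Basis J ℝ (ι → ℂ)) {a : ι → ℝ} (ha : ∀ i, 0 < a i)
    (hint : ∀ l ∈ AddSubgroup.closure (Set.range b), ∀ k ∈ AddSubgroup.closure (Set.range b),
      ∃ n : ℤ, aa a l k - aa a k l = 2 * Real.pi * I * n) :
    ∃ P : (ι → ℂ) → ℂ, Vf (AddSubgroup.closure (Set.range b))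
      (fun i => ((2 : ℕ) : ℝ) * a i) (fun _ => 1) P ∧ (∀ z, P (-z) = P z) ∧ P 0 = 1 := by
  refine exists_even b _ (fun i => by have := ha i; positivity) fun j k => ?_
  obtain ⟨n, hn⟩ := hint (b j) (AddSubgroup.subset_closure ⟨j, rfl⟩) (b k)
    (AddSubgroup.subset_closure ⟨k, rfl⟩)
  refine ⟨n, ?_⟩
  rw [aa_sub_aa] at hn
  have h1 : ((aa a (b j) (b k)).im : ℂ) = ((Real.pi * n : ℝ) : ℂ) := by
    have h2 : (2 * I) * (((aa a (b j) (b k)).im : ℂ) - ((Real.pi * n : ℝ) : ℂ)) = 0 := by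
      push_cast
      linear_combination hn
    exact sub_eq_zero.1 ((mul_eq_zero.1 h2).resolve_left
      (mul_ne_zero two_ne_zero Complex.I_ne_zero))
  have h3 : (aa a (b j) (b k)).im = Real.pi * n := by exact_mod_cast h1
  rw [aa_smul]
  have h4 : ((((2 : ℕ) : ℝ) : ℂ) * aa a (b j) (b k)).im = 2 * (aa a (b j) (b k)).im := by
    simp
  rw [h4, h3]
  ring

/-- diagonality of a given form `c` with `SDc` -/
theorem diag_of_stable (δ : Derivation ℚ ℂ ℂ) (b : Module.Basis J ℝ (ι → ℂ)) {a : ι → ℝ}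
    {Λ : AddSubgroup (ι → ℂ)} (hΛ : Λ = AddSubgroup.closure (Set.range b)) (ha : ∀ i, 0 < a i)
    (hint : ∀ l ∈ Λ, ∀ k ∈ Λ, ∃ n : ℤ, aa a l k - aa a k l = 2 * Real.pi * I * n)
    {D N : ℕ} {t : ι → ℕ} {blk : ι → Bool} (h : CMB D t blk) (hN : 0 < N)
    (hst : ∀ g, ∀ l ∈ Λ, fam D N t blk g * l ∈ Λ)
    {c : (ι → ℂ) → (ι → ℂ) → ℂ} (hc : SDc δ Λ a c) :
    ∃ c' : ι → ℂ, SDz δ Λ a c' ∧ ∀ l ∈ Λ, ∀ k ∈ Λ,
      c l k = ∑ s, c' s * a s * (l s * conj (k s) + conj (l s) * k s) := by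
  subst hΛ
  obtain ⟨P, hP, -, hP0⟩ := exists_level_two b ha hint
  obtain ⟨u, hu⟩ := exists_der_Vf δ b ha hint 2 hP
  exact exists_SDz_fam b rfl ha h hN hst hc (m := 2) two_pos
    (fun _ _ => one_ne_zero) hP ⟨0, by rw [hP0]; exact one_ne_zero⟩ hu

/-- **block B2, final form** -/
theorem exists_SDz_of_stable (δ : Derivation ℚ ℂ ℂ) (b : Module.Basis J ℝ (ι → ℂ)) {a : ι → ℝ}
    {Λ : AddSubgroup (ι → ℂ)} (hΛ : Λ = AddSubgroup.closure (Set.range b)) (ha : ∀ i, 0 < a i)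
    (hint : ∀ l ∈ Λ, ∀ k ∈ Λ, ∃ n : ℤ, aa a l k - aa a k l = 2 * Real.pi * I * n)
    {D N : ℕ} {t : ι → ℕ} {blk : ι → Bool} (h : CMB D t blk) (hN : 0 < N)
    (hst : ∀ g, ∀ l ∈ Λ, fam D N t blk g * l ∈ Λ) : ∃ c' : ι → ℂ, SDz δ Λ a c' := by
  have h1 : ∃ c : (ι → ℂ) → (ι → ℂ) → ℂ, SDc δ Λ a c := by
    subst hΛ
    exact exists_SDc δ b ha hint
  obtain ⟨c, hc⟩ := h1
  obtain ⟨c', hc', -⟩ := diag_of_stable δ b hΛ ha hint h hN hst hc
  exact ⟨c', hc'⟩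

end

end Pool.Agent.ALD.B2
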