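import Mathlib

/-!
# ALD, block B4c: the algebra of (4e)

`A₀`, `A₁` are commutative `ℂ`-algebras with additive Leibniz maps `D₀`, `D₁` which induce the same
derivation `δ` of `ℂ` on the constants.  `F₀ : Option σ → A₀` and `F₁ : Option σ → A₁` are
families of eigenvectors, with eigenvalues `gₑ` at `some s` and `gₑ + kₑ` at `none`.  If the same
homogeneous polynomials vanish at `F₀` and at `F₁`, if the `F₀ (some s)` are homogeneously
independent and if there is a homogeneous relation between all `F₀ i`, then `k₀ = k₁`.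
-/

namespace Pool.Agent.ALD

open MvPolynomial

/-- `D` is an additive Leibniz map of `A` which induces `δ` on the constants. -/
structure DerOver (δ : Derivation ℚ ℂ ℂ) {A : Type*} [CommRing A] [Algebra ℂ A] (D : A →+ A) :
    Prop where
  leib : ∀ a b, D (a * b) = a * D b + b * D a
  const : ∀ c : ℂ, D (algebraMap ℂ A c) = algebraMap ℂ A (δ c)

section

variable {σ : Type*} {A : Type*} [CommRing A] [Algebra ℂ A] {δ : Derivation ℚ ℂ ℂ} {D : A →+ A}

private theorem map_pow' (hD : DerOver δ D) {x : A} {e : ℂ} (h : D x = algebraMap ℂ A e * x)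
    (n : ℕ) : D (x ^ n) = algebraMap ℂ A (n * e) * x ^ n := by
  induction n with
  | zero =>
    have h1 := hD.const 1
    rw [map_one, Derivation.map_one_eq_zero, map_zero] at h1
    simp [h1]
  | succ n ih =>
    have h2 : ((n + 1 : ℕ) : ℂ) * e = n * e + e := by
      rw [Nat.cast_succ]
      ring
    rw [pow_succ, hD.leib, ih, h, h2, map_add]
    ring

private theorem map_monomial (hD : DerOver δ D) {F : Option σ → A} {g k : ℂ}
    (h : ∀ s, D (F (some s)) = algebraMap ℂ A g * F (some s))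
    (h' : D (F none) = algebraMap ℂ A (g + k) * F none) (B : Option σ →₀ ℕ) :
    D (B.prod fun i n => F i ^ n) =
      algebraMap ℂ A (g * B.degree + k * B none) * B.prod fun i n => F i ^ n := by
  classical
  induction B using Finsupp.induction_linear with
  | zero =>
    have h1 := hD.const 1
    rw [map_one, Derivation.map_one_eq_zero, map_zero] at h1
    simp [h1]
  | add B C hB hC =>
    have h2 : g * ((B + C).degree : ℕ) + k * ((B + C) none : ℕ) =
        (g * B.degree + k * B none) + (g * C.degree + k * C none) := by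
      rw [map_add, Finsupp.add_apply, Nat.cast_add, Nat.cast_add]
      ring
    rw [Finsupp.prod_add_index' (fun _ => pow_zero _) (fun _ _ _ => pow_add _ _ _), hD.leib, hB, hC,
      h2, map_add (algebraMap ℂ A) (g * B.degree + k * B none)]
    ring
  | single i n =>
    have hs : ((Finsupp.single i n).prod fun i n => F i ^ n) = F i ^ n :=
      Finsupp.prod_single_index (pow_zero _)
    rw [hs, Finsupp.degree_single]
    cases i with
    | none =>
      have h2 : g * (n : ℂ) + k * ((Finsupp.single (none : Option σ) n) none : ℕ) =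
          n * (g + k) := by
        rw [Finsupp.single_eq_same]
        ring
      rw [map_pow' hD h', h2]
    | some s =>
      have h2 : g * (n : ℂ) + k * ((Finsupp.single (some s) n) none : ℕ) = n * g := by
        rw [Finsupp.single_eq_of_ne (by simp), Nat.cast_zero]
        ring
      rw [map_pow' hD (h s), h2]

/-- The operator on polynomials which corresponds to `D`. -/
noncomputable def twist (δ : Derivation ℚ ℂ ℂ) (g k : ℂ) (Q : MvPolynomial (Option σ) ℂ) :
    MvPolynomial (Option σ) ℂ :=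
  ∑ B ∈ Q.support, monomial B (δ (coeff B Q) + (g * B.degree + k * B none) * coeff B Q)

private theorem coeff_twist (δ : Derivation ℚ ℂ ℂ) (g k : ℂ) (Q : MvPolynomial (Option σ) ℂ)
    (B : Option σ →₀ ℕ) :
    coeff B (twist δ g k Q) = δ (coeff B Q) + (g * B.degree + k * B none) * coeff B Q := by
  classical
  rw [twist, coeff_sum]
  simp only [coeff_monomial]
  rw [Finset.sum_ite_eq' Q.support B]
  split_ifs with h
  · rfl
  · rw [notMem_support_iff] at h
    simp [h]

private theorem aeval_twist (hD : DerOver δ D) {F : Option σ → A} {g k : ℂ}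
    (h : ∀ s, D (F (some s)) = algebraMap ℂ A g * F (some s))
    (h' : D (F none) = algebraMap ℂ A (g + k) * F none) (Q : MvPolynomial (Option σ) ℂ) :
    aeval F (twist δ g k Q) = D (aeval F Q) := by
  conv_rhs => rw [Q.as_sum]
  rw [twist, map_sum, map_sum, map_sum]
  refine Finset.sum_congr rfl fun B _ => ?_
  rw [aeval_monomial, aeval_monomial, hD.leib, hD.const, map_monomial hD h h', map_add, map_mul]
  ring

end

/-- A relation of minimal support has a constant exponent at `none` if the relations are closed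
under the multiplication of the coefficients with this exponent. -/
private theorem exists_graded {σ : Type*} (I : Submodule ℂ (MvPolynomial (Option σ) ℂ))
    (hI : ∀ Q ∈ I, ∃ R ∈ I, ∀ B, coeff B R = (B none : ℂ) * coeff B Q)
    (h : ∃ Q ∈ I, Q ≠ 0) :
    ∃ Q ∈ I, Q ≠ 0 ∧ ∃ i : ℕ, ∀ B ∈ Q.support, B none = i := by
  classical
  -- minimal support
  have hex : ∃ n, ∃ Q ∈ I, Q ≠ 0 ∧ Q.support.card = n := by
    obtain ⟨Q, hQ, h0⟩ := h
    exact ⟨_, Q, hQ, h0, rfl⟩
  obtain ⟨Q, hQ, h0, hn⟩ := Nat.find_spec hex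
  have hmin : ∀ R ∈ I, R ≠ 0 → Q.support.card ≤ R.support.card := by
    intro R hR hR0
    rw [hn]
    exact Nat.find_min' hex ⟨R, hR, hR0, rfl⟩
  obtain ⟨A, hA⟩ := support_nonempty.mpr h0
  refine ⟨Q, hQ, h0, A none, ?_⟩
  obtain ⟨R, hR, hRc⟩ := hI Q hQ
  have h1 : R - (A none : ℂ) • Q ∈ I := I.sub_mem hR (I.smul_mem _ hQ)
  have hc : ∀ B, coeff B (R - (A none : ℂ) • Q) = ((B none : ℂ) - (A none : ℂ)) * coeff B Q := by
    intro B
    rw [coeff_sub, coeff_smul, hRc, smul_eq_mul]
    ring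
  have hzero : R - (A none : ℂ) • Q = 0 := by
    by_contra hne
    have h2 := hmin _ h1 hne
    have h3 : (R - (A none : ℂ) • Q).support ⊆ Q.support.erase A := by
      intro B hB
      rw [mem_support_iff, hc] at hB
      rw [Finset.mem_erase, mem_support_iff]
      refine ⟨?_, right_ne_zero_of_mul hB⟩
      rintro rfl
      exact hB (by simp)
    have h4 := Finset.card_le_card h3
    rw [Finset.card_erase_of_mem hA] at h4
    have h5 : 0 < Q.support.card := Finset.card_pos.mpr ⟨A, hA⟩
    omega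
  intro B hB
  have h6 := hc B
  rw [hzero, coeff_zero] at h6
  rw [mem_support_iff] at hB
  have h7 := (mul_eq_zero.mp h6.symm).resolve_right hB
  exact_mod_cast sub_eq_zero.mp h7

private theorem graded_contra {σ : Type*} {A : Type*} [CommRing A] [IsDomain A] [Algebra ℂ A]
    (F : Option σ → A) (hne : F none ≠ 0)
    (hind : ∀ (d : ℕ) (Q : MvPolynomial σ ℂ), Q.IsHomogeneous d →
      aeval (fun s => F (some s)) Q = 0 → Q = 0)
    {d : ℕ} {Q : MvPolynomial (Option σ) ℂ} (hQ : Q.IsHomogeneous d) (hQ0 : Q ≠ 0)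
    (hrel : aeval F Q = 0) {i : ℕ} (hi : ∀ B ∈ Q.support, B none = i) : False := by
  classical
  let Q' : MvPolynomial σ ℂ := ∑ B ∈ Q.support, monomial B.some (coeff B Q)
  have hinj : ∀ B ∈ Q.support, ∀ C ∈ Q.support, B.some = C.some → B = C := by
    intro B hB C hC h
    ext a
    cases a with
    | none => rw [hi B hB, hi C hC]
    | some s =>
      have := DFunLike.congr_fun h s
      simpa using this
  have h1 : aeval F Q = F none ^ i * aeval (fun s => F (some s)) Q' := by
    conv_lhs => rw [Q.as_sum]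
    simp only [Q']
    rw [map_sum, map_sum, Finset.mul_sum]
    refine Finset.sum_congr rfl fun B hB => ?_
    rw [aeval_monomial, aeval_monomial]
    have h2 : (B.prod fun i n => F i ^ n) = F none ^ (B none) *
        B.some.prod fun s n => F (some s) ^ n :=
      Finsupp.prod_option_index B _ (fun _ => pow_zero _) (fun _ _ _ => pow_add _ _ _)
    rw [h2, hi B hB]
    ring
  have h3 : Q'.IsHomogeneous (d - i) := by
    refine IsHomogeneous.sum _ _ _ fun B hB => isHomogeneous_monomial _ ?_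
    have h4 : B.degree = d := by
      by_contra h5
      exact (mem_support_iff.mp hB) (hQ.coeff_eq_zero h5)
    have h6 : B.degree = B none + B.some.degree := by
      have : (B.sum fun _ n => n) = B none + B.some.sum fun _ n => n :=
        Finsupp.sum_option_index B _ (fun _ => rfl) (fun _ _ _ => rfl)
      exact this
    rw [hi B hB] at h6
    omega
  have h7 : aeval (fun s => F (some s)) Q' = 0 := by
    rw [h1] at hrel
    exact (mul_eq_zero.mp hrel).resolve_left (pow_ne_zero _ hne)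
  have h8 := hind _ _ h3 h7
  obtain ⟨C, hC⟩ := support_nonempty.mpr hQ0
  have h9 : coeff C.some Q' = coeff C Q := by
    simp only [Q']
    rw [coeff_sum, Finset.sum_eq_single C]
    · rw [coeff_monomial, if_pos rfl]
    · intro B hB hBC
      rw [coeff_monomial, if_neg]
      intro h
      exact hBC (hinj B hB C hC h)
    · intro h
      exact absurd hC h
  rw [h8, coeff_zero] at h9
  exact (mem_support_iff.mp hC) h9.symm

/-- (4e). -/
theorem k_eq {σ : Type*} {A₀ A₁ : Type*} [CommRing A₀] [IsDomain A₀] [CommRing A₁] [Algebra ℂ A₀]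
    [Algebra ℂ A₁] {δ : Derivation ℚ ℂ ℂ} {D₀ : A₀ →+ A₀} {D₁ : A₁ →+ A₁} (hD₀ : DerOver δ D₀)
    (hD₁ : DerOver δ D₁) {F₀ : Option σ → A₀} {F₁ : Option σ → A₁} {g₀ k₀ g₁ k₁ : ℂ}
    (h₀ : ∀ s, D₀ (F₀ (some s)) = algebraMap ℂ A₀ g₀ * F₀ (some s))
    (h₀' : D₀ (F₀ none) = algebraMap ℂ A₀ (g₀ + k₀) * F₀ none)
    (h₁ : ∀ s, D₁ (F₁ (some s)) = algebraMap ℂ A₁ g₁ * F₁ (some s))
    (h₁' : D₁ (F₁ none) = algebraMap ℂ A₁ (g₁ + k₁) * F₁ none)
    (hT : ∀ (d : ℕ) (Q : MvPolynomial (Option σ) ℂ), Q.IsHomogeneous d →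
      (aeval F₀ Q = 0 ↔ aeval F₁ Q = 0))
    (hne : F₀ none ≠ 0)
    (hind : ∀ (d : ℕ) (Q : MvPolynomial σ ℂ), Q.IsHomogeneous d →
      aeval (fun s => F₀ (some s)) Q = 0 → Q = 0)
    (hdep : ∃ (d : ℕ) (Q : MvPolynomial (Option σ) ℂ), Q.IsHomogeneous d ∧ Q ≠ 0 ∧
      aeval F₀ Q = 0) : k₀ = k₁ := by
  classical
  by_contra hk
  obtain ⟨d, Q₀, hQ₀, hQ₀0, hQ₀r⟩ := hdep
  let I : Submodule ℂ (MvPolynomial (Option σ) ℂ) :=
    homogeneousSubmodule (Option σ) ℂ d ⊓ LinearMap.ker (aeval F₀).toLinearMap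
  have hmem : ∀ Q, Q ∈ I ↔ Q.IsHomogeneous d ∧ aeval F₀ Q = 0 := fun Q => Iff.rfl
  have htw : ∀ (g k : ℂ) (Q : MvPolynomial (Option σ) ℂ), Q.IsHomogeneous d →
      (twist δ g k Q).IsHomogeneous d := by
    intro g k Q hQ
    refine IsHomogeneous.sum _ _ _ fun B hB => isHomogeneous_monomial _ ?_
    by_contra h5
    exact (mem_support_iff.mp hB) (hQ.coeff_eq_zero h5)
  have hI : ∀ Q ∈ I, ∃ R ∈ I, ∀ B, coeff B R = (B none : ℂ) * coeff B Q := by
    intro Q hQ
    rw [hmem] at hQ
    have t0 : twist δ g₀ k₀ Q ∈ I := by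
      rw [hmem]
      refine ⟨htw _ _ _ hQ.1, ?_⟩
      rw [aeval_twist hD₀ h₀ h₀', hQ.2, map_zero]
    have t1 : twist δ g₁ k₁ Q ∈ I := by
      rw [hmem]
      refine ⟨htw _ _ _ hQ.1, ?_⟩
      rw [hT d _ (htw _ _ _ hQ.1), aeval_twist hD₁ h₁ h₁', (hT d _ hQ.1).mp hQ.2, map_zero]
    have hQI : Q ∈ I := (hmem Q).mpr hQ
    refine ⟨(k₀ - k₁)⁻¹ • (twist δ g₀ k₀ Q - twist δ g₁ k₁ Q - ((g₀ - g₁) * d) • Q),
      I.smul_mem _ (I.sub_mem (I.sub_mem t0 t1) (I.smul_mem _ hQI)), fun B => ?_⟩
    have hk' : k₀ - k₁ ≠ 0 := sub_ne_zero.mpr hk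
    rw [coeff_smul, coeff_sub, coeff_sub, coeff_smul, coeff_twist, coeff_twist]
    simp only [smul_eq_mul]
    by_cases hB : coeff B Q = 0
    · rw [hB]
      simp
    · have hd : B.degree = d := by
        by_contra h5
        exact hB (hQ.1.coeff_eq_zero h5)
      rw [hd]
      field_simp
      ring
  obtain ⟨Q, hQ, hQ0, i, hi⟩ := exists_graded I hI ⟨Q₀, (hmem Q₀).mpr ⟨hQ₀, hQ₀r⟩, hQ₀0⟩
  rw [hmem] at hQ
  exact graded_contra F₀ hne hind hQ.1 hQ0 hQ.2 hi

end Pool.Agent.ALD
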