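import Mathlib

/-!
# Algebraic independence from a jacobian

* `eq_zero_of_eventually`: a polynomial which vanishes near a point is zero;
* `indep_of_det`: analytic functions with nonzero jacobian determinant are algebraically
  independent;
* `hom_indep`, `hom_indep_pow`: `|ι| + 1` analytic functions `θ_i` of `|ι|` variables with
  `det (θ_i, ∂_t θ_i) ≠ 0` satisfy no homogeneous polynomial relation, and the same for `θ_i ^ N`;
* `quot_indep`: the quotients `θ_t / θ_none` are algebraically independent.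
-/

namespace Pool.Agent.ALD

open MvPolynomial Filter Topology

/-- A polynomial which vanishes near a point is zero. -/
theorem eq_zero_of_eventually {σ : Type*} [Fintype σ] {P : MvPolynomial σ ℂ} {a : σ → ℂ}
    (h : ∀ᶠ x in 𝓝 a, eval x P = 0) : P = 0 := by
  obtain ⟨ε, hε, hb⟩ := Metric.eventually_nhds_iff_ball.mp h
  refine funext_set (fun i => Metric.ball (a i) ε) (fun i => ?_) fun x hx => ?_
  · exact infinite_of_mem_nhds (a i) (Metric.ball_mem_nhds _ hε)
  · rw [map_zero]
    refine hb x ?_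
    rw [Metric.mem_ball, dist_pi_lt_iff hε]
    exact fun i => hx i (Set.mem_univ i)

variable {ι : Type*} [Fintype ι] [DecidableEq ι]

/-- The inverse function theorem for analytic functions with nonzero jacobian. -/
theorem map_nhds_of_det {F : (ι → ℂ) → ι → ℂ} {w₀ : ι → ℂ}
    (hF : ∀ i, AnalyticAt ℂ (fun w => F w i) w₀)
    (hdet : (Matrix.of fun i t : ι => fderiv ℂ (fun w => F w i) w₀ (Pi.single t 1)).det ≠ 0) :
    Filter.map F (𝓝 w₀) = 𝓝 (F w₀) := by
  let L : (ι → ℂ) →L[ℂ] (ι → ℂ) := ContinuousLinearMap.pi fun i => fderiv ℂ (fun w => F w i) w₀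
  have hL : HasStrictFDerivAt F L w₀ := by
    rw [hasStrictFDerivAt_pi']
    intro i
    exact (hF i).hasStrictFDerivAt
  refine hL.map_nhds_eq_of_surj ?_
  rw [LinearMap.range_eq_top]
  intro y
  let M : Matrix ι ι ℂ := Matrix.of fun i t : ι => fderiv ℂ (fun w => F w i) w₀ (Pi.single t 1)
  have hM : Function.Surjective M.mulVec := by
    rw [Matrix.mulVec_surjective_iff_isUnit, Matrix.isUnit_iff_isUnit_det]
    exact isUnit_iff_ne_zero.mpr hdet
  obtain ⟨v, hv⟩ := hM y
  refine ⟨v, ?_⟩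
  rw [← hv]
  ext i
  have hvs : v = ∑ t, v t • (Pi.single t (1 : ℂ) : ι → ℂ) := by
    conv_lhs => rw [pi_eq_sum_univ' v]
  change fderiv ℂ (fun w => F w i) w₀ v = ∑ t, M i t * v t
  conv_lhs => rw [hvs]
  rw [map_sum]
  refine Finset.sum_congr rfl fun t _ => ?_
  rw [map_smul, smul_eq_mul, mul_comm]
  rfl

/-- Analytic functions with nonzero jacobian are algebraically independent. -/
theorem indep_of_det {F : (ι → ℂ) → ι → ℂ} {w₀ : ι → ℂ}
    (hF : ∀ i, AnalyticAt ℂ (fun w => F w i) w₀)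
    (hdet : (Matrix.of fun i t : ι => fderiv ℂ (fun w => F w i) w₀ (Pi.single t 1)).det ≠ 0)
    {P : MvPolynomial ι ℂ} (h : ∀ᶠ w in 𝓝 w₀, eval (F w) P = 0) : P = 0 := by
  have h1 : ∀ᶠ x in Filter.map F (𝓝 w₀), eval x P = 0 := h
  rw [map_nhds_of_det hF hdet] at h1
  exact eq_zero_of_eventually h1

/-- The cone over the image of `θ` is open near `θ (w₀)`. -/
theorem cone_nhds {θ : Option ι → (ι → ℂ) → ℂ} {w₀ : ι → ℂ} (hθ : ∀ i, AnalyticAt ℂ (θ i) w₀)
    (hdet : (Matrix.of fun i j : Option ι =>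
      j.elim (θ i w₀) (fun t => fderiv ℂ (θ i) w₀ (Pi.single t 1))).det ≠ 0)
    {p : (Option ι → ℂ) → Prop}
    (h : ∀ᶠ u : ℂ × (ι → ℂ) in 𝓝 ((1 : ℂ), w₀), p fun i => u.1 * θ i u.2) :
    ∀ᶠ x in 𝓝 (fun i => θ i w₀), p x := by
  let u₀ : Option ι → ℂ := fun i => i.elim 1 w₀
  let π : (Option ι → ℂ) →L[ℂ] (ι → ℂ) :=
    ContinuousLinearMap.pi fun t => ContinuousLinearMap.proj (some t)
  let π₀ : (Option ι → ℂ) →L[ℂ] ℂ := ContinuousLinearMap.proj none
  have hπ₀ : π u₀ = w₀ := rfl
  have hπ₁ : π₀ u₀ = 1 := rfl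
  let G : (Option ι → ℂ) → Option ι → ℂ := fun u i => π₀ u * θ i (π u)
  have hGi : ∀ i, HasStrictFDerivAt (fun u => G u i)
      (π₀ u₀ • ((fderiv ℂ (θ i) w₀).comp π) + θ i (π u₀) • π₀) u₀ := by
    intro i
    have h1 : HasStrictFDerivAt (fun u => θ i (π u)) ((fderiv ℂ (θ i) w₀).comp π) u₀ :=
      HasStrictFDerivAt.comp (f := π) u₀ (hθ i).hasStrictFDerivAt π.hasStrictFDerivAt
    exact π₀.hasStrictFDerivAt.mul h1
  have hGa : ∀ i, AnalyticAt ℂ (fun u => G u i) u₀ := by
    intro i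
    have h1 : AnalyticAt ℂ (fun u => θ i (π u)) u₀ :=
      AnalyticAt.comp (f := π) (hθ i) (π.analyticAt u₀)
    exact (π₀.analyticAt u₀).mul h1
  have hG : Filter.map G (𝓝 u₀) = 𝓝 (G u₀) := by
    refine map_nhds_of_det hGa ?_
    have hm : (Matrix.of fun i t : Option ι => fderiv ℂ (fun w => G w i) u₀ (Pi.single t 1)) =
        Matrix.of fun i j : Option ι =>
          j.elim (θ i w₀) (fun t => fderiv ℂ (θ i) w₀ (Pi.single t 1)) := by
      ext i j
      rw [Matrix.of_apply, Matrix.of_apply, (hGi i).hasFDerivAt.fderiv]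
      simp only [add_apply, smul_apply,
        ContinuousLinearMap.comp_apply, hπ₀, hπ₁, one_smul, smul_eq_mul]
      cases j with
      | none =>
        have e1 : π (Pi.single none 1) = 0 := by
          ext t
          simp [π]
        have e2 : π₀ (Pi.single none 1) = 1 := by
          simp [π₀]
        rw [e1, e2, map_zero]
        simp
      | some t =>
        have e1 : π (Pi.single (some t) 1) = Pi.single t 1 := by
          ext s
          by_cases hst : s = t
          · subst hst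
            simp [π]
          · simp [π, Pi.single_eq_of_ne, hst]
        have e2 : π₀ (Pi.single (some t) 1) = 0 := by
          simp [π₀]
        rw [e1, e2]
        simp
    rw [hm]
    exact hdet
  have hG0 : G u₀ = fun i => θ i w₀ := by
    ext i
    change (1 : ℂ) * θ i w₀ = θ i w₀
    rw [one_mul]
  rw [← hG0, ← hG]
  have hc : Tendsto (fun u : Option ι → ℂ => (π₀ u, π u)) (𝓝 u₀) (𝓝 ((1 : ℂ), w₀)) := by
    have : Continuous fun u : Option ι → ℂ => (π₀ u, π u) := by fun_prop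
    exact this.tendsto u₀
  exact hc.eventually h

/-- Homogeneous polynomials scale. -/
theorem eval_mul_left {σ : Type*} {d : ℕ} {Q : MvPolynomial σ ℂ} (hQ : Q.IsHomogeneous d)
    (c : ℂ) (x : σ → ℂ) : eval (fun i => c * x i) Q = c ^ d * eval x Q := by
  rw [eval_eq, eval_eq, Finset.mul_sum]
  refine Finset.sum_congr rfl fun B hB => ?_
  have hd : B.degree = d := by
    by_contra h5
    exact (mem_support_iff.mp hB) (hQ.coeff_eq_zero h5)
  have h1 : ∏ i ∈ B.support, (c * x i) ^ B i = c ^ d * ∏ i ∈ B.support, x i ^ B i := by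
    simp only [mul_pow]
    rw [Finset.prod_mul_distrib, Finset.prod_pow_eq_pow_sum, ← Finsupp.degree_apply, hd]
  rw [h1]
  ring

/-- `|ι| + 1` functions of `|ι|` variables with nonzero homogeneous jacobian: their `N`-th powers
satisfy no homogeneous relation. -/
theorem hom_indep_pow {θ : Option ι → (ι → ℂ) → ℂ} {w₀ : ι → ℂ}
    (hθ : ∀ i, AnalyticAt ℂ (θ i) w₀)
    (hdet : (Matrix.of fun i j : Option ι =>
      j.elim (θ i w₀) (fun t => fderiv ℂ (θ i) w₀ (Pi.single t 1))).det ≠ 0)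
    {N : ℕ} (hN : N ≠ 0) {d : ℕ} {Q : MvPolynomial (Option ι) ℂ} (hQ : Q.IsHomogeneous d)
    (h : ∀ᶠ w in 𝓝 w₀, eval (fun i => θ i w ^ N) Q = 0) : Q = 0 := by
  rw [← expand_eq_zero (Nat.pos_of_ne_zero hN)]
  refine eq_zero_of_eventually (a := fun i => θ i w₀) ?_
  have h0 : ∀ᶠ x in 𝓝 (fun i => θ i w₀), eval (fun i => x i ^ N) Q = 0 := by
    refine cone_nhds hθ hdet ?_
    have h1 : ∀ᶠ u : ℂ × (ι → ℂ) in 𝓝 ((1 : ℂ), w₀), eval (fun i => θ i u.2 ^ N) Q = 0 :=
      (continuous_snd.tendsto ((1 : ℂ), w₀)).eventually h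
    filter_upwards [h1] with u hu
    simp only [mul_pow]
    rw [eval_mul_left hQ, hu, mul_zero]
  filter_upwards [h0] with x hx
  rw [eval_expand]
  exact hx

/-- `|ι| + 1` functions of `|ι|` variables with nonzero homogeneous jacobian satisfy no homogeneous
relation. -/
theorem hom_indep {θ : Option ι → (ι → ℂ) → ℂ} {w₀ : ι → ℂ} (hθ : ∀ i, AnalyticAt ℂ (θ i) w₀)
    (hdet : (Matrix.of fun i j : Option ι =>
      j.elim (θ i w₀) (fun t => fderiv ℂ (θ i) w₀ (Pi.single t 1))).det ≠ 0)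
    {d : ℕ} {Q : MvPolynomial (Option ι) ℂ} (hQ : Q.IsHomogeneous d)
    (h : ∀ᶠ w in 𝓝 w₀, eval (fun i => θ i w) Q = 0) : Q = 0 := by
  refine hom_indep_pow hθ hdet one_ne_zero hQ ?_
  simpa only [pow_one] using h

/-- The quotients `θ_t / θ_none` are algebraically independent. -/
theorem quot_indep {θ : Option ι → (ι → ℂ) → ℂ} {w₀ : ι → ℂ} (hθ : ∀ i, AnalyticAt ℂ (θ i) w₀)
    (hdet : (Matrix.of fun i j : Option ι =>
      j.elim (θ i w₀) (fun t => fderiv ℂ (θ i) w₀ (Pi.single t 1))).det ≠ 0)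
    (h0 : θ none w₀ ≠ 0) {P : MvPolynomial ι ℂ}
    (h : ∀ᶠ w in 𝓝 w₀, eval (fun t => θ (some t) w / θ none w) P = 0) : P = 0 := by
  have h1 : ∀ᶠ x in 𝓝 (fun i => θ i w₀), eval (fun t => x (some t) / x none) P = 0 := by
    refine cone_nhds hθ hdet ?_
    have h2 : ∀ᶠ u : ℂ × (ι → ℂ) in 𝓝 ((1 : ℂ), w₀),
        eval (fun t => θ (some t) u.2 / θ none u.2) P = 0 :=
      (continuous_snd.tendsto ((1 : ℂ), w₀)).eventually h
    have h3 : ∀ᶠ u : ℂ × (ι → ℂ) in 𝓝 ((1 : ℂ), w₀), u.1 ≠ 0 :=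
      (continuous_fst.tendsto ((1 : ℂ), w₀)).eventually (isOpen_ne.mem_nhds one_ne_zero)
    filter_upwards [h2, h3] with u hu hu1
    have h4 : (fun t => u.1 * θ (some t) u.2 / (u.1 * θ none u.2)) =
        fun t => θ (some t) u.2 / θ none u.2 := by
      ext t
      rw [mul_div_mul_left _ _ hu1]
    rw [h4, hu]
  let c := θ none w₀
  let a : ι → ℂ := fun t => θ (some t) w₀ / c
  have hcont : Continuous fun y : ι → ℂ => fun i : Option ι => i.elim c (fun t => c * y t) := by
    refine continuous_pi fun i => ?_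
    cases i with
    | none => exact continuous_const
    | some t => exact continuous_const.mul (continuous_apply t)
  have hval : (fun i : Option ι => i.elim c (fun t => c * a t)) = fun i => θ i w₀ := by
    ext i
    cases i with
    | none => rfl
    | some t =>
      change c * (θ (some t) w₀ / c) = _
      rw [mul_div_cancel₀ _ h0]
  refine eq_zero_of_eventually (a := a) ?_
  have h5 := hcont.tendsto a
  rw [hval] at h5
  filter_upwards [h5.eventually h1] with y hy
  have h6 : (fun t => c * y t / c) = y := by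
    ext t
    exact mul_div_cancel_left₀ _ h0
  change eval (fun t => c * y t / c) P = 0 at hy
  rwa [h6] at hy

end Pool.Agent.ALD
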