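import Pool.Agent.ALD.Ucore

/-!
# ALD-USDz: uniqueness of the exponents of `SDz`

`SDz δ Λ a c`, `SDz δ Λ a' c'` for two polarisations of one lattice (each with one nonzero theta function of
some level which has a `δ`-derivative) imply `c = c'`; the second form is for functions
`f(z) = s(v z)`, `s` with algebraic jets.
-/

set_option autoImplicit false
set_option linter.unusedSectionVars false

namespace Pool.Agent.ALD

open Finset Complex ComplexConjugate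

noncomputable section

variable {ι : Type} [Fintype ι] [DecidableEq ι]

/-- the second difference of `u` if that of `u - E_c f` vanishes -/
theorem dif_dif_of_Ec {Λ : AddSubgroup (ι → ℂ)} {a : ι → ℝ} {χ f u : (ι → ℂ) → ℂ} {c : ι → ℂ}
    (hχ : ∀ l ∈ Λ, χ l ≠ 0) (hf : Vf Λ a χ f)
    (h : ∀ k ∈ Λ, ∀ l ∈ Λ, ∀ z, dif a χ k (dif a χ l (fun z => u z - Ec c f z)) z = 0) :
    ∀ k ∈ Λ, ∀ l ∈ Λ, ∀ z, dif a χ k (dif a χ l u) z = dgf (fun s => c s * a s) l k * f z := by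
  intro k hk l hl z
  have h1 := h k hk l hl z
  rw [B2.dif_sub, B2.dif_sub] at h1
  have h2 := B2.dif_dif_Ec hf c hl hk (hχ l hl) (hχ k hk) z
  rw [sub_eq_zero] at h1
  rw [h1, h2]
  rfl

theorem u_SDz {J : Type} [Fintype J] (δ : Derivation ℚ ℂ ℂ) (b : Module.Basis J ℝ (ι → ℂ))
    {Λ : AddSubgroup (ι → ℂ)} (hΛ : Λ = AddSubgroup.closure (Set.range b)) {a a' : ι → ℝ}
    (hpos : ∀ i, 0 < a i) (hpos' : ∀ i, 0 < a' i)
    (hint : ∀ j k, ∃ n : ℤ, (aa a (b j) (b k)).im = Real.pi * n)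
    (hint' : ∀ j k, ∃ n : ℤ, (aa a' (b j) (b k)).im = Real.pi * n)
    {m m' : ℕ} (hm : 0 < m) (hm' : 0 < m') {χ χ' f f' u u' : (ι → ℂ) → ℂ} {c c' : ι → ℂ}
    (hχ : ∀ l ∈ Λ, χ l ≠ 0) (hχ' : ∀ l ∈ Λ, χ' l ≠ 0) (hf : Vf Λ (fun i => m * a i) χ f)
    (hf' : Vf Λ (fun i => m' * a' i) χ' f') (hne : ∃ z, f z ≠ 0) (hne' : ∃ z, f' z ≠ 0)
    (hu : CMT.IsDer δ f u) (hu' : CMT.IsDer δ f' u') (hc : SDz δ Λ a c) (hc' : SDz δ Λ a' c')
    (hB1 : ∀ a'' : ι → ℝ, (∀ i, 0 < a'' i) →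
      (∀ j k, ∃ n : ℤ, (aa a'' (b j) (b k)).im = Real.pi * n) → ∃ C, SDc δ Λ a'' C) :
    c' = c := by
  classical
  have hms : ∀ {a : ι → ℝ} {m : ℕ}, (∀ j k, ∃ n : ℤ, (aa a (b j) (b k)).im = Real.pi * n) →
      ∀ j k, ∃ n : ℤ, (aa (fun i => m * a i) (b j) (b k)).im = Real.pi * n := by
    intro a m h j k
    obtain ⟨n, hn⟩ := h j k
    refine ⟨m * n, ?_⟩
    have : (fun i => (m : ℝ) * a i) = fun i => ((m : ℝ)) * a i := rfl
    rw [this, B2.aa_smul, Complex.im_ofReal_mul, hn]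
    push_cast
    ring
  have hm0 : (0 : ℝ) < m := by exact_mod_cast hm
  have hm0' : (0 : ℝ) < m' := by exact_mod_cast hm'
  have e := u_core δ b Λ hΛ (a := fun i => m * a i) (a' := fun i => m' * a' i)
    (fun i => mul_pos hm0 (hpos i)) (fun i => mul_pos hm0' (hpos' i)) (hms hint) (hms hint')
    hχ hχ' hf hf' hne hne' hu hu' (c := c) (c' := c')
    (dif_dif_of_Ec hχ hf (hc m χ f u hm hχ hf hne hu))
    (dif_dif_of_Ec hχ' hf' (hc' m' χ' f' u' hm' hχ' hf' hne' hu')) hB1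
  exact e

end

end Pool.Agent.ALD
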