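import Pool.Agent.ALD.EDefs
import Pool.Agent.ALD.B2f
import Pool.Agent.ALD.USDz

/-!
# ALD, final forms: what is used from blocks B1, B2, U (interface)

PLAN: one line each from the final theorems of B1 (helper10), B2 (helper84), U (helper29), F (helper98).
`bi_ex`: for `P ∈ V_a(1)` of the lattice `2Λ`, `P(0) ≠ 0`, take `f(z) = P(2z)`: `me a (2z) (2l) = 4 me a z l`.
-/

set_option autoImplicit false
set_option linter.unusedSectionVars false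

namespace Pool.Agent.ALD

open Finset Complex ComplexConjugate

noncomputable section

variable {ι : Type} [Fintype ι] [DecidableEq ι]

/-- `δ`-derivatives exist -/
theorem bi_der {Λ : AddSubgroup (ι → ℂ)} {a : ι → ℝ} (h : Pol Λ a) (δ : Derivation ℚ ℂ ℂ) {m : ℕ}
    (hm : 0 < m) {χ : (ι → ℂ) → ℂ} (hχ : ∀ l ∈ Λ, χ l ≠ 0) {f : (ι → ℂ) → ℂ}
    (hf : Vf Λ (fun i => m * a i) χ f) : ∃ u, CMT.IsDer δ f u := by
  obtain ⟨J, _, b, hb⟩ := h.bas
  have hi := h.int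
  rw [hb] at hi hf
  exact exists_der_Vf δ b h.pos hi m hf

/-- theta functions exist -/
theorem bi_ex {Λ : AddSubgroup (ι → ℂ)} {a : ι → ℝ} (h : Pol Λ a) :
    ∃ f, Vf Λ (fun i => (4 : ℕ) * a i) (fun _ => 1) f ∧ f 0 ≠ 0 := by
  obtain ⟨J, _, b, hb⟩ := h.bas
  have hi := h.int
  rw [hb] at hi
  obtain ⟨P, hP, -, hP0⟩ := exists_P b h.pos hi
  refine ⟨fun z => P (z + z), ⟨hP.1.comp (by fun_prop), ?_⟩, ?_⟩
  · intro l hl z
    rw [hb] at hl
    have h1 := hP.2 (l + l) ((mem_dbl b _).2 ⟨l, hl, rfl⟩) (z + z)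
    have h2 : z + l + (z + l) = z + z + (l + l) := by abel
    beta_reduce
    rw [h2, h1]
    congr 3
    unfold me
    refine Finset.sum_congr rfl fun i _ => ?_
    have h3 : ((‖(l + l) i‖ ^ 2 / 2 : ℝ) : ℂ) = 4 * ((‖l i‖ ^ 2 / 2 : ℝ) : ℂ) := by
      have : (l + l) i = 2 * l i := by rw [Pi.add_apply]; ring
      rw [this, norm_mul]
      push_cast
      rw [Complex.norm_two]
      push_cast
      ring
    rw [h3]
    simp only [Pi.add_apply, map_add]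
    push_cast
    ring
  · beta_reduce
    rw [add_zero, hP0]
    exact one_ne_zero

/-- finite rank -/
theorem bi_frk {Λ : AddSubgroup (ι → ℂ)} {a : ι → ℝ} (h : Pol Λ a) {χ χ' : (ι → ℂ) → ℂ}
    {f s : (ι → ℂ) → ℂ} (hf : Vf Λ a χ f) (hs : Vf Λ a χ' s) : CMT.Rec.FRk f s := by
  obtain ⟨J, _, b, hb⟩ := h.bas
  rw [hb] at hf hs
  exact frk_of_vf b hf hs

/-- the second differences of the Euler operator -/
theorem bi_E {Λ : AddSubgroup (ι → ℂ)} {a : ι → ℝ} {χ : (ι → ℂ) → ℂ} {f : (ι → ℂ) → ℂ}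
    (hχ : ∀ l ∈ Λ, χ l ≠ 0) (hf : Vf Λ a χ f) (c : ι → ℂ) {k l : ι → ℂ} (hk : k ∈ Λ) (hl : l ∈ Λ)
    (z : ι → ℂ) : dif a χ k (dif a χ l (Ec c f)) z =
      (∑ i, c i * a i * (l i * conj (k i) + k i * conj (l i))) * f z := by
  rw [B2.dif_dif_Ec hf c hl hk (hχ l hl) (hχ k hk) z]
  congr 1
  refine Finset.sum_congr rfl fun i _ => ?_
  ring

/-- blocks B1 and B2 -/
theorem bi_sd {Λ : AddSubgroup (ι → ℂ)} {a : ι → ℝ} (h : Pol Λ a) {D N : ℕ} {t : ι → ℕ}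
    {blk : ι → Bool} (ht : CMB D t blk) (hs : Stb Λ D N t blk) (δ : Derivation ℚ ℂ ℂ) :
    ∃ c, SDz δ Λ a c := by
  obtain ⟨J, _, b, hb⟩ := h.bas
  exact B2.exists_SDz_of_stable δ b hb h.pos h.int ht hs.1 hs.2

/-- block U: two polarisations of one lattice -/
theorem bi_U {Λ : AddSubgroup (ι → ℂ)} {a a' : ι → ℝ} (h : Pol Λ a) (h' : Pol Λ a') {D N : ℕ}
    {t : ι → ℕ} {blk : ι → Bool} (ht : CMB D t blk) (hs : Stb Λ D N t blk) {δ : Derivation ℚ ℂ ℂ}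
    {c c' : ι → ℂ} (hc : SDz δ Λ a c) (hc' : SDz δ Λ a' c') : c = c' := by
  obtain ⟨J, _, b, hb⟩ := h.bas
  obtain ⟨f, hf, hf0⟩ := bi_ex h
  obtain ⟨f', hf', hf0'⟩ := bi_ex h'
  obtain ⟨u, hu⟩ := bi_der h δ (m := 4) (by norm_num) (χ := fun _ => 1) (fun _ _ => one_ne_zero) hf
  obtain ⟨u', hu'⟩ := bi_der h' δ (m := 4) (by norm_num) (χ := fun _ => 1)
    (fun _ _ => one_ne_zero) hf'
  have hbm : ∀ j, b j ∈ Λ := fun j => by rw [hb]; exact AddSubgroup.subset_closure ⟨j, rfl⟩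
  have him : ∀ {A : ι → ℝ}, (∀ l ∈ Λ, ∀ k ∈ Λ, ∃ n : ℤ, aa A l k - aa A k l = 2 * Real.pi * I * n) →
      ∀ j k, ∃ n : ℤ, (aa A (b j) (b k)).im = Real.pi * n := by
    intro A hA j k
    obtain ⟨n, hn⟩ := hA _ (hbm j) _ (hbm k)
    refine ⟨n, ?_⟩
    rw [aa_sub_aa] at hn
    have h1 : ((aa A (b j) (b k)).im : ℂ) = ((Real.pi * n : ℝ) : ℂ) := by
      have h2 : (2 * I) * (((aa A (b j) (b k)).im : ℂ) - ((Real.pi * n : ℝ) : ℂ)) = 0 := by
        push_cast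
        linear_combination hn
      exact sub_eq_zero.1 ((mul_eq_zero.1 h2).resolve_left
        (mul_ne_zero two_ne_zero Complex.I_ne_zero))
    exact_mod_cast h1
  refine (u_SDz δ b hb h.pos h'.pos (him h.int) (him h'.int) (m := 4) (m' := 4) (by norm_num)
    (by norm_num) (χ := fun _ => 1) (χ' := fun _ => 1) (fun _ _ => one_ne_zero)
    (fun _ _ => one_ne_zero) hf hf' ⟨0, hf0⟩ ⟨0, hf0'⟩ hu hu' hc hc' ?_).symm
  intro a'' hpos hint
  have h3 := im_aa_closure (s := Set.range b) a'' Real.pi (by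
    rintro _ ⟨j, rfl⟩ _ ⟨k, rfl⟩
    exact hint j k)
  rw [hb]
  refine exists_SDc δ b hpos fun l hl k hk => ?_
  obtain ⟨n, hn⟩ := h3 l hl k hk
  refine ⟨n, ?_⟩
  rw [aa_sub_aa, hn]
  push_cast
  ring

end

end Pool.Agent.ALD
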