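import Mathlib

/-!
# ALD block B3, KAbs: an even periodic function with a parallelogram law is constant
-/

set_option autoImplicit false

namespace Pool.Agent.ALD

theorem const_of_parallelogram {G : Type} [AddCommGroup G] (S L : AddSubgroup G)
    (hS : ∀ r ∈ S, ∃ n : ℕ, 0 < n ∧ n • r ∈ L) (hL : L ≤ S) (γ P Q : G → ℂ)
    (hev : ∀ r ∈ S, γ (-r) = γ r) (hper : ∀ r ∈ S, ∀ l ∈ L, γ (r + l) = γ r)
    (h : ∀ r ∈ S, ∀ r' ∈ S, γ (r + r') + γ (r - r') = P r + Q r') :
    ∀ r ∈ S, γ r = γ 0 := by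
  intro r hr
  have hz : (0 : G) ∈ S := S.zero_mem
  have h00 : 2 * γ 0 = P 0 + Q 0 := by
    have := h 0 hz 0 hz
    rw [add_zero, sub_zero] at this
    rw [← this]
    ring
  have h1 : ∀ r ∈ S, 2 * γ r = P r + Q 0 := by
    intro r hr
    have := h r hr 0 hz
    rw [add_zero, sub_zero] at this
    rw [← this]
    ring
  have h2 : ∀ r ∈ S, 2 * γ r = P 0 + Q r := by
    intro r hr
    have := h 0 hz r hr
    rw [zero_add, zero_sub, hev r hr] at this
    rw [← this]
    ring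
  have h3 : ∀ r ∈ S, ∀ r' ∈ S, (γ (r + r') - γ 0) + (γ (r - r') - γ 0) =
      2 * (γ r - γ 0) + 2 * (γ r' - γ 0) := by
    intro r hr r' hr'
    linear_combination h r hr r' hr' - h1 r hr - h2 r' hr' + h00
  have h4 : ∀ n : ℕ, γ (n • r) - γ 0 = (n : ℂ) ^ 2 * (γ r - γ 0) ∧
      γ ((n + 1) • r) - γ 0 = ((n : ℂ) + 1) ^ 2 * (γ r - γ 0) := by
    intro n
    induction n with
    | zero =>
      refine ⟨?_, ?_⟩
      · rw [zero_smul, sub_self]
        simp
      · rw [zero_add, one_smul]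
        simp
    | succ n ih =>
      refine ⟨?_, ?_⟩
      · rw [ih.2]
        push_cast
        ring
      · have h5 := h3 ((n + 1) • r) (S.nsmul_mem hr _) r hr
        have h6 : (n + 1) • r + r = (n + 1 + 1) • r := (succ_nsmul r (n + 1)).symm
        have h7 : (n + 1) • r - r = n • r := by rw [succ_nsmul, add_sub_cancel_right]
        rw [h6, h7] at h5
        push_cast
        linear_combination h5 + 2 * ih.2 - ih.1
  obtain ⟨n, hn, hnL⟩ := hS r hr
  have h5 := (h4 n).1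
  have h6 := hper 0 hz (n • r) hnL
  rw [zero_add] at h6
  rw [h6, sub_self] at h5
  have h7 : ((n : ℂ)) ^ 2 ≠ 0 := pow_ne_zero _ (Nat.cast_ne_zero.2 hn.ne')
  exact sub_eq_zero.1 ((mul_eq_zero.1 h5.symm).resolve_left h7)

end Pool.Agent.ALD
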