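import Pool.Agent.ALD.KKapZ
import Pool.Agent.ALD.KAbs
import Pool.Agent.ALD.KSplit
import Pool.Agent.DRV.Ext

/-!
# ALD block B3, KGam: THEOREM T, `T_ρ^δ = (E_c + γ) T_ρ` for all torsion points with one `γ`
-/

set_option autoImplicit false
set_option linter.unusedSectionVars false

namespace Pool.Agent.ALD

open Finset Complex ComplexConjugate

noncomputable section

variable {ι : Type} [Fintype ι] [DecidableEq ι] {δ : Derivation ℚ ℂ ℂ} {Λ : AddSubgroup (ι → ℂ)}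
  {a : ι → ℝ} {χ : (ι → ℂ) → ℂ} {c : ι → ℂ} {T : (ι → ℂ) → ℂ}

private theorem kg_tri {r n m : ℕ} (F : Fin r → Fin n → ℂ) (G : Fin r → Fin m → ℂ) :
    ∑ j, (∑ k, F j k) * (∑ l, G j l) = ∑ k, ∑ l, ∑ j, F j k * G j l := by
  simp only [Finset.sum_mul_sum]
  rw [Finset.sum_comm]
  refine Finset.sum_congr rfl fun k _ => ?_
  rw [Finset.sum_comm]

private theorem kg_bilin {r n m : ℕ} (α A' β B' : Fin r → (ι → ℂ) → ℂ) (X : Fin n → (ι → ℂ))
    (P : Fin n → ℂ) (Y : Fin m → (ι → ℂ)) (Q : Fin m → ℂ) (j0 : Fin r)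
    (hα : ∀ j, ∑ k, P k * α j (X k) = if j = j0 then 1 else 0)
    (hβ : ∀ j, ∑ k, Q k * β j (Y k) = if j = j0 then 1 else 0) (g : ℂ)
    (h : ∀ x y, g * ∑ j, α j x * β j y = ∑ j, (A' j x * β j y + α j x * B' j y)) :
    g = ∑ k, P k * A' j0 (X k) + ∑ k, Q k * B' j0 (Y k) := by
  have e1 : g = g * ∑ j, (∑ k, P k * α j (X k)) * (∑ l, Q l * β j (Y l)) := by
    simp only [hα, hβ]
    simp
  have e2 : g * ∑ j, (∑ k, P k * α j (X k)) * (∑ l, Q l * β j (Y l)) =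
      ∑ k, ∑ l, P k * Q l * (g * ∑ j, α j (X k) * β j (Y l)) := by
    rw [kg_tri, Finset.mul_sum]
    refine Finset.sum_congr rfl fun k _ => ?_
    rw [Finset.mul_sum]
    refine Finset.sum_congr rfl fun l _ => ?_
    rw [Finset.mul_sum, Finset.mul_sum, Finset.mul_sum]
    refine Finset.sum_congr rfl fun j _ => ?_
    ring
  have e3 : ∑ k, ∑ l, P k * Q l * (g * ∑ j, α j (X k) * β j (Y l)) =
      ∑ j, (∑ k, P k * A' j (X k)) * (∑ l, Q l * β j (Y l)) +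
        ∑ j, (∑ k, P k * α j (X k)) * (∑ l, Q l * B' j (Y l)) := by
    rw [kg_tri, kg_tri, ← Finset.sum_add_distrib]
    refine Finset.sum_congr rfl fun k _ => ?_
    rw [← Finset.sum_add_distrib]
    refine Finset.sum_congr rfl fun l _ => ?_
    rw [h, ← Finset.sum_add_distrib, Finset.mul_sum]
    refine Finset.sum_congr rfl fun j _ => ?_
    ring
  rw [e1, e2, e3]
  simp only [hα, hβ]
  simp

/-- the subgroup of the torsion points -/
private def kgS (Λ : AddSubgroup (ι → ℂ)) : AddSubgroup (ι → ℂ) where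
  carrier := {ρ | Tor Λ ρ}
  zero_mem' := ⟨1, one_pos, by rw [smul_zero]; exact Λ.zero_mem⟩
  add_mem' := by
    rintro ρ σ ⟨n, hn, hn'⟩ ⟨m, hm, hm'⟩
    refine ⟨m * n, Nat.mul_pos hm hn, ?_⟩
    rw [smul_add]
    refine Λ.add_mem ?_ ?_
    · rw [mul_smul]
      exact Λ.nsmul_mem hn' m
    · rw [mul_comm, mul_smul]
      exact Λ.nsmul_mem hm' n
  neg_mem' := by
    rintro ρ ⟨n, hn, hn'⟩
    refine ⟨n, hn, ?_⟩
    rw [smul_neg]
    exact Λ.neg_mem hn'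

private theorem kg_gamma (C : Ctx δ Λ a χ c T) : ∃ γ : (ι → ℂ) → ℂ, ∀ ρ, Tor Λ ρ →
    ∀ v, Def1 δ c (tr a ρ T) v → ∀ z, v z = γ ρ * tr a ρ T z := by
  have h : ∀ ρ, ∃ k : ℂ, Tor Λ ρ → ∀ v, Def1 δ c (tr a ρ T) v → ∀ z, v z = k * tr a ρ T z := by
    intro ρ
    by_cases hρ : Tor Λ ρ
    · obtain ⟨v, hv⟩ := exists_def C ρ
      have hd := def1_diff (tr_diff a ρ C.hT.1) hv
      have hV : Vf Λ a (chr a χ ρ) v :=
        (vf_iff hd fun l hl => chr_ne (C.chi l hl)).2 fun l hl z => kap_tor C hρ hv hl z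
      obtain ⟨k, hk⟩ := uni_tr C ρ v hV
      refine ⟨k, fun _ w hw z => ?_⟩
      rw [def1_unique hw hv z, hk z]
    · exact ⟨0, fun h => absurd h hρ⟩
  choose γ hγ using h
  exact ⟨γ, hγ⟩

private theorem kg_cancel (C : Ctx δ Λ a χ c T) {ρ : ι → ℂ} {k k' : ℂ} (v : (ι → ℂ) → ℂ)
    (h : ∀ z, v z = k * tr a ρ T z) (h' : ∀ z, v z = k' * tr a ρ T z) : k = k' := by
  obtain ⟨z, hz⟩ := tr_ne C ρ
  have := (h z).symm.trans (h' z)
  exact mul_right_cancel₀ hz this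

private theorem kg_even (C : Ctx δ Λ a χ c T) {γ : (ι → ℂ) → ℂ} (hγ : ∀ ρ, Tor Λ ρ →
    ∀ v, Def1 δ c (tr a ρ T) v → ∀ z, v z = γ ρ * tr a ρ T z) {ρ : ι → ℂ} (hρ : Tor Λ ρ) :
    γ (-ρ) = γ ρ := by
  have hρ' : Tor Λ (-ρ) := (kgS Λ).neg_mem hρ
  obtain ⟨v, hv⟩ := exists_def C ρ
  obtain ⟨u, hu, huv⟩ := hv
  have hfd := tr_diff a ρ C.hT.1
  have hfun : (fun z => tr a ρ T (-z)) = tr a (-ρ) T := by
    funext z
    exact (tr_even a C.ev ρ z).symm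
  have hD : Def1 δ c (tr a (-ρ) T) (fun z => v (-z)) := by
    refine ⟨fun z => u (-z), ?_, fun z => ?_⟩
    · rw [← hfun]
      exact isDer_neg hfd hu
    · rw [← hfun, Ec_even hfd]
      exact huv (-z)
  refine kg_cancel C (ρ := -ρ) (fun z => v (-z)) (fun z => hγ (-ρ) hρ' _ hD z) fun z => ?_
  rw [← hfun]
  exact hγ ρ hρ v ⟨u, hu, huv⟩ (-z)

private theorem kg_root (C : Ctx δ Λ a χ c T) {ρ l : ι → ℂ} (hρ : Tor Λ ρ) (hl : l ∈ Λ) :
    IsAlgebraic ℚ (cexp (-((aa a l ρ - aa a ρ l) / 2))) := by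
  obtain ⟨n, hn, hnρ⟩ := hρ
  obtain ⟨m, hm⟩ := vf_int C.hT C.chi ⟨0, C.ne⟩ hnρ hl
  rw [aa_nsmul_left, aa_nsmul_right, ← mul_sub] at hm
  have h1 : cexp (-((aa a l ρ - aa a ρ l) / 2)) ^ (2 * n) = 1 := by
    rw [← Complex.exp_nat_mul, Complex.exp_eq_one_iff]
    refine ⟨m, ?_⟩
    push_cast
    linear_combination hm
  have h2 : IsIntegral ℚ (cexp (-((aa a l ρ - aa a ρ l) / 2)) ^ (2 * n)) := by
    rw [h1]
    exact isIntegral_one
  exact (IsIntegral.of_pow (by omega) h2).isAlgebraic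

private theorem kg_per (C : Ctx δ Λ a χ c T) {γ : (ι → ℂ) → ℂ} (hγ : ∀ ρ, Tor Λ ρ →
    ∀ v, Def1 δ c (tr a ρ T) v → ∀ z, v z = γ ρ * tr a ρ T z) {ρ l : ι → ℂ} (hρ : Tor Λ ρ)
    (hl : l ∈ Λ) : γ (ρ + l) = γ ρ := by
  have hlt : Tor Λ l := ⟨1, one_pos, by rw [one_smul]; exact hl⟩
  have hρ' : Tor Λ (ρ + l) := (kgS Λ).add_mem hρ hlt
  obtain ⟨v, hv⟩ := exists_def C ρ
  obtain ⟨u, hu, huv⟩ := hv
  have hfd := tr_diff a ρ C.hT.1
  set k : ℂ := χ l * cexp (-((aa a l ρ - aa a ρ l) / 2)) with hk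
  have hkalg : IsAlgebraic ℚ k := (C.alg l hl).mul (kg_root C hρ hl)
  have hδk : δ k = 0 := Pool.Agent.DRV.eq_zero_of_isAlgebraic δ hkalg
  have hfun : (fun z => k * tr a ρ T z) = tr a (ρ + l) T := by
    funext z
    have h1 := tr_tr a ρ l T z
    have h2 : tr a l T = fun z => χ l * T z := by
      funext z
      exact tr_lat C.hT hl z
    have h3 : tr a ρ (tr a l T) z = χ l * tr a ρ T z := by
      rw [h2]
      unfold tr
      ring
    rw [h3] at h1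
    have h4 : cexp (-((aa a l ρ - aa a ρ l) / 2)) * cexp ((aa a l ρ - aa a ρ l) / 2) = 1 := by
      rw [← Complex.exp_add, neg_add_cancel, Complex.exp_zero]
    calc k * tr a ρ T z = cexp (-((aa a l ρ - aa a ρ l) / 2)) * (χ l * tr a ρ T z) := by
          rw [hk]; ring
      _ = (cexp (-((aa a l ρ - aa a ρ l) / 2)) * cexp ((aa a l ρ - aa a ρ l) / 2)) *
          tr a (ρ + l) T z := by rw [h1]; ring
      _ = tr a (ρ + l) T z := by rw [h4, one_mul]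
  have hD : Def1 δ c (tr a (ρ + l) T) (fun z => k * v z) := by
    refine ⟨fun z => k * u z, ?_, fun z => ?_⟩
    · rw [← hfun]
      have := isDer_cmul hfd k hu
      simpa [hδk] using this
    · rw [← hfun, Ec_cmul hfd]
      show k * v z = k * u z - k * Ec c (tr a ρ T) z
      rw [huv]
      ring
  refine kg_cancel C (ρ := ρ + l) (fun z => k * v z) (fun z => hγ (ρ + l) hρ' _ hD z) fun z => ?_
  rw [← hfun]
  show k * v z = γ ρ * (k * tr a ρ T z)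
  rw [hγ ρ hρ v ⟨u, hu, huv⟩ z]
  ring

theorem theoremT (C : Ctx δ Λ a χ c T) : ∃ γ : ℂ, ∀ ρ, Tor Λ ρ → ∀ u, CMT.IsDer δ (tr a ρ T) u →
    ∀ z, u z = Ec c (tr a ρ T) z + γ * tr a ρ T z := by
  obtain ⟨γ, hγ⟩ := kg_gamma C
  have hne : Nonempty (Fin C.fr.r) := by
    by_contra hcon
    rw [not_nonempty_iff] at hcon
    have h1 := C.fr.eq 0 0
    rw [Finset.univ_eq_empty, Finset.sum_empty, add_zero, sub_zero] at h1
    exact mul_ne_zero C.ne C.ne h1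
  obtain ⟨j0⟩ := hne
  obtain ⟨n, X, P, hP⟩ := exists_point_functional C.fr.linA j0
  obtain ⟨m, Y, Q, hQ⟩ := exists_point_functional C.fr.linB j0
  choose A' hA' using fun r : ι → ℂ => fun j => exists_defA C r j
  choose B' hB' using fun r : ι → ℂ => fun j => exists_defB C r j
  have hpar : ∀ r ∈ kgS Λ, ∀ r' ∈ kgS Λ, γ (r + r') + γ (r - r') =
      (∑ k, (P k * cexp (me (a2 a) (X k - r) r)) * A' r j0 (X k - r)) +
        ∑ k, (Q k * cexp (me (a2 a) (Y k - r') r')) * B' r' j0 (Y k - r') := by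
    intro r hr r' hr'
    have h1 : Tor Λ (r + r') := (kgS Λ).add_mem hr hr'
    have h2 : Tor Λ (r - r') := (kgS Λ).sub_mem hr hr'
    obtain ⟨v, hv⟩ := exists_def C (r + r')
    obtain ⟨w, hw⟩ := exists_def C (r - r')
    refine kg_bilin (fun j => tr (a2 a) r (C.fr.A j)) (A' r) (fun j => tr (a2 a) r' (C.fr.B j))
      (B' r') (fun k => X k - r) (fun k => P k * cexp (me (a2 a) (X k - r) r))
      (fun k => Y k - r') (fun k => Q k * cexp (me (a2 a) (Y k - r') r')) j0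
      (fun_tr X P j0 hP (a2 a) r) (fun_tr Y Q j0 hQ (a2 a) r') _ fun x y => ?_
    have h3 := two_v C r r' hv hw (hA' r) (hB' r') x y
    rw [← h3, ← add_tr C.fr r r' x y, hγ _ h1 v hv, hγ _ h2 w hw]
    ring
  have hconst := const_of_parallelogram (kgS Λ) Λ (fun r hr => hr)
    (fun l hl => ⟨1, one_pos, by rw [one_smul]; exact hl⟩) γ _ _
    (fun r hr => kg_even C hγ hr) (fun r hr l hl => kg_per C hγ hr hl) hpar
  refine ⟨γ 0, fun ρ hρ u hu z => ?_⟩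
  have h4 := hγ ρ hρ (fun z => u z - Ec c (tr a ρ T) z) ⟨u, hu, fun _ => rfl⟩ z
  rw [hconst ρ hρ] at h4
  linear_combination h4

end

end Pool.Agent.ALD
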