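import Pool.Agent.ALD.EBif
import Pool.Agent.ALD.KGam
import Pool.Agent.ALD.FDim

/-!
# ALD, final forms, ECtx: Theorem T for the jets of an even unimodular theta function

PLAN. `exists_fr`: `F x y = T(x+y) T(x-y)`; `exists_split` with the `W` of `FRk T T`; `A_j` is in the span of the functions `F(·, y)`, which are in
`V_(a2)(χ χ)`: `me a (x+y) l + me a (x-y) l = me (a2 a) x l` (`KTr.me_eq`, `aa_add_left`), a subspace; `B_j` in the span of the `F(x, ·)`:
`T(x+y+l) T(x-y-l)`, `me a (x+y) l + me a (x-y) (-l) = me (a2 a) y l`, multiplier `χ(l) χ(-l)`. `exists_ctx`: `bi_der`, `bi_frk`, `χ = ±1`.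
`jet_T`: `theoremT` for `u` of `exists_def` (unfold `Def1`), `jet1 u A = δ (jet1 T_ρ A)` and `u = E_c T_ρ + γ T_ρ`: `jet1_Ec`, `RHK.jet_add`,
`RHK.jet_const_mul`.
-/

set_option autoImplicit false
set_option linter.unusedSectionVars false

namespace Pool.Agent.ALD

open Finset Complex ComplexConjugate

noncomputable section

variable {ι : Type} [Fintype ι] [DecidableEq ι] {δ : Derivation ℚ ℂ ℂ} {Λ : AddSubgroup (ι → ℂ)}
  {a : ι → ℝ} {χ : (ι → ℂ) → ℂ} {c : ι → ℂ} {T : (ι → ℂ) → ℂ}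

private theorem ectx_meA (a : ι → ℝ) (x y l : ι → ℂ) :
    me a (x + y) l + me a (x - y) l = me (a2 a) x l := by
  have h : me (a2 a) x l = ((2 : ℕ) : ℂ) * me a x l := me_lev 2 a x l
  rw [h, me_eq, me_eq, me_eq, sub_eq_add_neg, aa_add_left, aa_add_left, aa_neg_left]
  push_cast
  ring

private theorem ectx_meB (a : ι → ℝ) (x y l : ι → ℂ) :
    me a (x + y) l + me a (x - y) (-l) = me (a2 a) y l := by
  have h : me (a2 a) y l = ((2 : ℕ) : ℂ) * me a y l := me_lev 2 a y l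
  rw [h, me_eq, me_eq, me_eq, sub_eq_add_neg, aa_neg_right, aa_neg_right, aa_add_left, aa_add_left,
    aa_neg_left, aa_neg_left]
  push_cast
  ring

theorem exists_fr (hT : Vf Λ a χ T) (hW : CMT.Rec.FRk T T) : Nonempty (Fr Λ a χ T) := by
  obtain ⟨W, hWf, hW⟩ := hW
  obtain ⟨r, A, B, hA, hB, hF, hAs, hBs⟩ :=
    exists_split (fun x y : ι → ℂ => T (x + y) * T (x - y)) W hW
  have h1 : Submodule.span ℂ (Set.range fun y x : ι → ℂ => T (x + y) * T (x - y)) ≤
      VfSub Λ (a2 a) (fun l => χ l * χ l) := by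
    rw [Submodule.span_le]
    rintro _ ⟨y, rfl⟩
    refine ⟨(hT.1.comp (differentiable_id.add_const y)).mul
      (hT.1.comp (differentiable_id.sub_const y)), fun l hl x => ?_⟩
    have e1 : x + l + y = (x + y) + l := by abel
    have e2 : x + l - y = (x - y) + l := by abel
    show T (x + l + y) * T (x + l - y) = _
    rw [e1, e2, hT.2 l hl, hT.2 l hl, ← ectx_meA a x y l, Complex.exp_add]
    ring
  have h2 : Submodule.span ℂ (Set.range fun x y : ι → ℂ => T (x + y) * T (x - y)) ≤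
      VfSub Λ (a2 a) (fun l => χ l * χ (-l)) := by
    rw [Submodule.span_le]
    rintro _ ⟨x, rfl⟩
    refine ⟨(hT.1.comp (differentiable_id.const_add x)).mul
      (hT.1.comp (differentiable_id.const_sub x)), fun l hl y => ?_⟩
    have e1 : x + (y + l) = (x + y) + l := by abel
    have e2 : x - (y + l) = (x - y) + -l := by abel
    show T (x + (y + l)) * T (x - (y + l)) = _
    rw [e1, e2, hT.2 l hl, hT.2 (-l) (Λ.neg_mem hl), ← ectx_meB a x y l, Complex.exp_add]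
    ring
  exact ⟨⟨r, A, B, hA, hB, fun j => h1 (hAs j), fun j => h2 (hBs j), hF⟩⟩

theorem exists_ctx (hU : UT Λ a χ T) (hP : Pol Λ a) (hsd : SDz δ Λ a c) :
    Nonempty (Ctx δ Λ a χ c T) := by
  obtain ⟨fr⟩ := exists_fr hU.hT (bi_frk hP hU.hT hU.hT)
  have hchi : ∀ l ∈ Λ, χ l ≠ 0 := by
    intro l hl
    rcases hU.chi l hl with h | h
    · rw [h]
      exact one_ne_zero
    · rw [h]
      exact neg_ne_zero.2 one_ne_zero
  have halg : ∀ l ∈ Λ, IsAlgebraic ℚ (χ l) := by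
    intro l hl
    rcases hU.chi l hl with h | h
    · rw [h]
      exact isAlgebraic_one
    · rw [h]
      exact isAlgebraic_one.neg
  exact ⟨⟨fr, hU.hT, hU.ev, hU.ne, hU.uni, hchi, halg,
    fun m χ' f hm hχ hf => bi_der hP δ hm hχ hf, hsd⟩⟩

theorem jet_T (hU : UT Λ a χ T) (hP : Pol Λ a) (hsd : SDz δ Λ a c) :
    ∃ γ : ℂ, ∀ ρ, Tor Λ ρ → ∀ A, δ (RHK.jet1 (tr a ρ T) A) =
      (∑ i, c i * A i + γ) * RHK.jet1 (tr a ρ T) A := by
  obtain ⟨C⟩ := exists_ctx hU hP hsd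
  obtain ⟨γ, hγ⟩ := theoremT C
  refine ⟨γ, fun ρ hρ A => ?_⟩
  obtain ⟨v, u, hu, -⟩ := exists_def C ρ
  have h1 : u = fun z => Ec c (tr a ρ T) z + γ * tr a ρ T z := funext (hγ ρ hρ u hu)
  have hd : Differentiable ℂ (tr a ρ T) := tr_diff a ρ hU.hT.1
  have hE : Differentiable ℂ (Ec c (tr a ρ T)) := Ec_diff hd c
  have hlift : ∀ {g : (ι → ℂ) → ℂ}, Differentiable ℂ g →
      Differentiable ℂ (fun v : RHK.VV ι => g v.1) := fun hg => hg.comp differentiable_fst
  have h2 : RHK.jet1 u A = δ (RHK.jet1 (tr a ρ T) A) := hu.2 A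
  have h3 : RHK.jet1 (fun z => Ec c (tr a ρ T) z + γ * tr a ρ T z) A =
      RHK.jet1 (Ec c (tr a ρ T)) A + RHK.jet1 (fun z => γ * tr a ρ T z) A :=
    RHK.jet_add (hlift hE) (hlift (hd.const_mul γ)) A 0
  have h4 : RHK.jet1 (fun z => γ * tr a ρ T z) A = γ * RHK.jet1 (tr a ρ T) A :=
    RHK.jet_const_mul γ (hlift hd) A 0
  rw [← h2, h1, h3, h4, jet1_Ec hd]
  ring

end

end Pool.Agent.ALD
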