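import Pool.Agent.ALD.KDefs
import Pool.Agent.ALD.Fam
import Pool.Agent.RQ4.Ifc
import Pool.Agent.RQ4.NCyc

/-!
# ALD, final forms: lattices from `K` and `K²`, polarisations, the exponents `c` of a type

`em1 s`, `em2 s3 s4`: the embeddings of `K`, `K²`. `FL Λ`: finitely generated and full. `Pol Λ a`: polarised lattice.
`UT`: even theta function, `T(0) ≠ 0`, unique for its multipliers. `IsC s δ c`: the exponents of the type `s`.
-/

set_option autoImplicit false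
set_option linter.unusedSectionVars false

namespace Pool.Agent.ALD

open Finset Complex ComplexConjugate

noncomputable section

/-- finitely generated and full -/
def FL {X : Type} [AddCommGroup X] (Λ : AddSubgroup X) : Prop :=
  Λ.FG ∧ ∀ x : X, ∃ n : ℕ, 0 < n ∧ n • x ∈ Λ

section Gen

variable {ι : Type} [Fintype ι] [DecidableEq ι]

/-- polarised lattice: `Im a(l,k) ∈ π ℤ` -/
structure Pol (Λ : AddSubgroup (ι → ℂ)) (a : ι → ℝ) : Prop where
  pos : ∀ i, 0 < a i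
  bas : ∃ (J : Type) (_ : Fintype J) (b : Module.Basis J ℝ (ι → ℂ)),
    Λ = AddSubgroup.closure (Set.range b)
  int : ∀ l ∈ Λ, ∀ k ∈ Λ, ∃ n : ℤ, aa a l k - aa a k l = 2 * Real.pi * I * n

/-- stability under the family of complex multiplications -/
def Stb (Λ : AddSubgroup (ι → ℂ)) (D N : ℕ) (t : ι → ℕ) (blk : ι → Bool) : Prop :=
  0 < N ∧ ∀ g, ∀ l ∈ Λ, fam D N t blk g * l ∈ Λ

/-- an even theta function, `T(0) ≠ 0`, unique for its multipliers -/
structure UT (Λ : AddSubgroup (ι → ℂ)) (a : ι → ℝ) (χ : (ι → ℂ) → ℂ) (T : (ι → ℂ) → ℂ) : Prop where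
  pos : ∀ i, 0 < a i
  chi : ∀ l ∈ Λ, χ l = 1 ∨ χ l = -1
  hT : Vf Λ a χ T
  ev : ∀ z, T (-z) = T z
  ne : T 0 ≠ 0
  uni : ∀ f, Vf Λ a χ f → ∃ k : ℂ, ∀ z, f z = k * T z

/-- an injective additive map `X → ℂ^ι` from a `ℚ`-vector space of dimension `2 card ι`, whose image
spans over `ℝ` -/
structure Gd {X : Type} [AddCommGroup X] [Module ℚ X] (e : X →+ (ι → ℂ)) : Prop where
  inj : Function.Injective e
  span : Submodule.span ℝ (Set.range e) = ⊤
  dim : Module.finrank ℚ X = 2 * Fintype.card ι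

end Gen

variable {K : Type} [Field K] [NumberField K] {g : ℕ}

/-- `x ↦ (s_i x)_i` -/
def em1 (s : Fin g → K →+* ℂ) : K →+ (Fin g → ℂ) where
  toFun x i := s i x
  map_zero' := by ext; simp
  map_add' x y := by ext; simp

/-- `(x, y) ↦ (s3_i x, s4_i y)` -/
def em2 (s3 s4 : Fin g → K →+* ℂ) : (Fin 2 → K) →+ (RQ4.Ix g → ℂ) where
  toFun u := RQ4.ex s3 s4 u
  map_zero' := by ext p; simp [RQ4.ex]
  map_add' x y := by
    ext p
    simp only [RQ4.ex, Pi.add_apply]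
    split_ifs <;> simp

/-- the exponents of rank two -/
def c34 (c3 c4 : Fin g → ℂ) (p : RQ4.Ix g) : ℂ := if p.2 = 0 then c3 p.1 else c4 p.1

/-- `c` are the exponents of the type `s` for the derivation `δ` -/
def IsC (s : Fin g → K →+* ℂ) (δ : Derivation ℚ ℂ ℂ) (c : Fin g → ℂ) : Prop :=
  (∃ (Λ : AddSubgroup K) (a : Fin g → ℝ) (χ : (Fin g → ℂ) → ℂ) (f : (Fin g → ℂ) → ℂ), FL Λ ∧
    (∀ i, 0 < a i) ∧ (∀ l ∈ Λ.map (em1 s), χ l ≠ 0) ∧ Vf (Λ.map (em1 s)) a χ f ∧ ∃ z, f z ≠ 0) ∧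
  ∀ (Λ : AddSubgroup K) (a : Fin g → ℝ), FL Λ → (∀ i, 0 < a i) → SDz δ (Λ.map (em1 s)) a c

end

end Pool.Agent.ALD
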