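import Pool.Agent.ALD.EDefs
import Pool.Agent.RQ4.NEx

/-!
# ALD, final forms, EEm: the embeddings `em1`, `em2` are good (helper91)
-/

set_option autoImplicit false
set_option linter.unusedSectionVars false

namespace Pool.Agent.ALD

open Finset Complex ComplexConjugate

noncomputable section

variable {K : Type} [Field K] [NumberField K] {g : ℕ}

private lemma sig_ne (cm : RQ4.CM K g) {i j : Fin g} (h : i ≠ j) : ∃ x, cm.σ i x ≠ cm.σ j x := by
  by_contra hc
  push Not at hc
  exact h (cm.inj (RingHom.ext hc))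

/-- the flipped CM type is a CM type -/
theorem exists_flp (cm : RQ4.CM K g) (S : Finset (Fin g)) :
    ∃ cm' : RQ4.CM K g, cm'.bar = cm.bar ∧ cm'.σ = cm.fl S := by
  classical
  have h1 : ∀ i, i ∈ S → ∀ x, cm.fl S i x = conj (cm.σ i x) := by
    intro i hi x; simp [RQ4.CM.fl, hi]
  have h0 : ∀ i, i ∉ S → ∀ x, cm.fl S i x = cm.σ i x := by
    intro i hi x; simp [RQ4.CM.fl, hi]
  have hne : ∀ i j, ∃ x, cm.fl S i x ≠ conj (cm.fl S j x) := by
    intro i j
    by_cases hi : i ∈ S <;> by_cases hj : j ∈ S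
    · obtain ⟨x, hx⟩ := cm.ne j i
      refine ⟨x, ?_⟩
      rw [h1 i hi, h1 j hj, Complex.conj_conj]
      exact fun h => hx h.symm
    · obtain ⟨x, hx⟩ := sig_ne cm (i := i) (j := j) (fun h => hj (h ▸ hi))
      refine ⟨x, ?_⟩
      rw [h1 i hi, h0 j hj]
      exact fun h => hx ((starRingEnd ℂ).injective h)
    · obtain ⟨x, hx⟩ := sig_ne cm (i := i) (j := j) (fun h => hi (h.symm ▸ hj))
      refine ⟨x, ?_⟩
      rw [h0 i hi, h1 j hj, Complex.conj_conj]
      exact hx
    · obtain ⟨x, hx⟩ := cm.ne i j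
      refine ⟨x, ?_⟩
      rw [h0 i hi, h0 j hj]
      exact hx
  refine ⟨⟨cm.bar, cm.fl S, ?_, ?_, ?_, hne⟩, rfl, rfl⟩
  · intro i x
    by_cases hi : i ∈ S
    · rw [h1 i hi, h1 i hi, cm.hbar]
    · rw [h0 i hi, h0 i hi, cm.hbar]
  · intro τ
    obtain ⟨i, h | h⟩ := cm.all τ
    · refine ⟨i, ?_⟩
      by_cases hi : i ∈ S
      · right; intro x; rw [h1 i hi, Complex.conj_conj, h]
      · left; ext x; rw [h0 i hi, h]
    · refine ⟨i, ?_⟩
      by_cases hi : i ∈ S
      · left; ext x; rw [h1 i hi, h x]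
      · right; intro x; rw [h0 i hi, h x]
  · intro i j hij
    by_contra hne2
    by_cases hi : i ∈ S <;> by_cases hj : j ∈ S
    · obtain ⟨x, hx⟩ := sig_ne cm hne2
      have := congrArg (fun f : K →+* ℂ => f x) hij
      simp only [h1 i hi, h1 j hj] at this
      exact hx ((starRingEnd ℂ).injective this)
    · obtain ⟨x, hx⟩ := cm.ne j i
      have := congrArg (fun f : K →+* ℂ => f x) hij
      simp only [h1 i hi, h0 j hj] at this
      exact hx this.symm
    · obtain ⟨x, hx⟩ := cm.ne i j
      have := congrArg (fun f : K →+* ℂ => f x) hij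
      simp only [h0 i hi, h1 j hj] at this
      exact hx this
    · obtain ⟨x, hx⟩ := sig_ne cm hne2
      have := congrArg (fun f : K →+* ℂ => f x) hij
      simp only [h0 i hi, h0 j hj] at this
      exact hx this

theorem gd1 (cm : RQ4.CM K g) : Gd (em1 cm.σ) := by
  obtain ⟨i0⟩ := cm.exists_place
  refine ⟨?_, ?_, ?_⟩
  · intro x y h
    have := congrFun h i0
    exact (cm.σ i0).injective this
  · have hd : Dense ((Submodule.span ℝ (Set.range (em1 cm.σ)) : Submodule ℝ (Fin g → ℂ)) :
        Set (Fin g → ℂ)) := by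
      refine Dense.mono ?_ cm.dense
      rintro _ ⟨x, rfl⟩
      exact Submodule.subset_span ⟨x, rfl⟩
    have hc : IsClosed ((Submodule.span ℝ (Set.range (em1 cm.σ)) : Submodule ℝ (Fin g → ℂ)) :
        Set (Fin g → ℂ)) := Submodule.closed_of_finiteDimensional _
    have := hc.closure_eq.symm.trans hd.closure_eq
    exact SetLike.coe_injective (by rw [this]; rfl)
  · rw [cm.finrank_eq, Fintype.card_fin, two_mul]

theorem gd2 (cm cm' : RQ4.CM K g) : Gd (em2 cm.σ cm'.σ) := by
  classical
  obtain ⟨i0⟩ := cm.exists_place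
  have hv : ∀ (u : Fin 2 → K) (p : RQ4.Ix g), em2 cm.σ cm'.σ u p =
      if p.2 = 0 then cm.σ p.1 (u 0) else cm'.σ p.1 (u 1) := fun u p => rfl
  refine ⟨?_, ?_, ?_⟩
  · intro x y h
    have e0 := congrFun h (i0, 0)
    have e1 := congrFun h (i0, 1)
    rw [hv, hv] at e0 e1
    simp only [if_true] at e0
    simp only [one_ne_zero, if_false] at e1
    ext j
    fin_cases j
    · exact (cm.σ i0).injective e0
    · exact (cm'.σ i0).injective e1
  · -- the two coordinate inclusions
    have key : ∀ (al : Fin 2) (c : RQ4.CM K g), c.σ = (if al = 0 then cm.σ else cm'.σ) →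
        ∀ y : Fin g → ℂ, (fun p : RQ4.Ix g => if p.2 = al then y p.1 else 0) ∈
          Submodule.span ℝ (Set.range (em2 cm.σ cm'.σ)) := by
      intro al c hc y
      let P : (Fin g → ℂ) →ₗ[ℝ] (RQ4.Ix g → ℂ) :=
        { toFun := fun y p => if p.2 = al then y p.1 else 0
          map_add' := by
            intro y z; ext p
            by_cases h : p.2 = al <;> simp [h]
          map_smul' := by
            intro r y; ext p
            by_cases h : p.2 = al <;> simp [h] }
      have h1 : y ∈ Submodule.span ℝ (Set.range (em1 c.σ)) := by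
        rw [(gd1 c).span]; trivial
      have h2 : P y ∈ (Submodule.span ℝ (Set.range (em1 c.σ))).map P :=
        Submodule.mem_map_of_mem h1
      rw [Submodule.map_span] at h2
      refine Submodule.span_mono ?_ h2
      rintro _ ⟨_, ⟨x, rfl⟩, rfl⟩
      refine ⟨fun j => if j = al then x else 0, ?_⟩
      ext p
      rw [hv]
      change _ = if p.2 = al then c.σ p.1 x else 0
      rw [hc]
      have hp : p.2 = 0 ∨ p.2 = 1 := by
        rcases p with ⟨i, j⟩; fin_cases j <;> simp
      have hal : al = 0 ∨ al = 1 := by fin_cases al <;> simp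
      rcases hp with hp | hp <;> rcases hal with h | h <;> simp [hp, h]
    rw [eq_top_iff]
    intro z _
    have h0 := key 0 cm (by simp) (fun i => z (i, 0))
    have h1 := key 1 cm' (by simp) (fun i => z (i, 1))
    have h2 := add_mem h0 h1
    convert h2 using 1
    ext ⟨i, j⟩
    fin_cases j <;> simp
  · rw [Module.finrank_pi_fintype]
    simp only [Finset.sum_const, Finset.card_univ, Fintype.card_fin, cm.finrank_eq,
      Fintype.card_prod, smul_eq_mul]
    ring

end

end Pool.Agent.ALD
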