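import Pool.Agent.ALD.VDefs

/-!
# ALD block B3, KTr: calculus of the normalised translates
-/

set_option autoImplicit false
set_option linter.unusedSectionVars false

namespace Pool.Agent.ALD

open Finset Complex ComplexConjugate

noncomputable section

variable {ι : Type} [Fintype ι] [DecidableEq ι]

theorem aa_add_left (a : ι → ℝ) (z w u : ι → ℂ) : aa a (z + w) u = aa a z u + aa a w u := by
  unfold aa
  rw [← Finset.sum_add_distrib]
  refine Finset.sum_congr rfl fun i _ => ?_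
  rw [Pi.add_apply]
  ring

theorem aa_add_right (a : ι → ℝ) (z u w : ι → ℂ) : aa a z (u + w) = aa a z u + aa a z w := by
  unfold aa
  rw [← Finset.sum_add_distrib]
  refine Finset.sum_congr rfl fun i _ => ?_
  rw [Pi.add_apply, map_add]
  ring

theorem aa_neg_left (a : ι → ℝ) (z u : ι → ℂ) : aa a (-z) u = -aa a z u := by
  unfold aa
  rw [← Finset.sum_neg_distrib]
  refine Finset.sum_congr rfl fun i _ => ?_
  rw [Pi.neg_apply]
  ring

theorem aa_neg_right (a : ι → ℝ) (z u : ι → ℂ) : aa a z (-u) = -aa a z u := by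
  unfold aa
  rw [← Finset.sum_neg_distrib]
  refine Finset.sum_congr rfl fun i _ => ?_
  rw [Pi.neg_apply, map_neg]
  ring

theorem aa_nsmul_left (a : ι → ℝ) (n : ℕ) (z u : ι → ℂ) : aa a (n • z) u = n * aa a z u := by
  unfold aa
  rw [Finset.mul_sum]
  refine Finset.sum_congr rfl fun i _ => ?_
  rw [Pi.smul_apply, nsmul_eq_mul]
  ring

theorem aa_nsmul_right (a : ι → ℝ) (n : ℕ) (z u : ι → ℂ) : aa a z (n • u) = n * aa a z u := by
  unfold aa
  rw [Finset.mul_sum]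
  refine Finset.sum_congr rfl fun i _ => ?_
  rw [Pi.smul_apply, nsmul_eq_mul, map_mul, map_natCast]
  ring

theorem aa_lev (m : ℕ) (a : ι → ℝ) (z u : ι → ℂ) : aa (fun i => m * a i) z u = m * aa a z u := by
  unfold aa
  rw [Finset.mul_sum]
  refine Finset.sum_congr rfl fun i _ => ?_
  push_cast
  ring

theorem me_eq (a : ι → ℝ) (z l : ι → ℂ) : me a z l = aa a z l + aa a l l / 2 := by
  unfold me aa
  rw [Finset.sum_div, ← Finset.sum_add_distrib]
  refine Finset.sum_congr rfl fun i _ => ?_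
  have h : l i * conj (l i) = ((‖l i‖ ^ 2 : ℝ) : ℂ) := by
    rw [Complex.mul_conj, Complex.normSq_eq_norm_sq]
  have h2 : (a i : ℂ) * l i * conj (l i) = (a i : ℂ) * ((‖l i‖ ^ 2 : ℝ) : ℂ) := by
    rw [mul_assoc, h]
  rw [h2]
  push_cast
  ring

theorem me_lev (m : ℕ) (a : ι → ℝ) (z u : ι → ℂ) : me (fun i => m * a i) z u = m * me a z u := by
  rw [me_eq, me_eq, aa_lev, aa_lev]
  ring

private theorem ktr_me_diff (a : ι → ℝ) (ρ : ι → ℂ) : Differentiable ℂ fun z => me a z ρ := by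
  unfold me
  refine Differentiable.fun_sum fun i _ => ?_
  refine Differentiable.const_mul ?_ _
  refine Differentiable.add_const _ ?_
  refine Differentiable.const_mul ?_ _
  exact differentiable_apply i

theorem tr_diff (a : ι → ℝ) (ρ : ι → ℂ) {f : (ι → ℂ) → ℂ} (hf : Differentiable ℂ f) :
    Differentiable ℂ (tr a ρ f) := by
  have h1 : Differentiable ℂ fun z => cexp (-(me a z ρ)) := (ktr_me_diff a ρ).neg.cexp
  have h2 : Differentiable ℂ fun z => f (z + ρ) := hf.comp (differentiable_id.add_const ρ)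
  exact h1.mul h2

private theorem ktr_aa_zero_right (a : ι → ℝ) (z : ι → ℂ) : aa a z 0 = 0 := by
  unfold aa
  refine Finset.sum_eq_zero fun i _ => ?_
  rw [Pi.zero_apply, map_zero, mul_zero]

private theorem ktr_aa_zero_left (a : ι → ℝ) (z : ι → ℂ) : aa a 0 z = 0 := by
  unfold aa
  refine Finset.sum_eq_zero fun i _ => ?_
  rw [Pi.zero_apply, mul_zero, zero_mul]

theorem tr_zero (a : ι → ℝ) (f : (ι → ℂ) → ℂ) : tr a 0 f = f := by
  funext z
  unfold tr
  rw [me_eq, ktr_aa_zero_right, ktr_aa_zero_right, add_zero]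
  simp

theorem tr_tr (a : ι → ℝ) (ρ σ : ι → ℂ) (f : (ι → ℂ) → ℂ) (z : ι → ℂ) :
    tr a ρ (tr a σ f) z = cexp ((aa a σ ρ - aa a ρ σ) / 2) * tr a (ρ + σ) f z := by
  unfold tr
  rw [← mul_assoc, ← mul_assoc, ← Complex.exp_add, ← Complex.exp_add, add_assoc z ρ σ]
  congr 2
  rw [me_eq, me_eq, me_eq, aa_add_left, aa_add_right, aa_add_left, aa_add_right, aa_add_right]
  ring

theorem tr_vf {Λ : AddSubgroup (ι → ℂ)} {a : ι → ℝ} {χ : (ι → ℂ) → ℂ} {f : (ι → ℂ) → ℂ}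
    (hf : Vf Λ a χ f) (ρ : ι → ℂ) : Vf Λ a (chr a χ ρ) (tr a ρ f) := by
  refine ⟨tr_diff a ρ hf.1, fun l hl z => ?_⟩
  unfold tr chr
  rw [add_right_comm z l ρ, hf.2 l hl (z + ρ)]
  have h : cexp (-(me a (z + l) ρ)) * cexp (me a (z + ρ) l) =
      cexp (aa a ρ l - aa a l ρ) * cexp (me a z l) * cexp (-(me a z ρ)) := by
    rw [← Complex.exp_add, ← Complex.exp_add, ← Complex.exp_add]
    congr 1
    rw [me_eq, me_eq, me_eq, me_eq, aa_add_left, aa_add_left]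
    ring
  calc cexp (-(me a (z + l) ρ)) * (χ l * cexp (me a (z + ρ) l) * f (z + ρ)) =
      χ l * (cexp (-(me a (z + l) ρ)) * cexp (me a (z + ρ) l)) * f (z + ρ) := by ring
    _ = χ l * (cexp (aa a ρ l - aa a l ρ) * cexp (me a z l) * cexp (-(me a z ρ))) * f (z + ρ) := by
        rw [h]
    _ = χ l * cexp (aa a ρ l - aa a l ρ) * cexp (me a z l) * (cexp (-(me a z ρ)) * f (z + ρ)) := by
        ring

theorem chr_ne {a : ι → ℝ} {χ : (ι → ℂ) → ℂ} {ρ l : ι → ℂ} (h : χ l ≠ 0) : chr a χ ρ l ≠ 0 :=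
  mul_ne_zero h (Complex.exp_ne_zero _)

theorem chr_chr (a : ι → ℝ) (χ : (ι → ℂ) → ℂ) (ρ σ l : ι → ℂ) :
    chr a (chr a χ ρ) σ l = chr a χ (ρ + σ) l := by
  unfold chr
  rw [mul_assoc, ← Complex.exp_add, aa_add_left, aa_add_right]
  congr 2
  ring

theorem chr_zero (a : ι → ℝ) (χ : (ι → ℂ) → ℂ) (l : ι → ℂ) : chr a χ 0 l = χ l := by
  unfold chr
  rw [ktr_aa_zero_left, ktr_aa_zero_right, sub_zero, Complex.exp_zero, mul_one]

theorem vf_congr {Λ : AddSubgroup (ι → ℂ)} {a : ι → ℝ} {χ χ' : (ι → ℂ) → ℂ} {f : (ι → ℂ) → ℂ}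
    (hf : Vf Λ a χ f) (h : ∀ l ∈ Λ, χ l = χ' l) : Vf Λ a χ' f := by
  refine ⟨hf.1, fun l hl z => ?_⟩
  rw [← h l hl]
  exact hf.2 l hl z

theorem tr_lat {Λ : AddSubgroup (ι → ℂ)} {a : ι → ℝ} {χ : (ι → ℂ) → ℂ} {f : (ι → ℂ) → ℂ}
    (hf : Vf Λ a χ f) {l : ι → ℂ} (hl : l ∈ Λ) (z : ι → ℂ) : tr a l f z = χ l * f z := by
  unfold tr
  rw [hf.2 l hl z]
  have h : cexp (-(me a z l)) * cexp (me a z l) = 1 := by
    rw [← Complex.exp_add, neg_add_cancel, Complex.exp_zero]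
  calc cexp (-(me a z l)) * (χ l * cexp (me a z l) * f z) =
      (cexp (-(me a z l)) * cexp (me a z l)) * (χ l * f z) := by ring
    _ = χ l * f z := by rw [h, one_mul]

theorem tr_even (a : ι → ℝ) {f : (ι → ℂ) → ℂ} (hf : ∀ z, f (-z) = f z) (ρ z : ι → ℂ) :
    tr a (-ρ) f z = tr a ρ f (-z) := by
  unfold tr
  have h1 : f (z + -ρ) = f (-z + ρ) := by
    rw [← hf (z + -ρ)]
    congr 1
    abel
  have h2 : me a z (-ρ) = me a (-z) ρ := by
    rw [me_eq, me_eq, aa_neg_right, aa_neg_right, aa_neg_left, aa_neg_left, neg_neg]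
  rw [h1, h2]

theorem tr_mul (a b : ι → ℝ) (ρ : ι → ℂ) (f g : (ι → ℂ) → ℂ) (z : ι → ℂ) :
    tr a ρ f z * tr b ρ g z = tr (fun i => a i + b i) ρ (fun z => f z * g z) z := by
  unfold tr
  have h : me (fun i => a i + b i) z ρ = me a z ρ + me b z ρ := by
    unfold me
    rw [← Finset.sum_add_distrib]
    refine Finset.sum_congr rfl fun i _ => ?_
    push_cast
    ring
  rw [h, neg_add, Complex.exp_add]
  ring

theorem vf_iff {Λ : AddSubgroup (ι → ℂ)} {a : ι → ℝ} {χ : (ι → ℂ) → ℂ} {f : (ι → ℂ) → ℂ}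
    (hf : Differentiable ℂ f) (hχ : ∀ l ∈ Λ, χ l ≠ 0) :
    Vf Λ a χ f ↔ ∀ l ∈ Λ, ∀ z, dif a χ l f z = 0 := by
  constructor
  · intro h l hl z
    unfold dif
    rw [tr_lat h hl z, ← mul_assoc, inv_mul_cancel₀ (hχ l hl), one_mul, sub_self]
  · intro h
    refine ⟨hf, fun l hl z => ?_⟩
    have h1 := h l hl z
    unfold dif tr at h1
    have h2 : cexp (me a z l) * cexp (-(me a z l)) = 1 := by
      rw [← Complex.exp_add, add_neg_cancel, Complex.exp_zero]
    have h3 : χ l * (χ l)⁻¹ = 1 := mul_inv_cancel₀ (hχ l hl)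
    have h4 : f z = (χ l)⁻¹ * (cexp (-(me a z l)) * f (z + l)) := (sub_eq_zero.1 h1).symm
    rw [h4]
    calc f (z + l) = (χ l * (χ l)⁻¹) * (cexp (me a z l) * cexp (-(me a z l))) * f (z + l) := by
          rw [h2, h3]; ring
      _ = χ l * cexp (me a z l) * ((χ l)⁻¹ * (cexp (-(me a z l)) * f (z + l))) := by ring

theorem vf_int {Λ : AddSubgroup (ι → ℂ)} {a : ι → ℝ} {χ : (ι → ℂ) → ℂ} {f : (ι → ℂ) → ℂ}
    (hf : Vf Λ a χ f) (hχ : ∀ l ∈ Λ, χ l ≠ 0) (h0 : ∃ z, f z ≠ 0) {k l : ι → ℂ} (hk : k ∈ Λ)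
    (hl : l ∈ Λ) : ∃ n : ℤ, aa a k l - aa a l k = 2 * Real.pi * I * n := by
  obtain ⟨z, hz⟩ := h0
  have h1 := hf.2 l hl (z + k)
  rw [hf.2 k hk z] at h1
  have h2 := hf.2 k hk (z + l)
  rw [hf.2 l hl z, add_right_comm z l k] at h2
  rw [h2] at h1
  have h3 : χ k * χ l * f z ≠ 0 := mul_ne_zero (mul_ne_zero (hχ k hk) (hχ l hl)) hz
  have h4 : cexp (me a (z + k) l + me a z k) = cexp (me a (z + l) k + me a z l) := by
    rw [Complex.exp_add, Complex.exp_add]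
    refine mul_left_cancel₀ h3 ?_
    calc χ k * χ l * f z * (cexp (me a (z + k) l) * cexp (me a z k)) =
        χ l * cexp (me a (z + k) l) * (χ k * cexp (me a z k) * f z) := by ring
      _ = χ k * cexp (me a (z + l) k) * (χ l * cexp (me a z l) * f z) := h1.symm
      _ = χ k * χ l * f z * (cexp (me a (z + l) k) * cexp (me a z l)) := by ring
  obtain ⟨n, hn⟩ := Complex.exp_eq_exp_iff_exists_int.1 h4
  refine ⟨n, ?_⟩
  rw [me_eq, me_eq, me_eq, me_eq, aa_add_left, aa_add_left] at hn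
  linear_combination hn

end

end Pool.Agent.ALD
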