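import Pool.Agent.ALD.EDefs
import Pool.Agent.ALD.KTr

/-!
# ALD, final forms, EKLat: lattices from `K` and `K²`

`exists_bas`: `Λ` is finitely generated and torsion-free, so it has a finite `ℤ`-basis, which is a
`ℚ`-basis of `X` (full, clear denominators), so it has `2 card ι` elements; their images span over
`ℝ` (every `e x` is `(1/n) e (n x)`).
-/

set_option autoImplicit false
set_option linter.unusedSectionVars false

namespace Pool.Agent.ALD

open Finset Complex ComplexConjugate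

noncomputable section

variable {ι : Type} [Fintype ι] [DecidableEq ι] {X : Type} [AddCommGroup X] [Module ℚ X]

private theorem eklat_fg {Λ Λ' : AddSubgroup X} (h : Λ.FG) (hle : Λ' ≤ Λ) : Λ'.FG := by
  have h1 : (AddSubgroup.toIntSubmodule Λ).FG := by
    rw [Submodule.fg_iff_addSubgroup_fg, AddSubgroup.toIntSubmodule_toAddSubgroup]
    exact h
  have h2 : AddSubgroup.toIntSubmodule Λ' ≤ AddSubgroup.toIntSubmodule Λ := hle
  have h3 : (AddSubgroup.toIntSubmodule Λ').FG := Submodule.FG.of_le h1 h2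
  rw [Submodule.fg_iff_addSubgroup_fg, AddSubgroup.toIntSubmodule_toAddSubgroup] at h3
  exact h3

/-- a full subgroup of a finitely generated full group -/
theorem fl_le {Λ Λ' : AddSubgroup X} (h : FL Λ) (hle : Λ' ≤ Λ)
    (hf : ∀ x ∈ Λ, ∃ n : ℕ, 0 < n ∧ n • x ∈ Λ') : FL Λ' := by
  refine ⟨eklat_fg h.1 hle, fun x => ?_⟩
  obtain ⟨n, hn, hx⟩ := h.2 x
  obtain ⟨m, hm, hx'⟩ := hf _ hx
  refine ⟨m * n, Nat.mul_pos hm hn, ?_⟩
  rw [mul_smul]
  exact hx'

theorem fl_inf {Λ Λ' : AddSubgroup X} (h : FL Λ) (h' : FL Λ') : FL (Λ ⊓ Λ') := by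
  refine fl_le h inf_le_left fun x hx => ?_
  obtain ⟨n, hn, hx'⟩ := h'.2 x
  exact ⟨n, hn, Λ.nsmul_mem hx n, hx'⟩

private theorem eklat_basQ {Λ : AddSubgroup X} (h : FL Λ) :
    ∃ (J : Type) (_ : Fintype J) (b : Module.Basis J ℚ X),
      Λ = AddSubgroup.closure (Set.range b) := by
  classical
  have htf : IsAddTorsionFree X := .of_module_rat _
  set L : Submodule ℤ X := AddSubgroup.toIntSubmodule Λ with hL
  have hLfg : Module.Finite ℤ L := by
    rw [Module.Finite.iff_fg, Submodule.fg_iff_addSubgroup_fg, hL,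
      AddSubgroup.toIntSubmodule_toAddSubgroup]
    exact h.1
  have hfree : Module.Free ℤ L := inferInstance
  set bz := Module.Free.chooseBasis ℤ L with hbz
  set J := Module.Free.ChooseBasisIndex ℤ L with hJ
  have hliZ : LinearIndependent ℤ (fun j : J => ((bz j : L) : X)) :=
    bz.linearIndependent.map' L.subtype (Submodule.ker_subtype L)
  have hliQ : LinearIndependent ℚ (fun j : J => ((bz j : L) : X)) :=
    (LinearIndependent.iff_fractionRing ℤ ℚ).1 hliZ
  have hspan : ⊤ ≤ Submodule.span ℚ (Set.range fun j : J => ((bz j : L) : X)) := by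
    intro x _
    obtain ⟨n, hn, hx⟩ := h.2 x
    have h2 : (n • x : X) = ∑ j, bz.repr ⟨n • x, hx⟩ j • ((bz j : L) : X) := by
      have h1 := congrArg (Subtype.val) (bz.sum_repr ⟨n • x, hx⟩)
      rw [Submodule.coe_sum] at h1
      exact h1.symm
    have h3 : x = (n : ℚ)⁻¹ • (n • x : X) := by
      rw [← Nat.cast_smul_eq_nsmul ℚ, smul_smul, inv_mul_cancel₀ (by exact_mod_cast hn.ne'),
        one_smul]
    rw [h3, h2]
    refine Submodule.smul_mem _ _ (Submodule.sum_mem _ fun j _ => ?_)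
    rw [← Int.cast_smul_eq_zsmul ℚ]
    exact Submodule.smul_mem _ _ (Submodule.subset_span ⟨j, rfl⟩)
  set bq : Module.Basis J ℚ X := Module.Basis.mk hliQ hspan with hbq
  have hbq' : ∀ j, bq j = ((bz j : L) : X) := fun j => by rw [hbq, Module.Basis.mk_apply]
  refine ⟨J, inferInstance, bq, ?_⟩
  apply le_antisymm
  · intro x hx
    have h2 : x = ∑ j, bz.repr ⟨x, hx⟩ j • ((bz j : L) : X) := by
      have h1 := congrArg (Subtype.val) (bz.sum_repr ⟨x, hx⟩)
      rw [Submodule.coe_sum] at h1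
      exact h1.symm
    rw [h2]
    refine AddSubgroup.sum_mem _ fun j _ => AddSubgroup.zsmul_mem _ ?_ _
    exact AddSubgroup.subset_closure ⟨j, hbq' j⟩
  · rw [AddSubgroup.closure_le]
    rintro _ ⟨k, rfl⟩
    rw [hbq' k]
    exact (bz k).2

private theorem eklat_inv {e : X →+ (ι → ℂ)} {x : X} {n : ℕ} (hn : 0 < n) :
    e x = ((n : ℝ)⁻¹) • e (n • x) := by
  rw [map_nsmul, ← Nat.cast_smul_eq_nsmul ℝ, smul_smul,
    inv_mul_cancel₀ (by exact_mod_cast hn.ne'), one_smul]

theorem span_map {e : X →+ (ι → ℂ)} (he : Gd e) {Λ : AddSubgroup X} (h : FL Λ) :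
    Submodule.span ℝ ((Λ.map e : AddSubgroup (ι → ℂ)) : Set (ι → ℂ)) = ⊤ := by
  rw [eq_top_iff, ← he.span, Submodule.span_le]
  rintro _ ⟨x, rfl⟩
  obtain ⟨n, hn, hx⟩ := h.2 x
  have h1 : e x = ((n : ℝ)⁻¹) • e (n • x) := eklat_inv hn
  rw [h1]
  exact Submodule.smul_mem _ _ (Submodule.subset_span ⟨_, hx, rfl⟩)

theorem exists_bas {e : X →+ (ι → ℂ)} (he : Gd e) {Λ : AddSubgroup X} (h : FL Λ) :
    ∃ (J : Type) (_ : Fintype J) (b : Module.Basis J ℝ (ι → ℂ)),
      Λ.map e = AddSubgroup.closure (Set.range b) := by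
  classical
  obtain ⟨J, hJ, bq, hb⟩ := eklat_basQ h
  have hcl : Λ.map e = AddSubgroup.closure (Set.range fun j => e (bq j)) := by
    rw [hb, AddMonoidHom.map_closure, ← Set.range_comp]
    rfl
  have hspan : ⊤ ≤ Submodule.span ℝ (Set.range fun j => e (bq j)) := by
    rw [← span_map he h, Submodule.span_le, hcl]
    intro x hx
    induction hx using AddSubgroup.closure_induction with
    | mem x hx => exact Submodule.subset_span hx
    | zero => exact Submodule.zero_mem _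
    | add x y _ _ hx hy => exact Submodule.add_mem _ hx hy
    | neg x _ hx => exact Submodule.neg_mem _ hx
  have hcard : Fintype.card J = Module.finrank ℝ (ι → ℂ) := by
    rw [← Module.finrank_eq_card_basis bq, he.dim, Module.finrank_pi_fintype]
    simp [Complex.finrank_real_complex, mul_comm]
  refine ⟨J, hJ, basisOfTopLeSpanOfCardEqFinrank _ hspan hcard, ?_⟩
  rw [coe_basisOfTopLeSpanOfCardEqFinrank]
  exact hcl

/-- a lattice with a nonzero theta function is polarised -/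
theorem pol_of_vf {e : X →+ (ι → ℂ)} (he : Gd e) {Λ : AddSubgroup X} (h : FL Λ) {a : ι → ℝ}
    (ha : ∀ i, 0 < a i) {χ : (ι → ℂ) → ℂ} {f : (ι → ℂ) → ℂ} (hχ : ∀ l ∈ Λ.map e, χ l ≠ 0)
    (hf : Vf (Λ.map e) a χ f) (h0 : ∃ z, f z ≠ 0) : Pol (Λ.map e) a :=
  ⟨ha, exists_bas he h, fun _ hl _ hk => vf_int hf hχ h0 hl hk⟩

theorem tor_em {e : X →+ (ι → ℂ)} {Λ : AddSubgroup X} (h : FL Λ) (ρ : X) : Tor (Λ.map e) (e ρ) := by
  obtain ⟨n, hn, hx⟩ := h.2 ρ
  exact ⟨n, hn, ⟨_, hx, map_nsmul e n ρ⟩⟩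

end

end Pool.Agent.ALD
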