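import Pool.Agent.ALD.EEm

/-!
# ALD, final forms, EStb: stability under the family of complex multiplications

`K = ℚ(ζ_D)`. `σ_i ζ = zt D ^ (t i)` with `t i` coprime to `D`; a common denominator `N` for the
generators of `Λ` and all the powers `ζ^i`, `i < D`.
-/

set_option autoImplicit false
set_option linter.unusedSectionVars false

namespace Pool.Agent.ALD

open Finset Complex ComplexConjugate

noncomputable section

variable {K : Type} [Field K] [NumberField K] {g : ℕ}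

private theorem stb_rt (D : ℕ) [NeZero D] : RQ4.rt D 1 = zt D := by
  unfold RQ4.rt zt
  congr 1
  push_cast
  ring

/-- the residues of a CM type of `ℚ(ζ_D)` -/
private theorem stb_t (D : ℕ) [NeZero D] [IsCyclotomicExtension {D} ℚ K] (cm : RQ4.CM K g) :
    2 < D ∧ ∃ t : Fin g → ℕ, (∀ i, cm.σ i (RQ4.zt D K) = zt D ^ t i) ∧
      (∀ i, Nat.Coprime (t i) D) ∧ (∀ i j, t i ≡ t j [MOD D] → i = j) ∧
      ∀ i j, ¬ D ∣ t i + t j := by
  have hD0 : 0 < D := NeZero.pos D
  have hpr := zt_prim hD0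
  have h1 : ∀ i, ∃ m, Nat.Coprime m D ∧ cm.σ i (RQ4.zt D K) = zt D ^ m := by
    intro i
    have h2 : IsPrimitiveRoot (cm.σ i (RQ4.zt D K)) D :=
      (RQ4.zt_spec D K).map_of_injective (cm.σ i).injective
    obtain ⟨m, _, hmc, hme⟩ := (Complex.isPrimitiveRoot_iff _ _ (NeZero.ne D)).1 h2
    refine ⟨m, hmc, ?_⟩
    rw [← hme, zt_pow]
    congr 1
    ring
  choose t hc ht using h1
  have hinj : ∀ i j, t i ≡ t j [MOD D] → i = j := by
    intro i j h
    refine cm.inj (RQ4.ext_zt' D K _ _ ?_)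
    rw [ht, ht, ← pow_mod_orderOf, ← pow_mod_orderOf (zt D) (t j), ← hpr.eq_orderOf, h]
  have hopp : ∀ i j, ¬ D ∣ t i + t j := by
    intro i j h
    have h3 : cm.σ i = (starRingEnd ℂ).comp (cm.σ j) := by
      refine RQ4.ext_zt' D K _ _ ?_
      rw [RingHom.comp_apply, ht, ht, map_pow, conj_zt, inv_pow]
      refine eq_inv_of_mul_eq_one_left ?_
      rw [← pow_add]
      exact (hpr.pow_eq_one_iff_dvd _).2 h
    obtain ⟨x, hx⟩ := cm.ne i j
    exact hx (by rw [h3]; rfl)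
  refine ⟨?_, t, ht, hc, hinj, hopp⟩
  by_contra hD
  obtain ⟨i⟩ := cm.exists_place
  have h4 := hopp i i
  have h5 : D = 1 ∨ D = 2 := by omega
  rcases h5 with h5 | h5
  · exact h4 (by rw [h5]; exact one_dvd _)
  · exact h4 (by rw [h5]; exact ⟨t i, by ring⟩)

/-- a common denominator -/
private theorem stb_den {X G : Type} [AddCommGroup X] [Fintype G] {Λ : AddSubgroup X} (h : FL Λ)
    (m : G → X →+ X) : ∃ N : ℕ, 0 < N ∧ ∀ g, ∀ x ∈ Λ, N • m g x ∈ Λ := by
  classical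
  obtain ⟨S, hS⟩ := h.1
  choose n hn hn' using h.2
  set N : ℕ := ∏ p ∈ (Finset.univ : Finset G) ×ˢ S, n (m p.1 p.2) with hN
  refine ⟨N, Finset.prod_pos fun p _ => hn _, fun g x hx => ?_⟩
  rw [← hS] at hx
  induction hx using AddSubgroup.closure_induction with
  | mem x hx =>
    have h1 : n (m g x) ∣ N :=
      Finset.dvd_prod_of_mem (fun p : G × X => n (m p.1 p.2))
        (Finset.mem_product.2 ⟨Finset.mem_univ g, hx⟩ : (g, x) ∈ (Finset.univ : Finset G) ×ˢ S)
    obtain ⟨k, hk⟩ := h1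
    rw [hk, mul_comm, mul_smul]
    exact Λ.nsmul_mem (hn' _) k
  | zero => simp
  | add x y _ _ hx hy =>
    rw [map_add, smul_add]
    exact Λ.add_mem hx hy
  | neg x _ hx =>
    rw [map_neg, smul_neg]
    exact Λ.neg_mem hx

theorem stb1 (D : ℕ) [NeZero D] [IsCyclotomicExtension {D} ℚ K] (cm : RQ4.CM K g)
    (Λ : AddSubgroup K) (h : FL Λ) : ∃ (N : ℕ) (t : Fin g → ℕ),
      CMB D t (fun _ => true) ∧ Stb (Λ.map (em1 cm.σ)) D N t (fun _ => true) := by
  obtain ⟨hD, t, ht, hc, hinj, hopp⟩ := stb_t D cm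
  obtain ⟨N, hN, hN'⟩ := stb_den h
    (fun p : Fin D × Fin D => AddMonoidHom.mulLeft (RQ4.zt D K ^ (p.1 : ℕ)))
  refine ⟨N, t, ⟨hD, hc, fun i j _ => hinj i j, fun i j _ => hopp i j⟩, hN, ?_⟩
  rintro p _ ⟨x, hx, rfl⟩
  refine ⟨_, hN' p x hx, ?_⟩
  funext i
  simp only [em1, AddMonoidHom.coe_mk, ZeroHom.coe_mk, AddMonoidHom.coe_mulLeft, nsmul_eq_mul,
    map_mul, map_natCast, map_pow, Pi.mul_apply, fam, if_true, ht]
  rw [← pow_mul, mul_assoc]

theorem stb2 (D : ℕ) [NeZero D] [IsCyclotomicExtension {D} ℚ K] (cm cm' : RQ4.CM K g)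
    (Λ : AddSubgroup (Fin 2 → K)) (h : FL Λ) : ∃ (N : ℕ) (t : RQ4.Ix g → ℕ),
      CMB D t (fun p => decide (p.2 = 0)) ∧
        Stb (Λ.map (em2 cm.σ cm'.σ)) D N t (fun p => decide (p.2 = 0)) := by
  obtain ⟨hD, t, ht, hc, hinj, hopp⟩ := stb_t D cm
  obtain ⟨-, t', ht', hc', hinj', hopp'⟩ := stb_t D cm'
  obtain ⟨N, hN, hN'⟩ := stb_den h
    (fun p : Fin D × Fin D => (AddMonoidHom.mulLeft
      (![RQ4.zt D K ^ (p.1 : ℕ), RQ4.zt D K ^ (p.2 : ℕ)] : Fin 2 → K)))
  refine ⟨N, fun p => if p.2 = 0 then t p.1 else t' p.1, ⟨hD, ?_, ?_, ?_⟩, hN, ?_⟩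
  · intro p
    split_ifs
    · exact hc _
    · exact hc' _
  · rintro ⟨i, a⟩ ⟨j, b⟩ hab h1
    simp only [decide_eq_decide] at hab
    by_cases ha : a = 0
    · have hb : b = 0 := hab.1 ha
      subst ha
      subst hb
      simp only [if_true] at h1
      rw [hinj i j h1]
    · have hb : b ≠ 0 := fun hb => ha (hab.2 hb)
      simp only [if_neg ha, if_neg hb] at h1
      rw [hinj' i j h1, show a = b by omega]
  · rintro ⟨i, a⟩ ⟨j, b⟩ hab h1
    simp only [decide_eq_decide] at hab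
    by_cases ha : a = 0
    · have hb : b = 0 := hab.1 ha
      subst ha
      subst hb
      simp only [if_true] at h1
      exact hopp i j h1
    · have hb : b ≠ 0 := fun hb => ha (hab.2 hb)
      simp only [if_neg ha, if_neg hb] at h1
      exact hopp' i j h1
  · rintro p _ ⟨x, hx, rfl⟩
    refine ⟨_, hN' p x hx, ?_⟩
    funext q
    simp only [em2, RQ4.ex, AddMonoidHom.coe_mk, ZeroHom.coe_mk, AddMonoidHom.coe_mulLeft,
      nsmul_eq_mul, Pi.mul_apply, fam, Pi.natCast_apply]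
    by_cases hq : q.2 = 0
    · simp only [hq, decide_true, if_true, Matrix.cons_val_zero, map_mul, map_natCast,
        map_pow, ht]
      rw [← pow_mul, mul_assoc]
    · simp only [hq, decide_false, Bool.false_eq_true, if_false, Matrix.cons_val_one,
        Matrix.cons_val_fin_one, map_mul, map_natCast, map_pow, ht']
      rw [← pow_mul, mul_assoc]

end

end Pool.Agent.ALD
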