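import Pool.Agent.ALD.ESub
import Pool.Agent.ALD.EKLat
import Pool.Agent.ALD.EStb

/-!
# ALD, final forms, EIsC: the exponents of a CM type exist and are unique

PLAN. `isC_unique`: the theta function of the first part of `IsC`, `pol_of_vf`, `bi_der` (with `m = 1`), `sd_sub` with `Λ' = Λ`.
`isC_of_one`: `(Λ0, a0)` with a nonzero theta function `f0` and `SDz δ Λ0 a0 c` is enough. Proof: let `Λ`, `a` be given; unfold `SDz`: `m`, `χ`, `f ≠ 0`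
in `V(Λ, m a)`; so `Pol Λ (m a)`. `Λ'' = Λ ⊓ Λ0` (in `K`): `Pol Λ'' (m a)`, `Pol Λ'' a0` (restrict `f`, `f0` to the smaller lattice and `pol_of_vf`).
`bi_sd` (stability: `stb1`) gives `c1` for `(Λ'', m a)`, `c2` for `(Λ'', a0)`, `c3` for `(Λ, m a)`; `bi_U`: `c1 = c2`; `sd_sub` (`f0`, level `1`): `c = c2`; `sd_sub` (`f`): `c3 = c1`.
So `SDz δ Λ (m a) c`; apply it at level `1` (the weights `(1 : ℕ) * (m * a i)` and `m * a i` agree) to `χ`, `f`, `u`.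
`exists_isC_of`: `bi_sd` for `(Λ0, a0)` and `isC_of_one`.
-/

set_option autoImplicit false
set_option linter.unusedSectionVars false

namespace Pool.Agent.ALD

open Finset Complex ComplexConjugate

noncomputable section

variable {K : Type} [Field K] [NumberField K] {g : ℕ}

private theorem eisc_one (a : Fin g → ℝ) : (fun i => ((1 : ℕ) : ℝ) * a i) = a := by
  funext i
  rw [Nat.cast_one, one_mul]

private theorem eisc_res {Λ Λ' : AddSubgroup (Fin g → ℂ)} (hle : Λ' ≤ Λ) {a : Fin g → ℝ}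
    {χ f : (Fin g → ℂ) → ℂ} (hf : Vf Λ a χ f) : Vf Λ' a χ f :=
  ⟨hf.1, fun l hl => hf.2 l (hle hl)⟩

private theorem eisc_sub {Λ Λ' : AddSubgroup (Fin g → ℂ)} (hle : Λ' ≤ Λ) {a : Fin g → ℝ}
    (hP : Pol Λ a) (hsp : Submodule.span ℝ (Λ' : Set (Fin g → ℂ)) = ⊤)
    {χ : (Fin g → ℂ) → ℂ} (hχ : ∀ l ∈ Λ, χ l ≠ 0) {f : (Fin g → ℂ) → ℂ} (hf : Vf Λ a χ f)
    (h0 : ∃ z, f z ≠ 0) {δ : Derivation ℚ ℂ ℂ} {c c' : Fin g → ℂ}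
    (hc : SDz δ Λ a c) (hc' : SDz δ Λ' a c') : c = c' := by
  have hf1 : Vf Λ (fun i => ((1 : ℕ) : ℝ) * a i) χ f := by
    rw [eisc_one]
    exact hf
  obtain ⟨u, hu⟩ := bi_der hP δ one_pos hχ hf1
  exact sd_sub hle hP.pos hsp one_pos hχ hf1 h0 hu hc hc'

theorem isC_unique {cm : RQ4.CM K g} {δ : Derivation ℚ ℂ ℂ} {c c' : Fin g → ℂ}
    (hc : IsC cm.σ δ c) (hc' : IsC cm.σ δ c') : c = c' := by
  obtain ⟨Λ, a, χ, f, hΛ, ha, hχ, hf, h0⟩ := hc.1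
  exact eisc_sub le_rfl (pol_of_vf (gd1 cm) hΛ ha hχ hf h0) (span_map (gd1 cm) hΛ) hχ hf h0
    (hc.2 Λ a hΛ ha) (hc'.2 Λ a hΛ ha)

theorem isC_of_one (D : ℕ) [NeZero D] [IsCyclotomicExtension {D} ℚ K] {cm : RQ4.CM K g}
    {δ : Derivation ℚ ℂ ℂ} {c : Fin g → ℂ} {Λ : AddSubgroup K} (hΛ : FL Λ) {a : Fin g → ℝ}
    (ha : ∀ i, 0 < a i) {χ : (Fin g → ℂ) → ℂ} {f : (Fin g → ℂ) → ℂ}
    (hχ : ∀ l ∈ Λ.map (em1 cm.σ), χ l ≠ 0) (hf : Vf (Λ.map (em1 cm.σ)) a χ f) (h0 : ∃ z, f z ≠ 0)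
    (hc : SDz δ (Λ.map (em1 cm.σ)) a c) : IsC cm.σ δ c := by
  refine ⟨⟨Λ, a, χ, f, hΛ, ha, hχ, hf, h0⟩, ?_⟩
  intro Λ1 a1 hΛ1 ha1 m χ1 f1 u1 hm hχ1 hf1 h01 hu1
  set A : Fin g → ℝ := fun i => m * a1 i with hA
  have hm' : (0 : ℝ) < m := by exact_mod_cast hm
  have hA0 : ∀ i, 0 < A i := fun i => mul_pos hm' (ha1 i)
  have hd := gd1 cm
  have P0 : Pol (Λ.map (em1 cm.σ)) a := pol_of_vf hd hΛ ha hχ hf h0
  have P1 : Pol (Λ1.map (em1 cm.σ)) A := pol_of_vf hd hΛ1 hA0 hχ1 hf1 h01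
  have hΛ2 : FL (Λ ⊓ Λ1) := fl_inf hΛ hΛ1
  have le0 : (Λ ⊓ Λ1).map (em1 cm.σ) ≤ Λ.map (em1 cm.σ) := AddSubgroup.map_mono inf_le_left
  have le1 : (Λ ⊓ Λ1).map (em1 cm.σ) ≤ Λ1.map (em1 cm.σ) := AddSubgroup.map_mono inf_le_right
  have P2 : Pol ((Λ ⊓ Λ1).map (em1 cm.σ)) A :=
    pol_of_vf hd hΛ2 hA0 (fun l hl => hχ1 l (le1 hl)) (eisc_res le1 hf1) h01
  have P3 : Pol ((Λ ⊓ Λ1).map (em1 cm.σ)) a :=
    pol_of_vf hd hΛ2 ha (fun l hl => hχ l (le0 hl)) (eisc_res le0 hf) h0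
  obtain ⟨N, t, ht, hs⟩ := stb1 D cm (Λ ⊓ Λ1) hΛ2
  obtain ⟨N', t', ht', hs'⟩ := stb1 D cm Λ1 hΛ1
  obtain ⟨c1, hc1⟩ := bi_sd P2 ht hs δ
  obtain ⟨c2, hc2⟩ := bi_sd P3 ht hs δ
  obtain ⟨c3, hc3⟩ := bi_sd P1 ht' hs' δ
  have e1 : c1 = c2 := bi_U P2 P3 ht hs hc1 hc2
  have e2 : c = c2 := eisc_sub le0 P0 (span_map hd hΛ2) hχ hf h0 hc hc2
  have e3 : c3 = c1 := eisc_sub le1 P1 (span_map hd hΛ2) hχ1 hf1 h01 hc3 hc1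
  have e4 : c3 = c := by rw [e3, e1, ← e2]
  rw [e4] at hc3
  have h5 := hc3 1 χ1 f1 u1 one_pos hχ1 (by rw [eisc_one]; exact hf1) h01 hu1
  rw [eisc_one] at h5
  exact h5

theorem exists_isC_of (D : ℕ) [NeZero D] [IsCyclotomicExtension {D} ℚ K] {cm : RQ4.CM K g}
    (δ : Derivation ℚ ℂ ℂ) {Λ : AddSubgroup K} (hΛ : FL Λ) {a : Fin g → ℝ} (ha : ∀ i, 0 < a i)
    {χ : (Fin g → ℂ) → ℂ} {f : (Fin g → ℂ) → ℂ} (hχ : ∀ l ∈ Λ.map (em1 cm.σ), χ l ≠ 0)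
    (hf : Vf (Λ.map (em1 cm.σ)) a χ f) (h0 : ∃ z, f z ≠ 0) : ∃ c, IsC cm.σ δ c := by
  obtain ⟨N, t, ht, hs⟩ := stb1 D cm Λ hΛ
  obtain ⟨c, hc⟩ := bi_sd (pol_of_vf (gd1 cm) hΛ ha hχ hf h0) ht hs δ
  exact ⟨c, isC_of_one D hΛ ha hχ hf h0 hc⟩

end

end Pool.Agent.ALD
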