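import Pool.Agent.RHK.FCov

/-!
# ALD-ELat: a real basis of the lattice of the conjugates of `N ℤ[ζ]`
-/

set_option autoImplicit false

namespace Pool.Agent.ALD

open Complex ComplexConjugate Finset Polynomial Pool.Agent.RHK

noncomputable section

variable {D g : ℕ} {t : Fin g → ℕ}

/-- the vectors `N (ζ^(t_i j))_i` -/
def ebv (D : ℕ) {g : ℕ} (t : Fin g → ℕ) (N : ℕ) (j : Fin (2 * g)) (i : Fin g) : ℂ :=
  N * (RHK.zt D ^ t i) ^ (j : ℕ)

private theorem elat_g (h : Emb D g t) : 0 < g := by
  have h1 : 0 < D.totient := Nat.totient_pos.2 h.pos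
  have := h.card
  omega

private theorem elat_li (h : Emb D g t) {N : ℕ} (hN : 0 < N) : LinearIndependent ℝ (ebv D t N) := by
  rw [Fintype.linearIndependent_iff]
  intro x hx
  have hN' : (N : ℂ) ≠ 0 := by exact_mod_cast hN.ne'
  have h1 : ∀ i, RHK.lam D t x i = 0 := by
    intro i
    have h2 := congrFun hx i
    rw [Finset.sum_apply] at h2
    have h3 : ∑ j, (x j • ebv D t N j) i = N * RHK.lam D t x i := by
      unfold RHK.lam
      rw [Finset.mul_sum]
      refine Finset.sum_congr rfl fun j _ => ?_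
      rw [Pi.smul_apply, Complex.real_smul]
      unfold ebv
      ring
    rw [h3] at h2
    rcases mul_eq_zero.1 h2 with h4 | h4
    · exact absurd h4 hN'
    · exact h4
  have h5 := RHK.lam_inj h h1
  intro j
  rw [h5]
  rfl

/-- the real basis `N (ζ^(t_i j))_i`, `j < 2g` -/
def eb (h : Emb D g t) {N : ℕ} (hN : 0 < N) : Module.Basis (Fin (2 * g)) ℝ (Fin g → ℂ) :=
  haveI : Nonempty (Fin (2 * g)) := ⟨⟨0, by have := elat_g h; omega⟩⟩
  basisOfLinearIndependentOfCardEqFinrank (elat_li h hN) (by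
    rw [Fintype.card_fin, Module.finrank_pi_fintype]
    simp [Complex.finrank_real_complex, mul_comm])

theorem eb_apply (h : Emb D g t) {N : ℕ} (hN : 0 < N) (j : Fin (2 * g)) (i : Fin g) :
    eb h hN j i = N * (RHK.zt D ^ t i) ^ (j : ℕ) := by
  have : Nonempty (Fin (2 * g)) := ⟨⟨0, by have := elat_g h; omega⟩⟩
  unfold eb
  rw [coe_basisOfLinearIndependentOfCardEqFinrank]
  rfl

theorem mem_eb (h : Emb D g t) {N : ℕ} (hN : 0 < N) (u : Fin g → ℂ) :
    u ∈ AddSubgroup.closure (Set.range (eb h hN)) ↔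
      ∃ c : ℕ → ℤ, u = fun i => (N : ℂ) * emb D c (t i) := by
  have key : (u ∈ AddSubgroup.closure (Set.range (eb h hN))) ↔
      ∃ P : ℤ[X], ∀ i, u i = N * P.eval₂ (Int.castRingHom ℂ) (RHK.zt D ^ t i) := by
    constructor
    · intro hu
      induction hu using AddSubgroup.closure_induction with
      | mem x hx =>
        obtain ⟨j, rfl⟩ := hx
        refine ⟨X ^ (j : ℕ), fun i => ?_⟩
        rw [eb_apply, eval₂_pow, eval₂_X]
      | zero => exact ⟨0, fun i => by simp⟩
      | add x y _ _ hx hy =>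
        obtain ⟨P, hP⟩ := hx
        obtain ⟨Q, hQ⟩ := hy
        refine ⟨P + Q, fun i => ?_⟩
        rw [Pi.add_apply, hP, hQ, eval₂_add, mul_add]
      | neg x _ hx =>
        obtain ⟨P, hP⟩ := hx
        refine ⟨-P, fun i => ?_⟩
        rw [Pi.neg_apply, hP, eval₂_neg, mul_neg]
    · rintro ⟨P, hP⟩
      set R := P %ₘ cyclotomic D ℤ with hR
      have hmon := cyclotomic.monic D ℤ
      have hdeg : R.natDegree < 2 * g := by
        have h1 := natDegree_modByMonic_lt P hmon (by
          intro h0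
          have h2 := natDegree_cyclotomic D ℤ
          rw [h0, natDegree_one] at h2
          have h3 : 0 < D.totient := Nat.totient_pos.2 h.pos
          omega)
        rwa [natDegree_cyclotomic, ← h.card] at h1
      have hroot : ∀ i, (cyclotomic D ℤ).eval₂ (Int.castRingHom ℂ) (RHK.zt D ^ t i) = 0 := by
        intro i
        have h1 : IsPrimitiveRoot (RHK.zt D ^ t i) D :=
          (RHK.zt_prim h.pos.ne').pow_of_coprime (t i) (h.cop i)
        have h2 := h1.isRoot_cyclotomic h.pos
        rw [IsRoot.def, ← map_cyclotomic_int D ℂ, eval_map] at h2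
        exact h2
      have h1 : ∀ i, u i = N * ∑ j : Fin (2 * g), (R.coeff j : ℂ) * (RHK.zt D ^ t i) ^ (j : ℕ) := by
        intro i
        rw [hP i]
        congr 1
        conv_lhs => rw [← modByMonic_add_div P (cyclotomic D ℤ)]
        rw [eval₂_add, eval₂_mul, hroot i, zero_mul, add_zero,
          eval₂_eq_sum_range' _ hdeg, ← Fin.sum_univ_eq_sum_range
            (fun j => (Int.castRingHom ℂ) (R.coeff j) * (RHK.zt D ^ t i) ^ j)]
        rfl
      have h2 : u = ∑ j : Fin (2 * g), R.coeff j • eb h hN j := by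
        funext i
        rw [h1 i, Finset.sum_apply, Finset.mul_sum]
        refine Finset.sum_congr rfl fun j _ => ?_
        rw [Pi.smul_apply, eb_apply, zsmul_eq_mul]
        ring
      rw [h2]
      exact AddSubgroup.sum_mem _ fun j _ => AddSubgroup.zsmul_mem _
        (AddSubgroup.subset_closure (Set.mem_range_self j)) _
  rw [key]
  constructor
  · rintro ⟨P, hP⟩
    obtain ⟨c, hc⟩ := emb_poly h.pos.ne' P
    refine ⟨c, ?_⟩
    funext i
    rw [hP i, hc]
  · rintro ⟨c, rfl⟩
    refine ⟨∑ j ∈ range D, C (c j) * X ^ j, fun i => ?_⟩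
    show (N : ℂ) * emb D c (t i) = _
    rw [emb_eq, eval₂_finsetSum]
    congr 1
    refine Finset.sum_congr rfl fun j _ => ?_
    rw [eval₂_mul, eval₂_C, eval₂_pow, eval₂_X]
    rfl

end

end Pool.Agent.ALD
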