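import Pool.Agent.ALD.GLat

/-!
# ALD, exists_UT, part 4: the statement without the definitions of `EDefs`
-/

set_option autoImplicit false

namespace Pool.Agent.ALD

open Finset Complex ComplexConjugate Pool.Agent.RQ4

noncomputable section

variable {K : Type} [Field K] [NumberField K] {g : ℕ}

/-- the rank one theta function of a CM type: `a_i/π` algebraic, `χ = ±1`, `T` even, `T(0) ≠ 0`,
unique for its multipliers -/
theorem exists_ut0 (cm : CM K g) (e : K →+ (Fin g → ℂ)) (he : ∀ x i, e x i = cm.σ i x) :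
    ∃ (a : Fin g → ℝ) (Λ : AddSubgroup K) (χ : (Fin g → ℂ) → ℂ) (T : (Fin g → ℂ) → ℂ),
      Λ.FG ∧ (∀ x : K, ∃ n : ℕ, 0 < n ∧ n • x ∈ Λ) ∧ (∀ i, 0 < a i) ∧
      (∀ i, IsAlgebraic ℚ (a i / Real.pi)) ∧
      (∀ l ∈ Λ.map e, χ l = 1 ∨ χ l = -1) ∧ Vf (Λ.map e) a χ T ∧ (∀ z, T (-z) = T z) ∧ T 0 ≠ 0 ∧
      ∀ f, Vf (Λ.map e) a χ f → ∃ k : ℂ, ∀ z, f z = k * T z := by
  obtain ⟨s⟩ := cm.exists_place
  obtain ⟨d, hd, -, -, -⟩ := cm.exists_dat ∅ s (Finset.notMem_empty s)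
  subst hd
  have hm : ∀ l ∈ (L1 d).map e, ∃ m n : Fin g → ℤ, l = (gdR d).lv m n := by
    rintro l ⟨x, hx, rfl⟩
    obtain ⟨m, n, rfl⟩ := exists_ek d hx
    refine ⟨m, n, ?_⟩
    funext i
    rw [he, sig_ek]
  have hm' : ∀ m n : Fin g → ℤ, (gdR d).lv m n ∈ (L1 d).map e := by
    intro m n
    refine ⟨ek d m n, ek_mem d m n, ?_⟩
    funext i
    rw [he, sig_ek]
  refine ⟨(gdR d).wt, L1 d, (gdR d).chi, (gdR d).T, L1_fg d, L1_tor d, fun i => ?_, fun i => ?_, ?_,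
    ⟨(gdR d).T_diff, ?_⟩, (gdR d).T_even, (gdR d).T_zero, ?_⟩
  · exact mul_pos Real.pi_pos ((gdR d).hc i)
  · have h1 : (gdR d).wt i / Real.pi = d.c i := by
      show Real.pi * d.c i / Real.pi = d.c i
      rw [mul_div_cancel_left₀ _ Real.pi_pos.ne']
    rw [h1]
    exact c_alg d i
  · intro l hl
    obtain ⟨m, n, rfl⟩ := hm l hl
    exact (gdR d).chi_pm m n
  · intro l hl z
    obtain ⟨m, n, rfl⟩ := hm l hl
    exact (gdR d).T_qp z m n
  · intro f hf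
    exact (gdR d).T_unique hf.1 fun m n u => hf.2 _ (hm' m n) u

end

end Pool.Agent.ALD
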