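import Pool.Agent.ALD.EDefs
import Pool.Agent.ALD.GEx

/-!
# ALD, final forms, EUT: an even unimodular theta function of rank one (interface, helper37)
-/

set_option autoImplicit false
set_option linter.unusedSectionVars false

namespace Pool.Agent.ALD

open Finset Complex ComplexConjugate

noncomputable section

variable {K : Type} [Field K] [NumberField K] {g : ℕ}

theorem exists_UT (cm : RQ4.CM K g) : ∃ (Λ : AddSubgroup K) (a : Fin g → ℝ)
    (χ : (Fin g → ℂ) → ℂ) (T : (Fin g → ℂ) → ℂ), FL Λ ∧ UT (Λ.map (em1 cm.σ)) a χ T ∧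
      ∀ i, IsAlgebraic ℚ (a i / Real.pi) := by
  obtain ⟨a, Λ, χ, T, h1, h2, h3, h4, h5, h6, h7, h8, h9⟩ :=
    exists_ut0 cm (em1 cm.σ) (fun x i => rfl)
  exact ⟨Λ, a, χ, T, ⟨h1, h2⟩, ⟨h3, h5, h6, h7, h8, h9⟩, h4⟩

end

end Pool.Agent.ALD
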