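import Pool.Agent.ALD.ERk2
import Pool.Agent.ALD.ECtx
import Pool.Agent.ALD.EUT

/-!
# ALD, final forms, EOut: output of the block TH
-/

set_option autoImplicit false
set_option linter.unusedSectionVars false

namespace Pool.Agent.ALD

open Finset Complex ComplexConjugate

noncomputable section

variable {K : Type} [Field K] [NumberField K] {g : ℕ}

private theorem eout_ne {ι : Type} {Λ : AddSubgroup (ι → ℂ)} {χ : (ι → ℂ) → ℂ}
    (h : ∀ l ∈ Λ, χ l = 1 ∨ χ l = -1) : ∀ l ∈ Λ, χ l ≠ 0 := by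
  intro l hl
  rcases h l hl with h1 | h1
  · rw [h1]
    exact one_ne_zero
  · rw [h1]
    exact neg_ne_zero.2 one_ne_zero

/-- the exponents exist -/
theorem exists_isC (D : ℕ) [NeZero D] [IsCyclotomicExtension {D} ℚ K] (cm : RQ4.CM K g)
    (δ : Derivation ℚ ℂ ℂ) : ∃ c, IsC cm.σ δ c := by
  obtain ⟨Λ, a, χ, T, hΛ, hU, -⟩ := exists_UT cm
  exact exists_isC_of D δ hΛ hU.pos (eout_ne hU.chi) hU.hT ⟨0, hU.ne⟩

/-- Theorem T in rank one: jets at all torsion points; the same exponents `c` for all lattices -/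
theorem jet_T1 {cm : RQ4.CM K g} {δ : Derivation ℚ ℂ ℂ} {c : Fin g → ℂ} (hc : IsC cm.σ δ c)
    {Λ : AddSubgroup K} (hΛ : FL Λ) {a : Fin g → ℝ} {χ : (Fin g → ℂ) → ℂ} {T : (Fin g → ℂ) → ℂ}
    (hU : UT (Λ.map (em1 cm.σ)) a χ T) : ∃ γ : ℂ, ∀ (ρ : K) (A : Fin g → ℕ),
      δ (RHK.jet1 (tr a (em1 cm.σ ρ) T) A) =
        (∑ i, c i * A i + γ) * RHK.jet1 (tr a (em1 cm.σ ρ) T) A := by
  obtain ⟨γ, hγ⟩ := jet_T hU
    (pol_of_vf (gd1 cm) hΛ hU.pos (eout_ne hU.chi) hU.hT ⟨0, hU.ne⟩) (hc.2 Λ a hΛ hU.pos)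
  exact ⟨γ, fun ρ A => hγ _ (tor_em hΛ ρ) A⟩

/-- uniqueness of the exponents of the flipped types -/
theorem uc_flp (cm : RQ4.CM K g) (S : Finset (Fin g)) {δ : Derivation ℚ ℂ ℂ} {c c' : Fin g → ℂ}
    (hc : IsC (cm.fl S) δ c) (hc' : IsC (cm.fl S) δ c') : c = c' := by
  obtain ⟨cm', -, h⟩ := exists_flp cm S
  rw [← h] at hc hc'
  exact isC_unique hc hc'

/-- Theorem T in rank two: the input of project RQ4 -/
theorem th2 (D : ℕ) [NeZero D] [IsCyclotomicExtension {D} ℚ K] (cm : RQ4.CM K g) :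
    RQ4.TH2 cm IsC := by
  intro S3 S4 a Λ χ T ha _ hFG hfull hχ hT hev h0 huni δ
  obtain ⟨cm3, -, h3⟩ := exists_flp cm S3
  obtain ⟨cm4, -, h4⟩ := exists_flp cm S4
  rw [← h3, ← h4] at hT huni ⊢
  obtain ⟨c3, hc3⟩ := exists_isC D cm3 δ
  obtain ⟨c4, hc4⟩ := exists_isC D cm4 δ
  have hG := gd2 cm3 cm4
  have hΛ : FL Λ := ⟨hFG, hfull⟩
  set χ' : (RQ4.Ix g → ℂ) → ℂ := Function.extend (em2 cm3.σ cm4.σ) χ 1 with hχ'
  have hχe : ∀ x, χ' (em2 cm3.σ cm4.σ x) = χ x := fun x => hG.inj.extend_apply χ 1 x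
  have hV : ∀ f, Vf (Λ.map (em2 cm3.σ cm4.σ)) a χ' f ↔ RQ4.IsTh a Λ χ cm3.σ cm4.σ f := by
    intro f
    constructor
    · rintro ⟨hd, hl⟩
      refine ⟨hd, fun l hl' z => ?_⟩
      have h1 := hl (em2 cm3.σ cm4.σ l) ⟨l, hl', rfl⟩ z
      rw [hχe] at h1
      exact h1
    · rintro ⟨hd, hl⟩
      refine ⟨hd, ?_⟩
      rintro _ ⟨l, hl', rfl⟩ z
      rw [hχe]
      exact hl l hl' z
  have hU : UT (Λ.map (em2 cm3.σ cm4.σ)) a χ' T := by
    refine ⟨ha, ?_, (hV T).2 hT, hev, h0, fun f hf => huni f ((hV f).1 hf)⟩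
    rintro _ ⟨l, hl', rfl⟩
    rw [hχe]
    exact hχ l hl'
  obtain ⟨γ, hγ⟩ := jet_T hU
    (pol_of_vf hG hΛ ha (eout_ne hU.chi) hU.hT ⟨0, h0⟩) (sd_rank2 D hc3 hc4 hΛ ha)
  refine ⟨c3, c4, γ, hc3, hc4, fun ρ => ⟨?_, fun p => ?_⟩⟩
  · have h1 := hγ _ (tor_em hΛ ρ) 0
    rw [jet1_zero] at h1
    simp only [Pi.zero_apply, Nat.cast_zero, mul_zero, Finset.sum_const_zero, zero_add] at h1
    exact h1
  · have h1 := hγ _ (tor_em hΛ ρ) (Pi.single p 1)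
    have hd : Differentiable ℂ (tr a (em2 cm3.σ cm4.σ ρ) T) := by
      have h2 : Differentiable ℂ fun z : RQ4.Ix g → ℂ => me a z (em2 cm3.σ cm4.σ ρ) := by
        unfold me
        exact Differentiable.fun_sum fun q _ =>
          (((differentiable_apply q).const_mul _).add_const _).const_mul _
      exact h2.neg.cexp.mul (hT.1.comp (differentiable_id.add_const _))
    rw [jet1_single hd] at h1
    have h3 : ∑ q, c34 c3 c4 q * (((Pi.single p 1 : RQ4.Ix g → ℕ) q : ℕ) : ℂ) = c34 c3 c4 p := by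
      rw [Finset.sum_eq_single p]
      · simp
      · intro j _ hj
        simp [hj]
      · intro h
        exact absurd (Finset.mem_univ p) h
    rw [h3, add_comm] at h1
    exact h1

end

end Pool.Agent.ALD
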