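import Pool.Agent.ALD.KDer
import Pool.Agent.ALD.Der

/-!
# ALD, final forms, EProd: products of functions of separate variables

Index set `Ix g = Fin g × Fin 2`, blocks `p.2 = 0`, `p.2 = 1`. PLAN. `F(z) = f(z^0) h(z^1)`. Jets: `jet1 F A = jet1 f A^0 · jet1 h A^1`
(`RHK.exp_induction` on `A` with the statement for all `f`, `h`: `∂_p F` is the product with `∂_i f` resp. `∂_i h`; `fderiv` of a composition with a
continuous linear projection; or `jet_mul`), so `isDer_prd` by the Leibniz rule of `δ`. `vf_prd`: `me` of `Ix g` is the sum over the two blocks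
(`Fintype.sum_prod_type`). `Ec_prd`: product rule.
-/

set_option autoImplicit false
set_option linter.unusedSectionVars false

namespace Pool.Agent.ALD

open Finset Complex ComplexConjugate

noncomputable section

variable {g : ℕ}

/-- the block `al` of a vector -/
def bk {R : Type} (al : Fin 2) (z : Fin g × Fin 2 → R) : Fin g → R := fun i => z (i, al)

/-- the product of two functions of separate variables -/
def prd (f h : (Fin g → ℂ) → ℂ) (z : Fin g × Fin 2 → ℂ) : ℂ := f (bk 0 z) * h (bk 1 z)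

/-- the matrix of the projection to a block -/
private def bkL (al : Fin 2) (i : Fin g) (p : Fin g × Fin 2) : ℂ := if p = (i, al) then 1 else 0

private theorem bk_linm (al : Fin 2) (z : Fin g × Fin 2 → ℂ) : linm (bkL al) z = bk al z := by
  funext i
  unfold linm bkL bk
  simp

private theorem bk_diff (al : Fin 2) : Differentiable ℂ (fun z : Fin g × Fin 2 → ℂ => bk al z) := by
  unfold bk
  fun_prop

private theorem pd_bk {f : (Fin g → ℂ) → ℂ} (hf : Differentiable ℂ f) (al be : Fin 2) (i : Fin g)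
    (z : Fin g × Fin 2 → ℂ) :
    pd (i, al) (fun z : Fin g × Fin 2 → ℂ => f (bk be z)) z =
      if al = be then pd i f (bk be z) else 0 := by
  have h := pd_comp_linm hf (bkL be) (i, al) z
  simp only [bk_linm] at h
  rw [h]
  unfold bkL
  by_cases hab : al = be
  · subst hab
    rw [if_pos rfl, Finset.sum_eq_single i]
    · simp
    · intro j _ hj
      rw [if_neg (by intro h; exact hj (congrArg Prod.fst h).symm), zero_mul]
    · intro h; exact absurd (mem_univ i) h
  · rw [if_neg hab]
    refine Finset.sum_eq_zero fun j _ => ?_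
    rw [if_neg (by intro h; exact hab (congrArg Prod.snd h)), zero_mul]

private theorem pd_mul' {κ : Type} [Fintype κ] [DecidableEq κ] {F G : (κ → ℂ) → ℂ}
    (hF : Differentiable ℂ F) (hG : Differentiable ℂ G) (k : κ) (z : κ → ℂ) :
    pd k (fun z => F z * G z) z = pd k F z * G z + F z * pd k G z := by
  unfold pd
  have h : HasFDerivAt (fun z => F z * G z) (F z • fderiv ℂ G z + G z • fderiv ℂ F z) z :=
    (hF z).hasFDerivAt.mul (hG z).hasFDerivAt
  rw [h.fderiv]
  simp only [_root_.add_apply, _root_.smul_apply, smul_eq_mul]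
  ring

theorem prd_diff {f h : (Fin g → ℂ) → ℂ} (hf : Differentiable ℂ f) (hh : Differentiable ℂ h) :
    Differentiable ℂ (prd f h) :=
  (hf.comp (bk_diff 0)).mul (hh.comp (bk_diff 1))

theorem pd_prd0 {f h : (Fin g → ℂ) → ℂ} (hf : Differentiable ℂ f) (hh : Differentiable ℂ h)
    (i : Fin g) (z : Fin g × Fin 2 → ℂ) : pd (i, 0) (prd f h) z = prd (pd i f) h z := by
  have h1 := pd_mul' (F := fun z => f (bk 0 z)) (G := fun z => h (bk 1 z)) (hf.comp (bk_diff 0))
    (hh.comp (bk_diff 1)) (i, 0) z
  rw [pd_bk hf, pd_bk hh, if_pos rfl, if_neg (by decide), mul_zero, add_zero] at h1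
  exact h1

theorem pd_prd1 {f h : (Fin g → ℂ) → ℂ} (hf : Differentiable ℂ f) (hh : Differentiable ℂ h)
    (i : Fin g) (z : Fin g × Fin 2 → ℂ) : pd (i, 1) (prd f h) z = prd f (pd i h) z := by
  have h1 := pd_mul' (F := fun z => f (bk 0 z)) (G := fun z => h (bk 1 z)) (hf.comp (bk_diff 0))
    (hh.comp (bk_diff 1)) (i, 1) z
  rw [pd_bk hf, pd_bk hh, if_pos rfl, if_neg (by decide), zero_mul, zero_add] at h1
  exact h1

theorem jet_prd {f h : (Fin g → ℂ) → ℂ} (hf : Differentiable ℂ f) (hh : Differentiable ℂ h)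
    (A : Fin g × Fin 2 → ℕ) :
    RHK.jet1 (prd f h) A = RHK.jet1 f (bk 0 A) * RHK.jet1 h (bk 1 A) := by
  have key : ∀ (N : ℕ) (A : Fin g × Fin 2 → ℕ), ∑ k, A k = N → ∀ f h : (Fin g → ℂ) → ℂ,
      Differentiable ℂ f → Differentiable ℂ h →
      RHK.jet1 (prd f h) A = RHK.jet1 f (bk 0 A) * RHK.jet1 h (bk 1 A) := by
    intro N
    induction N with
    | zero =>
      intro A hA f h hf hh
      have hA0 : A = 0 := by
        funext k
        exact (Finset.sum_eq_zero_iff.1 hA) k (mem_univ k)
      have e : ∀ al : Fin 2, bk al (0 : Fin g × Fin 2 → ℕ) = 0 := fun al => rfl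
      have e' : ∀ al : Fin 2, bk al (0 : Fin g × Fin 2 → ℂ) = 0 := fun al => rfl
      rw [hA0, e, e, jet1_zero' _ (prd_diff hf hh), jet1_zero' _ hf, jet1_zero' _ hh]
      unfold prd
      rw [e', e']
    | succ N ih =>
      intro A hA f h hf hh
      obtain ⟨k, hk⟩ : ∃ k, A k ≠ 0 := by
        by_contra hcon
        push Not at hcon
        rw [Finset.sum_eq_zero fun k _ => hcon k] at hA
        omega
      have hAk : A = (A - Pi.single k 1) + Pi.single k 1 := by
        funext i
        simp only [Pi.add_apply, Pi.sub_apply]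
        by_cases h : i = k
        · subst h; simp only [Pi.single_eq_same]; omega
        · simp [Pi.single_eq_of_ne h]
      generalize A - Pi.single k 1 = B at hAk
      subst hAk
      have hsum : ∑ i, B i = N := by
        simp only [Pi.add_apply] at hA
        rw [Finset.sum_add_distrib, Finset.sum_pi_single' k 1 univ, if_pos (mem_univ k)] at hA
        omega
      rw [jet1_succ (prd_diff hf hh)]
      obtain ⟨i, al⟩ := k
      have hbs : bk al (B + Pi.single (i, al) 1) = bk al B + Pi.single i 1 := by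
        funext j
        simp only [bk, Pi.add_apply]
        congr 1
        by_cases hj : j = i
        · subst hj; simp
        · rw [Pi.single_eq_of_ne hj, Pi.single_eq_of_ne (by intro h; exact hj (congrArg Prod.fst h))]
      have hbo : ∀ be, be ≠ al → bk be (B + Pi.single (i, al) 1) = bk be B := by
        intro be hbe
        funext j
        simp only [bk, Pi.add_apply]
        rw [Pi.single_eq_of_ne (by intro h; exact hbe (congrArg Prod.snd h)), add_zero]
      fin_cases al
      · have e1 : pd (i, 0) (prd f h) = prd (pd i f) h := funext fun z => pd_prd0 hf hh i z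
        change RHK.jet1 (pd (i, 0) (prd f h)) B = _
        rw [e1, ih B hsum _ _ (pd_diff hf i) hh]
        change _ = RHK.jet1 f (bk 0 (B + Pi.single (i, 0) 1)) *
          RHK.jet1 h (bk 1 (B + Pi.single (i, 0) 1))
        rw [show bk 0 (B + Pi.single (i, 0) 1) = bk 0 B + Pi.single i 1 from hbs,
          show bk 1 (B + Pi.single (i, 0) 1) = bk 1 B from hbo 1 (by decide), jet1_succ hf]
      · have e1 : pd (i, 1) (prd f h) = prd f (pd i h) := funext fun z => pd_prd1 hf hh i z
        change RHK.jet1 (pd (i, 1) (prd f h)) B = _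
        rw [e1, ih B hsum _ _ hf (pd_diff hh i)]
        change _ = RHK.jet1 f (bk 0 (B + Pi.single (i, 1) 1)) *
          RHK.jet1 h (bk 1 (B + Pi.single (i, 1) 1))
        rw [show bk 1 (B + Pi.single (i, 1) 1) = bk 1 B + Pi.single i 1 from hbs,
          show bk 0 (B + Pi.single (i, 1) 1) = bk 0 B from hbo 0 (by decide), jet1_succ hh]
  exact key _ A rfl f h hf hh

theorem isDer_prd {δ : Derivation ℚ ℂ ℂ} {f h u v : (Fin g → ℂ) → ℂ} (hf : Differentiable ℂ f)
    (hh : Differentiable ℂ h) (hu : CMT.IsDer δ f u) (hv : CMT.IsDer δ h v) :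
    CMT.IsDer δ (prd f h) (fun z => prd u h z + prd f v z) := by
  refine ⟨(prd_diff hu.1 hh).add (prd_diff hf hv.1), ?_⟩
  intro A
  rw [jet_prd hf hh, Derivation.leibniz, smul_eq_mul, smul_eq_mul, ← hu.2, ← hv.2,
    ← jet_prd hf hv.1]
  have h1 := der_mul (δ := δ) (f := fun z => f (bk 0 z)) (g := fun z => h (bk 1 z))
    (hf.comp (bk_diff 0)) (hh.comp (bk_diff 1))
    (by
      have := der_comp_linm hf hu (bkL 0) (by intro i k; unfold bkL; split_ifs <;> simp)
      simpa only [bk_linm] using this)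
    (by
      have := der_comp_linm hh hv (bkL 1) (by intro i k; unfold bkL; split_ifs <;> simp)
      simpa only [bk_linm] using this)
  have h2 := h1.2 A
  have h3 := jet_prd hf hh A
  have e1 : (fun z : Fin g × Fin 2 → ℂ => u (bk 0 z) * h (bk 1 z) + f (bk 0 z) * v (bk 1 z)) =
      fun z => prd u h z + prd f v z := rfl
  have e2 : (fun z : Fin g × Fin 2 → ℂ => f (bk 0 z) * h (bk 1 z)) = prd f h := rfl
  rw [e1, e2, h3, Derivation.leibniz, smul_eq_mul, smul_eq_mul, ← hu.2, ← hv.2,
    ← jet_prd hf hv.1] at h2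
  exact h2

theorem Ec_prd {f h : (Fin g → ℂ) → ℂ} (hf : Differentiable ℂ f) (hh : Differentiable ℂ h)
    (c : Fin g × Fin 2 → ℂ) (z : Fin g × Fin 2 → ℂ) :
    Ec c (prd f h) z = prd (Ec (bk 0 c) f) h z + prd f (Ec (bk 1 c) h) z := by
  have e0 : prd (Ec (bk 0 c) f) h z = ∑ i, c (i, 0) * z (i, 0) * pd (i, 0) (prd f h) z := by
    change (∑ i, bk 0 c i * bk 0 z i * pd i f (bk 0 z)) * h (bk 1 z) = _
    rw [Finset.sum_mul]
    refine Finset.sum_congr rfl fun i _ => ?_
    rw [pd_prd0 hf hh]
    unfold prd bk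
    ring
  have e1 : prd f (Ec (bk 1 c) h) z = ∑ i, c (i, 1) * z (i, 1) * pd (i, 1) (prd f h) z := by
    change f (bk 0 z) * (∑ i, bk 1 c i * bk 1 z i * pd i h (bk 1 z)) = _
    rw [Finset.mul_sum]
    refine Finset.sum_congr rfl fun i _ => ?_
    rw [pd_prd1 hf hh]
    unfold prd bk
    ring
  rw [e0, e1]
  unfold Ec
  rw [Fintype.sum_prod_type, ← Finset.sum_add_distrib]
  refine Finset.sum_congr rfl fun i _ => ?_
  rw [Fin.sum_univ_two]

theorem me_prd (a : Fin g × Fin 2 → ℝ) (z l : Fin g × Fin 2 → ℂ) :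
    me a z l = me (bk 0 a) (bk 0 z) (bk 0 l) + me (bk 1 a) (bk 1 z) (bk 1 l) := by
  unfold me bk
  rw [Fintype.sum_prod_type, ← Finset.sum_add_distrib]
  refine Finset.sum_congr rfl fun i _ => ?_
  rw [Fin.sum_univ_two]

theorem tr_prd (a : Fin g × Fin 2 → ℝ) (l : Fin g × Fin 2 → ℂ) (f h : (Fin g → ℂ) → ℂ)
    (z : Fin g × Fin 2 → ℂ) : tr a l (prd f h) z =
      prd (tr (bk 0 a) (bk 0 l) f) (tr (bk 1 a) (bk 1 l) h) z := by
  unfold tr prd
  rw [me_prd, neg_add, Complex.exp_add]
  have e : ∀ al : Fin 2, bk al (z + l) = bk al z + bk al l := fun al => rfl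
  rw [e, e]
  ring

end

end Pool.Agent.ALD
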