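import Pool.Agent.ALD.FTd
import Pool.Agent.RQ4.Main
import Pool.Agent.DRV.Ext

/-!
# ALD, final forms, ER4: the four-term relation `R4Form` of the periods
-/

set_option autoImplicit false
set_option linter.unusedSectionVars false

namespace Pool.Agent.ALD

open Finset Complex ComplexConjugate

noncomputable section

section

variable {K : Type} [Field K] [NumberField K] {g : ℕ}

/-- `IsC` for CM types -/
def IsCC (s : Fin g → K →+* ℂ) (δ : Derivation ℚ ℂ ℂ) (c : Fin g → ℂ) : Prop :=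
  (∃ cm' : RQ4.CM K g, cm'.σ = s) ∧ IsC s δ c

theorem isCC_uc : RQ4.UC (K := K) (g := g) IsCC := by
  rintro s δ c c' ⟨⟨cm, rfl⟩, h⟩ ⟨_, h'⟩
  exact isC_unique h h'

theorem isCC_th2 (D : ℕ) [NeZero D] [IsCyclotomicExtension {D} ℚ K] (cm : RQ4.CM K g) :
    RQ4.TH2 cm IsCC := by
  intro S3 S4 a Λ χ T h1 h2 h3 h4 h5 h6 h7 h8 h9 δ
  obtain ⟨c3, c4, γ, k3, k4, h⟩ := th2 D cm S3 S4 a Λ χ T h1 h2 h3 h4 h5 h6 h7 h8 h9 δ
  obtain ⟨cm3, -, e3⟩ := exists_flp cm S3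
  obtain ⟨cm4, -, e4⟩ := exists_flp cm S4
  exact ⟨c3, c4, γ, ⟨⟨cm3, e3⟩, k3⟩, ⟨⟨cm4, e4⟩, k4⟩, h⟩

theorem fl_rt {D : ℕ} [NeZero D] [IsCyclotomicExtension {D} ℚ K] {cm : RQ4.CM K g}
    {t t' : Fin g → ℕ} {S : Finset (Fin g)} (hσ : ∀ i, cm.σ i (RQ4.zt D K) = RQ4.rt D (t i))
    (h1 : ∀ i ∈ S, D ∣ t' i + t i) (h2 : ∀ i, i ∉ S → t' i = t i) (i : Fin g) :
    cm.fl S i (RQ4.zt D K) = RQ4.rt D (t' i) := by
  unfold RQ4.CM.fl
  split_ifs with h
  · have h3 : (starRingEnd ℂ).comp (cm.σ i) (RQ4.zt D K) = conj (RQ4.rt D (t i)) := by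
      rw [RingHom.comp_apply, hσ]
    rw [h3, RQ4.conj_rt]
    have h4 : RQ4.rt D (t' i) * RQ4.rt D (t i) = 1 := by
      rw [RQ4.rt_mul, RQ4.rt_eq_one_iff]
      exact h1 i h
    exact (eq_inv_of_mul_eq_one_left h4).symm
  · rw [hσ, h2 i h]

end

/-- input R4 of RCM -/
theorem r4Form : RCM.R4Form := by
  intro D g t t1 t2 t3 a b i h _ _ _ hab hia hib h1' h1a h2' h2b h3' h3a h3b
  obtain ⟨hD, hI, cm, hσ, -, -, -⟩ := RQ4.exists_bridge h
  have hi : i ∉ ({a, b} : Finset (Fin g)) := by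
    simp only [Finset.mem_insert, Finset.mem_singleton, not_or]
    exact ⟨hia, hib⟩
  have hsub : ({a} : Finset (Fin g)) ⊆ {a, b} := by
    intro x hx
    rw [Finset.mem_singleton] at hx
    rw [hx]
    exact Finset.mem_insert_self _ _
  have hr := RQ4.r4s cm IsCC (isCC_th2 D cm) isCC_uc {a, b} {a} i ⟨a, Finset.mem_insert_self _ _⟩ hi hsub
  obtain ⟨cm0, -, e0⟩ := exists_flp cm ∅
  obtain ⟨cmR, -, eR⟩ := exists_flp cm {a, b}
  obtain ⟨cmS, -, eS⟩ := exists_flp cm {a}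
  obtain ⟨cmT, -, eT⟩ := exists_flp cm ({a, b} \ {a})
  have s0 : ∀ j, cm0.σ j (RQ4.zt D (CyclotomicField D ℚ)) = RQ4.rt D (t j) := by
    intro j
    rw [e0]
    exact fl_rt hσ (fun j hj => absurd hj (Finset.notMem_empty j)) (fun _ _ => rfl) j
  have s3 : ∀ j, cmR.σ j (RQ4.zt D (CyclotomicField D ℚ)) = RQ4.rt D (t3 j) := by
    intro j
    rw [eR]
    refine fl_rt hσ (fun j hj => ?_) (fun j hj => ?_) j
    · rcases Finset.mem_insert.1 hj with hj | hj
      · rw [hj, h3a]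
        exact h1a
      · rw [Finset.mem_singleton.1 hj, h3b]
        exact h2b
    · refine h3' j ?_ ?_
      · rintro rfl
        exact hj (Finset.mem_insert_self _ _)
      · rintro rfl
        exact hj (Finset.mem_insert_of_mem (Finset.mem_singleton_self _))
  have s1 : ∀ j, cmS.σ j (RQ4.zt D (CyclotomicField D ℚ)) = RQ4.rt D (t1 j) := by
    intro j
    rw [eS]
    refine fl_rt hσ (fun j hj => ?_) (fun j hj => ?_) j
    · rw [Finset.mem_singleton.1 hj]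
      exact h1a
    · refine h1' j ?_
      rintro rfl
      exact hj (Finset.mem_singleton_self _)
  have s2 : ∀ j, cmT.σ j (RQ4.zt D (CyclotomicField D ℚ)) = RQ4.rt D (t2 j) := by
    intro j
    rw [eT]
    refine fl_rt hσ (fun j hj => ?_) (fun j hj => ?_) j
    · rw [Finset.mem_sdiff, Finset.mem_insert, Finset.mem_singleton, Finset.mem_singleton] at hj
      rcases hj with ⟨hj | hj, hja⟩
      · exact absurd hj hja
      · rw [hj]
        exact h2b
    · refine h2' j ?_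
      rintro rfl
      refine hj ?_
      rw [Finset.mem_sdiff, Finset.mem_insert, Finset.mem_singleton, Finset.mem_singleton]
      exact ⟨Or.inr rfl, fun h => hab h.symm⟩
  obtain ⟨v, hv, kv⟩ := exists_tdc cm0 s0
  obtain ⟨v1, hv1, kv1⟩ := exists_tdc cmS s1
  obtain ⟨v2, hv2, kv2⟩ := exists_tdc cmT s2
  obtain ⟨v3, hv3, kv3⟩ := exists_tdc cmR s3
  refine ⟨v, v1, v2, v3, hv, hv1, hv2, hv3, ?_⟩
  have p1 : 0 < v1 i := by
    obtain ⟨_, _, _, _, _, h, _⟩ := hv1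
    exact h i
  have p2 : 0 < v2 i := by
    obtain ⟨_, _, _, _, _, h, _⟩ := hv2
    exact h i
  have q1 : (v1 i : ℂ) ≠ 0 := by exact_mod_cast p1.ne'
  have q2 : (v2 i : ℂ) ≠ 0 := by exact_mod_cast p2.ne'
  have key : IsAlgebraic ℚ ((v i : ℂ) * v3 i / (v1 i * v2 i)) := by
    refine DRV.isAlgebraic_of_forall fun δ => ?_
    obtain ⟨c1, c2, c3, c4, g1, g2, g3, g4, hc⟩ := hr δ
    have k0 := kv δ c1 (by rw [e0]; exact g1.2) i
    have k3 := kv3 δ c2 (by rw [eR]; exact g2.2) i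
    have k1 := kv1 δ c3 (by rw [eS]; exact g3.2) i
    have k2 := kv2 δ c4 (by rw [eT]; exact g4.2) i
    rw [div_eq_mul_inv, Derivation.leibniz, Derivation.leibniz_inv, Derivation.leibniz,
      Derivation.leibniz, k0, k1, k2, k3]
    simp only [smul_eq_mul]
    field_simp
    linear_combination (v i : ℂ) * v3 i * hc
  have key2 : IsAlgebraic ℚ (algebraMap ℝ ℂ (v i * v3 i / (v1 i * v2 i))) := by
    rw [Complex.coe_algebraMap]
    push_cast
    exact key
  exact (isAlgebraic_algebraMap_iff (algebraMap ℝ ℂ).injective).1 key2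

end

end Pool.Agent.ALD
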