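import Pool.Agent.RQ4.Dens
import Pool.Agent.RQ4.CShort

/-!
# ALD: full lattices of a CM field have a real basis in `ℂ^g`
-/

set_option autoImplicit false
set_option linter.unusedSectionVars false

namespace Pool.Agent.ALD

open Finset Complex ComplexConjugate

noncomputable section

variable {K : Type} [Field K] [NumberField K] {g : ℕ}

theorem exists_real_basis (C : RQ4.CM K g) (e : K →+ (Fin g → ℂ)) (he : ∀ x i, e x i = C.σ i x)
    {Λ : AddSubgroup K} (hfg : Λ.FG) (hfull : ∀ x : K, ∃ n : ℕ, 0 < n ∧ n • x ∈ Λ) :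
    ∃ b : Module.Basis (Fin (2 * g)) ℝ (Fin g → ℂ), Λ.map e = AddSubgroup.closure (Set.range b) := by
  classical
  set L : Submodule ℤ K := AddSubgroup.toIntSubmodule Λ with hL
  have hLfg : Module.Finite ℤ L := by
    rw [Module.Finite.iff_fg, Submodule.fg_iff_addSubgroup_fg, hL,
      AddSubgroup.toIntSubmodule_toAddSubgroup]
    exact hfg
  have hfree : Module.Free ℤ L := inferInstance
  set bz := Module.Free.chooseBasis ℤ L with hbz
  set J := Module.Free.ChooseBasisIndex ℤ L with hJ
  -- the elements are a rational basis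
  have hliZ : LinearIndependent ℤ (fun j : J => ((bz j : L) : K)) :=
    bz.linearIndependent.map' L.subtype (Submodule.ker_subtype L)
  have hliQ : LinearIndependent ℚ (fun j : J => ((bz j : L) : K)) :=
    (LinearIndependent.iff_fractionRing ℤ ℚ).1 hliZ
  have hspan : ⊤ ≤ Submodule.span ℚ (Set.range fun j : J => ((bz j : L) : K)) := by
    intro x _
    obtain ⟨n, hn, hx⟩ := hfull x
    have h2 : (n • x : K) = ∑ j, bz.repr ⟨n • x, hx⟩ j • ((bz j : L) : K) := by
      have h1 := congrArg (Subtype.val) (bz.sum_repr ⟨n • x, hx⟩)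
      rw [Submodule.coe_sum] at h1
      exact h1.symm
    have h3 : x = (n : ℚ)⁻¹ • (n • x : K) := by
      rw [← Nat.cast_smul_eq_nsmul ℚ, smul_smul, inv_mul_cancel₀ (by exact_mod_cast hn.ne'), one_smul]
    rw [h3, h2]
    refine Submodule.smul_mem _ _ (Submodule.sum_mem _ fun j _ => ?_)
    rw [← Int.cast_smul_eq_zsmul ℚ]
    exact Submodule.smul_mem _ _ (Submodule.subset_span ⟨j, rfl⟩)
  set bq : Module.Basis J ℚ K := Module.Basis.mk hliQ hspan with hbq
  have hbq' : ∀ j, bq j = ((bz j : L) : K) := fun j => by rw [hbq, Module.Basis.mk_apply]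
  have hcard : Fintype.card J = 2 * g := by
    rw [← Module.finrank_eq_card_basis bq, C.finrank_eqC, mul_comm]
  let eqv : Fin (2 * g) ≃ J := (Fintype.equivFinOfCardEq hcard).symm
  have hli : LinearIndependent ℝ (fun k : Fin (2 * g) => e (bz (eqv k) : K)) := by
    rw [Fintype.linearIndependent_iff]
    intro r hr
    have h0 : (fun j : J => ((r (eqv.symm j) : ℝ) : ℂ)) = 0 := by
      refine RQ4.emb_rel_zero bq _ fun φ => ?_
      have h4 : ∀ i, ∑ j : J, ((r (eqv.symm j) : ℝ) : ℂ) * C.σ i (bq j) = 0 := by
        intro i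
        have h5 := congrFun hr i
        rw [Finset.sum_apply] at h5
        simp only [Pi.smul_apply, Complex.real_smul, Pi.zero_apply, he] at h5
        rw [← h5, ← Equiv.sum_comp eqv]
        refine Finset.sum_congr rfl fun k _ => ?_
        rw [Equiv.symm_apply_apply, hbq']
      obtain ⟨i, h | h⟩ := C.all φ
      · rw [h]
        exact h4 i
      · have h6 := congrArg (starRingEnd ℂ) (h4 i)
        rw [map_sum, map_zero] at h6
        rw [← h6]
        refine Finset.sum_congr rfl fun j _ => ?_
        rw [map_mul, Complex.conj_ofReal, h]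
    intro k
    have h7 := congrFun h0 (eqv k)
    simp only [Equiv.symm_apply_apply, Pi.zero_apply, Complex.ofReal_eq_zero] at h7
    exact h7
  have hfr : Fintype.card (Fin (2 * g)) = Module.finrank ℝ (Fin g → ℂ) := by
    rw [Fintype.card_fin, Module.finrank_pi_fintype]
    simp [Complex.finrank_real_complex, mul_comm]
  rcases Nat.eq_zero_or_pos g with hg | hg
  · -- degenerate case
    subst hg
    exfalso
    have := C.finrank_eqC
    have h8 : 0 < Module.finrank ℚ K := Module.finrank_pos
    omega
  have : Nonempty (Fin (2 * g)) := ⟨⟨0, by omega⟩⟩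
  refine ⟨basisOfLinearIndependentOfCardEqFinrank hli hfr, ?_⟩
  rw [coe_basisOfLinearIndependentOfCardEqFinrank]
  have hcl : Λ = AddSubgroup.closure (Set.range fun k : Fin (2 * g) => (bz (eqv k) : K)) := by
    apply le_antisymm
    · intro x hx
      have h2 : x = ∑ j, bz.repr ⟨x, hx⟩ j • ((bz j : L) : K) := by
        have h1 := congrArg (Subtype.val) (bz.sum_repr ⟨x, hx⟩)
        rw [Submodule.coe_sum] at h1
        exact h1.symm
      rw [h2]
      refine AddSubgroup.sum_mem _ fun j _ => AddSubgroup.zsmul_mem _ ?_ _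
      refine AddSubgroup.subset_closure ⟨eqv.symm j, ?_⟩
      simp only [Equiv.apply_symm_apply]
    · rw [AddSubgroup.closure_le]
      rintro _ ⟨k, rfl⟩
      exact (bz (eqv k)).2
  conv_lhs => rw [hcl]
  rw [AddMonoidHom.map_closure, ← Set.range_comp]
  rfl

end

end Pool.Agent.ALD
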