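import Pool.Agent.ALD.EIsC
import Pool.Agent.ALD.EProd

/-!
# ALD, final forms, ERk2: rank two has the exponents of its two types

PLAN. Unfold `SDz`: `m`, `χ`, `f ≠ 0` in `V(Λ, m a)`. So `Pol Λ (m a)` (`pol_of_vf`, `gd2`). `Λ1 = {x | (x, 0) ∈ Λ}`, `Λ2 = {y | (0, y) ∈ Λ}` (`fl_comp`),
`Λ'' = {u | u 0 ∈ Λ1, u 1 ∈ Λ2} ≤ Λ` (`fl_le`). `Pol` for `Λ1.map em1`, weight `m (bk 0 a)` (`exists_bas`, `gd1`; the form is the restriction), for `Λ2`, and for
`Λ''` (restrict `f`). `bi_sd` (`stb2`): exponents `cΛ` for `(Λ, m a)`, `c''` for `(Λ'', m a)`; `sd_sub` with `f` at level `1`: `cΛ = c''`. `f1`, `f2` from `bi_ex` for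
`(Λ1, m (bk 0 a))`, `(Λ2, m (bk 1 a))`: `F = prd f1 f2` is in `V(Λ'', 4 m a)` with multipliers `1` (`me_prd`), derivative `U = prd u1 f2 + prd f1 u2`
(`bi_der`, `isDer_prd`). The second differences over `Λ''` of `U - E_c34 F = prd v1 f2 + prd f1 v2` (`v1 = u1 - E_c3 f1`, `v2 = u2 - E_c4 f2`; `Ec_prd`)
vanish: `dif k (dif l (prd v1 f2)) = prd (dif k0 (dif l0 v1)) f2` since `tr l1 f2 = f2` (`tr_prd`, `tr_lat`), and `IsC` for the two types gives `0`.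
By definition of `c''` so do those of `U - E_c'' F`. Subtract, `sd_uniq` (weight `4 m a`): `c'' = c34 c3 c4`. At the end use `SDz δ Λ (m a) cΛ` at level `1`
for the given `f`.
-/

set_option autoImplicit false
set_option linter.unusedSectionVars false

namespace Pool.Agent.ALD

open Finset Complex ComplexConjugate

noncomputable section

variable {K : Type} [Field K] [NumberField K] {g : ℕ}

/-- the component `al` of a lattice in `K²` -/
def cpt (al : Fin 2) (Λ : AddSubgroup (Fin 2 → K)) : AddSubgroup K where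
  carrier := {x | Pi.single al x ∈ Λ}
  zero_mem' := by simp [Λ.zero_mem]
  add_mem' := by
    intro x y hx hy
    simp only [Set.mem_ofPred_eq] at *
    rw [Pi.single_add]
    exact Λ.add_mem hx hy
  neg_mem' := by
    intro x hx
    simp only [Set.mem_ofPred_eq] at *
    rw [Pi.single_neg]
    exact Λ.neg_mem hx

theorem mem_cpt {al : Fin 2} {Λ : AddSubgroup (Fin 2 → K)} {x : K} :
    x ∈ cpt al Λ ↔ Pi.single al x ∈ Λ := Iff.rfl

theorem fl_comp {Λ : AddSubgroup (Fin 2 → K)} (h : FL Λ) (al : Fin 2) : FL (cpt al Λ) := by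
  refine ⟨?_, ?_⟩
  · have h1 : (AddSubgroup.toIntSubmodule Λ).FG := by
      rw [Submodule.fg_iff_addSubgroup_fg, AddSubgroup.toIntSubmodule_toAddSubgroup]
      exact h.1
    have h2 : IsNoetherian ℤ (AddSubgroup.toIntSubmodule Λ) := isNoetherian_of_fg_of_noetherian _ h1
    let e : K →ₗ[ℤ] (Fin 2 → K) := LinearMap.single ℤ (fun _ => K) al
    have h3 : ((AddSubgroup.toIntSubmodule (cpt al Λ)).map e).FG := by
      refine (isNoetherian_submodule.1 h2) _ ?_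
      rintro _ ⟨x, hx, rfl⟩
      exact hx
    have h4 : (AddSubgroup.toIntSubmodule (cpt al Λ)).FG :=
      Submodule.fg_of_fg_map_injective e (fun x y hxy => Pi.single_injective (M := fun _ => K) al hxy) h3
    rw [Submodule.fg_iff_addSubgroup_fg, AddSubgroup.toIntSubmodule_toAddSubgroup] at h4
    exact h4
  · intro x
    obtain ⟨n, hn, hx⟩ := h.2 (Pi.single al x)
    refine ⟨n, hn, ?_⟩
    rw [mem_cpt]
    have : Pi.single al (n • x) = n • (Pi.single al x : Fin 2 → K) := by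
      funext j
      by_cases hj : j = al
      · subst hj; simp
      · simp [Pi.single_eq_of_ne hj]
    rw [this]
    exact hx

/-- the sum of the components -/
def dcp (Λ : AddSubgroup (Fin 2 → K)) : AddSubgroup (Fin 2 → K) where
  carrier := {u | ∀ al, u al ∈ cpt al Λ}
  zero_mem' := fun al => (cpt al Λ).zero_mem
  add_mem' := fun hx hy al => (cpt al Λ).add_mem (hx al) (hy al)
  neg_mem' := fun hx al => (cpt al Λ).neg_mem (hx al)

theorem dcp_le (Λ : AddSubgroup (Fin 2 → K)) : dcp Λ ≤ Λ := by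
  intro u hu
  have h : u = ∑ al, Pi.single al (u al) := (Finset.univ_sum_single u).symm
  rw [h]
  exact Λ.sum_mem fun al _ => hu al

theorem fl_dcp {Λ : AddSubgroup (Fin 2 → K)} (h : FL Λ) : FL (dcp Λ) := by
  refine fl_le h (dcp_le Λ) fun x _ => ?_
  obtain ⟨n0, hn0, h0⟩ := (fl_comp h 0).2 (x 0)
  obtain ⟨n1, hn1, h1⟩ := (fl_comp h 1).2 (x 1)
  refine ⟨n0 * n1, Nat.mul_pos hn0 hn1, ?_⟩
  intro al
  fin_cases al
  · change (n0 * n1) • x 0 ∈ cpt 0 Λ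
    rw [mul_comm, mul_smul]
    exact (cpt 0 Λ).nsmul_mem h0 n1
  · change (n0 * n1) • x 1 ∈ cpt 1 Λ
    rw [mul_smul]
    exact (cpt 1 Λ).nsmul_mem h1 n0

theorem bk0_em2 (s3 s4 : Fin g → K →+* ℂ) (u : Fin 2 → K) : bk 0 (em2 s3 s4 u) = em1 s3 (u 0) := rfl

theorem bk1_em2 (s3 s4 : Fin g → K →+* ℂ) (u : Fin 2 → K) : bk 1 (em2 s3 s4 u) = em1 s4 (u 1) := rfl

private theorem aa_bk (a : Fin g × Fin 2 → ℝ) (z l : Fin g × Fin 2 → ℂ) :
    aa a z l = aa (bk 0 a) (bk 0 z) (bk 0 l) + aa (bk 1 a) (bk 1 z) (bk 1 l) := by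
  unfold aa bk
  rw [Fintype.sum_prod_type, ← Finset.sum_add_distrib]
  refine Finset.sum_congr rfl fun i _ => ?_
  rw [Fin.sum_univ_two]

private theorem aa_zero' {ι : Type} [Fintype ι] [DecidableEq ι] (a : ι → ℝ) (z : ι → ℂ) :
    aa a z 0 = 0 := by
  unfold aa; simp

private theorem tr_fix {ι : Type} [Fintype ι] [DecidableEq ι] {A : ι → ℝ} {f : (ι → ℂ) → ℂ}
    {Λ : AddSubgroup (ι → ℂ)} (hf : Vf Λ A (fun _ => 1) f) {l : ι → ℂ} (hl : l ∈ Λ) :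
    tr A l f = f := by
  funext z
  unfold tr
  rw [hf.2 l hl z, Complex.exp_neg]
  have h := Complex.exp_ne_zero (me A z l)
  field_simp

/-- the difference of a product of functions of separate variables, first factor -/
private theorem dif_prd0 {A : Fin g × Fin 2 → ℝ} (v : (Fin g → ℂ) → ℂ) {f2 : (Fin g → ℂ) → ℂ}
    {Λ2 : AddSubgroup (Fin g → ℂ)} (hf2 : Vf Λ2 (bk 1 A) (fun _ => 1) f2)
    {l : Fin g × Fin 2 → ℂ} (hl : bk 1 l ∈ Λ2) :
    dif A (fun _ => 1) l (prd v f2) = prd (dif (bk 0 A) (fun _ => 1) (bk 0 l) v) f2 := by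
  funext z
  unfold dif
  rw [tr_prd, tr_fix hf2 hl]
  unfold prd
  ring

private theorem dif_prd1 {A : Fin g × Fin 2 → ℝ} (v : (Fin g → ℂ) → ℂ) {f1 : (Fin g → ℂ) → ℂ}
    {Λ1 : AddSubgroup (Fin g → ℂ)} (hf1 : Vf Λ1 (bk 0 A) (fun _ => 1) f1)
    {l : Fin g × Fin 2 → ℂ} (hl : bk 0 l ∈ Λ1) :
    dif A (fun _ => 1) l (prd f1 v) = prd f1 (dif (bk 1 A) (fun _ => 1) (bk 1 l) v) := by
  funext z
  unfold dif
  rw [tr_prd, tr_fix hf1 hl]
  unfold prd
  ring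

theorem sd_rank2 (D : ℕ) [NeZero D] [IsCyclotomicExtension {D} ℚ K] {cm cm' : RQ4.CM K g}
    {δ : Derivation ℚ ℂ ℂ} {c3 c4 : Fin g → ℂ} (hc3 : IsC cm.σ δ c3) (hc4 : IsC cm'.σ δ c4)
    {Λ : AddSubgroup (Fin 2 → K)} (hΛ : FL Λ) {a : RQ4.Ix g → ℝ} (ha : ∀ p, 0 < a p) :
    SDz δ (Λ.map (em2 cm.σ cm'.σ)) a (c34 c3 c4) := by
  intro m χ f u hm hχ hf h0 hu
  set A : RQ4.Ix g → ℝ := fun i => m * a i with hA
  have hm' : (0 : ℝ) < m := by exact_mod_cast hm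
  have hA0 : ∀ p, 0 < A p := fun p => mul_pos hm' (ha p)
  have h1A : (fun i => ((1 : ℕ) : ℝ) * A i) = A := by funext i; simp
  set E2 := em2 cm.σ cm'.σ with hE2
  have hP : Pol (Λ.map E2) A := pol_of_vf (gd2 cm cm') hΛ hA0 hχ hf h0
  -- the components
  have hle : (dcp Λ).map E2 ≤ Λ.map E2 := AddSubgroup.map_mono (dcp_le Λ)
  have hP'' : Pol ((dcp Λ).map E2) A :=
    ⟨hA0, exists_bas (gd2 cm cm') (fl_dcp hΛ), fun l hl k hk => hP.int l (hle hl) k (hle hk)⟩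
  have hsg : ∀ (al : Fin 2) (x : K), x ∈ cpt al Λ → E2 (Pi.single al x) ∈ Λ.map E2 :=
    fun al x hx => ⟨_, hx, rfl⟩
  have hP1 : Pol ((cpt 0 Λ).map (em1 cm.σ)) (bk 0 A) := by
    refine ⟨fun i => hA0 _, exists_bas (gd1 cm) (fl_comp hΛ 0), ?_⟩
    rintro _ ⟨x, hx, rfl⟩ _ ⟨y, hy, rfl⟩
    obtain ⟨n, hn⟩ := hP.int _ (hsg 0 x hx) _ (hsg 0 y hy)
    refine ⟨n, ?_⟩
    rw [← hn, aa_bk, aa_bk, bk0_em2, bk0_em2, bk1_em2, bk1_em2]
    simp [Pi.single_eq_of_ne, aa_zero']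
  have hP2 : Pol ((cpt 1 Λ).map (em1 cm'.σ)) (bk 1 A) := by
    refine ⟨fun i => hA0 _, exists_bas (gd1 cm') (fl_comp hΛ 1), ?_⟩
    rintro _ ⟨x, hx, rfl⟩ _ ⟨y, hy, rfl⟩
    obtain ⟨n, hn⟩ := hP.int _ (hsg 1 x hx) _ (hsg 1 y hy)
    refine ⟨n, ?_⟩
    rw [← hn, aa_bk, aa_bk, bk0_em2, bk0_em2, bk1_em2, bk1_em2]
    simp [Pi.single_eq_of_ne, aa_zero']
  -- exponents of the two lattices
  obtain ⟨N, t, ht, hs⟩ := stb2 D cm cm' Λ hΛ
  obtain ⟨cΛ, hcΛ⟩ := bi_sd hP ht hs δ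
  obtain ⟨N', t', ht', hs'⟩ := stb2 D cm cm' (dcp Λ) (fl_dcp hΛ)
  obtain ⟨c'', hc''⟩ := bi_sd hP'' ht' hs' δ
  have hsp : Submodule.span ℝ (((dcp Λ).map E2 : AddSubgroup (Fin g × Fin 2 → ℂ)) :
      Set (Fin g × Fin 2 → ℂ)) = ⊤ := span_map (gd2 cm cm') (fl_dcp hΛ)
  have e1 : cΛ = c'' := by
    refine sd_sub hle hA0 hsp (m := 1) one_pos hχ ?_ h0 hu hcΛ hc''
    rw [h1A]; exact hf
  -- product theta function
  obtain ⟨f1, hf1, hf1n⟩ := bi_ex hP1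
  obtain ⟨f2, hf2, hf2n⟩ := bi_ex hP2
  obtain ⟨u1, hu1⟩ := bi_der hP1 δ (m := 4) (by norm_num) (χ := fun _ => 1)
    (fun _ _ => one_ne_zero) hf1
  obtain ⟨u2, hu2⟩ := bi_der hP2 δ (m := 4) (by norm_num) (χ := fun _ => 1)
    (fun _ _ => one_ne_zero) hf2
  set B : RQ4.Ix g → ℝ := fun i => ((4 : ℕ) : ℝ) * A i with hB
  have hb0 : bk 0 B = fun i => ((4 : ℕ) : ℝ) * bk 0 A i := rfl
  have hb1 : bk 1 B = fun i => ((4 : ℕ) : ℝ) * bk 1 A i := rfl
  rw [← hb0] at hf1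
  rw [← hb1] at hf2
  have hmem0 : ∀ l ∈ (dcp Λ).map E2, bk 0 l ∈ (cpt 0 Λ).map (em1 cm.σ) := by
    rintro _ ⟨w, hw, rfl⟩
    exact ⟨w 0, hw 0, rfl⟩
  have hmem1 : ∀ l ∈ (dcp Λ).map E2, bk 1 l ∈ (cpt 1 Λ).map (em1 cm'.σ) := by
    rintro _ ⟨w, hw, rfl⟩
    exact ⟨w 1, hw 1, rfl⟩
  have hF : Vf ((dcp Λ).map E2) B (fun _ => 1) (prd f1 f2) := by
    refine ⟨prd_diff hf1.1 hf2.1, ?_⟩
    intro l hl z
    have h1 := hf1.2 _ (hmem0 l hl) (bk 0 z)
    have h2 := hf2.2 _ (hmem1 l hl) (bk 1 z)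
    rw [me_prd, Complex.exp_add]
    unfold prd
    have e : ∀ al : Fin 2, bk al (z + l) = bk al z + bk al l := fun al => rfl
    rw [e, e, h1, h2]
    ring
  have hFn : ∃ z, prd f1 f2 z ≠ 0 := ⟨0, mul_ne_zero hf1n hf2n⟩
  have hU := isDer_prd hf1.1 hf2.1 hu1 hu2
  -- second differences with the exponents `c34 c3 c4`
  have hz : ∀ k ∈ (dcp Λ).map E2, ∀ l ∈ (dcp Λ).map E2, ∀ z,
      dif B (fun _ => 1) k (dif B (fun _ => 1) l
        (fun z => (prd u1 f2 z + prd f1 u2 z) - Ec (c34 c3 c4) (prd f1 f2) z)) z = 0 := by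
    intro k hk l hl z
    have e2 : (fun z => (prd u1 f2 z + prd f1 u2 z) - Ec (c34 c3 c4) (prd f1 f2) z) =
        fun z => prd (fun w => u1 w - Ec c3 f1 w) f2 z + prd f1 (fun w => u2 w - Ec c4 f2 w) z := by
      funext z
      rw [Ec_prd hf1.1 hf2.1]
      have h0 : bk 0 (c34 c3 c4) = c3 := by funext i; simp [bk, c34]
      have h1 : bk 1 (c34 c3 c4) = c4 := by funext i; simp [bk, c34]
      rw [h0, h1]
      unfold prd
      ring
    have e3 : ∀ (p q : (Fin g × Fin 2 → ℂ) → ℂ) (l : Fin g × Fin 2 → ℂ),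
        dif B (fun _ => 1) l (fun z => p z + q z) =
          fun z => dif B (fun _ => 1) l p z + dif B (fun _ => 1) l q z := by
      intro p q l
      funext z
      unfold dif tr
      ring
    rw [e2, e3]
    have e4 : dif B (fun _ => 1) l (fun z => prd (fun w => u1 w - Ec c3 f1 w) f2 z) =
        prd (dif (bk 0 B) (fun _ => 1) (bk 0 l) (fun w => u1 w - Ec c3 f1 w)) f2 :=
      dif_prd0 _ hf2 (hmem1 l hl)
    have e5 : dif B (fun _ => 1) l (fun z => prd f1 (fun w => u2 w - Ec c4 f2 w) z) =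
        prd f1 (dif (bk 1 B) (fun _ => 1) (bk 1 l) (fun w => u2 w - Ec c4 f2 w)) :=
      dif_prd1 _ hf1 (hmem0 l hl)
    rw [e4, e5, e3]
    beta_reduce
    have e6 := dif_prd0 (A := B) (dif (bk 0 B) (fun _ => 1) (bk 0 l) (fun w => u1 w - Ec c3 f1 w))
      hf2 (hmem1 k hk)
    have e7 := dif_prd1 (A := B) (dif (bk 1 B) (fun _ => 1) (bk 1 l) (fun w => u2 w - Ec c4 f2 w))
      hf1 (hmem0 k hk)
    rw [e6, e7]
    have h3 := hc3.2 (cpt 0 Λ) (bk 0 A) (fl_comp hΛ 0) (fun i => hA0 _) 4 (fun _ => 1) f1 u1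
      (by norm_num) (fun _ _ => one_ne_zero) hf1 ⟨0, hf1n⟩ hu1 _ (hmem0 k hk) _ (hmem0 l hl)
      (bk 0 z)
    have h4 := hc4.2 (cpt 1 Λ) (bk 1 A) (fl_comp hΛ 1) (fun i => hA0 _) 4 (fun _ => 1) f2 u2
      (by norm_num) (fun _ _ => one_ne_zero) hf2 ⟨0, hf2n⟩ hu2 _ (hmem1 k hk) _ (hmem1 l hl)
      (bk 1 z)
    rw [← hb0] at h3
    rw [← hb1] at h4
    unfold prd
    rw [h3, h4]
    ring
  -- comparison with `c''`
  have e8 : c34 c3 c4 - c'' = 0 := by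
    refine sd_uniq (a := B) (χ := fun _ => 1) (f := prd f1 f2) (fun p => ?_) hsp
      (fun _ _ => one_ne_zero) hF hFn (fun k hk l hl z => ?_)
    · have := hA0 p
      simp only [hB]
      positivity
    · have h1 := hz k hk l hl z
      have h2 := hc'' 4 (fun _ => 1) (prd f1 f2) _ (by norm_num) (fun _ _ => one_ne_zero) hF hFn hU
        k hk l hl z
      have h3 : Ec (c34 c3 c4 - c'') (prd f1 f2) = fun z =>
          ((prd u1 f2 z + prd f1 u2 z) - Ec c'' (prd f1 f2) z) -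
          ((prd u1 f2 z + prd f1 u2 z) - Ec (c34 c3 c4) (prd f1 f2) z) := by
        funext w
        rw [sub_sub_sub_cancel_left]
        unfold Ec
        rw [← Finset.sum_sub_distrib]
        refine Finset.sum_congr rfl fun i _ => ?_
        rw [Pi.sub_apply]
        ring
      rw [h3, dif_dif_sub (u := fun z => (prd u1 f2 z + prd f1 u2 z) - Ec c'' (prd f1 f2) z)
        (v := fun z => (prd u1 f2 z + prd f1 u2 z) - Ec (c34 c3 c4) (prd f1 f2) z), h1, sub_zero]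
      exact h2
  have e9 : c34 c3 c4 = cΛ := by rw [e1]; exact sub_eq_zero.1 e8
  intro k hk l hl z
  have h5 := hcΛ 1 χ f u one_pos hχ (by rw [h1A]; exact hf) h0 hu k hk l hl z
  rw [h1A] at h5
  rw [e9]
  exact h5

end

end Pool.Agent.ALD
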