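import Pool.Agent.ALD.VDefs
import Pool.Agent.RHK.Jet

/-!
# ALD block B3, KDer: calculus of `IsDer` and of the Euler operator in one set of variables
-/

set_option autoImplicit false
set_option linter.unusedSectionVars false

namespace Pool.Agent.ALD

open Finset Complex ComplexConjugate

noncomputable section

variable {ι : Type} [Fintype ι] [DecidableEq ι]

private theorem kder_lift {f : (ι → ℂ) → ℂ} (hf : Differentiable ℂ f) :
    Differentiable ℂ (fun v : RHK.VV ι => f v.1) := hf.comp differentiable_fst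

private theorem kder_dz {f : (ι → ℂ) → ℂ} (hf : Differentiable ℂ f) (i : ι) :
    RHK.dz i (fun v : RHK.VV ι => f v.1) = fun v => pd i f v.1 := by
  funext v
  unfold RHK.dz pd
  have h1 : HasFDerivAt (fun v : RHK.VV ι => f v.1)
      ((fderiv ℂ f v.1).comp (ContinuousLinearMap.fst ℂ (ι → ℂ) (ι → ℂ))) v :=
    (hf v.1).hasFDerivAt.comp v hasFDerivAt_fst
  rw [h1.fderiv]
  rfl

private theorem kder_pd_diff {f : (ι → ℂ) → ℂ} (hf : Differentiable ℂ f) (i : ι) :
    Differentiable ℂ (pd i f) := by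
  have h1 := RHK.ent_dz i (kder_lift hf)
  rw [kder_dz hf i] at h1
  have h2 : Differentiable ℂ (fun z : ι → ℂ => ((z, 0) : RHK.VV ι)) :=
    differentiable_id.prodMk (differentiable_const _)
  exact h1.comp h2

private theorem kder_comm {f : (ι → ℂ) → ℂ} (hf : Differentiable ℂ f) (i j : ι) :
    pd i (pd j f) = pd j (pd i f) := by
  have h1 := RHK.dz_dz i j (kder_lift hf)
  rw [kder_dz hf j, kder_dz hf i, kder_dz (kder_pd_diff hf j) i,
    kder_dz (kder_pd_diff hf i) j] at h1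
  funext z
  exact congrFun h1 (z, 0)

private theorem kder_succ {f : (ι → ℂ) → ℂ} (hf : Differentiable ℂ f) (A : ι → ℕ) (i : ι) :
    RHK.jet1 f (A + Pi.single i 1) = RHK.jet1 (pd i f) A := by
  unfold RHK.jet1
  rw [RHK.jet_addz (kder_lift hf), kder_dz hf i]

private theorem kder_jadd {f g : (ι → ℂ) → ℂ} (hf : Differentiable ℂ f)
    (hg : Differentiable ℂ g) (A : ι → ℕ) :
    RHK.jet1 (fun z => f z + g z) A = RHK.jet1 f A + RHK.jet1 g A :=
  RHK.jet_add (kder_lift hf) (kder_lift hg) A 0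

private theorem kder_jmul (k : ℂ) {f : (ι → ℂ) → ℂ} (hf : Differentiable ℂ f) (A : ι → ℕ) :
    RHK.jet1 (fun z => k * f z) A = k * RHK.jet1 f A :=
  RHK.jet_const_mul k (kder_lift hf) A 0

private theorem kder_coord (i : ι) : Differentiable ℂ (fun z : ι → ℂ => z i) :=
  differentiable_pi.1 differentiable_id i

private theorem kder_pd_add {f g : (ι → ℂ) → ℂ} (hf : Differentiable ℂ f)
    (hg : Differentiable ℂ g) (i : ι) (z : ι → ℂ) :
    pd i (fun z => f z + g z) z = pd i f z + pd i g z := by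
  unfold pd
  have h1 := ((hf z).hasFDerivAt.add (hg z).hasFDerivAt).fderiv
  have h2 : fderiv ℂ (fun z => f z + g z) z = fderiv ℂ f z + fderiv ℂ g z := h1
  rw [h2]
  rfl

private theorem kder_pd_mul (k : ℂ) {f : (ι → ℂ) → ℂ} (hf : Differentiable ℂ f) (i : ι)
    (z : ι → ℂ) : pd i (fun z => k * f z) z = k * pd i f z := by
  unfold pd
  have h2 : fderiv ℂ (fun z => k * f z) z = k • fderiv ℂ f z :=
    ((hf z).hasFDerivAt.const_mul k).fderiv
  rw [h2]
  rfl

private theorem kder_pd_neg {f : (ι → ℂ) → ℂ} (hf : Differentiable ℂ f) (i : ι) (z : ι → ℂ) :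
    pd i (fun z => f (-z)) z = -pd i f (-z) := by
  unfold pd
  have h1 : HasFDerivAt (fun z : ι → ℂ => -z) (-(ContinuousLinearMap.id ℂ (ι → ℂ))) z :=
    (hasFDerivAt_id z).neg
  have h2 : HasFDerivAt (fun z : ι → ℂ => f (-z))
      ((fderiv ℂ f (-z)).comp (-(ContinuousLinearMap.id ℂ (ι → ℂ)))) z :=
    (hf (-z)).hasFDerivAt.comp z h1
  rw [h2.fderiv]
  simp

private theorem kder_pd_coord {g : (ι → ℂ) → ℂ} (hg : Differentiable ℂ g) (i j : ι)
    (z : ι → ℂ) : pd j (fun z => z i * g z) z =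
      (if j = i then 1 else 0) * g z + z i * pd j g z := by
  unfold pd
  have h1 : HasFDerivAt (fun z : ι → ℂ => z i)
      (ContinuousLinearMap.proj i : (ι → ℂ) →L[ℂ] ℂ) z := hasFDerivAt_apply i z
  have h2 : HasFDerivAt (fun z : ι → ℂ => z i * g z)
      (z i • fderiv ℂ g z + g z • (ContinuousLinearMap.proj i : (ι → ℂ) →L[ℂ] ℂ)) z :=
    h1.mul (hg z).hasFDerivAt
  rw [h2.fderiv]
  have h3 : (ContinuousLinearMap.proj i : (ι → ℂ) →L[ℂ] ℂ) (Pi.single j 1) =
      if j = i then 1 else 0 := by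
    show (Pi.single j (1 : ℂ) : ι → ℂ) i = _
    by_cases h : j = i
    · subst h
      simp
    · rw [if_neg h, Pi.single_eq_of_ne (Ne.symm h)]
  show z i * fderiv ℂ g z (Pi.single j 1) +
    g z * (ContinuousLinearMap.proj i : (ι → ℂ) →L[ℂ] ℂ) (Pi.single j 1) = _
  rw [h3]
  ring

theorem jet1_zero (f : (ι → ℂ) → ℂ) : RHK.jet1 f 0 = f 0 := by
  unfold RHK.jet1
  rw [RHK.jet_zero]
  rfl

theorem jet1_single {f : (ι → ℂ) → ℂ} (hf : Differentiable ℂ f) (i : ι) :
    RHK.jet1 f (Pi.single i 1) = pd i f 0 := by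
  have h1 := kder_succ hf 0 i
  rw [zero_add, jet1_zero] at h1
  exact h1

theorem Ec_diff {f : (ι → ℂ) → ℂ} (hf : Differentiable ℂ f) (c : ι → ℂ) : Differentiable ℂ (Ec c f) := by
  unfold Ec
  exact Differentiable.fun_sum fun i _ => ((kder_coord i).const_mul (c i)).mul (kder_pd_diff hf i)

theorem Ec_add {f g : (ι → ℂ) → ℂ} (hf : Differentiable ℂ f) (hg : Differentiable ℂ g) (c : ι → ℂ)
    (z : ι → ℂ) : Ec c (fun z => f z + g z) z = Ec c f z + Ec c g z := by
  unfold Ec
  rw [← Finset.sum_add_distrib]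
  refine Finset.sum_congr rfl fun i _ => ?_
  rw [kder_pd_add hf hg]
  ring

theorem Ec_cmul {f : (ι → ℂ) → ℂ} (hf : Differentiable ℂ f) (c : ι → ℂ) (k : ℂ) (z : ι → ℂ) :
    Ec c (fun z => k * f z) z = k * Ec c f z := by
  unfold Ec
  rw [Finset.mul_sum]
  refine Finset.sum_congr rfl fun i _ => ?_
  rw [kder_pd_mul k hf]
  ring

theorem Ec_even {f : (ι → ℂ) → ℂ} (hf : Differentiable ℂ f) (c : ι → ℂ) (z : ι → ℂ) :
    Ec c (fun z => f (-z)) z = Ec c f (-z) := by
  unfold Ec
  refine Finset.sum_congr rfl fun i _ => ?_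
  rw [kder_pd_neg hf, Pi.neg_apply]
  ring

private theorem kder_euler (i : ι) (A : ι → ℕ) : ∀ f : (ι → ℂ) → ℂ, Differentiable ℂ f →
    RHK.jet1 (fun z => z i * pd i f z) A = A i * RHK.jet1 f A := by
  refine RHK.exp_induction (Q := fun A => ∀ f : (ι → ℂ) → ℂ, Differentiable ℂ f →
    RHK.jet1 (fun z => z i * pd i f z) A = A i * RHK.jet1 f A) ?_ ?_ A
  · intro f _
    rw [jet1_zero]
    simp
  · intro A j ih f hf
    have hd : Differentiable ℂ (fun z : ι → ℂ => z i * pd i f z) :=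
      (kder_coord i).mul (kder_pd_diff hf i)
    have h1 : pd j (fun z => z i * pd i f z) = fun z =>
        (if j = i then 1 else 0) * pd j f z + z i * pd i (pd j f) z := by
      funext z
      rw [kder_pd_coord (kder_pd_diff hf i), kder_comm hf j i]
      by_cases h : j = i
      · rw [h]
      · rw [if_neg h]
        ring
    have hd2 : Differentiable ℂ (fun z : ι → ℂ => z i * pd i (pd j f) z) :=
      (kder_coord i).mul (kder_pd_diff (kder_pd_diff hf j) i)
    rw [kder_succ hd, h1, kder_jadd ((kder_pd_diff hf j).const_mul _) hd2,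
      kder_jmul _ (kder_pd_diff hf j), ih _ (kder_pd_diff hf j), kder_succ hf]
    have h2 : (A + (Pi.single j 1 : ι → ℕ)) i = A i + if j = i then 1 else 0 := by
      rw [Pi.add_apply]
      by_cases h : j = i
      · subst h
        simp
      · rw [if_neg h, Pi.single_eq_of_ne (Ne.symm h)]
    rw [h2]
    push_cast
    ring

theorem jet1_Ec {f : (ι → ℂ) → ℂ} (hf : Differentiable ℂ f) (c : ι → ℂ) (A : ι → ℕ) :
    RHK.jet1 (Ec c f) A = (∑ i, c i * A i) * RHK.jet1 f A := by
  have h1 : Ec c f = fun z => ∑ i, c i * (z i * pd i f z) := by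
    funext z
    unfold Ec
    exact Finset.sum_congr rfl fun i _ => by ring
  have h2 : ∀ i, Differentiable ℂ (fun z : ι → ℂ => z i * pd i f z) := fun i =>
    (kder_coord i).mul (kder_pd_diff hf i)
  rw [h1]
  have h3 : RHK.jet1 (fun z => ∑ i, c i * (z i * pd i f z)) A =
      ∑ i, RHK.jet1 (fun z => c i * (z i * pd i f z)) A :=
    RHK.jet_sum univ (fun i (v : RHK.VV ι) => c i * (v.1 i * pd i f v.1))
      (fun i => kder_lift ((h2 i).const_mul (c i))) A 0
  rw [h3, Finset.sum_mul]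
  refine Finset.sum_congr rfl fun i _ => ?_
  rw [kder_jmul _ (h2 i), kder_euler i A f hf]
  ring

theorem isDer_add {δ : Derivation ℚ ℂ ℂ} {f g u v : (ι → ℂ) → ℂ} (hf : Differentiable ℂ f)
    (hg : Differentiable ℂ g) (hu : CMT.IsDer δ f u) (hv : CMT.IsDer δ g v) :
    CMT.IsDer δ (fun z => f z + g z) (fun z => u z + v z) := by
  refine ⟨hu.1.add hv.1, fun A => ?_⟩
  rw [kder_jadd hu.1 hv.1, kder_jadd hf hg, map_add]
  have h1 := hu.2 A
  have h2 := hv.2 A
  rw [h1, h2]

theorem isDer_cmul {δ : Derivation ℚ ℂ ℂ} {f u : (ι → ℂ) → ℂ} (hf : Differentiable ℂ f) (k : ℂ)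
    (hu : CMT.IsDer δ f u) : CMT.IsDer δ (fun z => k * f z) (fun z => k * u z + δ k * f z) := by
  refine ⟨(hu.1.const_mul k).add (hf.const_mul (δ k)), fun A => ?_⟩
  rw [kder_jadd (hu.1.const_mul k) (hf.const_mul (δ k)), kder_jmul k hu.1, kder_jmul (δ k) hf,
    kder_jmul k hf, Derivation.leibniz]
  have h1 := hu.2 A
  rw [h1, smul_eq_mul, smul_eq_mul]
  ring

private theorem kder_jneg (A : ι → ℕ) : ∀ f : (ι → ℂ) → ℂ, Differentiable ℂ f →
    RHK.jet1 (fun z => f (-z)) A = (-1) ^ (∑ i, A i) * RHK.jet1 f A := by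
  refine RHK.exp_induction (Q := fun A => ∀ f : (ι → ℂ) → ℂ, Differentiable ℂ f →
    RHK.jet1 (fun z => f (-z)) A = (-1) ^ (∑ i, A i) * RHK.jet1 f A) ?_ ?_ A
  · intro f _
    rw [jet1_zero, jet1_zero]
    simp
  · intro A j ih f hf
    have hd : Differentiable ℂ (fun z : ι → ℂ => f (-z)) := hf.comp differentiable_id.neg
    have hd' : Differentiable ℂ (fun z : ι → ℂ => pd j f (-z)) :=
      (kder_pd_diff hf j).comp differentiable_id.neg
    have h1 : pd j (fun z => f (-z)) = fun z => (-1) * pd j f (-z) := by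
      funext z
      rw [kder_pd_neg hf]
      ring
    have h2 : ∑ i, (A + (Pi.single j 1 : ι → ℕ)) i = (∑ i, A i) + 1 := by
      simp only [Pi.add_apply, Finset.sum_add_distrib]
      rw [Finset.sum_pi_single']
      simp
    rw [kder_succ hd, h1, kder_jmul _ hd', ih _ (kder_pd_diff hf j), kder_succ hf, h2, pow_succ]
    ring

theorem isDer_neg {δ : Derivation ℚ ℂ ℂ} {f u : (ι → ℂ) → ℂ} (hf : Differentiable ℂ f)
    (hu : CMT.IsDer δ f u) : CMT.IsDer δ (fun z => f (-z)) (fun z => u (-z)) := by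
  refine ⟨hu.1.comp differentiable_id.neg, fun A => ?_⟩
  rw [kder_jneg A u hu.1, kder_jneg A f hf, hu.2 A]
  rcases Nat.even_or_odd (∑ i, A i) with h | h
  · rw [h.neg_one_pow, one_mul, one_mul]
  · rw [h.neg_one_pow, neg_one_mul, neg_one_mul, map_neg]

private theorem kder_lin (L : (ι → ℂ) →L[ℂ] ℂ) (w : ι → ℂ) :
    L w = ∑ i, w i * L (Pi.single i 1) := by
  conv_lhs => rw [← Finset.univ_sum_single w]
  rw [map_sum]
  refine Finset.sum_congr rfl fun i _ => ?_
  have h : (Pi.single i (w i) : ι → ℂ) = w i • (Pi.single i (1 : ℂ) : ι → ℂ) := by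
    funext j
    by_cases hj : j = i
    · subst hj
      simp
    · simp [Pi.single_eq_of_ne hj]
  rw [h, map_smul, smul_eq_mul]

/-- the flow of the Euler field -/
private def kfl (c z : ι → ℂ) (t : ℂ) : ι → ℂ := fun i => cexp (t * c i) * z i

private theorem kfl_zero (c z : ι → ℂ) : kfl c z 0 = z := by
  funext i
  simp [kfl]

private theorem kfl_add (c x y : ι → ℂ) (t : ℂ) : kfl c x t + kfl c y t = kfl c (x + y) t := by
  funext i
  simp only [kfl, Pi.add_apply]
  ring

private theorem kfl_sub (c x y : ι → ℂ) (t : ℂ) : kfl c x t - kfl c y t = kfl c (x - y) t := by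
  funext i
  simp only [kfl, Pi.sub_apply]
  ring

private theorem kder_flow {f : (ι → ℂ) → ℂ} (hf : Differentiable ℂ f) (c z : ι → ℂ) :
    HasDerivAt (fun t : ℂ => f (kfl c z t)) (Ec c f z) 0 := by
  have h1 : HasDerivAt (fun t : ℂ => kfl c z t) (fun i => c i * z i) 0 := by
    rw [hasDerivAt_pi]
    intro i
    have h2 : HasDerivAt (fun t : ℂ => t * c i) (c i) 0 := by
      simpa using (hasDerivAt_id (0 : ℂ)).mul_const (c i)
    have h3 := (h2.cexp).mul_const (z i)
    simpa [kfl] using h3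
  have h4 : HasFDerivAt f (fderiv ℂ f z) (kfl c z 0) := by
    rw [kfl_zero]
    exact (hf z).hasFDerivAt
  have h5 := h4.comp_hasDerivAt (0 : ℂ) h1
  rw [kder_lin] at h5
  exact h5

/-- the two-variable identity for the Euler operator: derivative at `t = 0` of the identity at
`(e^{tc} x, e^{tc} y)` -/
theorem two_Ec {r : ℕ} {f g : (ι → ℂ) → ℂ} {A B : Fin r → (ι → ℂ) → ℂ} (hf : Differentiable ℂ f)
    (hg : Differentiable ℂ g) (hA : ∀ j, Differentiable ℂ (A j)) (hB : ∀ j, Differentiable ℂ (B j))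
    (h : ∀ x y, f (x + y) * g (x - y) = ∑ j, A j x * B j y) (c x y : ι → ℂ) :
    Ec c f (x + y) * g (x - y) + f (x + y) * Ec c g (x - y) =
      ∑ j, (Ec c (A j) x * B j y + A j x * Ec c (B j) y) := by
  have h1 := (kder_flow hf c (x + y)).mul (kder_flow hg c (x - y))
  have h2 : HasDerivAt (fun t : ℂ => ∑ j, A j (kfl c x t) * B j (kfl c y t))
      (∑ j, (Ec c (A j) x * B j (kfl c y 0) + A j (kfl c x 0) * Ec c (B j) y)) 0 :=
    HasDerivAt.fun_sum fun j _ => (kder_flow (hA j) c x).mul (kder_flow (hB j) c y)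
  have h3 : (fun t : ℂ => ∑ j, A j (kfl c x t) * B j (kfl c y t)) =
      fun t : ℂ => f (kfl c (x + y) t) * g (kfl c (x - y) t) := by
    funext t
    rw [← h, kfl_add, kfl_sub]
  rw [h3] at h2
  have h4 := h1.unique h2
  rw [kfl_zero, kfl_zero, kfl_zero, kfl_zero] at h4
  exact h4

end

end Pool.Agent.ALD
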