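import Pool.Agent.ALD.EBif
import Pool.Agent.ALD.KDer

/-!
# ALD, final forms, ESub: uniqueness of the exponents

PLAN. `sd_uniq`: `bi_E` at a point with `f z ≠ 0`: `∑ c_i a_i (l_i conj k_i + k_i conj l_i) = 0` for `k, l ∈ Λ`; real bilinear, so for all `k`, `l`
(`Submodule.span_induction` twice); `k = l = Pi.single i 1`. `sd_sub`: `f ∈ V(Λ) ≤ V(Λ')`; the second differences over `Λ'` of `u - E_c f` and of
`u - E_c' f` vanish, so those of `E_(c-c') f` (linearity of `dif` and of `Ec` in `c`); `sd_uniq` with the weight `m a`.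
-/

set_option autoImplicit false
set_option linter.unusedSectionVars false

namespace Pool.Agent.ALD

open Finset Complex ComplexConjugate

noncomputable section

variable {ι : Type} [Fintype ι] [DecidableEq ι]

/-- the hermitian type form with the weights `w` -/
private def hq (w : ι → ℂ) (l k : ι → ℂ) : ℂ := ∑ i, w i * (l i * conj (k i) + k i * conj (l i))

private theorem hq_symm (w l k : ι → ℂ) : hq w l k = hq w k l := by
  unfold hq
  refine Finset.sum_congr rfl fun i _ => ?_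
  ring

private theorem hq_add (w l l' k : ι → ℂ) : hq w (l + l') k = hq w l k + hq w l' k := by
  unfold hq
  rw [← Finset.sum_add_distrib]
  refine Finset.sum_congr rfl fun i _ => ?_
  rw [Pi.add_apply, map_add]
  ring

private theorem hq_smul (w : ι → ℂ) (r : ℝ) (l k : ι → ℂ) : hq w (r • l) k = r * hq w l k := by
  unfold hq
  rw [Finset.mul_sum]
  refine Finset.sum_congr rfl fun i _ => ?_
  rw [Pi.smul_apply, Complex.real_smul, map_mul, Complex.conj_ofReal]
  ring

private theorem hq_ext {S : Set (ι → ℂ)} (w k : ι → ℂ) (h : ∀ l ∈ S, hq w l k = 0) :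
    ∀ l ∈ Submodule.span ℝ S, hq w l k = 0 := by
  intro l hl
  induction hl using Submodule.span_induction with
  | mem x hx => exact h x hx
  | zero => simp [hq]
  | add x y _ _ hx hy => rw [hq_add, hx, hy, add_zero]
  | smul r x _ hx => rw [hq_smul, hx, mul_zero]

theorem sd_uniq {Λ : AddSubgroup (ι → ℂ)} {a : ι → ℝ} {χ : (ι → ℂ) → ℂ} {f : (ι → ℂ) → ℂ}
    (ha : ∀ i, a i ≠ 0) (hsp : Submodule.span ℝ (Λ : Set (ι → ℂ)) = ⊤) (hχ : ∀ l ∈ Λ, χ l ≠ 0)
    (hf : Vf Λ a χ f) (h0 : ∃ z, f z ≠ 0) {d : ι → ℂ}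
    (h : ∀ k ∈ Λ, ∀ l ∈ Λ, ∀ z, dif a χ k (dif a χ l (Ec d f)) z = 0) : d = 0 := by
  obtain ⟨z, hz⟩ := h0
  have h1 : ∀ l ∈ (Λ : Set (ι → ℂ)), ∀ k ∈ (Λ : Set (ι → ℂ)), hq (fun i => d i * a i) l k = 0 := by
    intro l hl k hk
    have h2 := h k hk l hl z
    rw [bi_E hχ hf d hk hl z] at h2
    exact (mul_eq_zero.1 h2).resolve_right hz
  have h3 : ∀ l k : ι → ℂ, hq (fun i => d i * a i) l k = 0 := by
    intro l k
    have hl : l ∈ Submodule.span ℝ (Λ : Set (ι → ℂ)) := by rw [hsp]; exact Submodule.mem_top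
    have hk : k ∈ Submodule.span ℝ (Λ : Set (ι → ℂ)) := by rw [hsp]; exact Submodule.mem_top
    refine hq_ext _ k (fun l' hl' => ?_) l hl
    rw [hq_symm]
    refine hq_ext _ l' (fun k' hk' => ?_) k hk
    rw [hq_symm]
    exact h1 l' hl' k' hk'
  funext i
  have h4 := h3 (Pi.single i 1) (Pi.single i 1)
  unfold hq at h4
  rw [Finset.sum_eq_single i] at h4
  · rw [Pi.single_eq_same, map_one] at h4
    have h5 : (a i : ℂ) ≠ 0 := by exact_mod_cast ha i
    have h6 : d i * a i * (1 * 1 + 1 * 1) = 0 := h4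
    have h7 : d i * a i = 0 := by
      have : d i * a i * 2 = 0 := by rw [← h6]; ring
      exact (mul_eq_zero.1 this).resolve_right two_ne_zero
    exact (mul_eq_zero.1 h7).resolve_right h5
  · intro j _ hj
    simp [Pi.single_eq_of_ne hj]
  · intro hi; exact absurd (mem_univ i) hi

/-- linearity of the second difference -/
theorem dif_dif_sub (a : ι → ℝ) (χ : (ι → ℂ) → ℂ) (k l : ι → ℂ) (u v : (ι → ℂ) → ℂ) (z : ι → ℂ) :
    dif a χ k (dif a χ l (fun z => u z - v z)) z =
      dif a χ k (dif a χ l u) z - dif a χ k (dif a χ l v) z := by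
  unfold dif tr
  ring

/-- a common theta function of a lattice and a sublattice -/
theorem sd_sub {Λ Λ' : AddSubgroup (ι → ℂ)} (hle : Λ' ≤ Λ) {a : ι → ℝ} (ha : ∀ i, 0 < a i)
    (hsp : Submodule.span ℝ (Λ' : Set (ι → ℂ)) = ⊤) {m : ℕ} (hm : 0 < m) {χ : (ι → ℂ) → ℂ}
    (hχ : ∀ l ∈ Λ, χ l ≠ 0) {f u : (ι → ℂ) → ℂ} (hf : Vf Λ (fun i => m * a i) χ f)
    (h0 : ∃ z, f z ≠ 0) {δ : Derivation ℚ ℂ ℂ} (hu : CMT.IsDer δ f u) {c c' : ι → ℂ}
    (hc : SDz δ Λ a c) (hc' : SDz δ Λ' a c') : c = c' := by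
  have hf' : Vf Λ' (fun i => m * a i) χ f := ⟨hf.1, fun l hl => hf.2 l (hle hl)⟩
  have hχ' : ∀ l ∈ Λ', χ l ≠ 0 := fun l hl => hχ l (hle hl)
  have h1 : c - c' = 0 := by
    refine sd_uniq (Λ := Λ') (a := fun i => m * a i) (χ := χ) (f := f) (fun i => ?_) hsp hχ' hf' h0
      (fun k hk l hl z => ?_)
    · have h2 : (0 : ℝ) < m := by exact_mod_cast hm
      have h3 := ha i
      positivity
    · have h2 := hc m χ f u hm hχ hf h0 hu k (hle hk) l (hle hl) z
      have h3 := hc' m χ f u hm hχ' hf' h0 hu k hk l hl z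
      have h4 : (Ec (c - c') f) = fun z => (u z - Ec c' f z) - (u z - Ec c f z) := by
        funext w
        unfold Ec
        rw [sub_sub_sub_cancel_left, ← Finset.sum_sub_distrib]
        refine Finset.sum_congr rfl fun i _ => ?_
        rw [Pi.sub_apply]
        ring
      rw [h4, dif_dif_sub (u := fun z => u z - Ec c' f z) (v := fun z => u z - Ec c f z), h3, h2,
        sub_zero]
  exact sub_eq_zero.1 h1

end

end Pool.Agent.ALD
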