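import Pool.Agent.ALD.KTr
import Pool.Agent.ALD.KDer
import Pool.Agent.ALD.B2b
import Pool.Agent.ALD.Der
import Pool.Agent.CMT.R2Out

/-!
# ALD block FT, part a: scaling of jets, the conjugate function, torsion points with `∂_i T_ρ(0) ≠ 0`
-/

set_option autoImplicit false
set_option linter.unusedSectionVars false

namespace Pool.Agent.ALD

open Finset Complex ComplexConjugate

noncomputable section

variable {ι : Type} [Fintype ι] [DecidableEq ι]

/-- jets of a rescaled function -/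
theorem jet1_scale {f : (ι → ℂ) → ℂ} (hf : Differentiable ℂ f) (b : ι → ℂ) (A : ι → ℕ) :
    RHK.jet1 (fun z => f (fun i => b i * z i)) A = (∏ i, b i ^ A i) * RHK.jet1 f A := by
  obtain ⟨φ, hφ, he⟩ := CMT.exists_ev hf
  obtain rfl : CMT.ev φ = f := funext he
  have h1 : (fun z : ι → ℂ => CMT.ev φ (fun i => b i * z i)) = CMT.ev (CMT.sc b φ) := by
    funext z
    rw [CMT.ev_sc]
  have h2 := CMT.jet1_ev (hφ.sc b) (Finsupp.equivFunOnFinite.symm A)
  have h3 := CMT.jet1_ev hφ (Finsupp.equivFunOnFinite.symm A)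
  rw [CMT.coeff_sc] at h2
  rw [h1]
  have h4 : RHK.jet1 (CMT.ev (CMT.sc b φ)) A = (CMT.fac (Finsupp.equivFunOnFinite.symm A) : ℂ) *
    ((∏ i, b i ^ A i) * MvPowerSeries.coeff (Finsupp.equivFunOnFinite.symm A) φ) := h2
  have h5 : RHK.jet1 (CMT.ev φ) A = (CMT.fac (Finsupp.equivFunOnFinite.symm A) : ℂ) *
    MvPowerSeries.coeff (Finsupp.equivFunOnFinite.symm A) φ := h3
  rw [h4, h5]
  ring

/-- coordinatewise conjugation -/
def cnj (z : ι → ℂ) : ι → ℂ := fun i => conj (z i)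

theorem cnj_cnj (z : ι → ℂ) : cnj (cnj z) = z := by
  funext i
  exact Complex.conj_conj _

theorem cnj_add (z w : ι → ℂ) : cnj (z + w) = cnj z + cnj w := by
  funext i
  exact map_add _ _ _

theorem cnj_neg (z : ι → ℂ) : cnj (-z) = -cnj z := by
  funext i
  exact map_neg _ _

theorem cnj_zero : cnj (0 : ι → ℂ) = 0 := by
  funext i
  exact map_zero _

/-- the conjugate function `conj f(conj z)` -/
def cj (f : (ι → ℂ) → ℂ) (z : ι → ℂ) : ℂ := conj (f (cnj z))

theorem cj_cj (f : (ι → ℂ) → ℂ) : cj (cj f) = f := by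
  funext z
  unfold cj
  rw [cnj_cnj, Complex.conj_conj]

private def cser (φ : MvPowerSeries ι ℂ) : MvPowerSeries ι ℂ := fun n => conj (MvPowerSeries.coeff n φ)

private theorem coeff_cser (φ : MvPowerSeries ι ℂ) (n : ι →₀ ℕ) :
    MvPowerSeries.coeff n (cser φ) = conj (MvPowerSeries.coeff n φ) := rfl

private theorem ent_cser {φ : MvPowerSeries ι ℂ} (h : CMT.Ent φ) : CMT.Ent (cser φ) := by
  intro r hr
  refine (h r hr).congr fun n => ?_
  rw [coeff_cser, RCLike.norm_conj]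

private theorem cj_ev (φ : MvPowerSeries ι ℂ) : cj (CMT.ev φ) = CMT.ev (cser φ) := by
  funext z
  unfold cj CMT.ev
  rw [Complex.conj_tsum]
  refine tsum_congr fun n => ?_
  rw [map_mul, coeff_cser]
  congr 1
  unfold CMT.mo
  rw [map_prod]
  refine Finset.prod_congr rfl fun i _ => ?_
  rw [map_pow]
  unfold cnj
  rw [Complex.conj_conj]

theorem cj_diff {f : (ι → ℂ) → ℂ} (hf : Differentiable ℂ f) : Differentiable ℂ (cj f) := by
  obtain ⟨φ, hφ, he⟩ := CMT.exists_ev hf
  obtain rfl : CMT.ev φ = f := funext he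
  rw [cj_ev]
  exact CMT.ev_differentiable (ent_cser hφ)

theorem jet1_cj {f : (ι → ℂ) → ℂ} (hf : Differentiable ℂ f) (A : ι → ℕ) :
    RHK.jet1 (cj f) A = conj (RHK.jet1 f A) := by
  obtain ⟨φ, hφ, he⟩ := CMT.exists_ev hf
  obtain rfl : CMT.ev φ = f := funext he
  rw [cj_ev]
  have h2 := CMT.jet1_ev (ent_cser hφ) (Finsupp.equivFunOnFinite.symm A)
  have h3 := CMT.jet1_ev hφ (Finsupp.equivFunOnFinite.symm A)
  have h4 : RHK.jet1 (CMT.ev (cser φ)) A = (CMT.fac (Finsupp.equivFunOnFinite.symm A) : ℂ) *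
    conj (MvPowerSeries.coeff (Finsupp.equivFunOnFinite.symm A) φ) := h2
  have h5 : RHK.jet1 (CMT.ev φ) A = (CMT.fac (Finsupp.equivFunOnFinite.symm A) : ℂ) *
    MvPowerSeries.coeff (Finsupp.equivFunOnFinite.symm A) φ := h3
  rw [h4, h5, map_mul, Complex.conj_natCast]

theorem conj_me (a : ι → ℝ) (z l : ι → ℂ) : conj (me a (cnj z) (cnj l)) = me a z l := by
  unfold me cnj
  rw [map_sum]
  refine Finset.sum_congr rfl fun i _ => ?_
  rw [map_mul, map_add, map_mul, Complex.conj_ofReal, Complex.conj_ofReal, Complex.conj_conj,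
    Complex.conj_conj, RCLike.norm_conj]

theorem tr_cj (a : ι → ℝ) (ρ : ι → ℂ) (f : (ι → ℂ) → ℂ) : tr a ρ (cj f) = cj (tr a (cnj ρ) f) := by
  funext z
  unfold tr cj
  rw [map_mul, ← Complex.exp_conj, map_neg, conj_me, cnj_add]

theorem cj_vf {Λ : AddSubgroup (ι → ℂ)} {a : ι → ℝ} {χ : (ι → ℂ) → ℂ} {f : (ι → ℂ) → ℂ}
    (hf : Vf Λ a χ f) (hΛ : ∀ l ∈ Λ, cnj l ∈ Λ) : Vf Λ a (fun l => conj (χ (cnj l))) (cj f) := by
  refine ⟨cj_diff hf.1, fun l hl z => ?_⟩
  unfold cj
  rw [cnj_add, hf.2 _ (hΛ l hl), map_mul, map_mul, ← Complex.exp_conj, conj_me]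

private theorem hol_aux {h : ℂ → ℂ} (hh : Differentiable ℂ h) {a : ℝ}
    (hd : ∀ t, deriv h t = a * conj t * h t) : (a : ℂ) * h 0 = 0 := by
  have h1 : Differentiable ℂ (deriv h) := by
    have := (hh.differentiableOn (s := Set.univ)).deriv isOpen_univ
    exact differentiableOn_univ.1 this
  have h2 : HasDerivAt (deriv h) (deriv (deriv h) 0) ((0 : ℝ) : ℂ) := by
    rw [Complex.ofReal_zero]
    exact (h1 0).hasDerivAt
  have h3 := h2.comp_ofReal
  have h4 : HasDerivAt (fun x : ℝ => h x) (deriv h 0) (0 : ℝ) := by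
    have : HasDerivAt h (deriv h 0) ((0 : ℝ) : ℂ) := by
      rw [Complex.ofReal_zero]
      exact (hh 0).hasDerivAt
    exact this.comp_ofReal
  have h5 : HasDerivAt (fun x : ℝ => deriv h x) ((a : ℂ) * h 0) (0 : ℝ) := by
    have e : (fun x : ℝ => deriv h x) = fun x : ℝ => (a : ℂ) * ((x : ℂ) * h x) := by
      funext x
      rw [hd, Complex.conj_ofReal]
      ring
    rw [e]
    have := ((hasDerivAt_id (0 : ℝ)).ofReal_comp.mul h4).const_mul (a : ℂ)
    refine this.congr_deriv ?_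
    simp
  have h6 := h3.unique h5
  -- imaginary direction
  have hI : HasDerivAt (fun x : ℝ => I * (x : ℂ)) I (0 : ℝ) := by
    have := (hasDerivAt_id (0 : ℝ)).ofReal_comp.const_mul I
    refine this.congr_deriv ?_
    simp
  have h7 : HasDerivAt (fun x : ℝ => deriv h (I * (x : ℂ))) (deriv (deriv h) 0 * I) (0 : ℝ) := by
    have h8 : HasDerivAt (deriv h) (deriv (deriv h) 0) (I * ((0 : ℝ) : ℂ)) := by
      rw [Complex.ofReal_zero, mul_zero]
      exact (h1 0).hasDerivAt
    exact h8.comp (0 : ℝ) hI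
  have h9 : HasDerivAt (fun x : ℝ => h (I * (x : ℂ))) (deriv h 0 * I) (0 : ℝ) := by
    have h8 : HasDerivAt h (deriv h 0) (I * ((0 : ℝ) : ℂ)) := by
      rw [Complex.ofReal_zero, mul_zero]
      exact (hh 0).hasDerivAt
    exact h8.comp (0 : ℝ) hI
  have h10 : HasDerivAt (fun x : ℝ => deriv h (I * (x : ℂ))) (-(a : ℂ) * (I * h 0)) (0 : ℝ) := by
    have e : (fun x : ℝ => deriv h (I * (x : ℂ))) =
        fun x : ℝ => -(a : ℂ) * ((I * (x : ℂ)) * h (I * (x : ℂ))) := by
      funext x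
      rw [hd, map_mul, Complex.conj_ofReal, Complex.conj_I]
      ring
    rw [e]
    have := (hI.mul h9).const_mul (-(a : ℂ))
    refine this.congr_deriv ?_
    simp
  have h11 := h7.unique h10
  rw [h6] at h11
  have h12 : I * (2 * ((a : ℂ) * h 0)) = 0 := by linear_combination h11
  rcases mul_eq_zero.1 h12 with h | h
  · exact absurd h I_ne_zero
  · rcases mul_eq_zero.1 h with h | h
    · norm_num at h
    · exact h

private theorem pd_line {T : (ι → ℂ) → ℂ} (hT : Differentiable ℂ T) (i : ι) (t : ℂ) :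
    HasDerivAt (fun t : ℂ => T (t • Pi.single i 1)) (pd i T (t • Pi.single i 1)) t := by
  have h1 : HasDerivAt (fun t : ℂ => t • (Pi.single i 1 : ι → ℂ)) (Pi.single i 1) t := by
    have := (hasDerivAt_id t).smul_const (Pi.single i 1 : ι → ℂ)
    rw [one_smul] at this
    exact this
  exact (hT _).hasFDerivAt.comp_hasDerivAt t h1

theorem pd_tr {T : (ι → ℂ) → ℂ} (hT : Differentiable ℂ T) (a : ι → ℝ) (ρ : ι → ℂ) (i : ι) (z : ι → ℂ) :
    pd i (tr a ρ T) z = cexp (-(me a z ρ)) * (pd i T (z + ρ) - a i * conj (ρ i) * T (z + ρ)) := by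
  have h1 := (B2.hasFDerivAt_me a ρ z).neg.cexp
  have h2 : HasFDerivAt (fun z => T (z + ρ)) (fderiv ℂ T (z + ρ)) z := by
    have := (hT (z + ρ)).hasFDerivAt.comp z ((hasFDerivAt_id z).add_const ρ)
    rwa [ContinuousLinearMap.comp_id] at this
  have h3 := h1.mul h2
  have h4 : fderiv ℂ (tr a ρ T) z = _ := h3.fderiv
  unfold pd
  rw [h4]
  simp only [_root_.add_apply, _root_.smul_apply, _root_.neg_apply, _root_.sum_apply,
    ContinuousLinearMap.proj_apply, smul_eq_mul]
  have h5 : ∑ s, (a s : ℂ) * conj (ρ s) * (Pi.single i (1 : ℂ) : ι → ℂ) s = a i * conj (ρ i) := by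
    rw [Finset.sum_eq_single i]
    · rw [Pi.single_eq_same, mul_one]
    · intro s _ hs
      rw [Pi.single_eq_of_ne hs, mul_zero]
    · intro hi
      exact absurd (Finset.mem_univ i) hi
  rw [h5]
  have h6 : (-fun z => me a z ρ) z = -(me a z ρ) := rfl
  rw [h6]
  ring

theorem exists_pd_ne {a : ι → ℝ} (i : ι) (ha : a i ≠ 0) {T : (ι → ℂ) → ℂ} (hT : Differentiable ℂ T)
    (h0 : T 0 ≠ 0) {P : Set (ι → ℂ)} (hP : Dense P) : ∃ ρ ∈ P, pd i (tr a ρ T) 0 ≠ 0 := by
  by_contra hc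
  push Not at hc
  have h1 : ∀ ρ ∈ P, pd i T ρ - a i * conj (ρ i) * T ρ = 0 := by
    intro ρ hρ
    have := hc ρ hρ
    rw [pd_tr hT, zero_add] at this
    exact (mul_eq_zero.1 this).resolve_left (Complex.exp_ne_zero _)
  have h2 : Continuous fun ρ => pd i T ρ - a i * conj (ρ i) * T ρ := by
    have hc1 : Continuous (pd i T) := (pd_diff hT i).continuous
    have hc2 : Continuous T := hT.continuous
    have hc3 : Continuous fun ρ : ι → ℂ => conj (ρ i) := Complex.continuous_conj.comp (continuous_apply i)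
    exact hc1.sub ((continuous_const.mul hc3).mul hc2)
  have h3 : (fun ρ => pd i T ρ - a i * conj (ρ i) * T ρ) = fun _ => 0 :=
    h2.ext_on hP continuous_const h1
  have h4 : ∀ t : ℂ, deriv (fun t : ℂ => T (t • Pi.single i 1)) t =
      a i * conj t * (fun t : ℂ => T (t • Pi.single i 1)) t := by
    intro t
    rw [(pd_line hT i t).deriv]
    have := congrFun h3 (t • Pi.single i 1)
    simp only [Pi.smul_apply, Pi.single_eq_same, smul_eq_mul, mul_one] at this
    exact sub_eq_zero.1 this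
  have h5 := hol_aux (h := fun t : ℂ => T (t • Pi.single i 1))
    (fun t => (pd_line hT i t).differentiableAt) h4
  simp only [zero_smul] at h5
  rcases mul_eq_zero.1 h5 with h | h
  · exact ha (Complex.ofReal_eq_zero.1 h)
  · exact h0 h

end

end Pool.Agent.ALD
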