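import Pool.Agent.ALD.FTa

/-!
# ALD block FT, part b: real periods, algebraic jets, `AlgTay`
-/

set_option autoImplicit false
set_option linter.unusedSectionVars false

namespace Pool.Agent.ALD

open Finset Complex ComplexConjugate

noncomputable section

variable {ι : Type} [Fintype ι] [DecidableEq ι]

/-- Theorem T for `T` at the points of `P`, with exponents `c` -/
def TJ (a : ι → ℝ) (P : Set (ι → ℂ)) (c : Derivation ℚ ℂ ℂ → ι → ℂ) (T : (ι → ℂ) → ℂ) : Prop :=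
  ∀ δ : Derivation ℚ ℂ ℂ, ∃ γ : ℂ, ∀ ρ ∈ P, ∀ A : ι → ℕ,
    δ (RHK.jet1 (tr a ρ T) A) = ((∑ i, c δ i * A i) + γ) * RHK.jet1 (tr a ρ T) A

private theorem der_quot (δ : Derivation ℚ ℂ ℂ) {x y p q : ℂ} (hy : y ≠ 0) (hx : δ x = (p + q) * x)
    (hy' : δ y = q * y) : δ (x / y) = p * (x / y) := by
  have h1 : x = x / y * y := by field_simp
  have h2 : δ (x / y * y) = (p + q) * (x / y * y) := by rw [← h1, hx]
  rw [Derivation.leibniz, smul_eq_mul, smul_eq_mul, hy'] at h2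
  have h3 : (δ (x / y) - p * (x / y)) * y = 0 := by linear_combination h2
  rcases mul_eq_zero.1 h3 with h | h
  · exact sub_eq_zero.1 h
  · exact absurd h hy

private theorem der_pow (δ : Derivation ℚ ℂ ℂ) {v c : ℂ} (hv : δ v = c * v) (n : ℕ) :
    δ (v ^ n) = c * n * v ^ n := by
  induction n with
  | zero => simp
  | succ n ih =>
    rw [pow_succ, Derivation.leibniz, ih, hv, smul_eq_mul, smul_eq_mul]
    push_cast
    ring

private theorem der_prod' (δ : Derivation ℚ ℂ ℂ) (s : Finset ι) {f c : ι → ℂ}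
    (hf : ∀ i, δ (f i) = c i * f i) : δ (∏ i ∈ s, f i) = (∑ i ∈ s, c i) * ∏ i ∈ s, f i := by
  induction s using Finset.induction_on with
  | empty => simp
  | insert i s hi ih =>
    rw [Finset.prod_insert hi, Finset.sum_insert hi, Derivation.leibniz, ih, hf, smul_eq_mul,
      smul_eq_mul]
    ring

private theorem der_mon (δ : Derivation ℚ ℂ ℂ) {v c : ι → ℂ} (hv : ∀ i, δ (v i) = c i * v i)
    (A : ι → ℕ) : δ (∏ i, v i ^ A i) = (∑ i, c i * A i) * ∏ i, v i ^ A i :=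
  der_prod' δ _ fun i => der_pow δ (hv i) (A i)

variable {a : ι → ℝ} {P : Set (ι → ℂ)} {c : Derivation ℚ ℂ ℂ → ι → ℂ} {T : (ι → ℂ) → ℂ}

/-- real periods with the exponents `c` -/
theorem real_periods (ha : ∀ i, a i ≠ 0) (hT : Differentiable ℂ T) (h0 : T 0 ≠ 0) (hP : Dense P)
    (hP0 : (0 : ι → ℂ) ∈ P) (hPc : ∀ ρ ∈ P, cnj ρ ∈ P) (hJ : TJ a P c T) (hJ' : TJ a P c (cj T)) :
    ∃ v : ι → ℝ, (∀ i, 0 < v i) ∧ ∀ δ i, δ (v i : ℂ) = c δ i * v i := by
  have hex : ∀ i, ∃ x : ℝ, 0 < x ∧ ∀ δ : Derivation ℚ ℂ ℂ, δ (x : ℂ) = c δ i * x := by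
    intro i
    obtain ⟨ρ, hρ, hne⟩ := exists_pd_ne i (ha i) hT h0 hP
    have htr : Differentiable ℂ (tr a ρ T) := tr_diff a ρ hT
    set x : ℂ := RHK.jet1 (tr a ρ T) (Pi.single i 1) with hx
    have hx0 : x ≠ 0 := by
      rw [hx, jet1_single htr]
      exact hne
    have hsum : ∀ δ : Derivation ℚ ℂ ℂ, (∑ j, c δ j * ((Pi.single i 1 : ι → ℕ) j : ℂ)) = c δ i := by
      intro δ
      rw [Finset.sum_eq_single i]
      · rw [Pi.single_eq_same, Nat.cast_one, mul_one]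
      · intro j _ hj
        rw [Pi.single_eq_of_ne hj, Nat.cast_zero, mul_zero]
      · intro hi
        exact absurd (Finset.mem_univ i) hi
    have h1 : ∀ δ : Derivation ℚ ℂ ℂ, δ (x / T 0) = c δ i * (x / T 0) := by
      intro δ
      obtain ⟨γ, hγ⟩ := hJ δ
      have e1 := hγ ρ hρ (Pi.single i 1)
      have e0 := hγ 0 hP0 0
      rw [tr_zero, jet1_zero] at e0
      rw [hsum, ← hx] at e1
      simp only [Pi.zero_apply, Nat.cast_zero, mul_zero, Finset.sum_const_zero, zero_add] at e0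
      exact der_quot δ h0 e1 e0
    have h2 : ∀ δ : Derivation ℚ ℂ ℂ, δ (conj (x / T 0)) = c δ i * conj (x / T 0) := by
      intro δ
      obtain ⟨γ, hγ⟩ := hJ' δ
      have e1 := hγ (cnj ρ) (hPc ρ hρ) (Pi.single i 1)
      have e0 := hγ 0 hP0 0
      rw [tr_zero, jet1_zero] at e0
      rw [hsum, tr_cj, cnj_cnj, jet1_cj htr, ← hx] at e1
      simp only [Pi.zero_apply, Nat.cast_zero, mul_zero, Finset.sum_const_zero, zero_add] at e0
      have e2 : cj T 0 = conj (T 0) := by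
        unfold cj
        rw [cnj_zero]
      rw [e2] at e0
      rw [map_div₀]
      exact der_quot δ (by rwa [Ne, map_eq_zero]) e1 e0
    set y : ℂ := x / T 0 with hy
    have hy0 : y ≠ 0 := div_ne_zero hx0 h0
    have hv : (((‖y‖ : ℝ) : ℂ)) ^ 2 = y * conj y := by
      rw [Complex.mul_conj, Complex.normSq_eq_norm_sq]
      push_cast
      ring
    refine ⟨‖y‖, norm_pos_iff.2 hy0, fun δ => ?_⟩
    have hne' : ((‖y‖ : ℝ) : ℂ) ≠ 0 := by
      rw [Ne, Complex.ofReal_eq_zero]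
      exact norm_ne_zero_iff.2 hy0
    have h3 : δ (((‖y‖ : ℝ) : ℂ) ^ 2) = 2 * c δ i * ((‖y‖ : ℝ) : ℂ) ^ 2 := by
      rw [hv, Derivation.leibniz, h1, h2, smul_eq_mul, smul_eq_mul]
      ring
    rw [pow_two, Derivation.leibniz, smul_eq_mul] at h3
    have h4 : (2 * ((‖y‖ : ℝ) : ℂ)) * (δ ((‖y‖ : ℝ) : ℂ) - c δ i * ((‖y‖ : ℝ) : ℂ)) = 0 := by
      linear_combination h3
    rcases mul_eq_zero.1 h4 with h | h
    · exact absurd h (mul_ne_zero two_ne_zero hne')
    · exact sub_eq_zero.1 h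
  choose v hv0 hv using hex
  exact ⟨v, hv0, fun δ i => hv i δ⟩

/-- the jets of all translates are algebraic in the coordinates `z_i / v_i` -/
theorem jets_alg {v : ι → ℂ} (hv0 : ∀ i, v i ≠ 0) (hv : ∀ δ i, δ (v i) = c δ i * v i)
    (hT : Differentiable ℂ T) (h0 : T 0 ≠ 0) (hP0 : (0 : ι → ℂ) ∈ P) (hJ : TJ a P c T) {ρ : ι → ℂ}
    (hρ : ρ ∈ P) (A : ι → ℕ) :
    IsAlgebraic ℚ (RHK.jet1 (fun z => (T 0)⁻¹ * tr a ρ T (fun i => (v i)⁻¹ * z i)) A) := by
  have htr : Differentiable ℂ (tr a ρ T) := tr_diff a ρ hT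
  have e1 : RHK.jet1 (fun z => (T 0)⁻¹ * tr a ρ T (fun i => (v i)⁻¹ * z i)) A =
      RHK.jet1 (tr a ρ T) A / (T 0 * ∏ i, v i ^ A i) := by
    have hs : Differentiable ℂ (fun z : ι → ℂ => (T 0)⁻¹ * tr a ρ T z) := htr.const_mul _
    have := jet1_scale hs (fun i => (v i)⁻¹) A
    rw [this]
    have h2 : RHK.jet1 (fun z => (T 0)⁻¹ * tr a ρ T z) A = (T 0)⁻¹ * RHK.jet1 (tr a ρ T) A := by
      unfold RHK.jet1
      exact RHK.jet_const_mul _ (htr.comp differentiable_fst) A 0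
    rw [h2]
    have h3 : ∏ i, (v i)⁻¹ ^ A i = (∏ i, v i ^ A i)⁻¹ := by
      rw [← Finset.prod_inv_distrib]
      refine Finset.prod_congr rfl fun i _ => ?_
      rw [inv_pow]
    rw [h3, div_eq_mul_inv, mul_inv]
    ring
  rw [e1]
  refine Pool.Agent.DRV.isAlgebraic_of_forall fun δ => ?_
  obtain ⟨γ, hγ⟩ := hJ δ
  have e2 := hγ ρ hρ A
  have e0 := hγ 0 hP0 0
  rw [tr_zero, jet1_zero] at e0
  simp only [Pi.zero_apply, Nat.cast_zero, mul_zero, Finset.sum_const_zero, zero_add] at e0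
  have h3 : δ (T 0 * ∏ i, v i ^ A i) = ((∑ i, c δ i * A i) + γ) * (T 0 * ∏ i, v i ^ A i) := by
    rw [Derivation.leibniz, der_mon δ (hv δ) A, e0, smul_eq_mul, smul_eq_mul]
    ring
  have h4 : T 0 * ∏ i, v i ^ A i ≠ 0 :=
    mul_ne_zero h0 (Finset.prod_ne_zero_iff.2 fun i _ => pow_ne_zero _ (hv0 i))
  have := der_quot δ (p := 0) h4 (by rw [zero_add]; exact e2) h3
  rw [this, zero_mul]

theorem frk_scale {v : ι → ℂ} (k : ℂ) (hW : CMT.Rec.FRk T T) :
    CMT.Rec.FRk (fun z => k * T (fun i => v i * z i)) (fun z => k * T (fun i => v i * z i)) := by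
  obtain ⟨W, hf, hW⟩ := hW
  let L : ((ι → ℂ) → ℂ) →ₗ[ℂ] ((ι → ℂ) → ℂ) :=
    { toFun := fun g z => k * k * g (fun i => v i * z i)
      map_add' := fun g g' => by
        funext z
        simp only [Pi.add_apply]
        ring
      map_smul' := fun r g => by
        funext z
        simp only [Pi.smul_apply, smul_eq_mul, RingHom.id_apply]
        ring }
  refine ⟨W.map L, inferInstance, fun y => ?_⟩
  refine Submodule.mem_map.2 ⟨_, hW (fun i => v i * y i), ?_⟩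
  funext x
  change k * k * (T ((fun i => v i * x i) + fun i => v i * y i) *
    T ((fun i => v i * x i) - fun i => v i * y i)) = _
  have e1 : ((fun i => v i * x i) + fun i => v i * y i) = fun i => v i * (x + y) i := by
    funext i
    rw [Pi.add_apply, Pi.add_apply, mul_add]
  have e2 : ((fun i => v i * x i) - fun i => v i * y i) = fun i => v i * (x - y) i := by
    funext i
    rw [Pi.sub_apply, Pi.sub_apply, mul_sub]
  rw [e1, e2]
  ring

theorem algTay_T {v : ι → ℂ} (hv0 : ∀ i, v i ≠ 0) (hv : ∀ δ i, δ (v i) = c δ i * v i)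
    (hT : Differentiable ℂ T) (h0 : T 0 ≠ 0) (hev : ∀ z, T (-z) = T z) (hW : CMT.Rec.FRk T T)
    (hP0 : (0 : ι → ℂ) ∈ P) (hJ : TJ a P c T) :
    RHK.AlgTay (fun z => (T 0)⁻¹ * T (fun i => (v i)⁻¹ * z i)) := by
  refine CMT.algTay_of_jets ?_ ?_ ?_ (frk_scale _ hW) ?_
  · have h1 : Differentiable ℂ (fun z : ι → ℂ => fun i => (v i)⁻¹ * z i) := by fun_prop
    exact (hT.comp h1).const_mul _
  · have e : (fun i => (v i)⁻¹ * (0 : ι → ℂ) i) = (0 : ι → ℂ) := by
      funext i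
      rw [Pi.zero_apply, mul_zero]
    simp only [e]
    exact inv_mul_cancel₀ h0
  · intro z
    have e : (fun i => (v i)⁻¹ * (-z) i) = -(fun i => (v i)⁻¹ * z i) := by
      funext i
      rw [Pi.neg_apply, Pi.neg_apply, mul_neg]
    simp only [e, hev]
  · intro A
    have := jets_alg hv0 hv hT h0 hP0 hJ hP0 A
    rw [tr_zero] at this
    exact this

end

end Pool.Agent.ALD
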