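import Pool.Agent.ALD.FTb
import Pool.Agent.RCM.Ifc
import Pool.Agent.RQ4.NBri
import Pool.Agent.RQ4.Dens

/-!
# ALD block FT, part c: theta data `TD` from Theorem T in rank one
-/

set_option autoImplicit false
set_option linter.unusedSectionVars false

namespace Pool.Agent.ALD

open Finset Complex ComplexConjugate

noncomputable section

/-- theta data from a theta function -/
theorem td_of {D g : ℕ} {t : Fin g → ℕ} {a : Fin g → ℝ} {P : Set (Fin g → ℂ)}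
    {c : Derivation ℚ ℂ ℂ → Fin g → ℂ} {T : (Fin g → ℂ) → ℂ} {v : Fin g → ℝ}
    {χ : (Fin g → ℂ) → ℂ} {Λ : AddSubgroup (Fin g → ℂ)} {N : ℕ} (hN : 0 < N) (ha : ∀ i, 0 < a i)
    (hπ : ∀ i, IsAlgebraic ℚ (a i / Real.pi)) (hv0 : ∀ i, 0 < v i)
    (hv : ∀ δ i, δ (v i : ℂ) = c δ i * v i) (hT : Vf Λ a χ T) (h0 : T 0 ≠ 0)
    (hev : ∀ z, T (-z) = T z) (hW : CMT.Rec.FRk T T) (hP0 : (0 : Fin g → ℂ) ∈ P) (hJ : TJ a P c T)
    (hχ : ∀ l ∈ Λ, ‖χ l‖ = 1) (hΛ : ∀ c : ℕ → ℤ, (fun i => (N : ℂ) * RHK.emb D c (t i)) ∈ Λ) :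
    RCM.TD D t v := by
  have hv0' : ∀ i, (v i : ℂ) ≠ 0 := fun i => Complex.ofReal_ne_zero.2 (hv0 i).ne'
  refine ⟨fun z => (T 0)⁻¹ * T (fun i => ((v i : ℂ))⁻¹ * z i), a, N, hN, ha, hv0, hπ, ?_, ?_,
    algTay_T hv0' hv hT.1 h0 hev hW hP0 hJ, ?_⟩
  · have h1 : Differentiable ℂ (fun z : Fin g → ℂ => fun i => ((v i : ℂ))⁻¹ * z i) := by fun_prop
    exact (hT.1.comp h1).const_mul _
  · refine ⟨0, ?_⟩
    have e : (fun i => ((v i : ℂ))⁻¹ * (0 : Fin g → ℂ) i) = (0 : Fin g → ℂ) := by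
      funext i
      rw [Pi.zero_apply, mul_zero]
    simp only [e]
    rw [inv_mul_cancel₀ h0]
    exact one_ne_zero
  · intro d
    refine ⟨χ (fun i => (N : ℂ) * RHK.emb D d (t i)), hχ _ (hΛ d), fun z => ?_⟩
    have e : ∀ w : Fin g → ℂ, (fun i => ((v i : ℂ))⁻¹ * ((v i : ℂ) * w i)) = w := by
      intro w
      funext i
      rw [← mul_assoc, inv_mul_cancel₀ (hv0' i), one_mul]
    simp only [e]
    rw [hT.2 _ (hΛ d)]
    unfold me
    ring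

variable {K : Type} [Field K] [NumberField K] {g : ℕ}

/-- the points of the field -/
def Kp (C : RQ4.CM K g) : Set (Fin g → ℂ) := Set.range fun (x : K) (i : Fin g) => C.σ i x

theorem zero_mem_Kp (C : RQ4.CM K g) : (0 : Fin g → ℂ) ∈ Kp C := by
  refine ⟨0, ?_⟩
  funext i
  exact map_zero _

theorem cnj_mem_Kp (C : RQ4.CM K g) {ρ : Fin g → ℂ} (h : ρ ∈ Kp C) : cnj ρ ∈ Kp C := by
  obtain ⟨x, rfl⟩ := h
  refine ⟨C.bar x, ?_⟩
  funext i
  exact C.hbar i x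

theorem dense_Kp (C : RQ4.CM K g) : Dense (Kp C) := by
  refine RQ4.dense_places C.σ ⟨?_, ?_⟩
  · rintro (i | i) (j | j) h
    · rw [C.inj (show C.σ i = C.σ j from h)]
    · exfalso
      obtain ⟨x, hx⟩ := C.ne i j
      exact hx (congrArg (fun φ : K →+* ℂ => φ x) h)
    · exfalso
      obtain ⟨x, hx⟩ := C.ne j i
      exact hx (congrArg (fun φ : K →+* ℂ => φ x) h).symm
    · have h1 : C.σ i = C.σ j := by
        ext x
        have := congrArg (fun φ : K →+* ℂ => φ x) h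
        exact star_injective this
      rw [C.inj h1]
  · intro τ
    obtain ⟨i, h | h⟩ := C.all τ
    · exact ⟨Sum.inl i, h.symm⟩
    · refine ⟨Sum.inr i, ?_⟩
      ext x
      exact (h x).symm

/-- a common multiple of finitely many denominators -/
theorem exists_common {Λ : AddSubgroup K} (hfull : ∀ x : K, ∃ n : ℕ, 0 < n ∧ n • x ∈ Λ) (D : ℕ)
    (x : ℕ → K) : ∃ N : ℕ, 0 < N ∧ ∀ j < D, N • x j ∈ Λ := by
  induction D with
  | zero => exact ⟨1, one_pos, fun j hj => absurd hj (Nat.not_lt_zero j)⟩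
  | succ D ih =>
    obtain ⟨N, hN, h⟩ := ih
    obtain ⟨n, hn, h'⟩ := hfull (x D)
    refine ⟨N * n, Nat.mul_pos hN hn, fun j hj => ?_⟩
    rcases Nat.lt_succ_iff_lt_or_eq.1 hj with hlt | rfl
    · rw [mul_comm, mul_nsmul']
      exact Λ.nsmul_mem (h j hlt) n
    · rw [mul_nsmul']
      exact Λ.nsmul_mem h' N

/-- rank one: `TD` for a CM type of `ℚ(ζ_D)` from a theta function satisfying Theorem T -/
theorem exists_td {D : ℕ} {t : Fin g → ℕ} (C : RQ4.CM K g) (z : K)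
    (hz : ∀ (c : ℕ → ℤ) (i : Fin g), RHK.emb D c (t i) = C.σ i (∑ j ∈ range D, (c j : K) * z ^ j))
    {Λ : AddSubgroup K} (hfull : ∀ x : K, ∃ n : ℕ, 0 < n ∧ n • x ∈ Λ)
    {Λ' : AddSubgroup (Fin g → ℂ)} (hΛ : ∀ x ∈ Λ, (fun i => C.σ i x) ∈ Λ')
    {a : Fin g → ℝ} {c : Derivation ℚ ℂ ℂ → Fin g → ℂ} {T : (Fin g → ℂ) → ℂ} {χ : (Fin g → ℂ) → ℂ}
    (ha : ∀ i, 0 < a i) (hπ : ∀ i, IsAlgebraic ℚ (a i / Real.pi)) (hT : Vf Λ' a χ T)
    (hχ : ∀ l ∈ Λ', χ l = 1 ∨ χ l = -1) (h0 : T 0 ≠ 0) (hev : ∀ z, T (-z) = T z)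
    (hW : CMT.Rec.FRk T T) (hJ : TJ a (Kp C) c T) (hJ' : TJ a (Kp C) c (cj T)) :
    ∃ v : Fin g → ℝ, RCM.TD D t v ∧ ∀ (δ : Derivation ℚ ℂ ℂ) (i : Fin g),
      δ (v i : ℂ) = c δ i * v i := by
  obtain ⟨v, hv0, hv⟩ := real_periods (fun i => (ha i).ne') hT.1 h0 (dense_Kp C) (zero_mem_Kp C)
    (fun ρ hρ => cnj_mem_Kp C hρ) hJ hJ'
  obtain ⟨N, hN, hNΛ⟩ := exists_common hfull D fun j => z ^ j
  refine ⟨v, td_of hN ha hπ hv0 hv hT h0 hev hW (zero_mem_Kp C) hJ (fun l hl => ?_) fun d => ?_, hv⟩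
  · rcases hχ l hl with h | h
    · rw [h, norm_one]
    · rw [h, norm_neg, norm_one]
  · have e : (fun i => (N : ℂ) * RHK.emb D d (t i)) =
        fun i => C.σ i (∑ j ∈ range D, d j • (N • z ^ j)) := by
      funext i
      rw [hz, map_sum, map_sum, Finset.mul_sum]
      refine Finset.sum_congr rfl fun j _ => ?_
      rw [zsmul_eq_mul, nsmul_eq_mul, map_mul, map_mul, map_mul, map_intCast, map_natCast]
      ring
    rw [e]
    exact hΛ _ (Λ.sum_mem fun j hj => Λ.zsmul_mem (hNΛ j (Finset.mem_range.1 hj)) _)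

end

end Pool.Agent.ALD
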