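import Pool.Agent.ALD.FTc
import Pool.Agent.ALD.EOut
import Pool.Agent.ALD.ERb
import Pool.Agent.ALD.FDim
import Pool.Agent.RQ4.CFin

/-!
# ALD block FT, part d: `THForm`: theta functions with algebraic Taylor coefficients exist for every
CM type of every cyclotomic field
-/

set_option autoImplicit false
set_option linter.unusedSectionVars false

namespace Pool.Agent.ALD

open Finset Complex ComplexConjugate

noncomputable section

section Gen

variable {ι : Type} [Fintype ι] [DecidableEq ι]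

theorem cj_vf' {Λ Λ' : AddSubgroup (ι → ℂ)} {a : ι → ℝ} {χ : (ι → ℂ) → ℂ} {f : (ι → ℂ) → ℂ}
    (hf : Vf Λ a χ f) (hΛ : ∀ l ∈ Λ', cnj l ∈ Λ) : Vf Λ' a (fun l => conj (χ (cnj l))) (cj f) := by
  refine ⟨cj_diff hf.1, fun l hl z => ?_⟩
  unfold cj
  rw [cnj_add, hf.2 _ (hΛ l hl), map_mul, map_mul, ← Complex.exp_conj, conj_me]

/-- the conjugate function of a unimodular theta function -/
theorem cj_UT {Λ Λ' : AddSubgroup (ι → ℂ)} {a : ι → ℝ} {χ T : (ι → ℂ) → ℂ} (hU : UT Λ a χ T)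
    (h1 : ∀ l ∈ Λ', cnj l ∈ Λ) (h2 : ∀ l ∈ Λ, cnj l ∈ Λ') :
    UT Λ' a (fun l => conj (χ (cnj l))) (cj T) where
  pos := hU.pos
  chi l hl := by
    rcases hU.chi _ (h1 l hl) with h | h
    · left
      rw [h, map_one]
    · right
      rw [h, map_neg, map_one]
  hT := cj_vf' hU.hT h1
  ev z := by
    unfold cj
    rw [cnj_neg, hU.ev]
  ne := by
    unfold cj
    rw [cnj_zero, Ne, map_eq_zero]
    exact hU.ne
  uni f hf := by
    have h3 := cj_vf' hf h2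
    have h4 : Vf Λ a χ (cj f) := by
      refine ⟨h3.1, fun l hl z => ?_⟩
      rw [h3.2 l hl z]
      simp only [cnj_cnj, Complex.conj_conj]
    obtain ⟨k, hk⟩ := hU.uni _ h4
    refine ⟨conj k, fun z => ?_⟩
    have h5 : cj (cj f) z = conj k * cj T z := by
      unfold cj
      have := hk (cnj z)
      unfold cj at this
      rw [this, map_mul]
    rwa [cj_cj] at h5

end Gen

/-- theta data with the exponents of the type -/
theorem exists_tdc {K : Type} [Field K] [NumberField K] {D g : ℕ} [NeZero D]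
    [IsCyclotomicExtension {D} ℚ K] (cm : RQ4.CM K g) {t : Fin g → ℕ}
    (hσ : ∀ i, cm.σ i (RQ4.zt D K) = RQ4.rt D (t i)) :
    ∃ v : Fin g → ℝ, RCM.TD D t v ∧ ∀ (δ : Derivation ℚ ℂ ℂ) (c : Fin g → ℂ), IsC cm.σ δ c →
      ∀ i, δ (v i : ℂ) = c i * v i := by
  obtain ⟨Λ, a, χ, T, hΛ, hU, hπ⟩ := exists_UT cm
  choose c hc using exists_isC D cm
  have hJ : TJ a (Kp cm) c T := by
    intro δ
    obtain ⟨γ, hγ⟩ := jet_T1 (hc δ) hΛ hU
    refine ⟨γ, ?_⟩
    rintro _ ⟨x, rfl⟩ A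
    exact hγ x A
  -- the conjugate lattice
  set Λc : AddSubgroup K := Λ.map cm.bar.toAddMonoidHom with hΛc
  have hFL : FL Λc := by
    classical
    refine ⟨?_, fun x => ?_⟩
    · obtain ⟨S, hS⟩ := hΛ.1
      refine ⟨S.image cm.bar.toAddMonoidHom, ?_⟩
      rw [Finset.coe_image, ← AddMonoidHom.map_closure, hS]
    · obtain ⟨n, hn, hx⟩ := hΛ.2 (cm.bar x)
      refine ⟨n, hn, ?_⟩
      refine ⟨_, hx, ?_⟩
      change cm.bar (n • cm.bar x) = n • x
      rw [map_nsmul, cm.bar_barC]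
  have hc1 : ∀ l ∈ Λc.map (em1 cm.σ), cnj l ∈ Λ.map (em1 cm.σ) := by
    rintro _ ⟨_, ⟨x, hx, rfl⟩, rfl⟩
    refine ⟨x, hx, ?_⟩
    funext i
    change cm.σ i x = conj (cm.σ i (cm.bar x))
    rw [cm.hbar, Complex.conj_conj]
  have hc2 : ∀ l ∈ Λ.map (em1 cm.σ), cnj l ∈ Λc.map (em1 cm.σ) := by
    rintro _ ⟨x, hx, rfl⟩
    refine ⟨cm.bar x, ⟨x, hx, rfl⟩, ?_⟩
    funext i
    change cm.σ i (cm.bar x) = conj (cm.σ i x)
    rw [cm.hbar]
  have hU' := cj_UT hU hc1 hc2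
  have hJ' : TJ a (Kp cm) c (cj T) := by
    intro δ
    obtain ⟨γ, hγ⟩ := jet_T1 (hc δ) hFL hU'
    refine ⟨γ, ?_⟩
    rintro _ ⟨x, rfl⟩ A
    exact hγ x A
  obtain ⟨b, hb⟩ := exists_real_basis cm (em1 cm.σ) (fun _ _ => rfl) hΛ.1 hΛ.2
  have hW : CMT.Rec.FRk T T := by
    have h1 := hU.hT
    rw [hb] at h1
    exact frk_of_vf b h1 h1
  have hemb : ∀ (d : ℕ → ℤ) (i : Fin g), RHK.emb D d (t i) =
      cm.σ i (∑ j ∈ range D, (d j : K) * RQ4.zt D K ^ j) := by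
    intro d i
    rw [map_sum]
    unfold RHK.emb
    refine Finset.sum_congr rfl fun j _ => ?_
    rw [map_mul, map_pow, hσ, map_intCast]
    unfold RQ4.rt
    rw [← Complex.exp_nat_mul]
    congr 2
    push_cast
    ring
  obtain ⟨v, hv, hv'⟩ := exists_td cm (RQ4.zt D K) hemb hΛ.2
    (Λ' := Λ.map (em1 cm.σ)) (fun x hx => ⟨x, hx, rfl⟩) hU.pos hπ hU.hT hU.chi hU.ne hU.ev hW hJ hJ'
  refine ⟨v, hv, fun δ c' hc' i => ?_⟩
  rw [isC_unique hc' (hc δ)]
  exact hv' δ i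

/-- input TH of the final theorem -/
theorem thForm : RCM.THForm := by
  intro D g t h
  obtain ⟨hD, hI, C, hσ, -, -, -⟩ := RQ4.exists_bridge h
  obtain ⟨v, hv, -⟩ := exists_tdc C hσ
  exact ⟨v, hv⟩

end

end Pool.Agent.ALD
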