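import Pool.Agent.ALD.GUn
import Pool.Agent.RQ4.NEx
import Pool.Agent.RQ4.UCo
import Pool.Agent.RQ4.NLat

/-!
# ALD, exists_UT, part 3: the lattice `∑ ℤ fd_k + om ∑ ℤ f_k` in `K`
-/

set_option autoImplicit false

namespace Pool.Agent.ALD

open Finset Complex ComplexConjugate Pool.Agent.RQ4

noncomputable section

variable {K : Type} [Field K] [NumberField K] {g : ℕ} (d : Dat K g)

/-- the real data of `d` -/
def gdR : GD g where
  fr := d.fr
  fdr := d.fdr
  c := d.c
  hc := d.c_pos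
  d1 := d.dual1
  d2 := d.dual2

/-- the lattice in `K` -/
def L1 : AddSubgroup K :=
  AddSubgroup.closure (Set.range d.fd ∪ Set.range fun k => d.om * d.f k)

/-- the element with coordinates `m`, `n` -/
def ek (m n : Fin g → ℤ) : K := (∑ k, m k • d.fd k) + d.om * ∑ k, n k • d.f k

theorem ek_mem (m n : Fin g → ℤ) : ek d m n ∈ L1 d := by
  unfold ek
  rw [Finset.mul_sum]
  refine AddSubgroup.add_mem _ (AddSubgroup.sum_mem _ fun k _ => ?_)
    (AddSubgroup.sum_mem _ fun k _ => ?_)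
  · exact (L1 d).zsmul_mem (AddSubgroup.subset_closure (Or.inl ⟨k, rfl⟩)) _
  · rw [mul_smul_comm]
    exact (L1 d).zsmul_mem (AddSubgroup.subset_closure (Or.inr ⟨k, rfl⟩)) _

theorem ek_add (m n m' n' : Fin g → ℤ) : ek d (m + m') (n + n') = ek d m n + ek d m' n' := by
  unfold ek
  simp only [Pi.add_apply, add_smul, Finset.sum_add_distrib]
  ring

theorem ek_neg (m n : Fin g → ℤ) : ek d (-m) (-n) = -ek d m n := by
  unfold ek
  simp only [Pi.neg_apply, neg_smul, Finset.sum_neg_distrib]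
  ring

theorem exists_ek {x : K} (hx : x ∈ L1 d) : ∃ m n : Fin g → ℤ, ek d m n = x := by
  classical
  induction hx using AddSubgroup.closure_induction with
  | mem x hx =>
    rcases hx with ⟨j, rfl⟩ | ⟨j, rfl⟩
    · refine ⟨Pi.single j 1, 0, ?_⟩
      unfold ek
      rw [Finset.sum_eq_single j]
      · simp
      · intro k _ hk
        simp [hk]
      · simp
    · refine ⟨0, Pi.single j 1, ?_⟩
      unfold ek
      simp only [Pi.zero_apply, zero_smul, Finset.sum_const_zero, zero_add]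
      congr 1
      rw [Finset.sum_eq_single j]
      · simp
      · intro k _ hk
        simp [hk]
      · simp
  | zero => exact ⟨0, 0, by simp [ek]⟩
  | add x y _ _ hx hy =>
    obtain ⟨m, n, rfl⟩ := hx
    obtain ⟨m', n', rfl⟩ := hy
    exact ⟨m + m', n + n', ek_add d m n m' n'⟩
  | neg x _ hx =>
    obtain ⟨m, n, rfl⟩ := hx
    exact ⟨-m, -n, ek_neg d m n⟩

theorem sig_ek (m n : Fin g → ℤ) (i : Fin g) : d.σ i (ek d m n) = (gdR d).lv m n i := by
  show d.σ i ((∑ k, m k • d.fd k) + d.om * ∑ k, n k • d.f k) =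
    (∑ k, (m k : ℂ) * d.fdr k i) + I / d.c i * ∑ k, (n k : ℂ) * d.fr k i
  rw [map_add, map_mul, map_sum, map_sum, d.om_sig]
  simp only [zsmul_eq_mul, map_mul, map_intCast, d.fr_sig, d.fdr_sig]

theorem L1_fg : (L1 d).FG := by
  rw [AddSubgroup.fg_iff]
  exact ⟨_, rfl, (Set.finite_range _).union (Set.finite_range _)⟩

private theorem glat_den {ι : Type} [Fintype ι] (q : ι → ℚ) :
    ∃ n : ℕ, 0 < n ∧ ∃ z : ι → ℤ, ∀ i, (n : ℚ) * q i = z i := by
  classical
  refine ⟨∏ i, (q i).den, Finset.prod_pos fun i _ => (q i).den_pos, ?_⟩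
  have h : ∀ i, ∃ z : ℤ, ((∏ i, (q i).den : ℕ) : ℚ) * q i = z := by
    intro i
    obtain ⟨k, hk⟩ := Finset.dvd_prod_of_mem (fun i => (q i).den) (Finset.mem_univ i)
    refine ⟨k * (q i).num, ?_⟩
    rw [hk]
    push_cast
    rw [mul_right_comm, Rat.den_mul_eq_num, mul_comm]
  exact ⟨fun i => (h i).choose, fun i => (h i).choose_spec⟩

theorem L1_tor (x : K) : ∃ n : ℕ, 0 < n ∧ n • x ∈ L1 d := by
  have h := congrFun (d.latK_coord ![x, 0]) 0
  set a := d.cA ![x, 0] with ha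
  set b := d.cB ![x, 0] with hb
  obtain ⟨n, hn, z, hz⟩ := glat_den (ι := Ix g ⊕ Ix g) (Sum.elim a b)
  refine ⟨n, hn, ?_⟩
  have h1 : ek d (fun k => z (Sum.inl (k, 0))) (fun k => z (Sum.inr (k, 0))) = n • x := by
    have h2 : (![x, 0] : Fin 2 → K) 0 = x := rfl
    rw [h2] at h
    rw [← h]
    unfold ek Dat.latK
    have h3 : d.sgK 0 = 1 := by simp [Dat.sgK]
    rw [h3, div_one, smul_add, Finset.smul_sum, ← mul_smul_comm, Finset.smul_sum]
    have h4 : ∀ k, (n : ℕ) • (a (k, 0) • d.fd k) = z (Sum.inl (k, 0)) • d.fd k := by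
      intro k
      have h5 := hz (Sum.inl (k, 0))
      simp only [Sum.elim_inl] at h5
      rw [← Nat.cast_smul_eq_nsmul ℚ, smul_smul, h5, Int.cast_smul_eq_zsmul]
    have h6 : ∀ k, (n : ℕ) • (b (k, 0) • d.f k) = z (Sum.inr (k, 0)) • d.f k := by
      intro k
      have h5 := hz (Sum.inr (k, 0))
      simp only [Sum.elim_inr] at h5
      rw [← Nat.cast_smul_eq_nsmul ℚ, smul_smul, h5, Int.cast_smul_eq_zsmul]
    simp only [h4, h6]
  rw [← h1]
  exact ek_mem d _ _

theorem c_alg (i : Fin g) : IsAlgebraic ℚ (d.c i) := by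
  have h1 : IsAlgebraic ℚ (d.σ i d.ξ) := by
    have h2 : IsAlgebraic ℚ d.ξ := Algebra.IsAlgebraic.isAlgebraic d.ξ
    exact h2.algHom (d.σ i).toRatAlgHom
  have h3 : IsAlgebraic ℚ ((d.c i : ℝ) : ℂ) := by
    have hI : IsAlgebraic ℚ (I : ℂ) := by
      refine ⟨Polynomial.X ^ 2 + 1, ?_, by simp⟩
      intro h
      have := congrArg (Polynomial.coeff · 0) h
      simp at this
    have h4 : ((d.c i : ℝ) : ℂ) = (2 : ℕ) * (-I * d.σ i d.ξ) := by
      rw [d.xi_sig]
      push_cast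
      have : I * I = -1 := Complex.I_mul_I
      linear_combination (d.c i : ℂ) * this
    rw [h4]
    exact (isAlgebraic_nat 2).mul (hI.neg.mul h1)
  exact (isAlgebraic_algebraMap_iff (R := ℚ) (A := ℂ) (S := ℝ)
    (algebraMap ℝ ℂ).injective).1 h3

end

end Pool.Agent.ALD
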