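import Pool.Agent.ALD.VDefs
import Pool.Agent.RQ4.TUni
import Pool.Agent.RQ4.TQp

/-!
# ALD, exists_UT, part 1: the theta function of a rank one lattice

Data: real matrices `fr`, `fdr` dual to each other and weights `c_i > 0`. Lattice vectors
`lv m n = ∑ m_k fdr_k + (i/c) ∑ n_k fr_k`, `T(u) = exp(π/2 ∑ c_i u_i²) θ(Om)(fr u)`.
-/

set_option autoImplicit false

namespace Pool.Agent.ALD

open Finset Complex ComplexConjugate Pool.Agent.RQ4

noncomputable section

/-- real data of a rank one lattice -/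
structure GD (g : ℕ) where
  fr : Fin g → Fin g → ℝ
  fdr : Fin g → Fin g → ℝ
  c : Fin g → ℝ
  hc : ∀ i, 0 < c i
  d1 : ∀ j k, ∑ i, fdr j i * fr k i = if j = k then 1 else 0
  d2 : ∀ i i', ∑ k, fdr k i * fr k i' = if i = i' then 1 else 0

namespace GD

variable {g : ℕ} (G : GD g)

/-- the period matrix -/
def Om (k l : Fin g) : ℂ := ∑ i, (G.fr k i : ℂ) * G.fr l i * (I / G.c i)

/-- the coordinates `z = fr u` -/
def zz (u : Fin g → ℂ) (k : Fin g) : ℂ := ∑ i, (G.fr k i : ℂ) * u i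

/-- the inverse of `zz` -/
def uu (z : Fin g → ℂ) (i : Fin g) : ℂ := ∑ k, (G.fdr k i : ℂ) * z k

/-- the quadratic form -/
def qq (u : Fin g → ℂ) : ℂ := ∑ i, ((Real.pi / 2 * G.c i : ℝ) : ℂ) * u i ^ 2

/-- the theta function -/
def T (u : Fin g → ℂ) : ℂ := th G.Om (G.zz u) * cexp (G.qq u)

/-- the lattice vectors -/
def lv (m n : Fin g → ℤ) (i : Fin g) : ℂ :=
  (∑ k, (m k : ℂ) * G.fdr k i) + I / G.c i * ∑ k, (n k : ℂ) * G.fr k i

/-- the multiplier -/
def chi (l : Fin g → ℂ) : ℂ := cexp (Real.pi * I *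
  ((∑ k, (∑ i, G.fr k i * (l i).re) * (∑ i, G.fdr k i * (G.c i * (l i).im)) : ℝ) : ℂ))

/-- the weights -/
def wt (i : Fin g) : ℝ := Real.pi * G.c i

private theorem gth_c (i : Fin g) : (G.c i : ℂ) ≠ 0 := by
  exact_mod_cast (G.hc i).ne'

private theorem gth_d1 (j k : Fin g) :
    ∑ i, (G.fdr j i : ℂ) * G.fr k i = if j = k then 1 else 0 := by
  have h := congrArg (fun x : ℝ => (x : ℂ)) (G.d1 j k)
  push_cast at h
  rw [h]
  split_ifs <;> simp

private theorem gth_d2 (i i' : Fin g) :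
    ∑ k, (G.fdr k i : ℂ) * G.fr k i' = if i = i' then 1 else 0 := by
  have h := congrArg (fun x : ℝ => (x : ℂ)) (G.d2 i i')
  push_cast at h
  rw [h]
  split_ifs <;> simp

theorem zz_uu (z : Fin g → ℂ) : G.zz (G.uu z) = z := by
  funext k
  unfold zz uu
  have h1 : ∀ i, (G.fr k i : ℂ) * ∑ l, (G.fdr l i : ℂ) * z l =
      ∑ l, ((G.fdr l i : ℂ) * G.fr k i) * z l := by
    intro i
    rw [Finset.mul_sum]
    exact Finset.sum_congr rfl fun l _ => by ring
  simp only [h1]
  rw [Finset.sum_comm]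
  simp only [← Finset.sum_mul, G.gth_d1]
  rw [Finset.sum_eq_single k]
  · rw [if_pos rfl, one_mul]
  · intro j _ hj
    rw [if_neg hj, zero_mul]
  · intro h
    exact absurd (Finset.mem_univ k) h

theorem uu_zz (u : Fin g → ℂ) : G.uu (G.zz u) = u := by
  funext i
  unfold zz uu
  have h1 : ∀ k, (G.fdr k i : ℂ) * ∑ j, (G.fr k j : ℂ) * u j =
      ∑ j, ((G.fdr k i : ℂ) * G.fr k j) * u j := by
    intro k
    rw [Finset.mul_sum]
    exact Finset.sum_congr rfl fun l _ => by ring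
  simp only [h1]
  rw [Finset.sum_comm]
  simp only [← Finset.sum_mul, G.gth_d2]
  rw [Finset.sum_eq_single i]
  · rw [if_pos rfl, one_mul]
  · intro j _ hj
    rw [if_neg (Ne.symm hj), zero_mul]
  · intro h
    exact absurd (Finset.mem_univ i) h

theorem zz_add (u v : Fin g → ℂ) : G.zz (u + v) = G.zz u + G.zz v := by
  funext k
  unfold zz
  rw [Pi.add_apply, ← Finset.sum_add_distrib]
  exact Finset.sum_congr rfl fun i _ => by rw [Pi.add_apply, mul_add]

theorem uu_add (u v : Fin g → ℂ) : G.uu (u + v) = G.uu u + G.uu v := by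
  funext k
  unfold uu
  rw [Pi.add_apply, ← Finset.sum_add_distrib]
  exact Finset.sum_congr rfl fun i _ => by rw [Pi.add_apply, mul_add]

theorem zz_lv (m n : Fin g → ℤ) (k : Fin g) : G.zz (G.lv m n) k = m k + ∑ l, G.Om k l * n l := by
  unfold zz lv Om
  have h1 : ∀ i, (G.fr k i : ℂ) * ((∑ l, (m l : ℂ) * G.fdr l i) +
      I / G.c i * ∑ l, (n l : ℂ) * G.fr l i) =
      (∑ l, (m l : ℂ) * ((G.fdr l i : ℂ) * G.fr k i)) +
        ∑ l, ((G.fr k i : ℂ) * G.fr l i * (I / G.c i)) * n l := by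
    intro i
    rw [mul_add, Finset.mul_sum, Finset.mul_sum, Finset.mul_sum]
    congr 1
    · exact Finset.sum_congr rfl fun l _ => by ring
    · exact Finset.sum_congr rfl fun l _ => by ring
  simp only [h1]
  rw [Finset.sum_add_distrib, Finset.sum_comm]
  simp only [← Finset.mul_sum, G.gth_d1]
  rw [Finset.sum_eq_single k]
  · rw [if_pos rfl, mul_one]
    congr 1
    rw [Finset.sum_comm]
    simp only [← Finset.sum_mul]
  · intro j _ hj
    rw [if_neg hj, mul_zero]
  · intro h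
    exact absurd (Finset.mem_univ k) h

theorem lv_re (m n : Fin g → ℤ) (i : Fin g) : (G.lv m n i).re = ∑ k, (m k : ℝ) * G.fdr k i := by
  have e : G.lv m n i = ((∑ k, (m k : ℝ) * G.fdr k i : ℝ) : ℂ) +
      (((∑ k, (n k : ℝ) * G.fr k i) / G.c i : ℝ) : ℂ) * I := by
    unfold lv
    push_cast
    ring
  rw [e, Complex.add_re, Complex.ofReal_re, Complex.re_ofReal_mul, Complex.I_re, mul_zero,
    add_zero]

theorem lv_im (m n : Fin g → ℤ) (i : Fin g) :
    (G.lv m n i).im = (∑ k, (n k : ℝ) * G.fr k i) / G.c i := by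
  have e : G.lv m n i = ((∑ k, (m k : ℝ) * G.fdr k i : ℝ) : ℂ) +
      (((∑ k, (n k : ℝ) * G.fr k i) / G.c i : ℝ) : ℂ) * I := by
    unfold lv
    push_cast
    ring
  rw [e, Complex.add_im, Complex.ofReal_im, Complex.im_ofReal_mul, Complex.I_im, mul_one,
    zero_add]

theorem chi_lv (m n : Fin g → ℤ) : G.chi (G.lv m n) = cexp (Real.pi * I * ((∑ k, m k * n k : ℤ) : ℂ)) := by
  unfold chi
  have h1 : ∀ k, ∑ i, G.fr k i * (G.lv m n i).re = m k := by
    intro k
    have h2 : ∀ i, G.fr k i * (G.lv m n i).re = ∑ l, (m l : ℝ) * (G.fdr l i * G.fr k i) := by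
      intro i
      rw [G.lv_re, Finset.mul_sum]
      exact Finset.sum_congr rfl fun l _ => by ring
    simp only [h2]
    rw [Finset.sum_comm]
    simp only [← Finset.mul_sum, G.d1]
    rw [Finset.sum_eq_single k]
    · rw [if_pos rfl, mul_one]
    · intro j _ hj
      rw [if_neg hj, mul_zero]
    · intro h
      exact absurd (Finset.mem_univ k) h
  have h3 : ∀ k, ∑ i, G.fdr k i * (G.c i * (G.lv m n i).im) = n k := by
    intro k
    have h2 : ∀ i, G.fdr k i * (G.c i * (G.lv m n i).im) =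
        ∑ l, (n l : ℝ) * (G.fdr k i * G.fr l i) := by
      intro i
      rw [G.lv_im, mul_div_cancel₀ _ (G.hc i).ne', Finset.mul_sum]
      exact Finset.sum_congr rfl fun l _ => by ring
    simp only [h2]
    rw [Finset.sum_comm]
    simp only [← Finset.mul_sum, G.d1]
    rw [Finset.sum_eq_single k]
    · rw [if_pos rfl, mul_one]
    · intro j _ hj
      rw [if_neg (Ne.symm hj), mul_zero]
    · intro h
      exact absurd (Finset.mem_univ k) h
  simp only [h1, h3]
  push_cast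
  rfl

theorem chi_pm (m n : Fin g → ℤ) : G.chi (G.lv m n) = 1 ∨ G.chi (G.lv m n) = -1 := by
  rw [G.chi_lv]
  rcases Int.even_or_odd (∑ k, m k * n k) with h | h
  · left
    obtain ⟨r, hr⟩ := h
    rw [hr, Complex.exp_eq_one_iff]
    exact ⟨r, by push_cast; ring⟩
  · right
    obtain ⟨r, hr⟩ := h
    rw [hr]
    have : (Real.pi * I * ((2 * r + 1 : ℤ) : ℂ) : ℂ) = r * (2 * Real.pi * I) + Real.pi * I := by
      push_cast
      ring
    rw [this, Complex.exp_add, Complex.exp_pi_mul_I, Complex.exp_int_mul_two_pi_mul_I, one_mul]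

/-- pairing -/
private theorem gth_pair (n : Fin g → ℤ) (v : Fin g → ℂ) :
    ∑ i, (∑ k, (n k : ℂ) * G.fr k i) * v i = ∑ k, (n k : ℂ) * G.zz v k := by
  unfold zz
  simp only [Finset.sum_mul, Finset.mul_sum]
  rw [Finset.sum_comm]
  exact Finset.sum_congr rfl fun k _ => Finset.sum_congr rfl fun i _ => by ring

private theorem gth_conj (m n : Fin g → ℤ) (i : Fin g) : G.lv m n i - conj (G.lv m n i) =
    2 * I / G.c i * ∑ k, (n k : ℂ) * G.fr k i := by
  have h := G.gth_c i
  apply Complex.ext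
  · have e : (2 * I / G.c i * ∑ k, (n k : ℂ) * G.fr k i : ℂ) =
        ((2 * (∑ k, (n k : ℝ) * G.fr k i) / G.c i : ℝ) : ℂ) * I := by
      push_cast
      ring
    rw [e, Complex.sub_re, Complex.conj_re, Complex.re_ofReal_mul, Complex.I_re, mul_zero, sub_self]
  · have e : (2 * I / G.c i * ∑ k, (n k : ℂ) * G.fr k i : ℂ) =
        ((2 * (∑ k, (n k : ℝ) * G.fr k i) / G.c i : ℝ) : ℂ) * I := by
      push_cast
      ring
    rw [e, Complex.sub_im, Complex.conj_im, Complex.im_ofReal_mul, Complex.I_im, mul_one, G.lv_im]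
    ring

/-- the change of the quadratic form -/
theorem qq_add (u : Fin g → ℂ) (m n : Fin g → ℤ) : G.qq (u + G.lv m n) =
    G.qq u + me G.wt u (G.lv m n) +
      (2 * Real.pi * I * (∑ k, (n k : ℂ) * G.zz u k) +
        Real.pi * I * ∑ k, (n k : ℂ) * G.zz (G.lv m n) k) := by
  rw [← G.gth_pair n u, ← G.gth_pair n (G.lv m n)]
  unfold qq me wt
  rw [Finset.mul_sum, Finset.mul_sum, ← Finset.sum_add_distrib, ← Finset.sum_add_distrib,
    ← Finset.sum_add_distrib]
  refine Finset.sum_congr rfl fun i _ => ?_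
  have h := G.gth_c i
  have hs := G.gth_conj m n i
  set l := G.lv m n i with hl
  set s := ∑ k, (n k : ℂ) * G.fr k i with hsd
  have hn : (((‖l‖ ^ 2 / 2 : ℝ)) : ℂ) = l * conj l / 2 := by
    rw [Complex.mul_conj, Complex.normSq_eq_norm_sq]
    push_cast
    ring
  have hs2 : (G.c i : ℂ) * (l - conj l) = 2 * I * s := by
    rw [hs]
    field_simp
  rw [Pi.add_apply, ← hl, hn]
  push_cast
  linear_combination ((Real.pi : ℂ) * u i + (Real.pi : ℂ) / 2 * l) * hs2

theorem T_qp (u : Fin g → ℂ) (m n : Fin g → ℤ) : G.T (u + G.lv m n) =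
    G.chi (G.lv m n) * cexp (me G.wt u (G.lv m n)) * G.T u := by
  have hsym : ∀ p q, G.Om p q = G.Om q p := by
    intro p q
    unfold Om
    exact Finset.sum_congr rfl fun i _ => by ring
  have h1 : G.zz (u + G.lv m n) = fun p => (G.zz u p + m p) + ∑ q, G.Om p q * n q := by
    funext p
    rw [G.zz_add, Pi.add_apply, G.zz_lv]
    ring
  unfold T
  rw [h1, th_add_Om G.Om hsym (fun p => G.zz u p + m p) n, th_add_int, G.qq_add, G.chi_lv]
  have h2 : ∑ p, (n p : ℂ) * (G.zz u p + m p) =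
      (∑ p, (n p : ℂ) * G.zz u p) + ∑ k, (m k : ℂ) * n k := by
    rw [← Finset.sum_add_distrib]
    exact Finset.sum_congr rfl fun k _ => by ring
  have h3 : ∑ k, (n k : ℂ) * G.zz (G.lv m n) k =
      (∑ k, (m k : ℂ) * n k) + ∑ p, ∑ q, (n p : ℂ) * G.Om p q * n q := by
    rw [← Finset.sum_add_distrib]
    refine Finset.sum_congr rfl fun k _ => ?_
    rw [G.zz_lv, mul_add, Finset.mul_sum]
    congr 1
    · ring
    · exact Finset.sum_congr rfl fun l _ => by ring
  rw [h2, h3]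
  have key : cexp (-(Real.pi * I * (∑ p, ∑ q, (n p : ℂ) * G.Om p q * n q) +
        2 * Real.pi * I * ((∑ p, (n p : ℂ) * G.zz u p) + ∑ k, (m k : ℂ) * n k))) *
      cexp (G.qq u + me G.wt u (G.lv m n) + (2 * Real.pi * I * (∑ k, (n k : ℂ) * G.zz u k) +
        Real.pi * I * ((∑ k, (m k : ℂ) * n k) + ∑ p, ∑ q, (n p : ℂ) * G.Om p q * n q))) =
      cexp (Real.pi * I * ((∑ k, m k * n k : ℤ) : ℂ)) * cexp (me G.wt u (G.lv m n)) *
        cexp (G.qq u) := by
    rw [← Complex.exp_add, ← Complex.exp_add, ← Complex.exp_add]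
    apply Complex.exp_eq_exp_iff_exists_int.2
    refine ⟨-(∑ k, m k * n k), ?_⟩
    push_cast
    ring
  linear_combination (th G.Om (G.zz u)) * key

end GD

end

end Pool.Agent.ALD
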