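import Pool.Agent.ALD.GTh

/-!
# ALD, exists_UT, part 2: positivity, parity, value at `0`, uniqueness
-/

set_option autoImplicit false

namespace Pool.Agent.ALD

open Finset Complex ComplexConjugate Pool.Agent.RQ4

noncomputable section

namespace GD

variable {g : ℕ} (G : GD g)

theorem Om_symm (p q : Fin g) : G.Om p q = G.Om q p := by
  unfold Om
  exact Finset.sum_congr rfl fun i _ => by ring

private theorem gun_ofReal (k l : Fin g) :
    G.Om k l = ((∑ i, G.fr k i * G.fr l i / G.c i : ℝ) : ℂ) * I := by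
  unfold Om
  push_cast
  rw [Finset.sum_mul]
  exact Finset.sum_congr rfl fun i _ => by ring

theorem Om_re (k l : Fin g) : (G.Om k l).re = 0 := by
  rw [G.gun_ofReal, Complex.re_ofReal_mul, Complex.I_re, mul_zero]

theorem Om_im (k l : Fin g) : (G.Om k l).im = ∑ i, G.fr k i * G.fr l i / G.c i := by
  rw [G.gun_ofReal, Complex.im_ofReal_mul, Complex.I_im, mul_one]

private theorem gun_quad (x : Fin g → ℝ) : ∑ k, ∑ l, x k * (G.Om k l).im * x l =
    ∑ i, (∑ k, x k * G.fr k i) ^ 2 / G.c i := by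
  have h1 : ∀ i, (∑ k, x k * G.fr k i) ^ 2 / G.c i =
      ∑ k, ∑ l, x k * (G.fr k i * G.fr l i / G.c i) * x l := by
    intro i
    rw [sq, Finset.sum_mul_sum, Finset.sum_div]
    refine Finset.sum_congr rfl fun k _ => ?_
    rw [Finset.sum_div]
    exact Finset.sum_congr rfl fun l _ => by ring
  have h2 : ∑ i, ∑ k, ∑ l, x k * (G.fr k i * G.fr l i / G.c i) * x l =
      ∑ k, ∑ l, ∑ i, x k * (G.fr k i * G.fr l i / G.c i) * x l := by
    rw [Finset.sum_comm]
    exact Finset.sum_congr rfl fun k _ => Finset.sum_comm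
  simp only [h1]
  rw [h2]
  refine Finset.sum_congr rfl fun k _ => Finset.sum_congr rfl fun l _ => ?_
  rw [G.Om_im, Finset.mul_sum, Finset.sum_mul]

private theorem gun_rec (x : Fin g → ℝ) (k : Fin g) :
    x k = ∑ i, G.fdr k i * ∑ l, x l * G.fr l i := by
  have h1 : ∀ i, G.fdr k i * ∑ l, x l * G.fr l i = ∑ l, x l * (G.fdr k i * G.fr l i) := by
    intro i
    rw [Finset.mul_sum]
    exact Finset.sum_congr rfl fun l _ => by ring
  simp only [h1]
  rw [Finset.sum_comm]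
  simp only [← Finset.mul_sum, G.d1]
  rw [Finset.sum_eq_single k]
  · rw [if_pos rfl, mul_one]
  · intro j _ hj
    rw [if_neg (Ne.symm hj), mul_zero]
  · intro h
    exact absurd (Finset.mem_univ k) h

theorem Om_pos : ∃ δ > 0, Pos G.Om δ := by
  -- `M` bounds `c_i ∑_k ∑_j fdr_kj²`
  set M : ℝ := 1 + ∑ i, ∑ k, ∑ j, G.c i * G.fdr k j ^ 2 with hM
  have hM0 : ∀ i, 0 ≤ ∑ k, ∑ j, G.c i * G.fdr k j ^ 2 := fun i =>
    Finset.sum_nonneg fun k _ => Finset.sum_nonneg fun j _ =>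
      mul_nonneg (G.hc i).le (sq_nonneg _)
  have hMp : 0 < M := by
    have := Finset.sum_nonneg fun i (_ : i ∈ (Finset.univ : Finset (Fin g))) => hM0 i
    rw [hM]
    linarith
  refine ⟨1 / M, by positivity, fun x => ?_⟩
  rw [G.gun_quad]
  set y : Fin g → ℝ := fun i => ∑ k, x k * G.fr k i with hy
  have h1 : ∀ k, x k ^ 2 ≤ (∑ j, G.fdr k j ^ 2) * ∑ i, y i ^ 2 := by
    intro k
    have h2 := G.gun_rec x k
    rw [h2]
    exact Finset.sum_mul_sq_le_sq_mul_sq _ _ _
  have h3 : ∀ i, (∑ k, ∑ j, G.fdr k j ^ 2) * y i ^ 2 ≤ M * (y i ^ 2 / G.c i) := by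
    intro i
    have h4 : G.c i * ∑ k, ∑ j, G.fdr k j ^ 2 ≤ M := by
      have h5 := Finset.single_le_sum (f := fun i => ∑ k, ∑ j, G.c i * G.fdr k j ^ 2)
        (fun i _ => hM0 i) (Finset.mem_univ i)
      have h6 : G.c i * ∑ k, ∑ j, G.fdr k j ^ 2 = ∑ k, ∑ j, G.c i * G.fdr k j ^ 2 := by
        rw [Finset.mul_sum]
        exact Finset.sum_congr rfl fun k _ => by rw [Finset.mul_sum]
      rw [h6, hM]
      have h7 : ∑ k, ∑ j, G.c i * G.fdr k j ^ 2 ≤ ∑ i, ∑ k, ∑ j, G.c i * G.fdr k j ^ 2 := h5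
      linarith
    have h8 : (∑ k, ∑ j, G.fdr k j ^ 2) * y i ^ 2 =
        (G.c i * ∑ k, ∑ j, G.fdr k j ^ 2) * (y i ^ 2 / G.c i) := by
      have := (G.hc i).ne'
      field_simp
    rw [h8]
    exact mul_le_mul_of_nonneg_right h4 (div_nonneg (sq_nonneg _) (G.hc i).le)
  have h9 : ∑ k, x k ^ 2 ≤ M * ∑ i, y i ^ 2 / G.c i := by
    calc ∑ k, x k ^ 2 ≤ ∑ k, (∑ j, G.fdr k j ^ 2) * ∑ i, y i ^ 2 :=
          Finset.sum_le_sum fun k _ => h1 k
      _ = ∑ i, (∑ k, ∑ j, G.fdr k j ^ 2) * y i ^ 2 := by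
          rw [← Finset.sum_mul, Finset.mul_sum]
      _ ≤ ∑ i, M * (y i ^ 2 / G.c i) := Finset.sum_le_sum fun i _ => h3 i
      _ = M * ∑ i, y i ^ 2 / G.c i := by rw [Finset.mul_sum]
  rw [one_div, inv_mul_le_iff₀ hMp]
  exact h9

theorem zz_diff : Differentiable ℂ G.zz := by
  rw [differentiable_pi]
  intro k
  unfold zz
  exact Differentiable.fun_sum fun i _ => (differentiable_apply i).const_mul _

theorem uu_diff : Differentiable ℂ G.uu := by
  rw [differentiable_pi]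
  intro k
  unfold uu
  exact Differentiable.fun_sum fun i _ => (differentiable_apply i).const_mul _

theorem qq_diff : Differentiable ℂ G.qq := by
  unfold qq
  exact Differentiable.fun_sum fun i _ => ((differentiable_apply i).pow 2).const_mul _

theorem T_diff : Differentiable ℂ G.T := by
  obtain ⟨δ, hδ, hp⟩ := G.Om_pos
  exact ((th_diff hδ hp).comp G.zz_diff).mul G.qq_diff.cexp

theorem T_even (u : Fin g → ℂ) : G.T (-u) = G.T u := by
  have h1 : G.zz (-u) = fun p => -G.zz u p := by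
    funext p
    unfold zz
    rw [← Finset.sum_neg_distrib]
    exact Finset.sum_congr rfl fun i _ => by rw [Pi.neg_apply, mul_neg]
  have h2 : G.qq (-u) = G.qq u := by
    unfold qq
    exact Finset.sum_congr rfl fun i _ => by rw [Pi.neg_apply, neg_sq]
  unfold T
  rw [h1, h2, th_neg]

theorem T_zero : G.T 0 ≠ 0 := by
  obtain ⟨δ, hδ, hp⟩ := G.Om_pos
  have h1 : G.zz 0 = 0 := by
    funext p
    unfold zz
    simp
  unfold T
  rw [h1]
  exact mul_ne_zero (th_zero_ne hδ hp G.Om_re) (Complex.exp_ne_zero _)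

theorem T_unique {f : (Fin g → ℂ) → ℂ} (hf : Differentiable ℂ f)
    (h : ∀ (m n : Fin g → ℤ) (u : Fin g → ℂ), f (u + G.lv m n) =
      G.chi (G.lv m n) * cexp (me G.wt u (G.lv m n)) * f u) : ∃ k : ℂ, ∀ u, f u = k * G.T u := by
  obtain ⟨δ, hδ, hp⟩ := G.Om_pos
  have hu : ∀ m n : Fin g → ℤ, G.uu (fun k => m k + ∑ l, G.Om k l * n l) = G.lv m n := by
    intro m n
    rw [← G.uu_zz (G.lv m n)]
    congr 1
    funext k
    rw [G.zz_lv]
  have hF : ∀ (m n : Fin g → ℤ) (z : Fin g → ℂ),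
      f (G.uu (fun k => z k + (m k + ∑ l, G.Om k l * n l))) *
        cexp (-(G.qq (G.uu (fun k => z k + (m k + ∑ l, G.Om k l * n l))))) =
      cexp (Real.pi * I * ((∑ k, m k * n k : ℤ) : ℂ) - (2 * Real.pi * I * (∑ k, (n k : ℂ) * z k) +
        Real.pi * I * ∑ k, (n k : ℂ) * G.zz (G.lv m n) k)) * (f (G.uu z) * cexp (-(G.qq (G.uu z)))) := by
    intro m n z
    have h1 : G.uu (fun k => z k + (m k + ∑ l, G.Om k l * n l)) = G.uu z + G.lv m n := by
      rw [← hu, ← G.uu_add]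
      rfl
    rw [h1, h, G.qq_add, G.zz_uu, G.chi_lv]
    have key : cexp (Real.pi * I * ((∑ k, m k * n k : ℤ) : ℂ)) *
        cexp (me G.wt (G.uu z) (G.lv m n)) *
        cexp (-(G.qq (G.uu z) + me G.wt (G.uu z) (G.lv m n) +
          (2 * Real.pi * I * (∑ k, (n k : ℂ) * z k) +
            Real.pi * I * ∑ k, (n k : ℂ) * G.zz (G.lv m n) k))) =
        cexp (Real.pi * I * ((∑ k, m k * n k : ℤ) : ℂ) -
          (2 * Real.pi * I * (∑ k, (n k : ℂ) * z k) +
            Real.pi * I * ∑ k, (n k : ℂ) * G.zz (G.lv m n) k)) * cexp (-(G.qq (G.uu z))) := by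
      rw [← Complex.exp_add, ← Complex.exp_add, ← Complex.exp_add]
      congr 1
      ring
    linear_combination (f (G.uu z)) * key
  have hA : ∀ (z : Fin g → ℂ) (n : Fin g → ℤ),
      f (G.uu (fun p => z p + n p)) * cexp (-(G.qq (G.uu (fun p => z p + n p)))) =
        f (G.uu z) * cexp (-(G.qq (G.uu z))) := by
    intro z n
    have h1 := hF n 0 z
    simp only [Pi.zero_apply, Int.cast_zero, mul_zero, Finset.sum_const_zero, add_zero, zero_mul,
      sub_zero, Complex.exp_zero, one_mul] at h1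
    exact h1
  have hB : ∀ (z : Fin g → ℂ) (p : Fin g),
      f (G.uu (fun q => z q + G.Om q p)) * cexp (-(G.qq (G.uu (fun q => z q + G.Om q p)))) =
        cexp (-(Real.pi * I * G.Om p p + 2 * Real.pi * I * z p)) *
          (f (G.uu z) * cexp (-(G.qq (G.uu z)))) := by
    intro z p
    have h1 := hF 0 (Pi.single p 1) z
    have h2 : ∀ v : Fin g → ℂ, ∑ k, (((Pi.single p 1 : Fin g → ℤ) k : ℤ) : ℂ) * v k = v p := by
      intro v
      rw [Finset.sum_eq_single p]
      · simp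
      · intro j _ hj
        simp [hj]
      · intro h
        exact absurd (Finset.mem_univ p) h
    have h3 : ∀ k, ∑ l, G.Om k l * (((Pi.single p 1 : Fin g → ℤ) l : ℤ) : ℂ) = G.Om k p := by
      intro k
      rw [← h2 (fun l => G.Om k l)]
      exact Finset.sum_congr rfl fun l _ => mul_comm _ _
    rw [h2, h2, G.zz_lv] at h1
    simp only [h3, Pi.zero_apply, Int.cast_zero, zero_add, zero_mul, Finset.sum_const_zero,
      mul_zero, zero_sub] at h1
    rw [h1]
    congr 2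
    ring
  obtain ⟨k, hk⟩ := th_unique G.Om_symm hδ hp
    (f := fun z => f (G.uu z) * cexp (-(G.qq (G.uu z))))
    ((hf.comp G.uu_diff).mul (G.qq_diff.comp G.uu_diff).neg.cexp) hA hB
  refine ⟨k, fun u => ?_⟩
  have h1 := hk (G.zz u)
  simp only [G.uu_zz] at h1
  unfold T
  rw [← mul_assoc, ← h1, mul_assoc, ← Complex.exp_add, neg_add_cancel, Complex.exp_zero, mul_one]

end GD

end

end Pool.Agent.ALD
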