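import Pool.Agent.ALD.KTr
import Pool.Agent.ALD.KDer

/-!
# ALD block B3: the context of Theorem T

`Ctx δ Λ a χ c T`: `T ∈ V_a(χ)` even, `T(0) ≠ 0`, `V_a(χ) = ℂ T` (unimodular), `δ`-derivatives exist (block B1),
second differences vanish (block B2), finite rank of `T(x+y) T(x-y)`.
-/

set_option autoImplicit false
set_option linter.unusedSectionVars false

namespace Pool.Agent.ALD

open Finset Complex ComplexConjugate

noncomputable section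

variable {ι : Type} [Fintype ι] [DecidableEq ι]

/-- level two -/
def a2 (a : ι → ℝ) : ι → ℝ := fun i => ((2 : ℕ) : ℝ) * a i

/-- the finite rank decomposition of `T(x+y) T(x-y)` -/
structure Fr (Λ : AddSubgroup (ι → ℂ)) (a : ι → ℝ) (χ : (ι → ℂ) → ℂ) (T : (ι → ℂ) → ℂ) where
  r : ℕ
  A : Fin r → (ι → ℂ) → ℂ
  B : Fin r → (ι → ℂ) → ℂ
  linA : LinearIndependent ℂ A
  linB : LinearIndependent ℂ B
  hA : ∀ j, Vf Λ (a2 a) (fun l => χ l * χ l) (A j)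
  hB : ∀ j, Vf Λ (a2 a) (fun l => χ l * χ (-l)) (B j)
  eq : ∀ x y, T (x + y) * T (x - y) = ∑ j, A j x * B j y

/-- the context of Theorem T -/
structure Ctx (δ : Derivation ℚ ℂ ℂ) (Λ : AddSubgroup (ι → ℂ)) (a : ι → ℝ) (χ : (ι → ℂ) → ℂ)
    (c : ι → ℂ) (T : (ι → ℂ) → ℂ) where
  fr : Fr Λ a χ T
  hT : Vf Λ a χ T
  ev : ∀ z, T (-z) = T z
  ne : T 0 ≠ 0
  uni : ∀ f, Vf Λ a χ f → ∃ k : ℂ, ∀ z, f z = k * T z
  chi : ∀ l ∈ Λ, χ l ≠ 0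
  alg : ∀ l ∈ Λ, IsAlgebraic ℚ (χ l)
  der : ∀ (m : ℕ) (χ' : (ι → ℂ) → ℂ) (f : (ι → ℂ) → ℂ), 0 < m → (∀ l ∈ Λ, χ' l ≠ 0) →
    Vf Λ (fun i => m * a i) χ' f → ∃ u, CMT.IsDer δ f u
  sd : SDz δ Λ a c

/-- `f^δ - E_c f` for the translate `T_ρ`: `v` is the defect of `T_ρ` -/
def Def1 (δ : Derivation ℚ ℂ ℂ) (c : ι → ℂ) (f v : (ι → ℂ) → ℂ) : Prop :=
  ∃ u, CMT.IsDer δ f u ∧ ∀ z, v z = u z - Ec c f z

end

end Pool.Agent.ALD
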