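import Pool.Agent.ALD.KUni

/-!
# ALD block B3, KKap: `κ_(r+r') + κ_(r-r')` depends only on `r`

(apply `dif (a2 a) χ1 l` in `x` to `two_v` and compare the coefficients of the `B_j(y)`)
-/

set_option autoImplicit false
set_option linter.unusedSectionVars false

namespace Pool.Agent.ALD

open Finset Complex ComplexConjugate

noncomputable section

variable {ι : Type} [Fintype ι] [DecidableEq ι] {δ : Derivation ℚ ℂ ℂ} {Λ : AddSubgroup (ι → ℂ)}
  {a : ι → ℝ} {χ : (ι → ℂ) → ℂ} {c : ι → ℂ} {T : (ι → ℂ) → ℂ}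

private theorem kk_me (a : ι → ℝ) (x y l : ι → ℂ) :
    me a (x + y) l + me a (x - y) l = me (a2 a) x l := by
  have e1 : me (a2 a) x l = 2 * me a x l := by
    have := me_lev 2 a x l
    unfold a2
    rw [this]
    norm_num
  rw [e1, sub_eq_add_neg x y, me_eq, me_eq, me_eq, aa_add_left, aa_add_left, aa_neg_left]
  ring

private theorem kk_chr (a : ι → ℝ) (χ : (ι → ℂ) → ℂ) (r r' l : ι → ℂ) :
    chr a χ (r + r') l * chr a χ (r - r') l = chr (a2 a) (fun l => χ l * χ l) r l := by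
  have e1 : ∀ z u : ι → ℂ, aa (a2 a) z u = 2 * aa a z u := by
    intro z u
    have := aa_lev 2 a z u
    unfold a2
    rw [this]
    norm_num
  have e2 : cexp (aa a (r + r') l - aa a l (r + r')) * cexp (aa a (r - r') l - aa a l (r - r')) =
      cexp (aa (a2 a) r l - aa (a2 a) l r) := by
    rw [← Complex.exp_add, e1, e1, sub_eq_add_neg r r', aa_add_left, aa_add_left, aa_add_right,
      aa_add_right, aa_neg_left, aa_neg_right]
    congr 1
    ring
  unfold chr
  rw [← e2]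
  ring

/-- the value at `z + l` from the value of `dif` -/
private theorem kk_shift {a : ι → ℝ} {χ' : (ι → ℂ) → ℂ} {l : ι → ℂ} (h0 : χ' l ≠ 0)
    (f : (ι → ℂ) → ℂ) (z : ι → ℂ) (k : ℂ) (h : dif a χ' l f z = k) :
    f (z + l) = χ' l * cexp (me a z l) * (f z + k) := by
  unfold dif tr at h
  have h1 : f z + k = (χ' l)⁻¹ * (cexp (-(me a z l)) * f (z + l)) := by
    rw [← h]
    ring
  rw [h1]
  have h2 : cexp (me a z l) * cexp (-(me a z l)) = 1 := by
    rw [← Complex.exp_add, add_neg_cancel, Complex.exp_zero]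
  have h3 : χ' l * (χ' l)⁻¹ = 1 := mul_inv_cancel₀ h0
  calc f (z + l) = (χ' l * (χ' l)⁻¹) * (cexp (me a z l) * cexp (-(me a z l))) * f (z + l) := by
        rw [h2, h3]; ring
    _ = _ := by ring

private theorem kk_key (C : Ctx δ Λ a χ c T) {κ : (ι → ℂ) → (ι → ℂ) → ℂ}
    (hκ : ∀ (ρ : ι → ℂ) (v : (ι → ℂ) → ℂ), Def1 δ c (tr a ρ T) v → ∀ l ∈ Λ, ∀ z,
      dif a (chr a χ ρ) l v z = κ ρ l * tr a ρ T z) {l : ι → ℂ} (hl : l ∈ Λ) (r r' : ι → ℂ)
    {A' : Fin C.fr.r → (ι → ℂ) → ℂ} (hA : ∀ j, Def1 δ c (tr (a2 a) r (C.fr.A j)) (A' j))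
    (j : Fin C.fr.r) (x : ι → ℂ) :
    dif (a2 a) (chr (a2 a) (fun l => χ l * χ l) r) l (A' j) x =
      (κ (r + r') l + κ (r - r') l) * tr (a2 a) r (C.fr.A j) x := by
  obtain ⟨v, hv⟩ := exists_def C (r + r')
  obtain ⟨w, hw⟩ := exists_def C (r - r')
  choose B' hB using exists_defB C r'
  have hχl : χ l ≠ 0 := C.chi l hl
  have hχ1 : chr (a2 a) (fun l => χ l * χ l) r l ≠ 0 := chr_ne (mul_ne_zero hχl hχl)
  -- the identity for the differences
  have main : ∀ y : ι → ℂ, ∑ j, (dif (a2 a) (chr (a2 a) (fun l => χ l * χ l) r) l (A' j) x -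
      (κ (r + r') l + κ (r - r') l) * tr (a2 a) r (C.fr.A j) x) * tr (a2 a) r' (C.fr.B j) y = 0 := by
    intro y
    have t1 := two_v C r r' hv hw hA hB x y
    have t2 := two_v C r r' hv hw hA hB (x + l) y
    have t3 := add_tr C.fr r r' x y
    have sv := kk_shift (χ' := chr a χ (r + r')) (chr_ne hχl) v (x + y) _ (hκ _ v hv l hl (x + y))
    have sw := kk_shift (χ' := chr a χ (r - r')) (chr_ne hχl) w (x - y) _ (hκ _ w hw l hl (x - y))
    have sT1 := (tr_vf C.hT (r + r')).2 l hl (x + y)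
    have sT2 := (tr_vf C.hT (r - r')).2 l hl (x - y)
    have sA : ∀ j, tr (a2 a) r (C.fr.A j) (x + l) =
        chr (a2 a) (fun l => χ l * χ l) r l * cexp (me (a2 a) x l) * tr (a2 a) r (C.fr.A j) x :=
      fun j => (tr_vf (C.fr.hA j) r).2 l hl x
    have sA' : ∀ j, A' j (x + l) = chr (a2 a) (fun l => χ l * χ l) r l * cexp (me (a2 a) x l) *
        (A' j x + dif (a2 a) (chr (a2 a) (fun l => χ l * χ l) r) l (A' j) x) :=
      fun j => kk_shift hχ1 (A' j) x _ rfl
    have e1 : x + l + y = x + y + l := by abel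
    have e2 : x + l - y = x - y + l := by abel
    rw [e1, e2, sv, sw, sT1, sT2] at t2
    have hE : cexp (me a (x + y) l) * cexp (me a (x - y) l) = cexp (me (a2 a) x l) := by
      rw [← Complex.exp_add, kk_me]
    have hc := kk_chr a χ r r' l
    obtain ⟨P, hP⟩ : ∃ P : ℂ, P = chr (a2 a) (fun l => χ l * χ l) r l * cexp (me (a2 a) x l) :=
      ⟨_, rfl⟩
    have hP0 : P ≠ 0 := by
      rw [hP]
      exact mul_ne_zero hχ1 (Complex.exp_ne_zero _)
    have hP' : chr a χ (r + r') l * cexp (me a (x + y) l) *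
        (chr a χ (r - r') l * cexp (me a (x - y) l)) = P := by
      rw [hP, ← hc, ← hE]
      ring
    rw [← hP] at sA sA'
    have t4 : P * ((v (x + y) * tr a (r - r') T (x - y) + tr a (r + r') T (x + y) * w (x - y)) +
        (κ (r + r') l + κ (r - r') l) * (tr a (r + r') T (x + y) * tr a (r - r') T (x - y))) =
        P * ((∑ j, (A' j x * tr (a2 a) r' (C.fr.B j) y + tr (a2 a) r (C.fr.A j) x * B' j y)) +
        ∑ j, dif (a2 a) (chr (a2 a) (fun l => χ l * χ l) r) l (A' j) x *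
          tr (a2 a) r' (C.fr.B j) y) := by
      rw [← Finset.sum_add_distrib, Finset.mul_sum]
      have t5 : ∑ j, (A' j (x + l) * tr (a2 a) r' (C.fr.B j) y +
          tr (a2 a) r (C.fr.A j) (x + l) * B' j y) =
          ∑ j, P * (A' j x * tr (a2 a) r' (C.fr.B j) y + tr (a2 a) r (C.fr.A j) x * B' j y +
            dif (a2 a) (chr (a2 a) (fun l => χ l * χ l) r) l (A' j) x *
              tr (a2 a) r' (C.fr.B j) y) := by
        refine Finset.sum_congr rfl fun j _ => ?_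
        rw [sA, sA']
        ring
      rw [← t5, ← t2, ← hP']
      ring
    have t6 := mul_left_cancel₀ hP0 t4
    rw [t1, t3] at t6
    have t7 := add_left_cancel t6
    have t8 : ∑ j, (dif (a2 a) (chr (a2 a) (fun l => χ l * χ l) r) l (A' j) x -
        (κ (r + r') l + κ (r - r') l) * tr (a2 a) r (C.fr.A j) x) * tr (a2 a) r' (C.fr.B j) y =
        (∑ j, dif (a2 a) (chr (a2 a) (fun l => χ l * χ l) r) l (A' j) x *
          tr (a2 a) r' (C.fr.B j) y) - (κ (r + r') l + κ (r - r') l) *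
          ∑ j, tr (a2 a) r (C.fr.A j) x * tr (a2 a) r' (C.fr.B j) y := by
      rw [Finset.mul_sum, ← Finset.sum_sub_distrib]
      refine Finset.sum_congr rfl fun j _ => ?_
      ring
    rw [t8, ← t7, sub_self]
  have hlin := Fintype.linearIndependent_iff.1 (lin_tr C.fr.linB (a2 a) r')
  have h1 := hlin (fun j => dif (a2 a) (chr (a2 a) (fun l => χ l * χ l) r) l (A' j) x -
      (κ (r + r') l + κ (r - r') l) * tr (a2 a) r (C.fr.A j) x) (by
    funext y
    rw [Finset.sum_apply]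
    simp only [Pi.smul_apply, smul_eq_mul, Pi.zero_apply]
    exact main y) j
  exact sub_eq_zero.1 h1

theorem kap_sum (C : Ctx δ Λ a χ c T) {κ : (ι → ℂ) → (ι → ℂ) → ℂ}
    (hκ : ∀ (ρ : ι → ℂ) (v : (ι → ℂ) → ℂ), Def1 δ c (tr a ρ T) v → ∀ l ∈ Λ, ∀ z,
      dif a (chr a χ ρ) l v z = κ ρ l * tr a ρ T z) {l : ι → ℂ} (hl : l ∈ Λ) (r r' r'' : ι → ℂ) :
    κ (r + r') l + κ (r - r') l = κ (r + r'') l + κ (r - r'') l := by
  choose A' hA using exists_defA C r
  obtain ⟨j, hj⟩ : ∃ j, C.fr.A j 0 ≠ 0 := by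
    by_contra h
    push Not at h
    have h1 := C.fr.eq 0 0
    rw [add_zero, sub_zero, Finset.sum_eq_zero fun j _ => by rw [h j, zero_mul]] at h1
    exact mul_ne_zero C.ne C.ne h1
  have h2 : tr (a2 a) r (C.fr.A j) (-r) ≠ 0 := by
    unfold tr
    rw [neg_add_cancel]
    exact mul_ne_zero (Complex.exp_ne_zero _) hj
  have h3 := kk_key C hκ hl r r' hA j (-r)
  have h4 := kk_key C hκ hl r r'' hA j (-r)
  rw [h3] at h4
  exact mul_right_cancel₀ h2 h4

end

end Pool.Agent.ALD
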