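import Pool.Agent.ALD.KKap

/-!
# ALD block B3, KKapZ: `κ_ρ = 0` for torsion points
-/

set_option autoImplicit false
set_option linter.unusedSectionVars false

namespace Pool.Agent.ALD

open Finset Complex ComplexConjugate

noncomputable section

variable {ι : Type} [Fintype ι] [DecidableEq ι] {δ : Derivation ℚ ℂ ℂ} {Λ : AddSubgroup (ι → ℂ)}
  {a : ι → ℝ} {χ : (ι → ℂ) → ℂ} {c : ι → ℂ} {T : (ι → ℂ) → ℂ}

/-- the defect of `T` is even -/
private theorem kz_even (C : Ctx δ Λ a χ c T) {v : (ι → ℂ) → ℂ} (hv : Def1 δ c T v) (z : ι → ℂ) :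
    v (-z) = v z := by
  have hw : Def1 δ c T (fun z => v (-z)) := by
    obtain ⟨u, hu, hvu⟩ := hv
    have hTT : (fun z => T (-z)) = T := funext C.ev
    refine ⟨fun z => u (-z), ?_, fun z => ?_⟩
    · have h1 := isDer_neg C.hT.1 hu
      rwa [hTT] at h1
    · have h1 := Ec_even C.hT.1 c z
      rw [hTT] at h1
      beta_reduce
      rw [hvu, h1]
  exact (def1_unique hv hw z).symm

private theorem kz_me (a : ι → ℝ) (z l : ι → ℂ) : me a (-z - l) l = -me a z l := by
  rw [me_eq, me_eq, sub_eq_add_neg, aa_add_left, aa_neg_left, aa_neg_left]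
  ring

/-- the functional equation of the defect -/
private theorem kz_v {k : ℂ} {χ' : (ι → ℂ) → ℂ} {l : ι → ℂ} (hl : χ' l ≠ 0)
    {v f : (ι → ℂ) → ℂ} {z : ι → ℂ} (h : dif a χ' l v z = k * f z) :
    v (z + l) = χ' l * cexp (me a z l) * (v z + k * f z) := by
  unfold dif tr at h
  have h1 : (χ' l)⁻¹ * (cexp (-me a z l) * v (z + l)) = v z + k * f z := by
    rw [← h]; ring
  rw [← h1]
  have h2 : cexp (me a z l) * cexp (-me a z l) = 1 := by
    rw [← Complex.exp_add, add_neg_cancel, Complex.exp_zero]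
  calc v (z + l) = (χ' l * (χ' l)⁻¹) * (cexp (me a z l) * cexp (-me a z l)) * v (z + l) := by
        rw [h2, mul_inv_cancel₀ hl]; ring
    _ = _ := by ring

private theorem kz_zero (C : Ctx δ Λ a χ c T) {k : ℂ} {v : (ι → ℂ) → ℂ} (hv : Def1 δ c T v)
    {l : ι → ℂ} (hl : l ∈ Λ) (h : ∀ z, dif a χ l v z = k * T z) : k = 0 := by
  have hχ := C.chi l hl
  have hV : ∀ z, v (z + l) = χ l * cexp (me a z l) * (v z + k * T z) := fun z => kz_v hχ (h z)
  have hT : ∀ z, T (z + l) = χ l * cexp (me a z l) * T z := C.hT.2 l hl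
  have e1 : ∀ z : ι → ℂ, -z - l + l = -z := fun z => by abel
  have e2 : ∀ z : ι → ℂ, -z - l = -(z + l) := fun z => by abel
  have h3 : ∀ z : ι → ℂ, cexp (-me a z l) * cexp (me a z l) = 1 := fun z => by
    rw [← Complex.exp_add, neg_add_cancel, Complex.exp_zero]
  have hT2 : ∀ z, T z = χ l ^ 2 * T z := by
    intro z
    have h1 := hT (-z - l)
    rw [e1, kz_me, e2, C.ev, C.ev, hT z] at h1
    calc T z = χ l * cexp (-me a z l) * (χ l * cexp (me a z l) * T z) := h1
      _ = χ l ^ 2 * (cexp (-me a z l) * cexp (me a z l)) * T z := by ring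
      _ = _ := by rw [h3, mul_one]
  have hV2 : ∀ z, v z = χ l ^ 2 * (v z + 2 * k * T z) := by
    intro z
    have h1 := hV (-z - l)
    rw [e1, kz_me, e2, C.ev, kz_even C hv, kz_even C hv, hT z, hV z] at h1
    calc v z = _ := h1
      _ = χ l ^ 2 * (cexp (-me a z l) * cexp (me a z l)) * (v z + 2 * k * T z) := by ring
      _ = _ := by rw [h3, mul_one]
  have h4 : χ l ^ 2 = 1 := by
    have h5 := hT2 0
    have h6 : (χ l ^ 2 - 1) * T 0 = 0 := by
      rw [sub_mul, ← h5]; ring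
    rcases mul_eq_zero.1 h6 with h7 | h7
    · exact sub_eq_zero.1 h7
    · exact absurd h7 C.ne
  have h8 := hV2 0
  rw [h4, one_mul] at h8
  have h9 : 2 * k * T 0 = 0 := by
    have := h8
    exact left_eq_add.1 this
  rcases mul_eq_zero.1 h9 with h10 | h10
  · rcases mul_eq_zero.1 h10 with h11 | h11
    · norm_num at h11
    · exact h11
  · exact absurd h10 C.ne

theorem kap_tor (C : Ctx δ Λ a χ c T) {ρ : ι → ℂ} (hρ : Tor Λ ρ) {v : (ι → ℂ) → ℂ}
    (hv : Def1 δ c (tr a ρ T) v) {l : ι → ℂ} (hl : l ∈ Λ) (z : ι → ℂ) :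
    dif a (chr a χ ρ) l v z = 0 := by
  obtain ⟨κ, hκ⟩ := exists_kap C
  have hdT : ∀ z, dif a χ l T z = 0 := (vf_iff C.hT.1 C.chi).1 C.hT l hl
  obtain ⟨w, hw⟩ := exists_def C 0
  have hchr0 : chr a χ 0 l = χ l := chr_zero a χ l
  have hdif : ∀ (χ1 χ2 : (ι → ℂ) → ℂ) (f : (ι → ℂ) → ℂ) (z : ι → ℂ), χ1 l = χ2 l →
      dif a χ1 l f z = dif a χ2 l f z := by
    intro χ1 χ2 f z h
    unfold dif
    rw [h]
  -- `κ_0 = 0`
  have hw' : Def1 δ c T w := by
    have := hw
    rwa [tr_zero] at this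
  have h0 : κ 0 l = 0 := by
    refine kz_zero C hw' hl fun z => ?_
    have h1 := hκ 0 w hw l hl z
    rw [tr_zero, hdif _ χ w z hchr0] at h1
    exact h1
  have h0w : ∀ z, dif a χ l w z = 0 := by
    intro z
    have h1 := hκ 0 w hw l hl z
    rw [tr_zero, hdif _ χ w z hchr0, h0, zero_mul] at h1
    exact h1
  -- additivity
  have hadd : ∀ ρ σ : ι → ℂ, κ (ρ + σ) l = κ ρ l + κ σ l := by
    intro ρ σ
    have h1 := kap_sum C hκ hl ((1 / 2 : ℂ) • (ρ + σ)) ((1 / 2 : ℂ) • (ρ - σ))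
      ((1 / 2 : ℂ) • (ρ + σ))
    have e1 : (1 / 2 : ℂ) • (ρ + σ) + (1 / 2 : ℂ) • (ρ - σ) = ρ := by
      funext i
      simp only [Pi.add_apply, Pi.smul_apply, Pi.sub_apply, smul_eq_mul]
      ring
    have e2 : (1 / 2 : ℂ) • (ρ + σ) - (1 / 2 : ℂ) • (ρ - σ) = σ := by
      funext i
      simp only [Pi.add_apply, Pi.smul_apply, Pi.sub_apply, smul_eq_mul]
      ring
    have e3 : (1 / 2 : ℂ) • (ρ + σ) + (1 / 2 : ℂ) • (ρ + σ) = ρ + σ := by
      funext i
      simp only [Pi.add_apply, Pi.smul_apply, smul_eq_mul]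
      ring
    rw [e1, e2, e3, sub_self, h0, add_zero] at h1
    exact h1.symm
  -- lattice points
  have hlat : ∀ l' ∈ Λ, κ l' l = 0 := by
    intro l' hl'
    obtain ⟨u, hu, hwu⟩ := hw'
    have hk := C.chi l' hl'
    have hTl : tr a l' T = fun z => χ l' * T z := funext fun z => tr_lat C.hT hl' z
    have hd : Def1 δ c (tr a l' T) (fun z => χ l' * w z + δ (χ l') * T z) := by
      rw [hTl]
      refine ⟨fun z => χ l' * u z + δ (χ l') * T z, isDer_cmul C.hT.1 _ hu, fun z => ?_⟩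
      rw [Ec_cmul C.hT.1]
      beta_reduce
      rw [hwu]
      ring
    have hχ' : chr a χ l' l = χ l := by
      obtain ⟨n, hn⟩ := vf_int C.hT C.chi ⟨0, C.ne⟩ hl' hl
      unfold chr
      rw [hn]
      have : (2 * Real.pi * I * n : ℂ) = n * (2 * Real.pi * I) := by ring
      rw [this, Complex.exp_int_mul_two_pi_mul_I, mul_one]
    have h1 := hκ l' _ hd l hl 0
    rw [hdif _ χ _ 0 hχ'] at h1
    have h2 : dif a χ l (fun z => χ l' * w z + δ (χ l') * T z) 0 =
        χ l' * dif a χ l w 0 + δ (χ l') * dif a χ l T 0 := by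
      unfold dif tr
      ring
    rw [h2, h0w, hdT, mul_zero, mul_zero, add_zero, hTl] at h1
    rcases mul_eq_zero.1 h1.symm with h3 | h3
    · exact h3
    · exact absurd h3 (mul_ne_zero hk C.ne)
  -- torsion points
  have hn : ∀ n : ℕ, κ (n • ρ) l = n * κ ρ l := by
    intro n
    induction n with
    | zero => rw [zero_smul, h0]; simp
    | succ n ih =>
      rw [add_smul, one_smul, hadd, ih]
      push_cast
      ring
  obtain ⟨n, hn0, hnρ⟩ := hρ
  have h1 : κ ρ l = 0 := by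
    have h2 := hn n
    rw [hlat _ hnρ] at h2
    rcases mul_eq_zero.1 h2.symm with h3 | h3
    · exact absurd h3 (by exact_mod_cast hn0.ne')
    · exact h3
  rw [hκ ρ v hv l hl z, h1, zero_mul]

end

end Pool.Agent.ALD
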