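import Pool.Agent.ALD.KDefs

/-!
# ALD block B3, KSum: the addition formula for translates, independence of translates
-/

set_option autoImplicit false
set_option linter.unusedSectionVars false

namespace Pool.Agent.ALD

open Finset Complex ComplexConjugate

noncomputable section

variable {ι : Type} [Fintype ι] [DecidableEq ι]

private theorem ksum_me (a : ι → ℝ) (r r' x y : ι → ℂ) :
    me a (x + y) (r + r') + me a (x - y) (r - r') = me (a2 a) x r + me (a2 a) y r' := by
  have e1 : me (a2 a) x r = 2 * me a x r := by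
    have := me_lev 2 a x r
    unfold a2
    rw [this]
    norm_num
  have e2 : me (a2 a) y r' = 2 * me a y r' := by
    have := me_lev 2 a y r'
    unfold a2
    rw [this]
    norm_num
  rw [e1, e2, sub_eq_add_neg x y, sub_eq_add_neg r r', me_eq, me_eq, me_eq, me_eq]
  simp only [aa_add_left, aa_add_right, aa_neg_left, aa_neg_right]
  ring

theorem add_tr {Λ : AddSubgroup (ι → ℂ)} {a : ι → ℝ} {χ : (ι → ℂ) → ℂ} {T : (ι → ℂ) → ℂ}
    (F : Fr Λ a χ T) (r r' x y : ι → ℂ) :
    tr a (r + r') T (x + y) * tr a (r - r') T (x - y) =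
      ∑ j, tr (a2 a) r (F.A j) x * tr (a2 a) r' (F.B j) y := by
  have h1 := F.eq (x + r) (y + r')
  have e1 : x + y + (r + r') = (x + r) + (y + r') := by abel
  have e2 : x - y + (r - r') = (x + r) - (y + r') := by abel
  have h2 : tr a (r + r') T (x + y) * tr a (r - r') T (x - y) =
      cexp (-(me a (x + y) (r + r') + me a (x - y) (r - r'))) *
        (T ((x + r) + (y + r')) * T ((x + r) - (y + r'))) := by
    unfold tr
    rw [e1, e2, neg_add, Complex.exp_add]
    ring
  rw [h2, h1, ksum_me, neg_add, Complex.exp_add, Finset.mul_sum]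
  refine Finset.sum_congr rfl fun j _ => ?_
  unfold tr
  ring

theorem lin_tr {n : ℕ} {A : Fin n → (ι → ℂ) → ℂ} (h : LinearIndependent ℂ A) (a : ι → ℝ) (ρ : ι → ℂ) :
    LinearIndependent ℂ (fun j => tr a ρ (A j)) := by
  rw [Fintype.linearIndependent_iff] at h ⊢
  intro g hg
  apply h g
  funext z
  have h1 := congrFun hg (z - ρ)
  simp only [Finset.sum_apply, Pi.smul_apply, smul_eq_mul, Pi.zero_apply, tr, sub_add_cancel] at h1 ⊢
  have h2 : cexp (-(me a (z - ρ) ρ)) * ∑ j, g j * A j z = 0 := by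
    rw [← h1, Finset.mul_sum]
    refine Finset.sum_congr rfl fun j _ => ?_
    ring
  exact (mul_eq_zero.1 h2).resolve_left (Complex.exp_ne_zero _)

/-- the functional dual to `A` moves with the translation: `∑ p_k A_j(x_k) = [j = j0]` gives the same
for `A_j` replaced by `tr a ρ A_j`, points `x_k - ρ` -/
theorem fun_tr {n N : ℕ} {A : Fin n → (ι → ℂ) → ℂ} (x : Fin N → (ι → ℂ)) (p : Fin N → ℂ) (j0 : Fin n)
    (h : ∀ j, ∑ k, p k * A j (x k) = if j = j0 then 1 else 0) (a : ι → ℝ) (ρ : ι → ℂ) :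
    ∀ j, ∑ k, (p k * cexp (me a (x k - ρ) ρ)) * tr a ρ (A j) (x k - ρ) = if j = j0 then 1 else 0 := by
  intro j
  rw [← h j]
  refine Finset.sum_congr rfl fun k _ => ?_
  have e : cexp (me a (x k - ρ) ρ) * cexp (-(me a (x k - ρ) ρ)) = 1 := by
    rw [← Complex.exp_add, add_neg_cancel, Complex.exp_zero]
  unfold tr
  rw [sub_add_cancel]
  calc p k * cexp (me a (x k - ρ) ρ) * (cexp (-(me a (x k - ρ) ρ)) * A j (x k))
      = p k * (cexp (me a (x k - ρ) ρ) * cexp (-(me a (x k - ρ) ρ))) * A j (x k) := by ring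
    _ = p k * A j (x k) := by rw [e, mul_one]

end

end Pool.Agent.ALD
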