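import Pool.Agent.ALD.KVv

/-!
# ALD block B3, KUni: `V_a(χ_ρ) = ℂ T_ρ`; the numbers `κ_ρ(l)`
-/

set_option autoImplicit false
set_option linter.unusedSectionVars false

namespace Pool.Agent.ALD

open Finset Complex ComplexConjugate

noncomputable section

variable {ι : Type} [Fintype ι] [DecidableEq ι] {δ : Derivation ℚ ℂ ℂ} {Λ : AddSubgroup (ι → ℂ)}
  {a : ι → ℝ} {χ : (ι → ℂ) → ℂ} {c : ι → ℂ} {T : (ι → ℂ) → ℂ}

theorem tr_ne (C : Ctx δ Λ a χ c T) (ρ : ι → ℂ) : ∃ z, tr a ρ T z ≠ 0 := by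
  refine ⟨-ρ, mul_ne_zero (Complex.exp_ne_zero _) ?_⟩
  rw [neg_add_cancel]
  exact C.ne

theorem uni_tr (C : Ctx δ Λ a χ c T) (ρ : ι → ℂ) (f : (ι → ℂ) → ℂ) (hf : Vf Λ a (chr a χ ρ) f) :
    ∃ k : ℂ, ∀ z, f z = k * tr a ρ T z := by
  have h1 : Vf Λ a χ (tr a (-ρ) f) := vf_congr (tr_vf hf (-ρ)) fun l _ => by
    rw [chr_chr, add_neg_cancel, chr_zero]
  obtain ⟨k, hk⟩ := C.uni _ h1
  refine ⟨k, fun z => ?_⟩
  have h2 := tr_tr a ρ (-ρ) f z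
  rw [add_neg_cancel, tr_zero, aa_neg_left, aa_neg_right, sub_neg_eq_add, neg_add_cancel, zero_div,
    Complex.exp_zero, one_mul] at h2
  rw [← h2]
  show cexp (-(me a z ρ)) * tr a (-ρ) f (z + ρ) = k * (cexp (-(me a z ρ)) * T (z + ρ))
  rw [hk]
  ring

theorem kap (C : Ctx δ Λ a χ c T) (ρ : ι → ℂ) {v : (ι → ℂ) → ℂ} (hv : Def1 δ c (tr a ρ T) v)
    {l : ι → ℂ} (hl : l ∈ Λ) : ∃ k : ℂ, ∀ z, dif a (chr a χ ρ) l v z = k * tr a ρ T z := by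
  have hvd := def1_diff (tr_diff a ρ C.hT.1) hv
  obtain ⟨u, hu, e⟩ := hv
  have hve : v = fun z => u z - Ec c (tr a ρ T) z := funext e
  have hχ : ∀ l ∈ Λ, chr a χ ρ l ≠ 0 := fun l hl => chr_ne (C.chi l hl)
  have h1 : (fun i => ((1 : ℕ) : ℝ) * a i) = a := by
    funext i
    rw [Nat.cast_one, one_mul]
  have hd : Differentiable ℂ (dif a (chr a χ ρ) l v) :=
    ((tr_diff a l hvd).const_mul _).sub hvd
  refine uni_tr C ρ _ ((vf_iff hd hχ).2 fun k hk z => ?_)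
  have h2 := C.sd 1 (chr a χ ρ) (tr a ρ T) u one_pos hχ (by
    rw [h1]
    exact tr_vf C.hT ρ) (tr_ne C ρ) hu k hk l hl z
  rw [h1, ← hve] at h2
  exact h2

/-- one function `κ(ρ, l)` -/
theorem exists_kap (C : Ctx δ Λ a χ c T) : ∃ κ : (ι → ℂ) → (ι → ℂ) → ℂ,
    ∀ (ρ : ι → ℂ) (v : (ι → ℂ) → ℂ), Def1 δ c (tr a ρ T) v → ∀ l ∈ Λ, ∀ z,
      dif a (chr a χ ρ) l v z = κ ρ l * tr a ρ T z := by
  have h1 : ∀ ρ l : ι → ℂ, ∃ k : ℂ, ∀ v : (ι → ℂ) → ℂ, Def1 δ c (tr a ρ T) v → l ∈ Λ → ∀ z,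
      dif a (chr a χ ρ) l v z = k * tr a ρ T z := by
    intro ρ l
    by_cases hl : l ∈ Λ
    · obtain ⟨v, hv⟩ := exists_def C ρ
      obtain ⟨k, hk⟩ := kap C ρ hv hl
      refine ⟨k, fun w hw _ z => ?_⟩
      have e : w = v := funext (def1_unique hw hv)
      rw [e]
      exact hk z
    · exact ⟨0, fun _ _ h => absurd h hl⟩
  choose κ hκ using h1
  exact ⟨κ, fun ρ v hv l hl z => hκ ρ l v hv hl z⟩

end

end Pool.Agent.ALD
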