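import Pool.Agent.ALD.KSum
import Pool.Agent.ALD.KTwo

/-!
# ALD block B3, KVv: identity (*) for the defects `v = f^δ - E_c f` (`two_der` minus `two_Ec`)
-/

set_option autoImplicit false
set_option linter.unusedSectionVars false

namespace Pool.Agent.ALD

open Finset Complex ComplexConjugate

noncomputable section

variable {ι : Type} [Fintype ι] [DecidableEq ι] {δ : Derivation ℚ ℂ ℂ} {Λ : AddSubgroup (ι → ℂ)}
  {a : ι → ℝ} {χ : (ι → ℂ) → ℂ} {c : ι → ℂ} {T : (ι → ℂ) → ℂ}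

theorem def1_unique {f v w : (ι → ℂ) → ℂ} (hv : Def1 δ c f v) (hw : Def1 δ c f w) :
    ∀ z, v z = w z := by
  obtain ⟨u, hu, e⟩ := hv
  obtain ⟨u', hu', e'⟩ := hw
  intro z
  rw [e z, e' z, isDer_unique hu hu' z]

theorem def1_diff {f v : (ι → ℂ) → ℂ} (hf : Differentiable ℂ f) (hv : Def1 δ c f v) :
    Differentiable ℂ v := by
  obtain ⟨u, hu, e⟩ := hv
  have h1 : v = fun z => u z - Ec c f z := funext e
  rw [h1]
  exact hu.1.sub (Ec_diff hf c)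

theorem exists_def (C : Ctx δ Λ a χ c T) (ρ : ι → ℂ) : ∃ v, Def1 δ c (tr a ρ T) v := by
  have h1 : (fun i => ((1 : ℕ) : ℝ) * a i) = a := by
    funext i
    rw [Nat.cast_one, one_mul]
  obtain ⟨u, hu⟩ := C.der 1 (chr a χ ρ) (tr a ρ T) one_pos (fun l hl => chr_ne (C.chi l hl)) (by
    rw [h1]
    exact tr_vf C.hT ρ)
  exact ⟨fun z => u z - Ec c (tr a ρ T) z, u, hu, fun _ => rfl⟩

theorem exists_defA (C : Ctx δ Λ a χ c T) (r : ι → ℂ) (j : Fin C.fr.r) :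
    ∃ v, Def1 δ c (tr (a2 a) r (C.fr.A j)) v := by
  obtain ⟨u, hu⟩ := C.der 2 (chr (a2 a) (fun l => χ l * χ l) r) (tr (a2 a) r (C.fr.A j)) two_pos
    (fun l hl => chr_ne (mul_ne_zero (C.chi l hl) (C.chi l hl))) (tr_vf (C.fr.hA j) r)
  exact ⟨fun z => u z - Ec c (tr (a2 a) r (C.fr.A j)) z, u, hu, fun _ => rfl⟩

theorem exists_defB (C : Ctx δ Λ a χ c T) (r : ι → ℂ) (j : Fin C.fr.r) :
    ∃ v, Def1 δ c (tr (a2 a) r (C.fr.B j)) v := by
  obtain ⟨u, hu⟩ := C.der 2 (chr (a2 a) (fun l => χ l * χ (-l)) r) (tr (a2 a) r (C.fr.B j))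
    two_pos (fun l hl => chr_ne (mul_ne_zero (C.chi l hl) (C.chi (-l) (neg_mem hl))))
    (tr_vf (C.fr.hB j) r)
  exact ⟨fun z => u z - Ec c (tr (a2 a) r (C.fr.B j)) z, u, hu, fun _ => rfl⟩

theorem two_v (C : Ctx δ Λ a χ c T) (r r' : ι → ℂ) {v w : (ι → ℂ) → ℂ} {A' B' : Fin C.fr.r → (ι → ℂ) → ℂ}
    (hv : Def1 δ c (tr a (r + r') T) v) (hw : Def1 δ c (tr a (r - r') T) w)
    (hA : ∀ j, Def1 δ c (tr (a2 a) r (C.fr.A j)) (A' j))
    (hB : ∀ j, Def1 δ c (tr (a2 a) r' (C.fr.B j)) (B' j)) (x y : ι → ℂ) :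
    v (x + y) * tr a (r - r') T (x - y) + tr a (r + r') T (x + y) * w (x - y) =
      ∑ j, (A' j x * tr (a2 a) r' (C.fr.B j) y + tr (a2 a) r (C.fr.A j) x * B' j y) := by
  obtain ⟨u, hu, ev⟩ := hv
  obtain ⟨u', hu', ew⟩ := hw
  choose uA hA1 hA2 using hA
  choose uB hB1 hB2 using hB
  have hf : Differentiable ℂ (tr a (r + r') T) := tr_diff a _ C.hT.1
  have hg : Differentiable ℂ (tr a (r - r') T) := tr_diff a _ C.hT.1
  have hAd : ∀ j, Differentiable ℂ (tr (a2 a) r (C.fr.A j)) := fun j =>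
    tr_diff _ _ (C.fr.hA j).1
  have hBd : ∀ j, Differentiable ℂ (tr (a2 a) r' (C.fr.B j)) := fun j =>
    tr_diff _ _ (C.fr.hB j).1
  have h := add_tr C.fr r r'
  have h1 := two_der hf hg hAd hBd hu hu' hA1 hB1 h x y
  have h2 := two_Ec hf hg hAd hBd h c x y
  have h3 : ∑ j, (A' j x * tr (a2 a) r' (C.fr.B j) y + tr (a2 a) r (C.fr.A j) x * B' j y) =
      ∑ j, (uA j x * tr (a2 a) r' (C.fr.B j) y + tr (a2 a) r (C.fr.A j) x * uB j y) -
      ∑ j, (Ec c (tr (a2 a) r (C.fr.A j)) x * tr (a2 a) r' (C.fr.B j) y +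
        tr (a2 a) r (C.fr.A j) x * Ec c (tr (a2 a) r' (C.fr.B j)) y) := by
    rw [← Finset.sum_sub_distrib]
    refine Finset.sum_congr rfl fun j _ => ?_
    rw [hA2, hB2]
    ring
  rw [h3, ← h1, ← h2, ev, ew]
  ring

end

end Pool.Agent.ALD
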