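import Pool.Agent.ALD.VDefs
import Pool.Agent.ALD.FDim
import Pool.Agent.RQ4.TGau
import Pool.Agent.RQ4.TSum

/-!
# ALD, block B1: an even theta function with `P(0) > 0` (trivial multipliers)

`P(z) = ∑_(l ∈ Λ) exp(-a(z,l) - a(l,l)/2)` for a lattice with `a(l,k) - a(k,l) ∈ 4πi ℤ`.
-/

set_option autoImplicit false
set_option linter.unusedSectionVars false

namespace Pool.Agent.ALD

open Finset Complex ComplexConjugate

variable {ι : Type} [Fintype ι] [DecidableEq ι] {J : Type} [Fintype J]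

/-- the lattice vector with coordinates `m` -/
noncomputable def lv (b : Module.Basis J ℝ (ι → ℂ)) (m : J → ℤ) : ι → ℂ := ∑ j, (m j) • b j

theorem lv_mem (b : Module.Basis J ℝ (ι → ℂ)) (m : J → ℤ) :
    lv b m ∈ AddSubgroup.closure (Set.range b) :=
  AddSubgroup.sum_mem _ fun j _ => AddSubgroup.zsmul_mem _
    (AddSubgroup.subset_closure (Set.mem_range_self j)) _

theorem lv_add (b : Module.Basis J ℝ (ι → ℂ)) (m n : J → ℤ) : lv b (m + n) = lv b m + lv b n := by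
  unfold lv
  rw [← Finset.sum_add_distrib]
  exact Finset.sum_congr rfl fun j _ => by rw [Pi.add_apply, add_zsmul]

theorem lv_neg (b : Module.Basis J ℝ (ι → ℂ)) (m : J → ℤ) : lv b (-m) = -lv b m := by
  unfold lv
  rw [← Finset.sum_neg_distrib]
  exact Finset.sum_congr rfl fun j _ => by rw [Pi.neg_apply, neg_zsmul]

theorem exists_lv (b : Module.Basis J ℝ (ι → ℂ)) {l : ι → ℂ}
    (hl : l ∈ AddSubgroup.closure (Set.range b)) : ∃ m, lv b m = l := by
  classical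
  induction hl using AddSubgroup.closure_induction with
  | mem x hx =>
    obtain ⟨j, rfl⟩ := hx
    refine ⟨Pi.single j 1, ?_⟩
    unfold lv
    rw [Finset.sum_eq_single j]
    · simp
    · intro k _ hk
      simp [hk]
    · simp
  | zero => exact ⟨0, by simp [lv]⟩
  | add x y _ _ hx hy =>
    obtain ⟨m, rfl⟩ := hx
    obtain ⟨n, rfl⟩ := hy
    exact ⟨m + n, lv_add b m n⟩
  | neg x _ hx =>
    obtain ⟨m, rfl⟩ := hx
    exact ⟨-m, lv_neg b m⟩

/-- the quadratic form `a(l,l)` dominates the coordinates -/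
theorem lv_lower (b : Module.Basis J ℝ (ι → ℂ)) {a : ι → ℝ} (ha : ∀ i, 0 < a i) :
    ∃ δ : ℝ, 0 < δ ∧ ∀ m : J → ℤ, δ * ∑ j, (m j : ℝ) ^ 2 ≤ ∑ i, a i * ‖lv b m i‖ ^ 2 := by
  classical
  -- a uniform lower bound for `a`
  obtain ⟨α, hα, hαa⟩ : ∃ α : ℝ, 0 < α ∧ ∀ i, α ≤ a i := by
    by_cases hι : Nonempty ι
    · obtain ⟨i0, hi0⟩ := Finite.exists_min a
      exact ⟨a i0, ha i0, hi0⟩
    · exact ⟨1, one_pos, fun i => (hι ⟨i⟩).elim⟩
  let e : (ι → ℂ) →L[ℝ] (J → ℝ) := (b.equivFun.toContinuousLinearEquiv : (ι → ℂ) →L[ℝ] (J → ℝ))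
  set C : ℝ := ‖e‖ + 1 with hC
  have hC0 : 0 < C := by positivity
  have hcard : (0 : ℝ) < Fintype.card J + 1 := by positivity
  refine ⟨α / ((Fintype.card J + 1) * C ^ 2), by positivity, fun m => ?_⟩
  have h1 : ∀ j, |(m j : ℝ)| ≤ C * ‖lv b m‖ := by
    intro j
    have h2 : e (lv b m) j = (m j : ℝ) := by
      show b.equivFun (lv b m) j = (m j : ℝ)
      have : lv b m = ∑ j, (m j : ℝ) • b j := by
        unfold lv
        exact Finset.sum_congr rfl fun j _ => (Int.cast_smul_eq_zsmul ℝ (m j) (b j)).symm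
      rw [this, Module.Basis.equivFun_apply, Module.Basis.repr_sum_self]
    rw [← h2, ← Real.norm_eq_abs]
    refine (norm_le_pi_norm _ j).trans ((e.le_opNorm _).trans ?_)
    exact mul_le_mul_of_nonneg_right (by rw [hC]; linarith) (norm_nonneg _)
  have h3 : ‖lv b m‖ ^ 2 ≤ ∑ i, ‖lv b m i‖ ^ 2 := by
    by_cases hι : Nonempty ι
    · obtain ⟨i0, hi0⟩ := Finite.exists_max (fun i => ‖lv b m i‖)
      have h4 : ‖lv b m‖ ≤ ‖lv b m i0‖ := (pi_norm_le_iff_of_nonneg (norm_nonneg _)).2 hi0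
      calc ‖lv b m‖ ^ 2 ≤ ‖lv b m i0‖ ^ 2 := pow_le_pow_left₀ (norm_nonneg _) h4 2
        _ ≤ _ := Finset.single_le_sum (f := fun i => ‖lv b m i‖ ^ 2) (fun i _ => by positivity)
          (Finset.mem_univ i0)
    · have : IsEmpty ι := not_nonempty_iff.1 hι
      have : lv b m = 0 := Subsingleton.elim _ _
      rw [this]
      simp
  have h5 : ∑ j, (m j : ℝ) ^ 2 ≤ (Fintype.card J + 1) * C ^ 2 * ‖lv b m‖ ^ 2 := by
    calc ∑ j, (m j : ℝ) ^ 2 ≤ ∑ _j : J, (C * ‖lv b m‖) ^ 2 := by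
          refine Finset.sum_le_sum fun j _ => ?_
          rw [← sq_abs]
          exact pow_le_pow_left₀ (abs_nonneg _) (h1 j) 2
      _ = Fintype.card J * (C ^ 2 * ‖lv b m‖ ^ 2) := by
          rw [Finset.sum_const, Finset.card_univ, nsmul_eq_mul, mul_pow]
      _ ≤ _ := by nlinarith [mul_nonneg (sq_nonneg C) (sq_nonneg ‖lv b m‖)]
  have h6 : α * ∑ i, ‖lv b m i‖ ^ 2 ≤ ∑ i, a i * ‖lv b m i‖ ^ 2 := by
    rw [Finset.mul_sum]
    exact Finset.sum_le_sum fun i _ => mul_le_mul_of_nonneg_right (hαa i) (by positivity)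
  refine le_trans ?_ h6
  have h7 : α / ((Fintype.card J + 1) * C ^ 2) * ∑ j, (m j : ℝ) ^ 2 ≤
      α / ((Fintype.card J + 1) * C ^ 2) * ((Fintype.card J + 1) * C ^ 2 * ‖lv b m‖ ^ 2) :=
    mul_le_mul_of_nonneg_left h5 (by positivity)
  refine h7.trans ?_
  have h8 : α / ((Fintype.card J + 1) * C ^ 2) * ((Fintype.card J + 1) * C ^ 2 * ‖lv b m‖ ^ 2) =
      α * ‖lv b m‖ ^ 2 := by
    field_simp
  rw [h8]
  exact mul_le_mul_of_nonneg_left h3 hα.le

/-- an upper bound for `l` by the coordinates -/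
theorem lv_upper (b : Module.Basis J ℝ (ι → ℂ)) :
    ∃ B : ℝ, 0 ≤ B ∧ ∀ m : J → ℤ, ‖lv b m‖ ≤ B * ∑ j, |(m j : ℝ)| := by
  refine ⟨∑ j, ‖b j‖, by positivity, fun m => ?_⟩
  unfold lv
  refine (norm_sum_le _ _).trans ?_
  rw [Finset.mul_sum]
  refine Finset.sum_le_sum fun j _ => ?_
  rw [← Int.cast_smul_eq_zsmul ℝ (m j) (b j), norm_smul, Real.norm_eq_abs, mul_comm]
  exact mul_le_mul_of_nonneg_right (Finset.single_le_sum (f := fun j => ‖b j‖)
    (fun j _ => norm_nonneg _) (Finset.mem_univ j)) (abs_nonneg _)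

theorem me_re (a : ι → ℝ) (z l : ι → ℂ) :
    (me a z l).re = (∑ i, (a i : ℂ) * (conj (l i) * z i)).re + (∑ i, a i * ‖l i‖ ^ 2) / 2 := by
  unfold me
  rw [Complex.re_sum, Complex.re_sum, Finset.sum_div, ← Finset.sum_add_distrib]
  refine Finset.sum_congr rfl fun i _ => ?_
  rw [mul_add, Complex.add_re, ← Complex.ofReal_mul, Complex.ofReal_re]
  ring

/-- the majorant of the terms on a ball -/
theorem exp_me_le (b : Module.Basis J ℝ (ι → ℂ)) {a : ι → ℝ} (ha : ∀ i, 0 < a i) :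
    ∃ δ : ℝ, 0 < δ ∧ ∃ B : ℝ, 0 ≤ B ∧ ∀ (z : ι → ℂ) (m : J → ℤ), ‖cexp (-(me a z (lv b m)))‖ ≤
      Real.exp (-(δ * ∑ j, (m j : ℝ) ^ 2) + (B * ‖z‖) * ∑ j, |(m j : ℝ)|) := by
  obtain ⟨δ, hδ, hlow⟩ := lv_lower b ha
  obtain ⟨B, hB, hup⟩ := lv_upper b
  refine ⟨δ / 2, by positivity, (∑ i, a i) * B, mul_nonneg (Finset.sum_nonneg fun i _ => (ha i).le) hB,
    fun z m => ?_⟩
  rw [Complex.norm_exp, Complex.neg_re, me_re]
  apply Real.exp_le_exp.2
  have h1 : |(∑ i, (a i : ℂ) * (conj (lv b m i) * z i)).re| ≤ (∑ i, a i) * (‖lv b m‖ * ‖z‖) := by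
    refine (Complex.abs_re_le_norm _).trans ((norm_sum_le _ _).trans ?_)
    rw [Finset.sum_mul]
    refine Finset.sum_le_sum fun i _ => ?_
    rw [norm_mul, norm_mul, Complex.norm_real, Real.norm_of_nonneg (ha i).le, Complex.norm_conj]
    exact mul_le_mul_of_nonneg_left (mul_le_mul (norm_le_pi_norm _ i) (norm_le_pi_norm _ i)
      (norm_nonneg _) (norm_nonneg _)) (ha i).le
  have h2 : (∑ i, a i) * (‖lv b m‖ * ‖z‖) ≤ (∑ i, a i) * B * ‖z‖ * ∑ j, |(m j : ℝ)| := by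
    have := mul_le_mul_of_nonneg_right (hup m) (norm_nonneg z)
    have h3 := mul_le_mul_of_nonneg_left this
      (Finset.sum_nonneg (s := Finset.univ) (f := a) fun i _ => (ha i).le)
    calc (∑ i, a i) * (‖lv b m‖ * ‖z‖) ≤ (∑ i, a i) * (B * (∑ j, |(m j : ℝ)|) * ‖z‖) := h3
      _ = _ := by ring
  have h4 := abs_le.1 h1
  have h5 := hlow m
  linarith [h4.1]

/-- `P(z) = ∑_l exp(-a(z,l) - a(l,l)/2)` -/
noncomputable def PP (b : Module.Basis J ℝ (ι → ℂ)) (a : ι → ℝ) (z : ι → ℂ) : ℂ :=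
  ∑' m : J → ℤ, cexp (-(me a z (lv b m)))

theorem PP_summable (b : Module.Basis J ℝ (ι → ℂ)) {a : ι → ℝ} (ha : ∀ i, 0 < a i) (z : ι → ℂ) :
    Summable fun m : J → ℤ => ‖cexp (-(me a z (lv b m)))‖ := by
  classical
  obtain ⟨δ, hδ, B, hB, h⟩ := exp_me_le b ha
  exact Summable.of_nonneg_of_le (fun m => norm_nonneg _) (fun m => h z m)
    (RQ4.gau_sum (by positivity) _)

theorem PP_diff (b : Module.Basis J ℝ (ι → ℂ)) {a : ι → ℝ} (ha : ∀ i, 0 < a i) :
    Differentiable ℂ (PP b a) := by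
  classical
  obtain ⟨δ, hδ, B, hB, h⟩ := exp_me_le b ha
  rw [← differentiableOn_univ]
  refine RQ4.diff_tsum isOpen_univ (fun m => ?_) fun x _ => ?_
  · have : Differentiable ℂ fun z : ι → ℂ => cexp (-(me a z (lv b m))) := by
      unfold me
      fun_prop
    exact this.differentiableOn
  · refine ⟨1, one_pos, fun m => Real.exp (-(δ * ∑ j, (m j : ℝ) ^ 2) +
      (B * (‖x‖ + 1)) * ∑ j, |(m j : ℝ)|), RQ4.gau_sum hδ _, fun m y _ hy => (h y m).trans ?_⟩
    apply Real.exp_le_exp.2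
    have h1 : ‖y‖ ≤ ‖x‖ + 1 := by
      have : y = x + (y - x) := by abel
      rw [this]
      exact (norm_add_le _ _).trans (by linarith)
    have h2 : 0 ≤ ∑ j, |(m j : ℝ)| := Finset.sum_nonneg fun j _ => abs_nonneg _
    have h3 : B * ‖y‖ * ∑ j, |(m j : ℝ)| ≤ B * (‖x‖ + 1) * ∑ j, |(m j : ℝ)| :=
      mul_le_mul_of_nonneg_right (mul_le_mul_of_nonneg_left h1 hB) h2
    linarith

theorem me_shift (a : ι → ℝ) (z k l : ι → ℂ) :
    me a (z + k) (l - k) = me a z l - me a z k + (aa a k l - aa a l k) / 2 := by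
  unfold me aa
  rw [← Finset.sum_sub_distrib, ← Finset.sum_sub_distrib, Finset.sum_div, ← Finset.sum_add_distrib]
  refine Finset.sum_congr rfl fun i _ => ?_
  have h : ∀ w : ℂ, ((‖w‖ ^ 2 / 2 : ℝ) : ℂ) = w * conj w / 2 := by
    intro w
    rw [Complex.mul_conj, Complex.normSq_eq_norm_sq]
    push_cast
    ring
  rw [h, h, h]
  simp only [Pi.add_apply, Pi.sub_apply, map_sub]
  ring

/-- quasi-periodicity -/
theorem PP_vf (b : Module.Basis J ℝ (ι → ℂ)) {a : ι → ℝ} (ha : ∀ i, 0 < a i)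
    (hint : ∀ l ∈ AddSubgroup.closure (Set.range b), ∀ k ∈ AddSubgroup.closure (Set.range b),
      ∃ n : ℤ, aa a l k - aa a k l = 4 * Real.pi * I * n) :
    Vf (AddSubgroup.closure (Set.range b)) a (fun _ => 1) (PP b a) := by
  refine ⟨PP_diff b ha, fun k hk z => ?_⟩
  obtain ⟨k0, rfl⟩ := exists_lv b hk
  rw [one_mul]
  unfold PP
  rw [← tsum_mul_left]
  rw [← (Equiv.subRight k0).tsum_eq]
  refine tsum_congr fun m => ?_
  have e1 : lv b ((Equiv.subRight k0) m) = lv b m - lv b k0 := by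
    show lv b (m - k0) = _
    rw [sub_eq_add_neg, lv_add, lv_neg, sub_eq_add_neg]
  rw [e1, me_shift, ← Complex.exp_add]
  obtain ⟨n, hn⟩ := hint _ (lv_mem b k0) _ (lv_mem b m)
  rw [hn]
  have : -(me a z (lv b m) - me a z (lv b k0) + 4 * Real.pi * I * n / 2) =
      me a z (lv b k0) + -(me a z (lv b m)) + ((-n : ℤ) : ℂ) * (2 * Real.pi * I) := by
    push_cast
    ring
  rw [this, Complex.exp_add _ (((-n : ℤ) : ℂ) * (2 * Real.pi * I)), Complex.exp_int_mul_two_pi_mul_I,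
    mul_one]

theorem PP_even (b : Module.Basis J ℝ (ι → ℂ)) (a : ι → ℝ) (z : ι → ℂ) : PP b a (-z) = PP b a z := by
  unfold PP
  rw [← (Equiv.neg (J → ℤ)).tsum_eq]
  refine tsum_congr fun m => ?_
  have e1 : lv b ((Equiv.neg (J → ℤ)) m) = -lv b m := lv_neg b m
  rw [e1]
  congr 2
  unfold me
  refine Finset.sum_congr rfl fun i _ => ?_
  simp

theorem PP_zero (b : Module.Basis J ℝ (ι → ℂ)) {a : ι → ℝ} (ha : ∀ i, 0 < a i) :
    ∃ x : ℝ, 0 < x ∧ PP b a 0 = x := by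
  have h1 : ∀ m : J → ℤ, cexp (-(me a 0 (lv b m))) =
      ((Real.exp (-((∑ i, a i * ‖lv b m i‖ ^ 2) / 2)) : ℝ) : ℂ) := by
    intro m
    rw [Complex.ofReal_exp]
    congr 1
    unfold me
    push_cast
    rw [Finset.sum_div]
    congr 1
    refine Finset.sum_congr rfl fun i _ => ?_
    simp
    ring
  have hs := PP_summable b ha 0
  have hs' : Summable fun m : J → ℤ => Real.exp (-((∑ i, a i * ‖lv b m i‖ ^ 2) / 2)) := by
    refine hs.congr fun m => ?_
    rw [h1 m, Complex.norm_real, Real.norm_of_nonneg (Real.exp_pos _).le]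
  refine ⟨∑' m : J → ℤ, Real.exp (-((∑ i, a i * ‖lv b m i‖ ^ 2) / 2)),
    hs'.tsum_pos (fun m => (Real.exp_pos _).le) 0 (Real.exp_pos _), ?_⟩
  unfold PP
  rw [Complex.ofReal_tsum]
  exact tsum_congr h1

/-- the doubled basis -/
noncomputable def dbl (b : Module.Basis J ℝ (ι → ℂ)) : Module.Basis J ℝ (ι → ℂ) :=
  b.isUnitSMul (w := fun _ => (2 : ℝ)) (fun _ => isUnit_iff_ne_zero.2 two_ne_zero)

theorem dbl_apply (b : Module.Basis J ℝ (ι → ℂ)) (j : J) : dbl b j = b j + b j := by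
  unfold dbl
  rw [Module.Basis.isUnitSMul_apply, two_smul]

/-- elements of the doubled lattice -/
theorem mem_dbl (b : Module.Basis J ℝ (ι → ℂ)) (l : ι → ℂ) :
    l ∈ AddSubgroup.closure (Set.range (dbl b)) ↔
      ∃ k ∈ AddSubgroup.closure (Set.range b), l = k + k := by
  constructor
  · intro hl
    obtain ⟨m, rfl⟩ := exists_lv (dbl b) hl
    refine ⟨lv b m, lv_mem b m, ?_⟩
    unfold lv
    rw [← Finset.sum_add_distrib]
    refine Finset.sum_congr rfl fun j _ => ?_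
    rw [dbl_apply, zsmul_add]
  · rintro ⟨k, hk, rfl⟩
    obtain ⟨m, rfl⟩ := exists_lv b hk
    have : lv b m + lv b m = lv (dbl b) m := by
      unfold lv
      rw [← Finset.sum_add_distrib]
      refine Finset.sum_congr rfl fun j _ => ?_
      rw [dbl_apply, zsmul_add]
    rw [this]
    exact lv_mem _ m

/-- an even theta function with trivial multipliers for the doubled lattice, nonzero at `0` -/
theorem exists_P (b : Module.Basis J ℝ (ι → ℂ)) {a : ι → ℝ} (ha : ∀ i, 0 < a i)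
    (hint : ∀ l ∈ AddSubgroup.closure (Set.range b), ∀ k ∈ AddSubgroup.closure (Set.range b),
      ∃ n : ℤ, aa a l k - aa a k l = 2 * Real.pi * I * n) :
    ∃ P : (ι → ℂ) → ℂ, Vf (AddSubgroup.closure (Set.range (dbl b))) a (fun _ => 1) P ∧
      (∀ z, P (-z) = P z) ∧ P 0 = 1 := by
  obtain ⟨x, hx, hx0⟩ := PP_zero (dbl b) ha
  have hv := PP_vf (dbl b) ha (by
    intro l hl k hk
    obtain ⟨l', hl', rfl⟩ := (mem_dbl b l).1 hl
    obtain ⟨k', hk', rfl⟩ := (mem_dbl b k).1 hk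
    obtain ⟨n, hn⟩ := hint l' hl' k' hk'
    refine ⟨2 * n, ?_⟩
    have e1 : aa a (l' + l') (k' + k') - aa a (k' + k') (l' + l') = 4 * (aa a l' k' - aa a k' l') := by
      unfold aa
      rw [← Finset.sum_sub_distrib, ← Finset.sum_sub_distrib, Finset.mul_sum]
      refine Finset.sum_congr rfl fun i _ => ?_
      simp only [Pi.add_apply, map_add]
      ring
    rw [e1, hn]
    push_cast
    ring)
  have hx' : (x : ℂ) ≠ 0 := by exact_mod_cast hx.ne'
  refine ⟨fun z => (x : ℂ)⁻¹ * PP (dbl b) a z, ⟨hv.1.const_mul _, fun l hl z => ?_⟩, fun z => ?_, ?_⟩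
  · show (x : ℂ)⁻¹ * PP (dbl b) a (z + l) = _
    rw [hv.2 l hl z]
    ring
  · show (x : ℂ)⁻¹ * PP (dbl b) a (-z) = _
    rw [PP_even]
  · show (x : ℂ)⁻¹ * PP (dbl b) a 0 = 1
    rw [hx0]
    exact inv_mul_cancel₀ hx'

end Pool.Agent.ALD
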