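import Pool.Agent.ALD.Der
import Pool.Agent.ALD.KDer

/-!
# ALD-UScale: the function `s(v z)` with algebraic jets of `s`

`δ` acts on its Taylor coefficients as the Euler operator with the exponents `δ(v_i)/v_i`.
-/

set_option autoImplicit false
set_option linter.unusedSectionVars false

namespace Pool.Agent.ALD

open Finset Complex ComplexConjugate Pool.Agent.CMT

noncomputable section

variable {ι : Type} [Fintype ι] [DecidableEq ι]

/-- the jets of `s(v z)` -/
theorem u_jet1_scale {s : (ι → ℂ) → ℂ} (hs : Differentiable ℂ s) (v : ι → ℂ) (A : ι → ℕ) :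
    RHK.jet1 (fun z => s (v * z)) A = (∏ i, v i ^ A i) * RHK.jet1 s A := by
  obtain ⟨φ, hφ, rfl⟩ := der_ev hs
  have e : (fun z : ι → ℂ => ev φ (v * z)) = ev (sc v φ) := by
    funext z
    rw [ev_sc]
    rfl
  have h1 := jet1_ev (hφ.sc v) (Finsupp.equivFunOnFinite.symm A)
  have h2 := jet1_ev hφ (Finsupp.equivFunOnFinite.symm A)
  have h3 : (fun i => (Finsupp.equivFunOnFinite.symm A) i) = A := rfl
  rw [h3] at h1 h2
  rw [e, h1, h2, coeff_sc]
  have h4 : ∏ i, v i ^ (Finsupp.equivFunOnFinite.symm A) i = ∏ i, v i ^ A i := rfl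
  rw [h4]
  ring

private theorem uscale_der_pow {δ : Derivation ℚ ℂ ℂ} {x : ℂ} (hx : x ≠ 0) (n : ℕ) :
    δ (x ^ n) = (δ x / x * n) * x ^ n := by
  rcases Nat.eq_zero_or_pos n with h | h
  · subst h
    simp
  · rw [Derivation.leibniz_pow, nsmul_eq_mul, smul_eq_mul]
    obtain ⟨m, rfl⟩ : ∃ m, n = m + 1 := ⟨n - 1, by omega⟩
    rw [Nat.add_sub_cancel, pow_succ]
    field_simp

theorem uscale_der_monom {δ : Derivation ℚ ℂ ℂ} {v : ι → ℂ} (hv : ∀ i, v i ≠ 0) (A : ι → ℕ) :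
    δ (∏ i, v i ^ A i) = (∑ i, δ (v i) / v i * A i) * ∏ i, v i ^ A i := by
  have key : ∀ S : Finset ι, δ (∏ i ∈ S, v i ^ A i)
      = (∑ i ∈ S, δ (v i) / v i * A i) * ∏ i ∈ S, v i ^ A i := by
    intro S
    induction S using Finset.induction_on with
    | empty => simp
    | insert j S hj ih =>
      rw [Finset.prod_insert hj, Finset.sum_insert hj, Derivation.leibniz, ih, uscale_der_pow (hv j),
        smul_eq_mul, smul_eq_mul]
      ring
  exact key Finset.univ

theorem isDer_scale {s : (ι → ℂ) → ℂ} (hs : Differentiable ℂ s)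
    (ha : ∀ A : ι → ℕ, IsAlgebraic ℚ (RHK.jet1 s A)) {v : ι → ℂ} (hv : ∀ i, v i ≠ 0)
    (δ : Derivation ℚ ℂ ℂ) :
    IsDer δ (fun z => s (v * z)) (Ec (fun i => δ (v i) / v i) (fun z => s (v * z))) := by
  have hf : Differentiable ℂ (fun z : ι → ℂ => s (v * z)) :=
    hs.comp ((differentiable_const v).mul differentiable_id)
  refine ⟨Ec_diff hf _, fun A => ?_⟩
  rw [jet1_Ec hf, u_jet1_scale hs, Derivation.leibniz, der_alg (ha A), uscale_der_monom hv, smul_zero,
    zero_add, smul_eq_mul]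
  ring

/-- the jets of a function with `AlgTay` are algebraic -/
theorem alg_of_algTay {s : (ι → ℂ) → ℂ} (h : RHK.AlgTay s) (A : ι → ℕ) :
    IsAlgebraic ℚ (RHK.jet1 s A) := by
  obtain ⟨q, w, C, hw, -, hN⟩ := h
  obtain ⟨D, hD, -, hA⟩ := hN (∑ i, A i)
  obtain ⟨P, -, hP⟩ := hA A le_rfl
  have hD' : (D : ℂ) ≠ 0 := by exact_mod_cast hD.ne'
  have h1 : IsAlgebraic ℚ (MvPolynomial.aeval w P : ℂ) := by
    have hmem : ∀ i, w i ∈ algebraicClosure ℚ ℂ := fun i => mem_algebraicClosure_iff.2 (hw i)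
    have h3 : (MvPolynomial.aeval w P : ℂ) ∈ algebraicClosure ℚ ℂ := by
      rw [MvPolynomial.aeval_def, MvPolynomial.eval₂_eq]
      refine sum_mem fun m _ => mul_mem ?_ (prod_mem fun i _ => pow_mem (hmem i) _)
      have h4 : (algebraMap ℤ ℂ) (MvPolynomial.coeff m P) = ((MvPolynomial.coeff m P : ℤ) : ℂ) := rfl
      rw [h4]
      exact intCast_mem _ _
    exact mem_algebraicClosure_iff.1 h3
  have h2 : RHK.jet1 s A = ((D : ℂ))⁻¹ * ((D : ℂ) * RHK.jet1 s A) := by
    rw [← mul_assoc, inv_mul_cancel₀ hD', one_mul]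
  rw [h2, hP]
  exact (isAlgebraic_natCast D).inv.mul h1

end

end Pool.Agent.ALD
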