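import Pool.Agent.ALD.USDz
import Pool.Agent.ALD.UScale
import Pool.Agent.ALD.ELat
import Pool.Agent.ALD.B1Main
import Pool.Agent.RCM.Ifc

/-!
# ALD-UForm: the periods of the theta data `TD D t v` are unique modulo algebraic numbers

From `u_core`: for `f(z) = s(v z)` with algebraic jets of `s` the second differences of `f^δ` are
diagonal with the exponents `δ(v_i)/v_i`.
-/

set_option autoImplicit false
set_option linter.unusedSectionVars false

namespace Pool.Agent.ALD

open Finset Complex ComplexConjugate Pool.Agent.RHK Pool.Agent.RCM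

noncomputable section

section

variable {ι : Type} [Fintype ι] [DecidableEq ι]

/-- a nonzero theta function makes the form integral -/
theorem u_vf_int {Λ : AddSubgroup (ι → ℂ)} {a : ι → ℝ} {χ f : (ι → ℂ) → ℂ}
    (hχ : ∀ l ∈ Λ, χ l ≠ 0) (hf : Vf Λ a χ f) (hne : ∃ z, f z ≠ 0) :
    ∀ l ∈ Λ, ∀ k ∈ Λ, ∃ n : ℤ, (aa a l k).im = Real.pi * n := by
  intro l hl k hk
  obtain ⟨z, hz⟩ := hne
  have h1 : f (z + l + k) = χ k * cexp (me a (z + l) k) * (χ l * cexp (me a z l) * f z) := by
    rw [hf.2 k hk, hf.2 l hl]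
  have h2 : f (z + k + l) = χ l * cexp (me a (z + k) l) * (χ k * cexp (me a z k) * f z) := by
    rw [hf.2 l hl, hf.2 k hk]
  have h3 : z + l + k = z + k + l := by abel
  rw [h3, h2, B2.me_add_left, B2.me_add_left, Complex.exp_add, Complex.exp_add] at h1
  have e1 := Complex.exp_ne_zero (me a z l)
  have e2 := Complex.exp_ne_zero (me a z k)
  have h4 : cexp (aa a k l) = cexp (aa a l k) := by
    have h5 : (χ l * χ k * cexp (me a z l) * cexp (me a z k) * f z) * cexp (aa a k l)
        = (χ l * χ k * cexp (me a z l) * cexp (me a z k) * f z) * cexp (aa a l k) := by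
      linear_combination h1
    exact mul_left_cancel₀ (mul_ne_zero (mul_ne_zero (mul_ne_zero (mul_ne_zero (hχ l hl) (hχ k hk))
      e1) e2) hz) h5
  obtain ⟨n, hn⟩ := Complex.exp_eq_exp_iff_exists_int.1 h4.symm
  refine ⟨n, ?_⟩
  rw [aa_comm a l k] at hn
  have h6 := congrArg Complex.im hn
  rw [Complex.add_im, Complex.conj_im] at h6
  have h7 : ((n : ℂ) * (2 * Real.pi * I)).im = 2 * Real.pi * n := by
    have : (n : ℂ) * (2 * Real.pi * I) = ((2 * Real.pi * n : ℝ) : ℂ) * I := by
      push_cast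
      ring
    rw [this, Complex.im_ofReal_mul, Complex.I_im, mul_one]
  rw [h7] at h6
  linarith

/-- the two forms of integrality -/
theorem int_two {a : ι → ℝ} {l k : ι → ℂ} (h : ∃ n : ℤ, (aa a l k).im = Real.pi * n) :
    ∃ n : ℤ, aa a l k - aa a k l = 2 * Real.pi * I * n := by
  obtain ⟨n, hn⟩ := h
  refine ⟨n, ?_⟩
  rw [aa_comm a l k, Complex.sub_conj, hn]
  push_cast
  ring

/-- the character of a function all whose periods are quasi-periods in the normalised form -/
theorem exists_Vf {Λ : AddSubgroup (ι → ℂ)} {a : ι → ℝ} {f : (ι → ℂ) → ℂ} (hf : Differentiable ℂ f)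
    (h : ∀ l ∈ Λ, QPn f a l) : ∃ χ : (ι → ℂ) → ℂ, (∀ l ∈ Λ, χ l ≠ 0) ∧ Vf Λ a χ f := by
  classical
  refine ⟨fun l => if hl : l ∈ Λ then (h l hl).choose else 1, fun l hl => ?_, hf, fun l hl z => ?_⟩
  · have h1 := (h l hl).choose_spec.1
    simp only [dif_pos hl]
    intro h0
    rw [h0, norm_zero] at h1
    exact zero_ne_one h1
  · have h1 := (h l hl).choose_spec.2 z
    simp only [dif_pos hl]
    exact h1

end

theorem emb_mul' {D : ℕ} (n : ℕ) (c : ℕ → ℤ) (s : ℕ) :
    emb D (fun j => n * c j) s = n * emb D c s := by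
  unfold emb
  rw [mul_sum]
  refine sum_congr rfl fun j _ => ?_
  push_cast
  ring

/-- **UForm** -/
theorem uForm : UForm := by
  intro D g t v v' hCM hT hT' i
  obtain ⟨s, κ, N, hN, hκ, hv, -, hs, hne, hA, hQ⟩ := hT
  obtain ⟨s', κ', N', hN', hκ', hv', -, hs', hne', hA', hQ'⟩ := hT'
  have hE : Emb D g t := hCM.toEmb
  have hM : 0 < N * N' := Nat.mul_pos hN hN'
  have hm : ∀ l ∈ AddSubgroup.closure (Set.range (eb hE hM)),
      (∃ c : ℕ → ℤ, l = fun i => (N : ℂ) * emb D c (t i)) ∧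
      ∃ c : ℕ → ℤ, l = fun i => (N' : ℂ) * emb D c (t i) := by
    intro l hl
    obtain ⟨c, rfl⟩ := (mem_eb hE hM l).1 hl
    refine ⟨⟨fun j => N' * c j, ?_⟩, ⟨fun j => N * c j, ?_⟩⟩
    · funext i
      rw [emb_mul']
      push_cast
      ring
    · funext i
      rw [emb_mul']
      push_cast
      ring
  set b := eb hE hM with hb
  set Λ := AddSubgroup.closure (Set.range b) with hΛ
  set V : Fin g → ℂ := fun i => (v i : ℂ) with hV
  set V' : Fin g → ℂ := fun i => (v' i : ℂ) with hV'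
  have hV0 : ∀ i, V i ≠ 0 := fun i => by
    show (v i : ℂ) ≠ 0
    exact_mod_cast (hv i).ne'
  have hV0' : ∀ i, V' i ≠ 0 := fun i => by
    show (v' i : ℂ) ≠ 0
    exact_mod_cast (hv' i).ne'
  have hfd : Differentiable ℂ (fun z : Fin g → ℂ => s (V * z)) :=
    hs.comp ((differentiable_const V).mul differentiable_id)
  have hfd' : Differentiable ℂ (fun z : Fin g → ℂ => s' (V' * z)) :=
    hs'.comp ((differentiable_const V').mul differentiable_id)
  have hn : ∃ z, (fun z : Fin g → ℂ => s (V * z)) z ≠ 0 := by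
    obtain ⟨z, hz⟩ := hne
    refine ⟨fun i => (V i)⁻¹ * z i, ?_⟩
    have : V * (fun i => (V i)⁻¹ * z i) = z := by
      funext i
      rw [Pi.mul_apply, mul_inv_cancel_left₀ (hV0 i)]
    show s (V * _) ≠ 0
    rwa [this]
  have hn' : ∃ z, (fun z : Fin g → ℂ => s' (V' * z)) z ≠ 0 := by
    obtain ⟨z, hz⟩ := hne'
    refine ⟨fun i => (V' i)⁻¹ * z i, ?_⟩
    have : V' * (fun i => (V' i)⁻¹ * z i) = z := by
      funext i
      rw [Pi.mul_apply, mul_inv_cancel_left₀ (hV0' i)]
    show s' (V' * _) ≠ 0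
    rwa [this]
  obtain ⟨χ, hχ, hf⟩ := exists_Vf (Λ := Λ) (a := κ) hfd (fun l hl => by
    obtain ⟨c, rfl⟩ := (hm l hl).1
    exact hQ c)
  obtain ⟨χ', hχ', hf'⟩ := exists_Vf (Λ := Λ) (a := κ') hfd' (fun l hl => by
    obtain ⟨c, rfl⟩ := (hm l hl).2
    exact hQ' c)
  have hint := u_vf_int hχ hf hn
  have hint' := u_vf_int hχ' hf' hn'
  have hbm : ∀ j, b j ∈ Λ := fun j => AddSubgroup.subset_closure (Set.mem_range_self j)
  have key : ∀ δ : Derivation ℚ ℂ ℂ, (fun i => δ (V' i) / V' i) = fun i => δ (V i) / V i := by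
    intro δ
    refine u_core δ b Λ rfl hκ hκ' (fun j k => hint _ (hbm j) _ (hbm k))
      (fun j k => hint' _ (hbm j) _ (hbm k)) hχ hχ' hf hf' hn hn'
      (isDer_scale hs (alg_of_algTay hA) hV0 δ) (isDer_scale hs' (alg_of_algTay hA') hV0' δ)
      (fun k hk l hl z => B2.dif_dif_Ec hf _ hl hk (hχ l hl) (hχ k hk) z)
      (fun k hk l hl z => B2.dif_dif_Ec hf' _ hl hk (hχ' l hl) (hχ' k hk) z)
      (fun a'' ha'' hi'' => exists_SDc δ b ha'' (fun l hl k hk =>
        int_two (int_of_basis b a'' hi'' l hl k hk)))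
  have halg : IsAlgebraic ℚ (V i / V' i) := by
    refine DRV.isAlgebraic_of_forall fun δ => ?_
    have h1 := congrFun (key δ) i
    have h2 : V i = V' i * (V i / V' i) := by rw [mul_div_cancel₀ _ (hV0' i)]
    have h3 : δ (V i) = V' i * δ (V i / V' i) + (V i / V' i) * δ (V' i) := by
      conv_lhs => rw [h2]
      rw [Derivation.leibniz, smul_eq_mul, smul_eq_mul]
    have h4 : V' i * δ (V i / V' i) = 0 := by
      have h5 : δ (V' i) = δ (V i) / V i * V' i := by
        rw [← h1, div_mul_cancel₀ _ (hV0' i)]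
      rw [h5] at h3
      have h6 : V i / V' i * (δ (V i) / V i * V' i) = δ (V i) := by
        have e1 := hV0 i
        have e2 := hV0' i
        field_simp
      rw [h6] at h3
      linear_combination -h3
    rcases mul_eq_zero.1 h4 with h | h
    · exact absurd h (hV0' i)
    · exact h
  have h7 : V i / V' i = ((v i / v' i : ℝ) : ℂ) := by
    push_cast
    rfl
  rw [h7] at halg
  exact (isAlgebraic_algebraMap_iff (A := ℂ) RCLike.ofReal_injective).1 halg

end

end Pool.Agent.ALD
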