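import Mathlib

/-!
# ALD-ULem: two lemmas for (U)

* a diagonal matrix which maps a lattice into itself has algebraic entries;
* a finite product of entire functions of several variables which are not identically zero is not
  identically zero.
-/

set_option autoImplicit false

namespace Pool.Agent.ALD

open Finset Complex ComplexConjugate

theorem stab_alg {ι J : Type} [Fintype J] (b : Module.Basis J ℝ (ι → ℂ))
    (B : ι → ℂ) (hB : ∀ l ∈ AddSubgroup.closure (Set.range b), B * l ∈ AddSubgroup.closure (Set.range b))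
    (i : ι) : IsAlgebraic ℚ (B i) := by
  classical
  set S : Submodule ℤ (ι → ℂ) := Submodule.span ℤ (Set.range b) with hS
  have hmem : ∀ x, x ∈ S ↔ x ∈ AddSubgroup.closure (Set.range b) := by
    intro x
    rw [hS, ← Submodule.mem_toAddSubgroup, Submodule.span_int_eq_addSubgroupClosure]
  have hfin : Module.Finite ℤ S := by
    rw [Module.Finite.iff_fg]
    exact Submodule.fg_span (Set.finite_range b)
  let φ : Module.End ℤ S :=
    { toFun := fun x => ⟨B * x.1, (hmem _).2 (hB _ ((hmem _).1 x.2))⟩
      map_add' := fun x y => by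
        ext1
        exact mul_add B x.1 y.1
      map_smul' := fun r x => by
        ext1
        exact mul_smul_comm r B x.1 }
  obtain ⟨p, hp, hp0⟩ := LinearMap.exists_monic_and_aeval_eq_zero ℤ φ
  have hpow : ∀ (n : ℕ) (x : S) (j : ι), ((φ ^ n) x).1 j = B j ^ n * x.1 j := by
    intro n
    induction n with
    | zero => intro x j; simp
    | succ n ih =>
      intro x j
      rw [pow_succ, Module.End.mul_apply, ih (φ x) j]
      have : (φ x).1 j = B j * x.1 j := rfl
      rw [this]
      ring
  have hev : ∀ (q : Polynomial ℤ) (x : S) (j : ι),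
      ((Polynomial.aeval φ q) x).1 j = Polynomial.aeval (B j) q * x.1 j := by
    intro q x j
    induction q using Polynomial.induction_on' with
    | add p q hp hq =>
      rw [map_add, map_add, add_mul, ← hp, ← hq]
      rfl
    | monomial n r =>
      rw [Polynomial.aeval_monomial, Polynomial.aeval_monomial, Module.End.mul_apply]
      have h1 : ((algebraMap ℤ (Module.End ℤ S) r) ((φ ^ n) x)).1 j = (r : ℂ) * ((φ ^ n) x).1 j := by
        rw [Module.algebraMap_end_apply]
        have : (r • (φ ^ n) x).1 j = r • ((φ ^ n) x).1 j := rfl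
        rw [this, zsmul_eq_mul]
      rw [h1, hpow]
      have h2 : (algebraMap ℤ ℂ r) = (r : ℂ) := rfl
      rw [h2]
      ring
  obtain ⟨k, hk⟩ : ∃ k, b k i ≠ 0 := by
    by_contra hno
    push Not at hno
    have h1 : (Pi.single i (1 : ℂ) : ι → ℂ) = 0 + (Pi.single i (1 : ℂ) : ι → ℂ) := by rw [zero_add]
    have h2 : ∀ x : ι → ℂ, x i = 0 := by
      intro x
      rw [← b.sum_repr x, Finset.sum_apply]
      refine Finset.sum_eq_zero fun j _ => ?_
      rw [Pi.smul_apply, hno j, smul_zero]
    have h3 := h2 (Pi.single i 1)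
    rw [Pi.single_eq_same] at h3
    exact one_ne_zero h3
  have h4 := hev p ⟨b k, Submodule.subset_span ⟨k, rfl⟩⟩ i
  rw [hp0] at h4
  have h5 : Polynomial.aeval (B i) p = 0 := by
    have h6 : (0 : ℂ) = Polynomial.aeval (B i) p * b k i := h4
    rcases mul_eq_zero.1 h6.symm with h | h
    · exact h
    · exact absurd h hk
  have h7 : IsAlgebraic ℤ (B i) := ⟨p, hp.ne_zero, h5⟩
  exact h7.extendScalars (RingHom.injective_int (algebraMap ℤ ℚ))

theorem ent_mul_ne {ι : Type} [Fintype ι] {f g : (ι → ℂ) → ℂ} (hf : Differentiable ℂ f)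
    (hg : Differentiable ℂ g) (h1 : ∃ z, f z ≠ 0) (h2 : ∃ z, g z ≠ 0) : ∃ z, f z * g z ≠ 0 := by
  obtain ⟨p, hp⟩ := h1
  obtain ⟨q, hq⟩ := h2
  by_contra hno
  push Not at hno
  have hline : Differentiable ℂ fun t : ℂ => p + t • (q - p) :=
    (differentiable_const p).add (differentiable_id.smul_const (q - p))
  have hF : AnalyticOnNhd ℂ (fun t : ℂ => f (p + t • (q - p))) Set.univ :=
    fun t _ => (hf.comp hline).analyticAt t
  have hG : AnalyticOnNhd ℂ (fun t : ℂ => g (p + t • (q - p))) Set.univ :=
    fun t _ => (hg.comp hline).analyticAt t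
  rcases hF.eq_zero_or_eq_zero_of_mul_eq_zero hG (fun t _ => hno _) isPreconnected_univ with h | h
  · apply hp
    have := h 0 (Set.mem_univ _)
    simpa using this
  · apply hq
    have := h 1 (Set.mem_univ _)
    simpa using this

theorem ent_prod_diff {ι : Type} [Fintype ι] {A : Type} (S : Finset A) {f : A → (ι → ℂ) → ℂ}
    (hf : ∀ j, Differentiable ℂ (f j)) : Differentiable ℂ fun z => ∏ j ∈ S, f j z := by
  classical
  induction S using Finset.induction_on with
  | empty =>
    simp only [Finset.prod_empty]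
    exact differentiable_const _
  | insert j S hj ih =>
    have e : (fun z => ∏ i ∈ insert j S, f i z) = fun z => f j z * ∏ i ∈ S, f i z := by
      funext z
      rw [Finset.prod_insert hj]
    rw [e]
    exact (hf j).mul ih

theorem ent_prod_ne {ι : Type} [Fintype ι] {A : Type} (S : Finset A) {f : A → (ι → ℂ) → ℂ}
    (hf : ∀ j, Differentiable ℂ (f j)) (h1 : ∀ j, ∃ z, f j z ≠ 0) : ∃ z, ∏ j ∈ S, f j z ≠ 0 := by
  classical
  induction S using Finset.induction_on with
  | empty => exact ⟨0, by simp⟩
  | insert j S hj ih =>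
    obtain ⟨z, hz⟩ := ent_mul_ne (hf j) (ent_prod_diff S hf) (h1 j) ih
    exact ⟨z, by rwa [Finset.prod_insert hj]⟩

end Pool.Agent.ALD
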