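import Pool.Agent.ALD.Uint
import Pool.Agent.ALD.ULem
import Pool.Agent.ALD.B2c
import Pool.Agent.ALD.Der
import Pool.Agent.ALD.B2Defs

/-!
# ALD-Ucore: uniqueness (U) of the exponents for two polarisations of one lattice

`f`, `f'` nonzero theta functions for the weights `a`, `a'` and the same lattice `Λ` whose second
differences of `f^δ`, `f'^δ` are diagonal with coefficients `c_s a_s`, `c'_s a'_s`. Then `c = c'`: with
`β = a'/a` and `N β Λ ⊆ Λ` compare `f(Nβz) f(Nz) f'(Nz)²` and `f(N(1+β)z)`, both of weight `N²(1+β)² a`.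
-/

set_option autoImplicit false
set_option linter.unusedSectionVars false

namespace Pool.Agent.ALD

open Finset Complex ComplexConjugate

noncomputable section

variable {ι : Type} [Fintype ι] [DecidableEq ι]

/-- the diagonal symmetric form `∑ C_s (l_s conj k_s + conj l_s k_s)` -/
def dgf (C : ι → ℂ) (l k : ι → ℂ) : ℂ := ∑ s, C s * (l s * conj (k s) + conj (l s) * k s)

theorem dgf_add_left (C : ι → ℂ) (l l' k : ι → ℂ) : dgf C (l + l') k = dgf C l k + dgf C l' k := by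
  unfold dgf
  rw [← Finset.sum_add_distrib]
  refine Finset.sum_congr rfl fun s _ => ?_
  rw [Pi.add_apply, map_add]
  ring

theorem dgf_symm (C : ι → ℂ) (l k : ι → ℂ) : dgf C l k = dgf C k l := by
  unfold dgf
  refine Finset.sum_congr rfl fun s _ => ?_
  ring

theorem dgf_add_right (C : ι → ℂ) (l k k' : ι → ℂ) : dgf C l (k + k') = dgf C l k + dgf C l k' := by
  rw [dgf_symm, dgf_add_left, dgf_symm C k l, dgf_symm C k' l]

theorem dgf_smul_left (C : ι → ℂ) (r : ℝ) (l k : ι → ℂ) : dgf C (r • l) k = r * dgf C l k := by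
  unfold dgf
  rw [Finset.mul_sum]
  refine Finset.sum_congr rfl fun s _ => ?_
  rw [Pi.smul_apply, Complex.real_smul, map_mul, Complex.conj_ofReal]
  ring

/-- the coefficients of a diagonal form are determined by its values on a real basis -/
theorem dgf_inj {J : Type} [Fintype J] (b : Module.Basis J ℝ (ι → ℂ)) {C C' : ι → ℂ}
    (h : ∀ j k, dgf C (b j) (b k) = dgf C' (b j) (b k)) : C = C' := by
  have h1 : ∀ (l : ι → ℂ) (k : J), dgf C l (b k) = dgf C' l (b k) := by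
    intro l k
    have e : ∀ D : ι → ℂ, dgf D l (b k) = ∑ j, (b.repr l j : ℂ) * dgf D (b j) (b k) := by
      intro D
      have hL : dgf D l (b k) = dgf D (∑ j, b.repr l j • b j) (b k) := by rw [b.sum_repr l]
      rw [hL]
      have hs : ∀ S : Finset J, dgf D (∑ j ∈ S, b.repr l j • b j) (b k)
          = ∑ j ∈ S, (b.repr l j : ℂ) * dgf D (b j) (b k) := by
        intro S
        classical
        induction S using Finset.induction_on with
        | empty => simp [dgf]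
        | insert j S hj ih =>
          rw [Finset.sum_insert hj, Finset.sum_insert hj, dgf_add_left, dgf_smul_left, ih]
      exact hs _
    rw [e C, e C']
    exact Finset.sum_congr rfl fun j _ => by rw [h]
  have h2 : ∀ l k : ι → ℂ, dgf C l k = dgf C' l k := by
    intro l k
    have e : ∀ D : ι → ℂ, dgf D l k = ∑ j, (b.repr k j : ℂ) * dgf D l (b j) := by
      intro D
      have hL : dgf D l k = dgf D l (∑ j, b.repr k j • b j) := by rw [b.sum_repr k]
      rw [hL]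
      have hs : ∀ S : Finset J, dgf D l (∑ j ∈ S, b.repr k j • b j)
          = ∑ j ∈ S, (b.repr k j : ℂ) * dgf D l (b j) := by
        intro S
        classical
        induction S using Finset.induction_on with
        | empty => simp [dgf]
        | insert j S hj ih =>
          rw [Finset.sum_insert hj, Finset.sum_insert hj, dgf_add_right, dgf_symm D l (_ • _),
            dgf_smul_left, dgf_symm D (b j) l, ih]
      exact hs _
    rw [e C, e C']
    exact Finset.sum_congr rfl fun j _ => by rw [h1]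
  funext s
  have h3 := h2 (Pi.single s 1) (Pi.single s 1)
  have e : ∀ D : ι → ℂ, dgf D (Pi.single s 1) (Pi.single s 1) = 2 * D s := by
    intro D
    unfold dgf
    rw [Finset.sum_eq_single s]
    · simp
      ring
    · intro t _ hts
      simp [hts]
    · intro hs
      exact absurd (Finset.mem_univ s) hs
  rw [e, e] at h3
  exact mul_left_cancel₀ two_ne_zero h3

theorem aa_im (a : ι → ℝ) (z w : ι → ℂ) : (aa a z w).im = ∑ i, a i * (z i * conj (w i)).im := by
  unfold aa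
  rw [Complex.im_sum]
  refine Finset.sum_congr rfl fun i _ => ?_
  rw [mul_assoc, Complex.im_ofReal_mul]

theorem aa_comm (a : ι → ℝ) (z w : ι → ℂ) : aa a w z = conj (aa a z w) := by
  unfold aa
  rw [map_sum]
  refine Finset.sum_congr rfl fun i _ => ?_
  rw [map_mul, map_mul, Complex.conj_ofReal, Complex.conj_conj]
  ring

theorem aa_mul (a : ι → ℝ) (β z w : ι → ℂ) :
    aa a (β * z) (β * w) = aa (fun i => ‖β i‖ ^ 2 * a i) z w := by
  unfold aa
  refine Finset.sum_congr rfl fun i _ => ?_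
  rw [Pi.mul_apply, Pi.mul_apply, map_mul]
  have : ((‖β i‖ ^ 2 * a i : ℝ) : ℂ) = (β i * conj (β i)) * a i := by
    rw [Complex.mul_conj, Complex.normSq_eq_norm_sq]
    push_cast
    ring
  rw [this]
  ring

theorem dgf_mul (C β l k : ι → ℂ) :
    dgf C (β * l) (β * k) = dgf (fun i => (‖β i‖ ^ 2 : ℝ) * C i) l k := by
  unfold dgf
  refine Finset.sum_congr rfl fun i _ => ?_
  rw [Pi.mul_apply, Pi.mul_apply, map_mul, map_mul]
  have : ((‖β i‖ ^ 2 : ℝ) : ℂ) = β i * conj (β i) := by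
    rw [Complex.mul_conj, Complex.normSq_eq_norm_sq]
  show _ = ((‖β i‖ ^ 2 : ℝ) : ℂ) * C i * _
  rw [this]
  ring

theorem dgf_add_coef (C D l k : ι → ℂ) : dgf (fun i => C i + D i) l k = dgf C l k + dgf D l k := by
  unfold dgf
  rw [← Finset.sum_add_distrib]
  refine Finset.sum_congr rfl fun i _ => ?_
  ring

/-- stability of a lattice under a diagonal matrix from the basis vectors -/
theorem stab_of_basis {J : Type} (b : J → ι → ℂ) (B : ι → ℂ)
    (h : ∀ j, B * b j ∈ AddSubgroup.closure (Set.range b)) :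
    ∀ l ∈ AddSubgroup.closure (Set.range b), B * l ∈ AddSubgroup.closure (Set.range b) := by
  intro l hl
  induction hl using AddSubgroup.closure_induction with
  | mem x hx =>
    obtain ⟨j, rfl⟩ := hx
    exact h j
  | zero =>
    rw [mul_zero]
    exact AddSubgroup.zero_mem _
  | add x y _ _ hx hy =>
    rw [mul_add]
    exact AddSubgroup.add_mem _ hx hy
  | neg x _ hx =>
    rw [mul_neg]
    exact AddSubgroup.neg_mem _ hx

theorem u_aa_neg_left (a : ι → ℝ) (z w : ι → ℂ) : aa a (-z) w = -aa a z w := by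
  unfold aa
  rw [← Finset.sum_neg_distrib]
  refine Finset.sum_congr rfl fun i _ => ?_
  rw [Pi.neg_apply]
  ring

/-- integrality on the lattice from the basis -/
theorem int_of_basis {J : Type} (b : J → ι → ℂ) (a : ι → ℝ)
    (h : ∀ j k, ∃ n : ℤ, (aa a (b j) (b k)).im = Real.pi * n) :
    ∀ l ∈ AddSubgroup.closure (Set.range b), ∀ k ∈ AddSubgroup.closure (Set.range b),
      ∃ n : ℤ, (aa a l k).im = Real.pi * n := by
  have h1 : ∀ l ∈ AddSubgroup.closure (Set.range b), ∀ j, ∃ n : ℤ,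
      (aa a l (b j)).im = Real.pi * n := by
    intro l hl j
    induction hl using AddSubgroup.closure_induction with
    | mem x hx =>
      obtain ⟨i, rfl⟩ := hx
      exact h i j
    | zero => exact ⟨0, by simp [aa]⟩
    | add x y _ _ hx hy =>
      obtain ⟨m, hm⟩ := hx
      obtain ⟨n, hn⟩ := hy
      refine ⟨m + n, ?_⟩
      rw [B2.aa_add_left, Complex.add_im, hm, hn]
      push_cast
      ring
    | neg x _ hx =>
      obtain ⟨m, hm⟩ := hx
      refine ⟨-m, ?_⟩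
      rw [u_aa_neg_left, Complex.neg_im, hm]
      push_cast
      ring
  intro l hl k hk
  induction hk using AddSubgroup.closure_induction with
  | mem x hx =>
    obtain ⟨j, rfl⟩ := hx
    exact h1 l hl j
  | zero => exact ⟨0, by simp [aa]⟩
  | add x y _ _ hx hy =>
    obtain ⟨m, hm⟩ := hx
    obtain ⟨n, hn⟩ := hy
    refine ⟨m + n, ?_⟩
    rw [aa_comm a (x + y) l, B2.aa_add_left, map_add, ← aa_comm, ← aa_comm, Complex.add_im, hm, hn]
    push_cast
    ring
  | neg x _ hx =>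
    obtain ⟨m, hm⟩ := hx
    refine ⟨-m, ?_⟩
    rw [aa_comm a (-x) l, u_aa_neg_left, map_neg, ← aa_comm, Complex.neg_im, hm]
    push_cast
    ring

private theorem uc_prod {A : Type} [Fintype A] [DecidableEq A] (δ : Derivation ℚ ℂ ℂ)
    (Λ : AddSubgroup (ι → ℂ)) (a : A → ι → ℝ) (χ : A → (ι → ℂ) → ℂ) (f u : A → (ι → ℂ) → ℂ)
    (α : A → ι → ℂ) (c : A → (ι → ℂ) → (ι → ℂ) → ℂ) (hα : ∀ j i, IsAlgebraic ℚ (α j i))
    (hΛ : ∀ j, ∀ l ∈ Λ, α j * l ∈ Λ) (hχ : ∀ j, ∀ l ∈ Λ, χ j l ≠ 0)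
    (hf : ∀ j, Vf Λ (a j) (χ j) (f j)) (hu : ∀ j, CMT.IsDer δ (f j) (u j))
    (hd : ∀ j, ∀ k ∈ Λ, ∀ l ∈ Λ, ∀ z,
      dif (a j) (χ j) k (dif (a j) (χ j) l (u j)) z = c j l k * f j z) :
    Vf Λ (fun i => ∑ j, ‖α j i‖ ^ 2 * a j i) (fun l => ∏ j, χ j (α j * l))
      (fun z => ∏ j, f j (α j * z)) ∧
    ∃ U, CMT.IsDer δ (fun z => ∏ j, f j (α j * z)) U ∧ ∀ k ∈ Λ, ∀ l ∈ Λ, ∀ z,
      dif (fun i => ∑ j, ‖α j i‖ ^ 2 * a j i) (fun l => ∏ j, χ j (α j * l)) k
        (dif (fun i => ∑ j, ‖α j i‖ ^ 2 * a j i) (fun l => ∏ j, χ j (α j * l)) l U) z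
        = (∑ j, c j (α j * l) (α j * k)) * ∏ j, f j (α j * z) := by
  refine ⟨B2.Vf_fP (Λ' := fun _ => Λ) hf hΛ, B2.uP f u α, ?_,
    B2.dif_dif_uP (Λ' := fun _ => Λ) hf hχ hΛ hd⟩
  have hdm : ∀ j, Differentiable ℂ fun z : ι → ℂ => f j (α j * z) :=
    fun j => (hf j).1.comp ((differentiable_const (α j)).mul differentiable_id)
  exact (der_prod Finset.univ (f := fun j z => f j (α j * z)) (u := fun j z => u j (α j * z))
    (fun j _ => hdm j)
    (fun j _ => der_comp_diag (hf j).1 (hu j) (α j) (fun i => der_alg (hα j i)))).2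

theorem u_core {J : Type} [Fintype J] [DecidableEq J] (δ : Derivation ℚ ℂ ℂ)
    (b : Module.Basis J ℝ (ι → ℂ)) (Λ : AddSubgroup (ι → ℂ))
    (hΛ : Λ = AddSubgroup.closure (Set.range b)) {a a' : ι → ℝ} 
    (hpos : ∀ i, 0 < a i) (hpos' : ∀ i, 0 < a' i)
    (hint : ∀ j k, ∃ n : ℤ, (aa a (b j) (b k)).im = Real.pi * n)
    (hint' : ∀ j k, ∃ n : ℤ, (aa a' (b j) (b k)).im = Real.pi * n)
    {χ χ' f f' u u' : (ι → ℂ) → ℂ} {c c' : ι → ℂ}
    (hχ : ∀ l ∈ Λ, χ l ≠ 0) (hχ' : ∀ l ∈ Λ, χ' l ≠ 0) (hf : Vf Λ a χ f) (hf' : Vf Λ a' χ' f')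
    (hne : ∃ z, f z ≠ 0) (hne' : ∃ z, f' z ≠ 0) (hu : CMT.IsDer δ f u) (hu' : CMT.IsDer δ f' u')
    (hd : ∀ k ∈ Λ, ∀ l ∈ Λ, ∀ z, dif a χ k (dif a χ l u) z = dgf (fun s => c s * a s) l k * f z)
    (hd' : ∀ k ∈ Λ, ∀ l ∈ Λ, ∀ z,
      dif a' χ' k (dif a' χ' l u') z = dgf (fun s => c' s * a' s) l k * f' z)
    (hB1 : ∀ a'' : ι → ℝ, (∀ i, 0 < a'' i) →
      (∀ j k, ∃ n : ℤ, (aa a'' (b j) (b k)).im = Real.pi * n) → ∃ C, SDc δ Λ a'' C) : c' = c := by
  subst hΛ
  obtain ⟨N, hN, hNint⟩ := mul_integral b a a' hpos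
    (fun j k => by rw [← aa_im]; exact hint j k) (fun j k => by rw [← aa_im]; exact hint' j k)
  have hN0 : (0 : ℝ) < N := by exact_mod_cast hN
  set B : ι → ℂ := fun i => ((N * (a' i / a i) : ℝ) : ℂ) with hB
  set M : ι → ℂ := fun _ => (N : ℂ) with hM
  set Λ := AddSubgroup.closure (Set.range b) with hΛ
  have hBΛ : ∀ l ∈ Λ, B * l ∈ Λ := by
    apply stab_of_basis
    intro j
    have h1 := hNint j
    rw [← Submodule.mem_toAddSubgroup, Submodule.span_int_eq_addSubgroupClosure] at h1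
    convert h1 using 1
    funext i
    rw [Pi.mul_apply, Pi.smul_apply, zsmul_eq_mul, hB]
    push_cast
    ring
  have hMΛ : ∀ l ∈ Λ, M * l ∈ Λ := by
    intro l hl
    have : M * l = N • l := by
      funext i
      rw [Pi.mul_apply, Pi.smul_apply, nsmul_eq_mul]
    rw [this]
    exact AddSubgroup.nsmul_mem _ hl N
  have hBMΛ : ∀ l ∈ Λ, (B + M) * l ∈ Λ := by
    intro l hl
    rw [add_mul]
    exact Λ.add_mem (hBΛ l hl) (hMΛ l hl)
  have hBalg : ∀ i, IsAlgebraic ℚ (B i) := stab_alg b B hBΛ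
  have hMalg : ∀ i, IsAlgebraic ℚ (M i) := fun i => isAlgebraic_natCast N
  have hBpos : ∀ i, 0 < N * (a' i / a i) := fun i => mul_pos hN0 (div_pos (hpos' i) (hpos i))
  have hBne : ∀ i, B i ≠ 0 := fun i => by
    have := (hBpos i).ne'
    show ((N * (a' i / a i) : ℝ) : ℂ) ≠ 0
    exact_mod_cast this
  have hMne : ∀ i, M i ≠ 0 := fun i => by
    have := hN0.ne'
    show (N : ℂ) ≠ 0
    exact_mod_cast this
  have hBMval : ∀ i, (B + M) i = ((N * (a' i / a i) + N : ℝ) : ℂ) := fun i => by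
    rw [Pi.add_apply, hB, hM]
    push_cast
    ring
  have hBMne : ∀ i, (B + M) i ≠ 0 := fun i => by
    rw [hBMval]
    have : (N * (a' i / a i) + N : ℝ) ≠ 0 := (add_pos (hBpos i) hN0).ne'
    exact_mod_cast this
  have nB : ∀ i, ‖B i‖ = N * (a' i / a i) := fun i => by
    rw [hB]
    exact (Complex.norm_real _).trans (Real.norm_of_nonneg (hBpos i).le)
  have nM : ∀ i, ‖M i‖ = N := fun i => by
    rw [hM]
    exact Complex.norm_natCast N
  have nBM : ∀ i, ‖(B + M) i‖ = N * (a' i / a i) + N := fun i => by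
    rw [hBMval]
    exact (Complex.norm_real _).trans (Real.norm_of_nonneg (add_pos (hBpos i) hN0).le)
  -- the weights
  set A2 : ι → ℝ := fun i => ‖(B + M) i‖ ^ 2 * a i with hA2
  obtain ⟨C, hC1, hC2, hC3⟩ := hB1 A2
    (fun i => by
      have h1 := hpos i
      have h2 : 0 < ‖(B + M) i‖ := norm_pos_iff.2 (hBMne i)
      exact mul_pos (pow_pos h2 2) h1)
    (fun j k => by
      rw [hA2, ← aa_mul]
      exact int_of_basis b a hint _ (hBMΛ _ (AddSubgroup.subset_closure ⟨j, rfl⟩)) _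
        (hBMΛ _ (AddSubgroup.subset_closure ⟨k, rfl⟩)))
  -- scaling a nonzero function
  have scne : ∀ (g : (ι → ℂ) → ℂ) (D : ι → ℂ), (∀ i, D i ≠ 0) → (∃ z, g z ≠ 0) →
      ∃ z, g (D * z) ≠ 0 := by
    rintro g D hD ⟨z, hz⟩
    refine ⟨fun i => (D i)⁻¹ * z i, ?_⟩
    have : D * (fun i => (D i)⁻¹ * z i) = z := by
      funext i
      rw [Pi.mul_apply, mul_inv_cancel_left₀ (hD i)]
    rwa [this]
  -- family 1
  obtain ⟨hV1, U1, hU1, hS1⟩ := uc_prod (A := Fin 4) δ Λ ![a, a, a', a'] ![χ, χ, χ', χ']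
    ![f, f, f', f'] ![u, u, u', u'] ![B, M, M, M]
    ![dgf (fun s => c s * a s), dgf (fun s => c s * a s), dgf (fun s => c' s * a' s),
      dgf (fun s => c' s * a' s)]
    (by intro j i; fin_cases j <;> first | exact hBalg i | exact hMalg i)
    (by intro j; fin_cases j <;> first | exact hBΛ | exact hMΛ)
    (by intro j; fin_cases j <;> first | exact hχ | exact hχ')
    (by intro j; fin_cases j <;> first | exact hf | exact hf')
    (by intro j; fin_cases j <;> first | exact hu | exact hu')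
    (by intro j; fin_cases j <;> first | exact hd | exact hd')
  obtain ⟨hV2, U2, hU2, hS2⟩ := uc_prod (A := Fin 1) δ Λ ![a] ![χ] ![f] ![u] ![B + M]
    ![dgf (fun s => c s * a s)]
    (by intro j i; fin_cases j; exact (hBalg i).add (hMalg i))
    (by intro j; fin_cases j; exact hBMΛ)
    (by intro j; fin_cases j; exact hχ)
    (by intro j; fin_cases j; exact hf)
    (by intro j; fin_cases j; exact hu)
    (by intro j; fin_cases j; exact hd)
  have hW1 : (fun i => ∑ j, ‖(![B, M, M, M] : Fin 4 → ι → ℂ) j i‖ ^ 2 *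
      (![a, a, a', a'] : Fin 4 → ι → ℝ) j i) = fun i => ((1 : ℕ) : ℝ) * A2 i := by
    funext i
    rw [Fin.sum_univ_four]
    have e : ‖B i‖ ^ 2 * a i + ‖M i‖ ^ 2 * a i + ‖M i‖ ^ 2 * a' i + ‖M i‖ ^ 2 * a' i
        = ‖(B + M) i‖ ^ 2 * a i := by
      rw [nB i, nM i, nBM i]
      have := (hpos i).ne'
      field_simp
      ring
    rw [Nat.cast_one, one_mul]
    exact e
  have hW2 : (fun i => ∑ j, ‖(![B + M] : Fin 1 → ι → ℂ) j i‖ ^ 2 *
      (![a] : Fin 1 → ι → ℝ) j i) = fun i => ((1 : ℕ) : ℝ) * A2 i := by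
    funext i
    rw [Fin.sum_univ_one, Nat.cast_one, one_mul]
    rfl
  rw [hW1] at hV1 hS1
  rw [hW2] at hV2 hS2
  have hn1 : ∃ z, (fun z => ∏ j, (![f, f, f', f'] : Fin 4 → (ι → ℂ) → ℂ) j
      ((![B, M, M, M] : Fin 4 → ι → ℂ) j * z)) z ≠ 0 := by
    refine ent_prod_ne (f := fun (j : Fin 4) z => (![f, f, f', f'] : Fin 4 → (ι → ℂ) → ℂ) j
      ((![B, M, M, M] : Fin 4 → ι → ℂ) j * z)) Finset.univ ?_ ?_
    · intro j
      have hdm : ∀ D : ι → ℂ, Differentiable ℂ fun z : ι → ℂ => D * z :=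
        fun D => (differentiable_const D).mul differentiable_id
      fin_cases j
      · exact hf.1.comp (hdm B)
      · exact hf.1.comp (hdm M)
      · exact hf'.1.comp (hdm M)
      · exact hf'.1.comp (hdm M)
    · intro j
      fin_cases j
      · exact scne f B hBne hne
      · exact scne f M hMne hne
      · exact scne f' M hMne hne'
      · exact scne f' M hMne hne'
  have hn2 : ∃ z, (fun z => ∏ j, (![f] : Fin 1 → (ι → ℂ) → ℂ) j
      ((![B + M] : Fin 1 → ι → ℂ) j * z)) z ≠ 0 := by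
    obtain ⟨z, hz⟩ := scne f (B + M) hBMne hne
    refine ⟨z, ?_⟩
    simp only [Fin.prod_univ_one]
    exact hz
  have hch1 : ∀ l ∈ Λ, (fun l => ∏ j, (![χ, χ, χ', χ'] : Fin 4 → (ι → ℂ) → ℂ) j
      ((![B, M, M, M] : Fin 4 → ι → ℂ) j * l)) l ≠ 0 := by
    intro l hl
    refine Finset.prod_ne_zero_iff.2 fun j _ => ?_
    fin_cases j
    · exact hχ _ (hBΛ l hl)
    · exact hχ _ (hMΛ l hl)
    · exact hχ' _ (hMΛ l hl)
    · exact hχ' _ (hMΛ l hl)
  have hch2 : ∀ l ∈ Λ, (fun l => ∏ j, (![χ] : Fin 1 → (ι → ℂ) → ℂ) j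
      ((![B + M] : Fin 1 → ι → ℂ) j * l)) l ≠ 0 := by
    intro l hl
    simp only [Fin.prod_univ_one]
    exact hχ _ (hBMΛ l hl)
  have key : ∀ l ∈ Λ, ∀ k ∈ Λ,
      dgf (fun i => (‖B i‖ ^ 2 : ℝ) * (c i * a i) + (‖M i‖ ^ 2 : ℝ) * (c i * a i) +
        (‖M i‖ ^ 2 : ℝ) * (c' i * a' i) + (‖M i‖ ^ 2 : ℝ) * (c' i * a' i)) l k
      = dgf (fun i => (‖(B + M) i‖ ^ 2 : ℝ) * (c i * a i)) l k := by
    intro l hl k hk
    obtain ⟨z1, hz1⟩ := hn1
    obtain ⟨z2, hz2⟩ := hn2
    have e1 := hC3 1 _ _ _ one_pos hch1 hV1 ⟨z1, hz1⟩ hU1 k hk l hl z1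
    have e2 := hC3 1 _ _ _ one_pos hch2 hV2 ⟨z2, hz2⟩ hU2 k hk l hl z2
    rw [hS1 k hk l hl z1] at e1
    rw [hS2 k hk l hl z2] at e2
    have e1' := mul_right_cancel₀ hz1 e1
    have e2' := mul_right_cancel₀ hz2 e2
    rw [Fin.sum_univ_four] at e1'
    rw [Fin.sum_univ_one] at e2'
    have e1'' : dgf (fun s => c s * a s) (B * l) (B * k) + dgf (fun s => c s * a s) (M * l) (M * k) +
      dgf (fun s => c' s * a' s) (M * l) (M * k) + dgf (fun s => c' s * a' s) (M * l) (M * k)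
      = ((1 : ℕ) : ℂ) * C l k := e1'
    have e2'' : dgf (fun s => c s * a s) ((B + M) * l) ((B + M) * k) = ((1 : ℕ) : ℂ) * C l k := e2'
    rw [dgf_mul, dgf_mul, dgf_mul] at e1''
    rw [dgf_mul] at e2''
    rw [dgf_add_coef, dgf_add_coef, dgf_add_coef, e1'', e2'']
  have hC := dgf_inj b (fun j k => key _ (AddSubgroup.subset_closure ⟨j, rfl⟩) _
    (AddSubgroup.subset_closure ⟨k, rfl⟩))
  funext i
  have h1 := congrFun hC i
  simp only [nB, nM, nBM] at h1
  have h2 : ((a' i / a i : ℝ) : ℂ) * a i = a' i := by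
    rw [← Complex.ofReal_mul, div_mul_cancel₀ _ (hpos i).ne']
  have h3 : (a' i : ℂ) ≠ 0 := by exact_mod_cast (hpos' i).ne'
  have h4 : (N : ℂ) ≠ 0 := by exact_mod_cast hN.ne'
  push_cast at h1 h2
  have h5 : (2 * (N : ℂ) ^ 2 * a' i) * c' i = (2 * (N : ℂ) ^ 2 * a' i) * c i := by
    linear_combination h1 + 2 * (N : ℂ) ^ 2 * c i * h2
  exact mul_left_cancel₀ (mul_ne_zero (mul_ne_zero two_ne_zero (pow_ne_zero 2 h4)) h3) h5

end

end Pool.Agent.ALD
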