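import Mathlib

/-!
# ALD-Uint: two polarisations of one lattice differ by a rational multiplication

`b` is a real basis of `ι → ℂ`, `Λ` its `ℤ`-span; `a`, `a'` two weights with
`Im (∑ a_i l_i conj k_i) ∈ π ℤ` on the basis. Then multiplication by `N a'/a` maps `Λ` into itself
for some `N > 0`.
-/

set_option autoImplicit false

namespace Pool.Agent.ALD

open Complex ComplexConjugate Finset Matrix

/-- the real bilinear form `Im (∑ a_i z_i conj w_i)` -/
private noncomputable def uE {ι : Type} [Fintype ι] (a : ι → ℝ) (z w : ι → ℂ) : ℝ :=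
  ∑ i, a i * (z i * conj (w i)).im

private theorem uE_add {ι : Type} [Fintype ι] (a : ι → ℝ) (z z' w : ι → ℂ) :
    uE a (z + z') w = uE a z w + uE a z' w := by
  unfold uE
  rw [← Finset.sum_add_distrib]
  refine Finset.sum_congr rfl fun i _ => ?_
  rw [Pi.add_apply, add_mul, Complex.add_im, mul_add]

private theorem uE_smul {ι : Type} [Fintype ι] (a : ι → ℝ) (r : ℝ) (z w : ι → ℂ) :
    uE a (r • z) w = r * uE a z w := by
  unfold uE
  rw [Finset.mul_sum]
  refine Finset.sum_congr rfl fun i _ => ?_
  have : (r • z) i * conj (w i) = (r : ℂ) * (z i * conj (w i)) := by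
    rw [Pi.smul_apply, Complex.real_smul]
    ring
  rw [this, Complex.im_ofReal_mul]
  ring

private theorem uE_anti {ι : Type} [Fintype ι] (a : ι → ℝ) (z w : ι → ℂ) :
    uE a z w = - uE a w z := by
  unfold uE
  rw [← Finset.sum_neg_distrib]
  refine Finset.sum_congr rfl fun i _ => ?_
  have : z i * conj (w i) = conj (w i * conj (z i)) := by
    rw [map_mul, Complex.conj_conj]
    ring
  rw [this, Complex.conj_im]
  ring

/-- as a linear map in the first variable -/
private noncomputable def uEL {ι : Type} [Fintype ι] (a : ι → ℝ) (w : ι → ℂ) : (ι → ℂ) →ₗ[ℝ] ℝ where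
  toFun z := uE a z w
  map_add' z z' := uE_add a z z' w
  map_smul' r z := uE_smul a r z w

private theorem uE_nondeg {ι : Type} [Fintype ι] {a : ι → ℝ} (ha : ∀ i, 0 < a i) (z : ι → ℂ)
    (h : ∀ w, uE a z w = 0) : z = 0 := by
  have h1 := h (fun i => -(I * z i))
  unfold uE at h1
  have h2 : ∀ i, a i * (z i * conj (-(I * z i))).im = a i * ‖z i‖ ^ 2 := by
    intro i
    have : z i * conj (-(I * z i)) = I * (z i * conj (z i)) := by
      rw [map_neg, map_mul, Complex.conj_I]
      ring
    rw [this, Complex.mul_conj, Complex.normSq_eq_norm_sq, Complex.I_mul_im, Complex.ofReal_re]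
  rw [Finset.sum_congr rfl fun i _ => h2 i] at h1
  have h3 := (Finset.sum_eq_zero_iff_of_nonneg (fun i _ => mul_nonneg (ha i).le (sq_nonneg _))).1 h1
  funext i
  have h4 := h3 i (Finset.mem_univ i)
  have h5 : ‖z i‖ ^ 2 = 0 := by
    rcases mul_eq_zero.1 h4 with h | h
    · exact absurd h (ha i).ne'
    · exact h
  simpa using h5

theorem mul_integral {ι J : Type} [Fintype ι] [Fintype J] [DecidableEq J]
    (b : Module.Basis J ℝ (ι → ℂ)) (a a' : ι → ℝ) (ha : ∀ i, 0 < a i)
    (hE : ∀ j k, ∃ n : ℤ, ∑ i, a i * (b j i * conj (b k i)).im = Real.pi * n)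
    (hE' : ∀ j k, ∃ n : ℤ, ∑ i, a' i * (b j i * conj (b k i)).im = Real.pi * n) :
    ∃ N : ℕ, 0 < N ∧ ∀ j, ((N : ℤ) • fun i => ((a' i / a i : ℝ) : ℂ) * b j i) ∈
      Submodule.span ℤ (Set.range b) := by
  choose E hE using hE
  choose E' hE' using hE'
  have hpi := Real.pi_ne_zero
  set M : Matrix J J ℝ := (Matrix.of E).map (Int.cast : ℤ → ℝ) with hM
  set M' : Matrix J J ℝ := (Matrix.of E').map (Int.cast : ℤ → ℝ) with hM'
  -- the matrix of the form
  have key : ∀ (z : ι → ℂ) (m : J), uE a z (b m) = Real.pi * (b.repr z ᵥ* M) m := by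
    intro z m
    have h1 : uE a z (b m) = uEL a (b m) z := rfl
    rw [h1]
    conv_lhs => rw [← b.sum_repr z]
    rw [map_sum]
    simp only [map_smul]
    rw [Matrix.vecMul, dotProduct, Finset.mul_sum]
    refine Finset.sum_congr rfl fun j _ => ?_
    have h2 : uEL a (b m) (b j) = Real.pi * (E j m : ℝ) := hE j m
    rw [h2, smul_eq_mul]
    simp only [hM, Matrix.map_apply, Matrix.of_apply]
    ring
  have hdet : M.det ≠ 0 := by
    intro h0
    obtain ⟨v, hv, hv0⟩ := Matrix.exists_vecMul_eq_zero_iff.2 h0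
    set z : ι → ℂ := ∑ j, v j • b j with hz
    have hrep : ∀ j, b.repr z j = v j := by
      intro j
      rw [hz, b.repr_sum_self]
    have hrep' : (b.repr z : J → ℝ) = v := funext hrep
    have hz0 : z = 0 := by
      apply uE_nondeg ha
      intro w
      rw [uE_anti]
      have h1 : uE a w z = uEL a z w := rfl
      rw [h1]
      conv_lhs => rw [← b.sum_repr w]
      rw [map_sum]
      simp only [map_smul]
      rw [neg_eq_zero]
      refine Finset.sum_eq_zero fun j _ => ?_
      have h2 : uEL a z (b j) = - uE a z (b j) := uE_anti a (b j) z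
      rw [h2, key, hrep', hv0]
      simp
    apply hv
    rw [← hrep', hz0]
    simp
  have hdetZ : (Matrix.of E).det ≠ 0 := by
    intro h0
    apply hdet
    have : M.det = ((Matrix.of E).det : ℝ) := by
      rw [hM]
      exact (RingHom.map_det (Int.castRingHom ℝ) (Matrix.of E)).symm
    rw [this, h0]
    simp
  have hdetM : M.det = ((Matrix.of E).det : ℝ) := by
    rw [hM]
    exact (RingHom.map_det (Int.castRingHom ℝ) (Matrix.of E)).symm
  have hadj : M.adjugate = ((Matrix.of E).adjugate).map (Int.cast : ℤ → ℝ) := by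
    rw [hM]
    exact (RingHom.map_adjugate (Int.castRingHom ℝ) (Matrix.of E)).symm
  -- the integer coordinates
  have main : ∀ j m, M.det * b.repr (fun i => ((a' i / a i : ℝ) : ℂ) * b j i) m
      = (((Matrix.of E').row j ᵥ* (Matrix.of E).adjugate) m : ℤ) := by
    intro j m
    set y : ι → ℂ := fun i => ((a' i / a i : ℝ) : ℂ) * b j i with hy
    have h1 : (b.repr y : J → ℝ) ᵥ* M = M' j := by
      funext k
      have h2 := key y k
      have h3 : uE a y (b k) = Real.pi * (E' j k : ℝ) := by
        rw [← hE' j k]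
        unfold uE
        refine Finset.sum_congr rfl fun i _ => ?_
        have h4 : y i * conj (b k i) = ((a' i / a i : ℝ) : ℂ) * (b j i * conj (b k i)) := by
          rw [hy]
          ring
        rw [h4, Complex.im_ofReal_mul]
        have := (ha i).ne'
        field_simp
      rw [h3] at h2
      have h5 := mul_left_cancel₀ hpi h2
      rw [← h5]
      simp [hM']
    have h6 : (b.repr y : J → ℝ) ᵥ* (M * M.adjugate) = M' j ᵥ* M.adjugate := by
      rw [← Matrix.vecMul_vecMul, h1]
    rw [Matrix.mul_adjugate, Matrix.vecMul_smul, Matrix.vecMul_one] at h6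
    have h7 := congrFun h6 m
    rw [Pi.smul_apply, smul_eq_mul] at h7
    rw [h7, hadj]
    simp only [Matrix.vecMul, dotProduct, hM', Matrix.map_apply, Matrix.of_apply, Matrix.row_apply]
    push_cast
    rfl
  refine ⟨(Matrix.of E).det.natAbs, Int.natAbs_pos.2 hdetZ, fun j => ?_⟩
  set y : ι → ℂ := fun i => ((a' i / a i : ℝ) : ℂ) * b j i with hy
  have h8 : (Matrix.of E).det • y ∈ Submodule.span ℤ (Set.range b) := by
    have h9 : (Matrix.of E).det • y
        = ∑ m, ((Matrix.of E').row j ᵥ* (Matrix.of E).adjugate) m • b m := by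
      have h10 : y = ∑ m, b.repr y m • b m := (b.sum_repr y).symm
      have h11 : (Matrix.of E).det • y = M.det • y := by
        rw [hdetM]
        exact (Int.cast_smul_eq_zsmul ℝ _ _).symm
      rw [h11]
      conv_lhs => rw [h10]
      rw [Finset.smul_sum]
      refine Finset.sum_congr rfl fun m _ => ?_
      rw [smul_smul, main j m]
      exact Int.cast_smul_eq_zsmul ℝ _ _
    rw [h9]
    exact Submodule.sum_mem _ fun m _ => Submodule.smul_mem _ _ (Submodule.subset_span ⟨m, rfl⟩)
  rcases Int.natAbs_eq (Matrix.of E).det with h | h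
  · rw [← h]
    exact h8
  · have h12 : (((Matrix.of E).det.natAbs : ℕ) : ℤ) = -(Matrix.of E).det := by omega
    rw [h12, neg_smul]
    exact Submodule.neg_mem _ h8

end Pool.Agent.ALD
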