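import Pool.Agent.CMT.R2Out

/-!
# Project ALD (MP_c2409d_nt, all levels): spaces of theta functions, translates, Euler operator

Text: /team-store/alld_h10.md. `aa a z u = ∑ a_s z_s conj u_s` (`a_s = π h_s`; the level `m` is absorbed
in `a`), `me a z l = a(z,l) + a(l,l)/2` (the exponent of `RHK.QPn`), `Vf Λ a χ f`: `f` entire with
canonical factors for `Λ`, `tr a ρ f = f_ρ` the normalised translate (any `ρ`), `dif a χ l f = τ_l f - f`.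
-/

set_option autoImplicit false
set_option linter.unusedSectionVars false

namespace Pool.Agent.ALD

open Finset Complex ComplexConjugate

noncomputable section

variable {ι : Type} [Fintype ι] [DecidableEq ι]

/-- `a(z, u) = ∑ a_s z_s conj u_s` -/
def aa (a : ι → ℝ) (z u : ι → ℂ) : ℂ := ∑ i, (a i : ℂ) * z i * conj (u i)

/-- the canonical exponent `a(z,l) + a(l,l)/2` -/
def me (a : ι → ℝ) (z l : ι → ℂ) : ℂ :=
  ∑ i, (a i : ℂ) * (conj (l i) * z i + ((‖l i‖ ^ 2 / 2 : ℝ) : ℂ))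

/-- `f` is entire and `f(z + l) = χ(l) exp(a(z,l) + a(l,l)/2) f(z)` for `l ∈ Λ` -/
def Vf (Λ : AddSubgroup (ι → ℂ)) (a : ι → ℝ) (χ : (ι → ℂ) → ℂ) (f : (ι → ℂ) → ℂ) : Prop :=
  Differentiable ℂ f ∧ ∀ l ∈ Λ, ∀ z, f (z + l) = χ l * cexp (me a z l) * f z

/-- the normalised translate `f_ρ(z) = exp(-a(z,ρ) - a(ρ,ρ)/2) f(z + ρ)` -/
def tr (a : ι → ℝ) (ρ : ι → ℂ) (f : (ι → ℂ) → ℂ) (z : ι → ℂ) : ℂ := cexp (-(me a z ρ)) * f (z + ρ)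

/-- `τ_l f - f`, where `τ_l f = χ(l)⁻¹ f_l` -/
def dif (a : ι → ℝ) (χ : (ι → ℂ) → ℂ) (l : ι → ℂ) (f : (ι → ℂ) → ℂ) (z : ι → ℂ) : ℂ :=
  (χ l)⁻¹ * tr a l f z - f z

/-- partial derivative -/
def pd (i : ι) (f : (ι → ℂ) → ℂ) (z : ι → ℂ) : ℂ := fderiv ℂ f z (Pi.single i 1)

/-- the Euler operator `∑ c_s z_s ∂_s` -/
def Ec (c : ι → ℂ) (f : (ι → ℂ) → ℂ) (z : ι → ℂ) : ℂ := ∑ i, c i * z i * pd i f z

/-- the character of the translate `f_ρ` -/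
def chr (a : ι → ℝ) (χ : (ι → ℂ) → ℂ) (ρ l : ι → ℂ) : ℂ := χ l * cexp (aa a ρ l - aa a l ρ)

/-- `ρ` is a torsion point of `ℂ^n / Λ` -/
def Tor (Λ : AddSubgroup (ι → ℂ)) (ρ : ι → ℂ) : Prop := ∃ n : ℕ, 0 < n ∧ n • ρ ∈ Λ

/-- main result of sections 1 and 2 (block B2d): `(τ_k - 1)(τ_l - 1)(f^δ - E_c f) = 0` for all `f` of
all levels `m` and all characters -/
def SDz (δ : Derivation ℚ ℂ ℂ) (Λ : AddSubgroup (ι → ℂ)) (a : ι → ℝ) (c : ι → ℂ) : Prop :=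
  ∀ (m : ℕ) (χ : (ι → ℂ) → ℂ) (f u : (ι → ℂ) → ℂ), 0 < m → (∀ l ∈ Λ, χ l ≠ 0) →
    Vf Λ (fun i => m * a i) χ f → (∃ z, f z ≠ 0) → CMT.IsDer δ f u → ∀ k ∈ Λ, ∀ l ∈ Λ, ∀ z,
      dif (fun i => m * a i) χ k (dif (fun i => m * a i) χ l (fun z => u z - Ec c f z)) z = 0

end

end Pool.Agent.ALD
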